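import Pool.Agent.Helper856.Cw.Basic

open Classical SimpleGraph

namespace Pool.Agent.Helper856.Cw.Attach

variable {V : Type} {G : SimpleGraph V} {S T : Finset V} {k l : ℕ}

theorem na_zmod {n : ℕ} {a : ℕ} (ha : 0 < a) (han : a < n) : (a : ZMod n) ≠ 0 := by
  intro h
  rw [ZMod.natCast_eq_zero_iff] at h
  exact absurd (Nat.le_of_dvd ha h) (by omega)

/-- the good centre -/
theorem na_centre {n : ℕ} (hn : 7 ≤ n) (f : ZMod n → V) (w : V)
    (hw : ∀ i j, G.Adj w (f i) → G.Adj w (f j) → i = j ∨ j = i + 2 ∨ i = j + 2)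
    (i : ZMod n) (hi : G.Adj w (f i)) : ∃ i, G.Adj w (f i) ∧ ¬G.Adj w (f (i + 2)) := by
  by_cases h : G.Adj w (f (i + 2))
  · refine ⟨i + 2, h, fun h' => ?_⟩
    have h2 : (2 : ZMod n) ≠ 0 := by exact_mod_cast na_zmod (a := 2) (n := n) (by omega) (by omega)
    have h4 : (4 : ZMod n) ≠ 0 := by exact_mod_cast na_zmod (a := 4) (n := n) (by omega) (by omega)
    have h6 : (6 : ZMod n) ≠ 0 := by exact_mod_cast na_zmod (a := 6) (n := n) (by omega) (by omega)
    rcases hw i (i + 2 + 2) hi h' with h'' | h'' | h''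
    · exact h4 (by linear_combination -h'')
    · exact h2 (by linear_combination h'')
    · exact h6 (by linear_combination -h'')
  · exact ⟨i, hi, h⟩

/-- TARGET -/
theorem no_attach_P (hK : Tri G) (hP : NoP G) {n : ℕ} (hn : 9 ≤ n) (f : ZMod n → V)
    (hf : Function.Injective f)
    (hadj : ∀ i j, G.Adj (f i) (f j) ↔ (j = i + 1 ∨ i = j + 1)) (w : V)
    (hw : ∀ i j, G.Adj w (f i) → G.Adj w (f j) → i = j ∨ j = i + 2 ∨ i = j + 2)
    (hne : ∀ i, w ≠ f i) : ∀ i, ¬G.Adj w (f i) := by
  intro i0 hi0
  obtain ⟨i, hi, hi2⟩ := na_centre (by omega) f w hw i0 hi0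
  have h1 : (1 : ZMod n) ≠ 0 := by exact_mod_cast na_zmod (a := 1) (n := n) (by omega) (by omega)
  have h2 : (2 : ZMod n) ≠ 0 := by exact_mod_cast na_zmod (a := 2) (n := n) (by omega) (by omega)
  have h3 : (3 : ZMod n) ≠ 0 := by exact_mod_cast na_zmod (a := 3) (n := n) (by omega) (by omega)
  have h4 : (4 : ZMod n) ≠ 0 := by exact_mod_cast na_zmod (a := 4) (n := n) (by omega) (by omega)
  have h5 : (5 : ZMod n) ≠ 0 := by exact_mod_cast na_zmod (a := 5) (n := n) (by omega) (by omega)
  have h6 : (6 : ZMod n) ≠ 0 := by exact_mod_cast na_zmod (a := 6) (n := n) (by omega) (by omega)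
  have h7 : (7 : ZMod n) ≠ 0 := by exact_mod_cast na_zmod (a := 7) (n := n) (by omega) (by omega)
  refine hP (f i) w (f (i - 1)) (f (i + 1)) (f (i + 2)) (f (i + 3)) (f (i + 5)) hi.symm
    ((hadj _ _).2 (Or.inr (by ring))) ((hadj _ _).2 (Or.inl rfl))
    ((hadj _ _).2 (Or.inl (by ring))) ((hadj _ _).2 (Or.inl (by ring))) (hne _) hi2
    ?_ ?_ ?_ ?_ ?_ ?_ ?_ ?_ ?_ ?_
  · intro h
    rcases hw _ _ hi h with h | h | h
    · exact h3 (by linear_combination -h)
    · exact h1 (by linear_combination h)
    · exact h5 (by linear_combination -h)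
  · intro h
    rcases (hadj _ _).1 h with h | h
    · exact h2 (by linear_combination h)
    · exact h4 (by linear_combination -h)
  · intro h
    rcases (hadj _ _).1 h with h | h
    · exact h3 (by linear_combination h)
    · exact h5 (by linear_combination -h)
  · intro h
    rcases (hadj _ _).1 h with h | h
    · exact h2 (by linear_combination h)
    · exact h4 (by linear_combination -h)
  · intro h
    rcases (hadj _ _).1 h with h | h
    · exact h6 (by linear_combination -h)
    · exact h4 (by linear_combination h)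
  · intro h
    rcases hw _ _ hi h.symm with h | h | h
    · exact h5 (by linear_combination -h)
    · exact h3 (by linear_combination h)
    · exact h7 (by linear_combination -h)
  · intro h
    rcases (hadj _ _).1 h with h | h
    · exact h7 (by linear_combination -h)
    · exact h5 (by linear_combination h)
  · intro h
    rcases (hadj _ _).1 h with h | h
    · exact h5 (by linear_combination -h)
    · exact h3 (by linear_combination h)
  · intro h
    rcases (hadj _ _).1 h with h | h
    · exact h4 (by linear_combination -h)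
    · exact h2 (by linear_combination h)
  · intro h
    rcases (hadj _ _).1 h with h | h
    · exact h3 (by linear_combination -h)
    · exact h1 (by linear_combination h)

/-- TARGET -/
theorem no_attach_S (hK : Tri G) (hS : NoS G S) {n : ℕ} (hn : 7 ≤ n) (f : ZMod n → V)
    (hfS : ∀ i, f i ∈ S) (hf : Function.Injective f)
    (hadj : ∀ i j, G.Adj (f i) (f j) ↔ (j = i + 1 ∨ i = j + 1)) (w : V) (hwS : w ∈ S)
    (hw : ∀ i j, G.Adj w (f i) → G.Adj w (f j) → i = j ∨ j = i + 2 ∨ i = j + 2)
    (hne : ∀ i, w ≠ f i) : ∀ i, ¬G.Adj w (f i) := by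
  intro i0 hi0
  obtain ⟨i, hi, hi2⟩ := na_centre (by omega) f w hw i0 hi0
  have h1 : (1 : ZMod n) ≠ 0 := by exact_mod_cast na_zmod (a := 1) (n := n) (by omega) (by omega)
  have h2 : (2 : ZMod n) ≠ 0 := by exact_mod_cast na_zmod (a := 2) (n := n) (by omega) (by omega)
  have h3 : (3 : ZMod n) ≠ 0 := by exact_mod_cast na_zmod (a := 3) (n := n) (by omega) (by omega)
  have h4 : (4 : ZMod n) ≠ 0 := by exact_mod_cast na_zmod (a := 4) (n := n) (by omega) (by omega)
  have h5 : (5 : ZMod n) ≠ 0 := by exact_mod_cast na_zmod (a := 5) (n := n) (by omega) (by omega)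
  refine hS (f i) (hfS _) w hwS (f (i - 1)) (hfS _) (f (i + 1)) (hfS _) (f (i + 2)) (hfS _)
    (f (i + 3)) (hfS _) hi.symm
    ((hadj _ _).2 (Or.inr (by ring))) ((hadj _ _).2 (Or.inl rfl))
    ((hadj _ _).2 (Or.inl (by ring))) ((hadj _ _).2 (Or.inl (by ring))) (hne _) hi2
    ?_ ?_ ?_ ?_
  · intro h
    rcases hw _ _ hi h with h | h | h
    · exact h3 (by linear_combination -h)
    · exact h1 (by linear_combination h)
    · exact h5 (by linear_combination -h)
  · intro h
    rcases (hadj _ _).1 h with h | h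
    · exact h2 (by linear_combination h)
    · exact h4 (by linear_combination -h)
  · intro h
    rcases (hadj _ _).1 h with h | h
    · exact h3 (by linear_combination h)
    · exact h5 (by linear_combination -h)
  · intro h
    rcases (hadj _ _).1 h with h | h
    · exact h2 (by linear_combination h)
    · exact h4 (by linear_combination -h)

end Pool.Agent.Helper856.Cw.Attach
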