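import Pool.Agent.Helper856.Cw.Defs

open Classical SimpleGraph

namespace Pool.Agent.Helper856.Cw

variable {V : Type} {G : SimpleGraph V} {S T : Finset V} {k l : ℕ}

theorem SLin.mono_k (h : SLin k G S) (hkl : k ≤ l) : SLin l G S := by
  obtain ⟨p, hp, h⟩ := h
  refine ⟨p, hp, fun t => ?_⟩
  obtain ⟨c, hc⟩ := h t
  exact ⟨fun v => Fin.castLE hkl (c v), fun u hu v hv h1 h2 h3 w hw h4 =>
    hc u hu v hv h1 h2 (Fin.castLE_injective hkl h3) w hw h4⟩

theorem SLinN.mono_k (h : SLinN k G S) (hkl : k ≤ l) : SLinN l G S := by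
  obtain ⟨p, hp, h⟩ := h
  refine ⟨p, hp, fun t => ?_⟩
  obtain ⟨c, hc⟩ := h t
  exact ⟨fun v => Fin.castLE hkl (c v), fun u hu v hv h1 h2 n1 n2 h3 w hw h4 =>
    hc u hu v hv h1 h2 n1 n2 (Fin.castLE_injective hkl h3) w hw h4⟩

theorem SLin.subset (h : SLin k G S) (hT : T ⊆ S) : SLin k G T := by
  obtain ⟨p, hp, h⟩ := h
  refine ⟨p, hp.mono (by exact_mod_cast hT), fun t => ?_⟩
  obtain ⟨c, hc⟩ := h t
  exact ⟨c, fun u hu v hv h1 h2 h3 w hw h4 => hc u (hT hu) v (hT hv) h1 h2 h3 w (hT hw) h4⟩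

theorem SLin.toN (h : SLin k G S) : SLinN k G S := by
  obtain ⟨p, hp, h⟩ := h
  refine ⟨p, hp, fun t => ?_⟩
  obtain ⟨c, hc⟩ := h t
  exact ⟨c, fun u hu v hv h1 h2 _ _ h3 w hw h4 => hc u hu v hv h1 h2 h3 w hw h4⟩

theorem SLinN.toS (h : SLinN k G S) : SLin (k + 1) G S := by
  obtain ⟨p, hp, h⟩ := h
  refine ⟨p, hp, fun t => ?_⟩
  obtain ⟨c, hc⟩ := h t
  refine ⟨fun v => if (∃ w ∈ S, t ≤ p w ∧ G.Adj v w) then Fin.castSucc (c v) else Fin.last k,
    fun u hu v hv h1 h2 h3 w hw h4 => ?_⟩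
  by_cases hU : ∃ w ∈ S, t ≤ p w ∧ G.Adj u w <;> by_cases hV : ∃ w ∈ S, t ≤ p w ∧ G.Adj v w
  · simp only [hU, hV, if_true] at h3
    exact hc u hu v hv h1 h2 hU hV (Fin.castSucc_injective _ h3) w hw h4
  · simp only [hU, hV, if_true, if_false] at h3
    exact absurd h3 (Fin.castSucc_lt_last _).ne
  · simp only [hU, hV, if_true, if_false] at h3
    exact absurd h3.symm (Fin.castSucc_lt_last _).ne
  · exact iff_of_false (fun h => hU ⟨w, hw, h4, h⟩) (fun h => hV ⟨w, hw, h4, h⟩)

theorem SLin.add (F : Finset V) (h : SLin k G (S \ F)) : SLin (k + F.card) G S := by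
  obtain ⟨p, hp, h⟩ := h
  let m := F.card
  let e : {x // x ∈ F} ≃ Fin F.card := F.equivFin
  let q : V → ℕ := fun x => if hx : x ∈ F then (e ⟨x, hx⟩ : ℕ) else p x + m
  have qF : ∀ x (hx : x ∈ F), q x = (e ⟨x, hx⟩ : ℕ) := fun x hx => by simp [q, hx]
  have qN : ∀ x, x ∉ F → q x = p x + m := fun x hx => by simp [q, hx]
  refine ⟨q, ?_, fun t => ?_⟩
  · intro x hx y hy hxy
    have hx' : x ∈ S := by exact_mod_cast hx
    have hy' : y ∈ S := by exact_mod_cast hy
    by_cases h1 : x ∈ F <;> by_cases h2 : y ∈ F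
    · rw [qF x h1, qF y h2] at hxy
      have := e.injective (Fin.ext hxy)
      simpa using this
    · exfalso
      rw [qF x h1, qN y h2] at hxy
      have := (e ⟨x, h1⟩).isLt
      omega
    · exfalso
      rw [qN x h1, qF y h2] at hxy
      have := (e ⟨y, h2⟩).isLt
      omega
    · rw [qN x h1, qN y h2] at hxy
      exact hp (by simp [hx', h1]) (by simp [hy', h2]) (by omega)
  · obtain ⟨c, hc⟩ := h (t - m)
    refine ⟨fun v => if hv : v ∈ F then Fin.natAdd k (e ⟨v, hv⟩) else Fin.castAdd m (c v),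
      fun u hu v hv h1 h2 h3 w hw h4 => ?_⟩
    by_cases hU : u ∈ F <;> by_cases hV : v ∈ F
    · simp only [hU, hV, dif_pos] at h3
      have := e.injective (Fin.natAdd_injective _ _ h3)
      have huv : u = v := by simpa using this
      rw [huv]
    · exfalso
      simp only [hU, hV, dif_pos, dif_neg, not_false_eq_true] at h3
      have h5 := congrArg Fin.val h3
      simp at h5
      have := (c v).isLt
      omega
    · exfalso
      simp only [hU, hV, dif_pos, dif_neg, not_false_eq_true] at h3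
      have h5 := congrArg Fin.val h3
      simp at h5
      have := (c u).isLt
      omega
    · simp only [hU, hV, dif_neg, not_false_eq_true] at h3
      rw [qN u hU] at h1
      rw [qN v hV] at h2
      have hwF : w ∉ F := by
        intro hwF
        rw [qF w hwF] at h4
        have := (e ⟨w, hwF⟩).isLt
        omega
      rw [qN w hwF] at h4
      exact hc u (by simp [hu, hU]) v (by simp [hv, hV]) (by omega) (by omega)
        (Fin.castAdd_injective _ _ h3) w (by simp [hw, hwF]) (by omega)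

end Pool.Agent.Helper856.Cw
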