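import Pool.Agent.Helper856.Cw.Basic

open Classical SimpleGraph

namespace Pool.Agent.Helper856.Cw

variable {V : Type} {G : SimpleGraph V} {S T : Finset V} {k l : ℕ}

/-- TARGET -/
theorem SLin.blocks {m : ℕ} (β : V → ℕ) (c : V → Fin m)
    (hb : ∀ n, SLin k G (S.filter (fun x => β x = n)))
    (hc : ∀ u ∈ S, ∀ v ∈ S, ∀ w ∈ S, β u < β w → β v < β w → c u = c v →
      (G.Adj u w ↔ G.Adj v w)) : SLin (m * (k + 1)) G S := by
  choose p hpinj hpc using hb
  set M : ℕ := S.sup (fun x => p (β x) x) + 1 with hM
  have hpM : ∀ x ∈ S, p (β x) x < M := by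
    intro x hx
    have : p (β x) x ≤ S.sup (fun x => p (β x) x) :=
      Finset.le_sup (f := fun x => p (β x) x) hx
    omega
  have hM0 : 0 < M := by omega
  refine ⟨fun x => β x * M + p (β x) x, ?_, ?_⟩
  · intro x hx y hy hxy
    have hx' := hpM x hx
    have hy' := hpM y hy
    simp only at hxy
    have h1 : β x = β y := by
      rcases lt_trichotomy (β x) (β y) with h | h | h
      · exfalso
        have : (β x + 1) * M ≤ β y * M := Nat.mul_le_mul_right M h
        nlinarith
      · exact h
      · exfalso
        have : (β y + 1) * M ≤ β x * M := Nat.mul_le_mul_right M h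
        nlinarith
    have h2 : p (β y) x = p (β y) y := by
      rw [h1] at hxy
      omega
    apply hpinj (β y) _ _ h2
    · exact Finset.mem_coe.2 (Finset.mem_filter.2 ⟨hx, h1⟩)
    · exact Finset.mem_coe.2 (Finset.mem_filter.2 ⟨hy, rfl⟩)
  · intro t
    obtain ⟨cn, hcn⟩ := hpc (t / M) (t % M)
    have ht : t = t / M * M + t % M := by
      have := Nat.div_add_mod t M
      rw [mul_comm] at this
      exact this.symm
    have hs : t % M < M := Nat.mod_lt t hM0
    set n := t / M with hn
    set s := t % M with hsdef
    have hcard : Fintype.card (Fin m × Option (Fin k)) = m * (k + 1) := by simp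
    let e : Fin m × Option (Fin k) ≃ Fin (m * (k + 1)) := Fintype.equivFinOfCardEq hcard
    refine ⟨fun u => e (c u, if β u = n then some (cn u) else none), ?_⟩
    intro u hu v hv hut hvt huv w hw hwt
    simp only at hut hvt hwt huv
    have huv' := e.injective huv
    rw [Prod.mk.injEq] at huv'
    obtain ⟨hcuv, hopt⟩ := huv'
    have hearly : ∀ x ∈ S, β x * M + p (β x) x < t → β x < n ∨ (β x = n ∧ p n x < s) := by
      intro x hx hxt
      rcases lt_trichotomy (β x) n with h | h | h
      · exact Or.inl h
      · right
        refine ⟨h, ?_⟩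
        rw [h] at hxt
        omega
      · exfalso
        have : (n + 1) * M ≤ β x * M := Nat.mul_le_mul_right M h
        nlinarith
    have hlate : n < β w ∨ (β w = n ∧ s ≤ p n w) := by
      rcases lt_trichotomy (β w) n with h | h | h
      · exfalso
        have h1 : (β w + 1) * M ≤ n * M := Nat.mul_le_mul_right M h
        have h2 := hpM w hw
        nlinarith
      · right
        refine ⟨h, ?_⟩
        rw [h] at hwt
        omega
      · exact Or.inl h
    rcases hearly u hu hut with hu1 | ⟨hu1, hu2⟩
    · have hun : β u ≠ n := by omega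
      rw [if_neg hun] at hopt
      have hvn : β v ≠ n := by
        intro h
        rw [if_pos h] at hopt
        exact absurd hopt (by simp)
      have hv1 : β v < n := by
        rcases hearly v hv hvt with h | h
        · exact h
        · exact absurd h.1 hvn
      have hwn : n ≤ β w := by
        rcases hlate with h | h
        · exact h.le
        · exact h.1.ge
      exact hc u hu v hv w hw (by omega) (by omega) hcuv
    · rw [if_pos hu1] at hopt
      have hvn : β v = n := by
        by_contra h
        rw [if_neg h] at hopt
        exact absurd hopt (by simp)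
      rw [if_pos hvn, Option.some.injEq] at hopt
      have hv2 : p n v < s := by
        rcases hearly v hv hvt with h | h
        · omega
        · exact h.2
      rcases hlate with h | ⟨h, h'⟩
      · exact hc u hu v hv w hw (by omega) (by omega) hcuv
      · exact hcn u (Finset.mem_filter.2 ⟨hu, hu1⟩) v (Finset.mem_filter.2 ⟨hv, hvn⟩) hu2 hv2
          hopt w (Finset.mem_filter.2 ⟨hw, h⟩) h'

end Pool.Agent.Helper856.Cw
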