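import Pool.Agent.Helper856.Cw.Basic
import Pool.Agent.Helper856.Lcw.FreeL
import Pool.Agent.Helper856.Lcw.P1Main
import Pool.Agent.Helper856.Lcw.GB

open Classical SimpleGraph

namespace Pool.Agent.Helper856.Cw.Bridge

open Pool.Agent.Helper856.Lcw

theorem SLin_of_BLin {V : Type} [Finite V] (G : SimpleGraph V) (S T : Finset V)
    (hST : Disjoint S T) (hS : ∀ u ∈ S, ∀ v ∈ S, ¬ G.Adj u v)
    (hT : ∀ u ∈ T, ∀ v ∈ T, ¬ G.Adj u v) (k : ℕ) (h : BLin k G.Adj S T) :
    SLin (k * 2) G (S ∪ T) := by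
  obtain ⟨p, q, hpq, h⟩ := h
  have hnot : ∀ v ∈ S ∪ T, v ∉ S → v ∈ T := fun v h hv => (Finset.mem_union.mp h).resolve_left hv
  have hdis : ∀ v, v ∈ S → v ∉ T := fun v hv hv' => Finset.disjoint_left.mp hST hv hv'
  let N := Nat.card V
  let e : V ≃ Fin N := Finite.equivFin V
  let pos : V → ℕ := fun v => if v ∈ S then p v else q v
  have heN : ∀ v, (e v : ℕ) < N := fun v => (e v).isLt
  refine ⟨fun v => pos v * N + e v, ?_, ?_⟩
  · intro u _ v _ huv
    have h1 : pos u * N + (e u : ℕ) = pos v * N + e v := huv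
    have h2 : (pos u * N + (e u : ℕ)) % N = (pos v * N + e v) % N := by rw [h1]
    rw [Nat.mul_comm, Nat.mul_comm (pos v), Nat.mul_add_mod, Nat.mul_add_mod,
      Nat.mod_eq_of_lt (heN u), Nat.mod_eq_of_lt (heN v)] at h2
    exact e.injective (Fin.ext h2)
  · intro t
    let τ := t / N
    have hlow : ∀ u, pos u * N + (e u : ℕ) < t → pos u ≤ τ := by
      intro u hu
      have hN : 0 < N := lt_of_le_of_lt (Nat.zero_le _) (heN u)
      show pos u ≤ t / N
      rw [Nat.le_div_iff_mul_le hN]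
      omega
    have hhigh : ∀ w, t ≤ pos w * N + (e w : ℕ) → τ ≤ pos w := by
      intro w hw
      have hN : 0 < N := lt_of_le_of_lt (Nat.zero_le _) (heN w)
      have h1 := heN w
      show t / N ≤ pos w
      have h2 : t / N < pos w + 1 := by
        rw [Nat.div_lt_iff_lt_mul hN]
        calc t ≤ pos w * N + (e w : ℕ) := hw
          _ < pos w * N + N := by omega
          _ = (pos w + 1) * N := by ring
      omega
    have hc : ∃ c : V → Fin k, ∀ a ∈ S, ∀ a' ∈ S, p a ≤ τ → p a' ≤ τ → c a = c a' →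
        ∀ b ∈ T, τ ≤ q b → (G.Adj a b ↔ G.Adj a' b) := by
      by_cases hex : ∃ a ∈ S, p a = τ
      · obtain ⟨a0, ha0, hpa0⟩ := hex
        obtain ⟨c, hc⟩ := (h (τ + 1)).1
        refine ⟨c, fun a ha a' ha' h1 h2 h3 b hb h4 => ?_⟩
        have h5 : p a0 ≠ q b := hpq a0 ha0 b hb
        exact hc a ha a' ha' (by omega) (by omega) h3 b hb (by omega)
      · obtain ⟨c, hc⟩ := (h τ).1
        refine ⟨c, fun a ha a' ha' h1 h2 h3 b hb h4 => ?_⟩
        have h5 : p a ≠ τ := fun hh => hex ⟨a, ha, hh⟩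
        have h6 : p a' ≠ τ := fun hh => hex ⟨a', ha', hh⟩
        exact hc a ha a' ha' (by omega) (by omega) h3 b hb h4
    have hd : ∃ d : V → Fin k, ∀ b ∈ T, ∀ b' ∈ T, q b ≤ τ → q b' ≤ τ → d b = d b' →
        ∀ a ∈ S, τ ≤ p a → (G.Adj a b ↔ G.Adj a b') := by
      by_cases hex : ∃ b ∈ T, q b = τ
      · obtain ⟨b0, hb0, hqb0⟩ := hex
        obtain ⟨d, hd⟩ := (h (τ + 1)).2
        refine ⟨d, fun b hb b' hb' h1 h2 h3 a ha h4 => ?_⟩
        have h5 : p a ≠ q b0 := hpq a ha b0 hb0
        exact hd b hb b' hb' (by omega) (by omega) h3 a ha (by omega)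
      · obtain ⟨d, hd⟩ := (h τ).2
        refine ⟨d, fun b hb b' hb' h1 h2 h3 a ha h4 => ?_⟩
        have h5 : q b ≠ τ := fun hh => hex ⟨b, hb, hh⟩
        have h6 : q b' ≠ τ := fun hh => hex ⟨b', hb', hh⟩
        exact hd b hb b' hb' (by omega) (by omega) h3 a ha h4
    obtain ⟨c, hc⟩ := hc
    obtain ⟨d, hd⟩ := hd
    refine ⟨fun v => finProdFinEquiv (if v ∈ S then c v else d v, if v ∈ S then 0 else 1), ?_⟩
    intro u huM v hvM hu hv hcol w hwM hw
    have hu' := hlow u hu
    have hv' := hlow v hv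
    have hw' := hhigh w hw
    have h5 := finProdFinEquiv.injective hcol
    simp only [Prod.mk.injEq] at h5
    obtain ⟨h6, h7⟩ := h5
    by_cases huS : u ∈ S
    · have hvS : v ∈ S := by
        by_contra hvS
        simp [huS, hvS] at h7
      simp only [huS, hvS, if_true] at h6
      have h8 : pos u = p u := by simp [pos, huS]
      have h9 : pos v = p v := by simp [pos, hvS]
      by_cases hwS : w ∈ S
      · exact iff_of_false (hS u huS w hwS) (hS v hvS w hwS)
      · have h10 : pos w = q w := by simp [pos, hwS]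
        rw [h8] at hu'
        rw [h9] at hv'
        rw [h10] at hw'
        exact hc u huS v hvS hu' hv' h6 w (hnot w hwM hwS) hw'
    · have hvS : v ∉ S := by
        intro hvS
        simp [huS, hvS] at h7
      simp only [huS, hvS, if_false] at h6
      have h8 : pos u = q u := by simp [pos, huS]
      have h9 : pos v = q v := by simp [pos, hvS]
      by_cases hwS : w ∈ S
      · have h10 : pos w = p w := by simp [pos, hwS]
        rw [h8] at hu'
        rw [h9] at hv'
        rw [h10] at hw'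
        have := hd u (hnot u huM huS) v (hnot v hvM hvS) hu' hv' h6 w hwS hw'
        rw [G.adj_comm u w, G.adj_comm v w]
        exact this
      · exact iff_of_false (hT u (hnot u huM huS) w (hnot w hwM hwS))
          (hT v (hnot v hvM hvS) w (hnot w hwM hwS))


theorem bip100 {V : Type} [Finite V] (G : SimpleGraph V) (hF : ¬ P1_S113.IsIndContained G) :
    Bip100 G := by
  intro A B hd hA hB
  obtain ⟨g1, g2, g3, g4⟩ := FreeL.bad_of_free G A B hd hA hB hF
  exact SLin_of_BLin G A B hd hA hB 50 (P1S113_main g1 g2 g3 g4)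

theorem noP_of_free {V : Type} {G : SimpleGraph V} (hK : Tri G)
    (hF : ¬ P1_S113.IsIndContained G) : NoP G := by
  intro c l1 l2 x y z p a1 a2 a3 a4 a5 n1 n2 n3 n4 n5 n6 m1 m2 m3 m4 m5 m6
  apply hF
  have s : ∀ {u v : V}, ¬G.Adj u v → ¬G.Adj v u := fun h h' => h h'.symm
  have b1 : ¬G.Adj l1 l2 := fun h => hK _ _ _ a1.symm a2 h.symm.symm
  have b2 : ¬G.Adj l1 x := fun h => hK _ _ _ a1.symm a3 h
  have b3 : ¬G.Adj l2 x := fun h => hK _ _ _ a2.symm a3 h
  have b4 : ¬G.Adj c y := fun h => hK _ _ _ a3 a4 h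
  have b5 : ¬G.Adj x z := fun h => hK _ _ _ a4 a5 h
  have e1 : c ≠ l1 := a1.ne
  have e2 : c ≠ l2 := a2.ne
  have e3 : c ≠ x := a3.ne
  have e4 : c ≠ y := by rintro rfl; exact n2 a1.symm
  have e5 : c ≠ z := by rintro rfl; exact n3 a1.symm
  have e6 : c ≠ p := by rintro rfl; exact m2 a1
  have e7 : l1 ≠ x := by rintro rfl; exact n2 a4
  have e8 : l1 ≠ y := by rintro rfl; exact b2 a4.symm
  have e9 : l1 ≠ z := by rintro rfl; exact n2 a5.symm
  have e10 : l1 ≠ p := by rintro rfl; exact m1 a1.symm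
  have e11 : l2 ≠ x := by rintro rfl; exact n4 a4
  have e12 : l2 ≠ y := by rintro rfl; exact b3 a4.symm
  have e13 : l2 ≠ z := by rintro rfl; exact n4 a5.symm
  have e14 : l2 ≠ p := by rintro rfl; exact m1 a2.symm
  have e15 : x ≠ y := a4.ne
  have e16 : x ≠ z := by rintro rfl; exact b4 (by exact absurd a3 n6)
  have e17 : x ≠ p := by rintro rfl; exact m5 a4
  have e18 : y ≠ z := a5.ne
  have e19 : y ≠ p := by rintro rfl; exact m6 a5
  have e20 : z ≠ p := by rintro rfl; exact m5 a5.symm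
  have s1 := s m1
  have s2 := s m2
  have s3 := s m3
  have s4 := s m4
  have s5 := s m5
  have s6 := s m6
  apply FreeL.ind_of G ![c, l1, l2, x, y, z, p]
  intro i j hij
  fin_cases i <;> fin_cases j <;> first
    | (exfalso; revert hij; decide)
    | (refine ⟨by assumption, ?_⟩
       first
         | (refine ⟨fun _ => by assumption, fun _ => by decide⟩)
         | (refine ⟨fun h => absurd h (by decide), fun h => ?_⟩
            exact absurd h ‹_›))

theorem glin_of_slin {V : Type} [Fintype V] (G : SimpleGraph V) (k : ℕ)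
    (h : SLin k G Finset.univ) : GLin k G := by
  obtain ⟨p, hp, h⟩ := h
  refine ⟨p, fun u v huv => hp (by simp) (by simp) huv, fun t => ?_⟩
  obtain ⟨c, hc⟩ := h t
  exact ⟨c, fun u v h1 h2 h3 w h4 => hc u (by simp) v (by simp) h1 h2 h3 w (by simp) h4⟩

end Pool.Agent.Helper856.Cw.Bridge
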