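import Pool.Agent.Helper856.Cw.Mixed

open Classical SimpleGraph

namespace Pool.Agent.Helper856.Cw.C7

variable {V : Type} {G : SimpleGraph V} {S T : Finset V} {k l : ℕ}

/-- the 7-cycle -/
structure Cyc (G : SimpleGraph V) (S : Finset V) (b : ZMod 7 → V) : Prop where
  mem : ∀ i, b i ∈ S
  inj : Function.Injective b
  adj : ∀ i j, G.Adj (b i) (b j) ↔ (j = i + 1 ∨ i = j + 1)
  nb : ∀ w ∈ S, ∀ i j, G.Adj w (b i) → G.Adj w (b j) → i = j ∨ j = i + 2 ∨ i = j + 2

theorem Cyc.ya {b : ZMod 7 → V} (h : Cyc G S b) (i m n : ZMod 7)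
    (hmn : n = m + 1 ∨ m = n + 1 ) : G.Adj (b (i + m)) (b (i + n)) := by
  rw [h.adj]
  rcases hmn with rfl | rfl
  · left; rw [add_assoc]
  · right; rw [add_assoc]

theorem Cyc.na {b : ZMod 7 → V} (h : Cyc G S b) (i m n : ZMod 7)
    (hmn : ¬(n = m + 1 ∨ m = n + 1) ) : ¬G.Adj (b (i + m)) (b (i + n)) := by
  rw [h.adj]
  intro h1
  apply hmn
  rcases h1 with h1 | h1
  · left; rw [add_assoc] at h1; exact add_left_cancel h1
  · right; rw [add_assoc] at h1; exact add_left_cancel h1

/-- vertices with two neighbours on the cycle -/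
def Nn (G : SimpleGraph V) (S : Finset V) (b : ZMod 7 → V) (i : ZMod 7) (w : V) : Prop :=
  w ∈ S ∧ (∀ j, w ≠ b j) ∧ G.Adj w (b (i + 6)) ∧ G.Adj w (b (i + 1))

theorem Nn.ad {b : ZMod 7 → V} {i m : ZMod 7} {w : V} (h : Nn G S b (i + m) w) (n : ZMod 7)
    (hn : n = m + 6 ∨ n = m + 1 ) : G.Adj w (b (i + n)) := by
  rcases hn with rfl | rfl
  · rw [← add_assoc]; exact h.2.2.1
  · rw [← add_assoc]; exact h.2.2.2

theorem Nn.only {b : ZMod 7 → V} (hC : Cyc G S b) {i : ZMod 7} {w : V} (h : Nn G S b i w)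
    (j : ZMod 7) (hj : G.Adj w (b j)) : j = i + 6 ∨ j = i + 1 := by
  have h1 := hC.nb w h.1 _ _ h.2.2.1 hj
  have h2 := hC.nb w h.1 _ _ h.2.2.2 hj
  revert h1 h2
  clear h hj
  revert i j
  decide

theorem Nn.nad {b : ZMod 7 → V} {i m : ZMod 7} {w : V} (h : Nn G S b (i + m) w)
    (hC : Cyc G S b) (n : ZMod 7)
    (hn : ¬(n = m + 6 ∨ n = m + 1) ) : ¬G.Adj w (b (i + n)) := by
  intro h1
  apply hn
  rcases Nn.only hC h _ h1 with h2 | h2
  · left; rw [add_assoc] at h2; exact add_left_cancel h2
  · right; rw [add_assoc] at h2; exact add_left_cancel h2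

theorem Nn.unique {b : ZMod 7 → V} (hC : Cyc G S b) {i j : ZMod 7} {w : V} (h : Nn G S b i w)
    (h' : Nn G S b j w) : i = j := by
  have h1 := Nn.only hC h' _ h.2.2.1
  have h2 := Nn.only hC h' _ h.2.2.2
  revert h1 h2
  clear h h'
  revert i j
  decide

/-- vertices with one neighbour on the cycle -/
def Un (G : SimpleGraph V) (S : Finset V) (b : ZMod 7 → V) (i : ZMod 7) (w : V) : Prop :=
  w ∈ S ∧ (∀ j, w ≠ b j) ∧ G.Adj w (b i) ∧ ∀ j, j ≠ i → ¬G.Adj w (b j)

theorem Un.nad {b : ZMod 7 → V} {i : ZMod 7} {w : V} (h : Un G S b (i + 0) w) (n : ZMod 7)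
    (hn : n ≠ 0 ) : ¬G.Adj w (b (i + n)) := by
  apply h.2.2.2
  intro h1
  exact hn (add_left_cancel h1)

theorem off_cases {b : ZMod 7 → V} (hC : Cyc G S b) {w : V} (hw : w ∈ S) (ho : ∀ j, w ≠ b j) :
    (∀ j, ¬G.Adj w (b j)) ∨ (∃ i, Un G S b i w) ∨ (∃ i, Nn G S b i w) := by
  by_cases hZ : ∀ j, ¬G.Adj w (b j)
  · exact Or.inl hZ
  right
  push Not at hZ
  obtain ⟨i, hi⟩ := hZ
  by_cases hU : ∀ j, j ≠ i → ¬G.Adj w (b j)
  · exact Or.inl ⟨i, hw, ho, hi, hU⟩
  right
  push Not at hU
  obtain ⟨j, hji, hj⟩ := hU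
  rcases hC.nb w hw i j hi hj with h | h | h
  · exact absurd h.symm hji
  · refine ⟨i + 1, hw, ho, ?_, ?_⟩
    · have : i + 1 + 6 = i := by rw [add_assoc]; exact add_zero i
      rw [this]; exact hi
    · have : i + 1 + 1 = j := by rw [h, add_assoc]; rfl
      rw [this]; exact hj
  · refine ⟨j + 1, hw, ho, ?_, ?_⟩
    · have : j + 1 + 6 = j := by rw [add_assoc]; exact add_zero j
      rw [this]; exact hj
    · have : j + 1 + 1 = i := by rw [h, add_assoc]; rfl
      rw [this]; exact hi

theorem g1 (hP : NoP G) {b : ZMod 7 → V} (hC : Cyc G S b) {i : ZMod 7} {u u' : V}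
    (hu : Un G S b (i + 0) u) (hu' : Un G S b (i + 0) u') : u = u' := by
  by_contra hne
  exact hP (b (i + 0)) u u' (b (i + 1)) (b (i + 2)) (b (i + 3)) (b (i + 5)) hu.2.2.1.symm
    hu'.2.2.1.symm (hC.ya i 0 1 (by decide)) (hC.ya i 1 2 (by decide)) (hC.ya i 2 3 (by decide)) hne (hu.nad 2 (by decide)) (hu.nad 3 (by decide))
    (hu'.nad 2 (by decide)) (hu'.nad 3 (by decide)) (hC.na i 0 3 (by decide)) (hC.na i 5 0 (by decide)) (fun h => hu.nad 5 (by decide) h.symm)
    (fun h => hu'.nad 5 (by decide) h.symm) (hC.na i 5 1 (by decide)) (hC.na i 5 2 (by decide)) (hC.na i 5 3 (by decide))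

theorem g2 (hP : NoP G) {b : ZMod 7 → V} (hC : Cyc G S b) {i : ZMod 7} {u z : V}
    (hu : Un G S b (i + 0) u) (hz : ∀ j, ¬G.Adj z (b j)) : G.Adj z u := by
  by_contra hn
  exact hP (b (i + 0)) u (b (i + 6)) (b (i + 1)) (b (i + 2)) (b (i + 3)) z hu.2.2.1.symm
    (hC.ya i 0 6 (by decide)) (hC.ya i 0 1 (by decide)) (hC.ya i 1 2 (by decide)) (hC.ya i 2 3 (by decide)) (hu.2.1 _) (hu.nad 2 (by decide)) (hu.nad 3 (by decide))
    (hC.na i 6 2 (by decide)) (hC.na i 6 3 (by decide)) (hC.na i 0 3 (by decide)) (hz _) hn (hz _) (hz _) (hz _) (hz _)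

theorem g3 (hP : NoP G) {b : ZMod 7 → V} (hC : Cyc G S b) {i : ZMod 7} {x z : V}
    (hx : Nn G S b (i + 0) x) (hz : ∀ j, ¬G.Adj z (b j)) : G.Adj z x := by
  by_contra hn
  exact hP (b (i + 1)) x (b (i + 0)) (b (i + 2)) (b (i + 3)) (b (i + 4)) z (hx.ad 1 (by decide)).symm
    (hC.ya i 1 0 (by decide)) (hC.ya i 1 2 (by decide)) (hC.ya i 2 3 (by decide)) (hC.ya i 3 4 (by decide)) (hx.2.1 _) (hx.nad hC 3 (by decide))
    (hx.nad hC 4 (by decide)) (hC.na i 0 3 (by decide)) (hC.na i 0 4 (by decide)) (hC.na i 1 4 (by decide)) (hz _) hn (hz _) (hz _) (hz _) (hz _)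

theorem g4 (hK : Tri G) (hP : NoP G) {b : ZMod 7 → V} (hC : Cyc G S b) {i : ZMod 7} {x y w : V}
    (hx : Nn G S b (i + 0) x) (hy : Nn G S b (i + 1) y) (hw : Nn G S b (i + 6) w) :
    G.Adj x y := by
  by_contra hxy
  have hyw : ¬G.Adj y w := fun h => hK y (b (i + 0)) w (hy.ad 0 (by decide)) (hw.ad 0 (by decide)).symm h
  by_cases hwx : G.Adj w x
  · exact hP x (b (i + 6)) w (b (i + 1)) (b (i + 2)) y (b (i + 4)) (hx.ad 6 (by decide)) hwx.symm (hx.ad 1 (by decide))
      (hC.ya i 1 2 (by decide)) (hy.ad 2 (by decide)).symm (hw.2.1 _).symm (hC.na i 6 2 (by decide))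
      (fun h => hy.nad hC 6 (by decide) h.symm) (hw.nad hC 2 (by decide)) (fun h => hyw h.symm) hxy
      (fun h => hx.nad hC 4 (by decide) h.symm) (hC.na i 4 6 (by decide))
      (fun h => hw.nad hC 4 (by decide) h.symm) (hC.na i 4 1 (by decide)) (hC.na i 4 2 (by decide))
      (fun h => hy.nad hC 4 (by decide) h.symm)
  · exact hP (b (i + 2)) (b (i + 3)) y (b (i + 1)) x (b (i + 6)) w (hC.ya i 2 3 (by decide)) (hy.ad 2 (by decide)).symm
      (hC.ya i 2 1 (by decide)) (hx.ad 1 (by decide)).symm (hx.ad 6 (by decide)) (hy.2.1 _).symm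
      (fun h => hx.nad hC 3 (by decide) h.symm) (hC.na i 3 6 (by decide)) (fun h => hxy h.symm)
      (hy.nad hC 6 (by decide)) (hC.na i 2 6 (by decide)) (hw.nad hC 2 (by decide)) (hw.nad hC 3 (by decide)) (fun h => hyw h.symm)
      (hw.nad hC 1 (by decide)) hwx (hw.nad hC 6 (by decide))

theorem g4' (hK : Tri G) (hP : NoP G) {b : ZMod 7 → V} (hC : Cyc G S b) {i : ZMod 7} {x y w : V}
    (hx : Nn G S b (i + 0) x) (hy : Nn G S b (i + 1) y) (hw : Nn G S b (i + 6) w) :
    G.Adj x w := by
  by_contra hxw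
  have hyw : ¬G.Adj y w := fun h => hK y (b (i + 0)) w (hy.ad 0 (by decide)) (hw.ad 0 (by decide)).symm h
  by_cases hyx : G.Adj y x
  · exact hP x (b (i + 1)) y (b (i + 6)) (b (i + 5)) w (b (i + 3)) (hx.ad 1 (by decide)) hyx.symm (hx.ad 6 (by decide))
      (hC.ya i 6 5 (by decide)) (hw.ad 5 (by decide)).symm (hy.2.1 _).symm (hC.na i 1 5 (by decide))
      (fun h => hw.nad hC 1 (by decide) h.symm) (hy.nad hC 5 (by decide)) hyw hxw
      (fun h => hx.nad hC 3 (by decide) h.symm) (hC.na i 3 1 (by decide))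
      (fun h => hy.nad hC 3 (by decide) h.symm) (hC.na i 3 6 (by decide)) (hC.na i 3 5 (by decide))
      (fun h => hw.nad hC 3 (by decide) h.symm)
  · exact hP (b (i + 5)) (b (i + 4)) w (b (i + 6)) x (b (i + 1)) y (hC.ya i 5 4 (by decide)) (hw.ad 5 (by decide)).symm
      (hC.ya i 5 6 (by decide)) (hx.ad 6 (by decide)).symm (hx.ad 1 (by decide)) (hw.2.1 _).symm
      (fun h => hx.nad hC 4 (by decide) h.symm) (hC.na i 4 1 (by decide)) (fun h => hxw h.symm)
      (hw.nad hC 1 (by decide)) (hC.na i 5 1 (by decide)) (hy.nad hC 5 (by decide)) (hy.nad hC 4 (by decide)) hyw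
      (hy.nad hC 6 (by decide)) hyx (hy.nad hC 1 (by decide))

theorem n02 (hK : Tri G) {b : ZMod 7 → V} {i : ZMod 7} {x y : V}
    (hx : Nn G S b (i + 0) x) (hy : Nn G S b (i + 2) y) : ¬G.Adj x y :=
  fun h => hK x (b (i + 1)) y (hx.ad 1 (by decide)) (hy.ad 1 (by decide)).symm h

theorem n00 (hK : Tri G) {b : ZMod 7 → V} {i : ZMod 7} {x y : V}
    (hx : Nn G S b (i + 0) x) (hy : Nn G S b (i + 0) y) : ¬G.Adj x y :=
  fun h => hK x (b (i + 1)) y (hx.ad 1 (by decide)) (hy.ad 1 (by decide)).symm h

theorem n03 {b : ZMod 7 → V} (hC : Cyc G S b)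
    (h5 : ∀ c : ZMod 5 → V, (∀ i, c i ∈ S) → ¬ ∀ i, G.Adj (c i) (c (i + 1))) {i : ZMod 7} {x y : V}
    (hx : Nn G S b (i + 0) x) (hy : Nn G S b (i + 3) y) : ¬G.Adj x y := by
  intro h
  let c : ZMod 5 → V := ![x, b (i + 6), b (i + 5), b (i + 4), y]
  refine h5 c ?_ ?_
  · intro j
    fin_cases j
    · exact hx.1
    · exact hC.mem _
    · exact hC.mem _
    · exact hC.mem _
    · exact hy.1
  · intro j
    fin_cases j
    · exact hx.ad 6 (by decide)
    · exact hC.ya i 6 5 (by decide)
    · exact hC.ya i 5 4 (by decide)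
    · exact (hy.ad 4 (by decide)).symm
    · exact h.symm

/-- only consecutive classes can be adjacent -/
theorem n_adj (hK : Tri G) {b : ZMod 7 → V} (hC : Cyc G S b)
    (h5 : ∀ c : ZMod 5 → V, (∀ i, c i ∈ S) → ¬ ∀ i, G.Adj (c i) (c (i + 1))) {i j : ZMod 7}
    {x y : V} (hx : Nn G S b i x) (hy : Nn G S b j y) (h : G.Adj x y) : j = i + 1 ∨ i = j + 1 := by
  have hd : ∀ i j : ZMod 7, j = i + 1 ∨ i = j + 1 ∨ j = i + 0 ∨ j = i + 2 ∨ i = j + 2 ∨
      j = i + 3 ∨ i = j + 3 := by decide
  rcases hd i j with h1 | h1 | h1 | h1 | h1 | h1 | h1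
  · exact Or.inl h1
  · exact Or.inr h1
  · subst h1
    exact absurd h (n00 hK (i := i) (by rwa [add_zero]) hy)
  · subst h1
    exact absurd h (n02 hK (i := i) (by rwa [add_zero]) hy)
  · subst h1
    exact absurd h.symm (n02 hK (i := j) (by rwa [add_zero]) hx)
  · subst h1
    exact absurd h (n03 hC h5 (i := i) (by rwa [add_zero]) hy)
  · subst h1
    exact absurd h.symm (n03 hC h5 (i := j) (by rwa [add_zero]) hx)

/-- code of an optional residue -/
def cod : Option (ZMod 7) → ℕ
  | none => 0
  | some i => 1 + i.val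

theorem cod_lt (o : Option (ZMod 7)) : cod o < 8 := by
  cases o with
  | none => simp [cod]
  | some i =>
    have := ZMod.val_lt i
    simp only [cod]
    omega

theorem cod_inj {o o' : Option (ZMod 7)} (h : cod o = cod o') : o = o' := by
  cases o with
  | none =>
    cases o' with
    | none => rfl
    | some j => simp only [cod] at h; omega
  | some i =>
    cases o' with
    | none => simp only [cod] at h; omega
    | some j =>
      simp only [cod] at h
      have h1 : i.val = j.val := by omega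
      rw [ZMod.val_injective 7 h1]

/-- the class of a vertex -/
noncomputable def cls (G : SimpleGraph V) (S : Finset V) (b : ZMod 7 → V) (x : V) :
    Option (ZMod 7) :=
  if h : ∃ i, Nn G S b i x then some (Classical.choose h) else none

theorem cls_some {b : ZMod 7 → V} (hC : Cyc G S b) {i : ZMod 7} {x : V} :
    cls G S b x = some i ↔ Nn G S b i x := by
  unfold cls
  constructor
  · intro h
    by_cases h1 : ∃ i, Nn G S b i x
    · rw [dif_pos h1, Option.some.injEq] at h
      rw [← h]
      exact Classical.choose_spec h1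
    · rw [dif_neg h1] at h
      exact absurd h (by simp)
  · intro h
    have h1 : ∃ i, Nn G S b i x := ⟨i, h⟩
    rw [dif_pos h1, Option.some.injEq]
    exact Nn.unique hC (Classical.choose_spec h1) h

theorem cls_none {b : ZMod 7 → V} {x : V} :
    cls G S b x = none ↔ ∀ i, ¬Nn G S b i x := by
  unfold cls
  constructor
  · intro h i hi
    have h1 : ∃ i, Nn G S b i x := ⟨i, hi⟩
    rw [dif_pos h1] at h
    exact absurd h (by simp)
  · intro h
    rw [dif_neg]
    rintro ⟨i, hi⟩
    exact h i hi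

/-- the vertices of class `i` -/
noncomputable def Ns (G : SimpleGraph V) (S : Finset V) (b : ZMod 7 → V) (i : ZMod 7) : Finset V :=
  S.filter (fun x => Nn G S b i x)

theorem mem_Ns {b : ZMod 7 → V} {i : ZMod 7} {x : V} : x ∈ Ns G S b i ↔ Nn G S b i x := by
  unfold Ns
  rw [Finset.mem_filter]
  exact ⟨fun h => h.2, fun h => ⟨h.1, h⟩⟩

/-- the block of a vertex -/
noncomputable def blo (G : SimpleGraph V) (S : Finset V) (b : ZMod 7 → V) (x : V) :
    Option (ZMod 7) :=
  (cls G S b x).map (fun i => if Mix G (Ns G S b (i + 1)) x then i else i + 6)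

theorem pure_of_not_mix {T : Finset V} {x : V} (h : ¬Mix G T x) :
    (∀ y ∈ T, G.Adj x y) ∨ (∀ y ∈ T, ¬G.Adj x y) := by
  unfold Mix at h
  by_cases h1 : ∃ y ∈ T, G.Adj x y
  · left
    intro y hy
    by_contra h2
    exact h ⟨h1, y, hy, h2⟩
  · right
    intro y hy h2
    exact h1 ⟨y, hy, h2⟩

/-- the key step: consecutive classes -/
theorem key_step (hK : Tri G) (hP : NoP G) {b : ZMod 7 → V} (hC : Cyc G S b) {i : ZMod 7} {u w : V}
    (hu : Nn G S b i u) (hw : Nn G S b (i + 1) w) (hne : blo G S b u ≠ blo G S b w) :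
    ¬Mix G (Ns G S b (i + 1)) u ∨ ¬Mix G (Ns G S b i) w := by
  by_contra hcon
  push Not at hcon
  obtain ⟨h1, h2⟩ := hcon
  apply hne
  have e1 : blo G S b u = some i := by
    unfold blo
    rw [(cls_some hC).2 hu, Option.map_some, if_pos h1]
  have h3 : ¬Mix G (Ns G S b (i + 1 + 1)) w := by
    rintro ⟨⟨y, hy, _⟩, _⟩
    rw [mem_Ns] at hy
    obtain ⟨_, v, hv, hwv⟩ := h2
    rw [mem_Ns] at hv
    apply hwv
    refine g4' hK hP hC (i := i + 1) (by rwa [add_zero]) hy ?_
    have : i + 1 + 6 = i := by rw [add_assoc]; exact add_zero i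
    rwa [this]
  have e2 : blo G S b w = some i := by
    unfold blo
    rw [(cls_some hC).2 hw, Option.map_some, if_neg h3]
    have : i + 1 + 6 = i := by rw [add_assoc]; exact add_zero i
    rw [this]
  rw [e1, e2]

theorem ind_Ns (hK : Tri G) {b : ZMod 7 → V} (i : ZMod 7) : Ind G (Ns G S b i) := by
  intro x hx y hy
  rw [mem_Ns] at hx hy
  exact n00 hK (i := i) (by rwa [add_zero]) (by rwa [add_zero])

/-- TARGET -/
theorem c7_case (hK : Tri G) (hP : NoP G) (hbip : Bip100 G) (S : Finset V) (b : ZMod 7 → V)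
    (hbS : ∀ i, b i ∈ S) (hb : Function.Injective b)
    (hadj : ∀ i j, G.Adj (b i) (b j) ↔ (j = i + 1 ∨ i = j + 1))
    (hnb : ∀ w ∈ S, ∀ i j, G.Adj w (b i) → G.Adj w (b j) → i = j ∨ j = i + 2 ∨ i = j + 2)
    (h5 : ∀ c : ZMod 5 → V, (∀ i, c i ∈ S) → ¬ ∀ i, G.Adj (c i) (c (i + 1)))
    (k0 : ℕ) (hZ : SLin k0 G (S.filter (fun x => ∀ i, ¬G.Adj x (b i)))) :
    SLin (10 ^ 8 + k0) G S := by
  have hC : Cyc G S b := ⟨hbS, hb, hadj, hnb⟩
  by_cases hcase : ∃ w0 ∈ S, (∀ j, w0 ≠ b j) ∧ ¬∀ j, ¬G.Adj w0 (b j)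
  · -- first case
    obtain ⟨w0, hw0, ho0, hz0⟩ := hcase
    have hcomp : ∀ z, (∀ j, ¬G.Adj z (b j)) → G.Adj z w0 := by
      intro z hz
      rcases off_cases hC hw0 ho0 with h | ⟨i, h⟩ | ⟨i, h⟩
      · exact absurd h hz0
      · exact g2 hP hC (i := i) (by rwa [add_zero]) hz
      · exact g3 hP hC (i := i) (by rwa [add_zero]) hz
    have hZind : ∀ z z', (∀ j, ¬G.Adj z (b j)) → (∀ j, ¬G.Adj z' (b j)) → ¬G.Adj z z' := by
      intro z z' hz hz' h
      exact hK z w0 z' (hcomp z hz) (hcomp z' hz').symm h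
    set F : Finset V := Finset.univ.image b ∪ S.filter (fun u => ∃ i, Un G S b i u) with hF
    have hFcard : F.card ≤ 14 := by
      have h1 : (Finset.univ.image b).card ≤ 7 := by
        refine Finset.card_image_le.trans ?_
        simp [ZMod.card]
      have h2 : (S.filter (fun u => ∃ i, Un G S b i u)).card ≤ 7 := by
        let f : V → ZMod 7 := fun u => if h : ∃ i, Un G S b i u then Classical.choose h else 0
        have h3 : (S.filter (fun u => ∃ i, Un G S b i u)).card ≤ (Finset.univ : Finset (ZMod 7)).card := by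
          refine Finset.card_le_card_of_injOn f (fun _ _ => Finset.mem_coe.2 (Finset.mem_univ _)) ?_
          intro u hu v hv huv
          have hu1 := (Finset.mem_filter.1 (Finset.mem_coe.1 hu)).2
          have hv1 := (Finset.mem_filter.1 (Finset.mem_coe.1 hv)).2
          have eu : f u = Classical.choose hu1 := dif_pos hu1
          have ev : f v = Classical.choose hv1 := dif_pos hv1
          have k1 : Un G S b (f u + 0) u := by
            rw [add_zero, eu]; exact Classical.choose_spec hu1
          have k2 : Un G S b (f u + 0) v := by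
            rw [add_zero, huv, ev]; exact Classical.choose_spec hv1
          exact g1 hP hC k1 k2
        simpa [ZMod.card] using h3
      have h4 := Finset.card_union_le (Finset.univ.image b) (S.filter (fun u => ∃ i, Un G S b i u))
      rw [← hF] at h4
      omega
    have hcl : ∀ x ∈ S \ F, (∀ j, ¬G.Adj x (b j)) ∨ ∃ i, Nn G S b i x := by
      intro x hx
      rw [Finset.mem_sdiff, hF, Finset.mem_union, Finset.mem_image, Finset.mem_filter] at hx
      obtain ⟨hxS, hx2⟩ := hx
      push Not at hx2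
      have ho : ∀ j, x ≠ b j := fun j h => hx2.1 j (Finset.mem_univ j) h.symm
      rcases off_cases hC hxS ho with h | ⟨i, h⟩ | h
      · exact Or.inl h
      · exact absurd h (hx2.2 hxS i)
      · exact Or.inr h
    have hZN : ∀ x i, (∀ j, ¬G.Adj x (b j)) → ¬Nn G S b i x := fun x i h h' => h _ h'.2.2.1
    have main := mixed_blocks (k := 100) (G := G) (S := S \ F) (m := 8)
      (fun x => (⟨cod (cls G S b x), cod_lt _⟩ : Fin 8)) (fun x => cod (blo G S b x)) ?_ ?_
    · have h1 := SLin.add F main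
      refine SLin.mono_k h1 ?_
      have : 8 * 2 ^ 8 * (100 + 1) + F.card ≤ 10 ^ 8 := by omega
      omega
    · -- blocks
      intro n
      by_cases hn : ∃ o : Option (ZMod 7), cod o = n
      · obtain ⟨o, rfl⟩ := hn
        cases o with
        | none =>
          have h0 := hbip (S.filter (fun x => ∀ j, ¬G.Adj x (b j))) ∅ (Finset.disjoint_empty_right _)
            (fun x hx y hy => hZind x y (Finset.mem_filter.1 hx).2 (Finset.mem_filter.1 hy).2)
            (fun x hx => absurd hx (Finset.notMem_empty x))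
          refine SLin.subset h0 ?_
          intro x hx
          rw [Finset.mem_filter] at hx
          obtain ⟨hx1, hx2⟩ := hx
          have h1 : blo G S b x = none := cod_inj hx2
          unfold blo at h1
          rw [Option.map_eq_none_iff, cls_none] at h1
          rw [Finset.union_empty, Finset.mem_filter]
          refine ⟨(Finset.mem_sdiff.1 hx1).1, ?_⟩
          rcases hcl x hx1 with h | ⟨i, h⟩
          · exact h
          · exact absurd h (h1 i)
        | some i =>
          have hdis : Disjoint (Ns G S b i) (Ns G S b (i + 1)) := by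
            rw [Finset.disjoint_left]
            intro x hx hx'
            rw [mem_Ns] at hx hx'
            have h1 := Nn.unique hC hx hx'
            revert h1
            clear hx hx'
            revert i
            decide
          have h0 := hbip (Ns G S b i) (Ns G S b (i + 1)) hdis (ind_Ns hK i) (ind_Ns hK (i + 1))
          refine SLin.subset h0 ?_
          intro x hx
          rw [Finset.mem_filter] at hx
          obtain ⟨hx1, hx2⟩ := hx
          have h1 : blo G S b x = some i := cod_inj hx2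
          unfold blo at h1
          rw [Option.map_eq_some_iff] at h1
          obtain ⟨j, hj, hji⟩ := h1
          rw [cls_some hC] at hj
          rw [Finset.mem_union, mem_Ns, mem_Ns]
          split_ifs at hji with hm
          · left; rwa [← hji]
          · right
            rw [← hji]
            have : j + 6 + 1 = j := by rw [add_assoc]; exact add_zero j
            rwa [this]
      · have h0 := hbip ∅ ∅ (Finset.disjoint_empty_right _)
          (fun x hx => absurd hx (Finset.notMem_empty x))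
          (fun x hx => absurd hx (Finset.notMem_empty x))
        refine SLin.subset h0 ?_
        intro x hx
        rw [Finset.mem_filter] at hx
        exact absurd ⟨_, hx.2⟩ hn
    · -- purity
      have hpz : ∀ u w, (∀ j, ¬G.Adj u (b j)) → ∀ i, Nn G S b i w →
          Pure G (S \ F) (fun x => (⟨cod (cls G S b x), cod_lt _⟩ : Fin 8)) u
            ⟨cod (cls G S b w), cod_lt _⟩ := by
        intro u w hu i hw
        left
        intro x _ hx
        have h1 : cls G S b x = cls G S b w := cod_inj (congrArg Fin.val hx)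
        rw [(cls_some hC).2 hw, cls_some hC] at h1
        exact g3 hP hC (i := i) (by rwa [add_zero]) hu
      have hpn : ∀ u w i j, Nn G S b j w → ¬Mix G (Ns G S b j) u → Nn G S b i u →
          Pure G (S \ F) (fun x => (⟨cod (cls G S b x), cod_lt _⟩ : Fin 8)) u
            ⟨cod (cls G S b w), cod_lt _⟩ := by
        intro u w i j hw hm hu
        have hx : ∀ x, (⟨cod (cls G S b x), cod_lt _⟩ : Fin 8) = ⟨cod (cls G S b w), cod_lt _⟩ →
            x ∈ Ns G S b j := by
          intro x hx
          have h1 : cls G S b x = cls G S b w := cod_inj (congrArg Fin.val hx)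
          rw [(cls_some hC).2 hw, cls_some hC] at h1
          exact mem_Ns.2 h1
        rcases pure_of_not_mix hm with h | h
        · left
          intro x _ hxx
          exact h x (hx x hxx)
        · right
          intro x _ hxx
          exact h x (hx x hxx)
      intro u hu w hw hne
      have hne' : blo G S b u ≠ blo G S b w := fun h => hne (by show cod _ = cod _; rw [h])
      rcases hcl u hu with hu1 | ⟨i, hu1⟩
      · rcases hcl w hw with hw1 | ⟨j, hw1⟩
        · exfalso
          apply hne'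
          have a1 : cls G S b u = none := cls_none.2 (fun i => hZN u i hu1)
          have a2 : cls G S b w = none := cls_none.2 (fun i => hZN w i hw1)
          unfold blo
          rw [a1, a2]
          rfl
        · left
          exact hpz u w hu1 j hw1
      · rcases hcl w hw with hw1 | ⟨j, hw1⟩
        · right
          exact hpz w u hw1 i hu1
        · by_cases hij : j = i + 1
          · subst hij
            rcases key_step hK hP hC hu1 hw1 hne' with h | h
            · left; exact hpn u w i (i + 1) hw1 h hu1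
            · right; exact hpn w u (i + 1) i hu1 h hw1
          · by_cases hji : i = j + 1
            · subst hji
              rcases key_step hK hP hC hw1 hu1 (Ne.symm hne') with h | h
              · right; exact hpn w u j (j + 1) hu1 h hw1
              · left; exact hpn u w (j + 1) j hw1 h hu1
            · left
              refine hpn u w i j hw1 ?_ hu1
              rintro ⟨⟨y, hy, huy⟩, _⟩
              rw [mem_Ns] at hy
              rcases n_adj hK hC h5 hu1 hy huy with h | h
              · exact hij h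
              · exact hji h
  · -- second case
    push Not at hcase
    have h1 : SLin k0 G (S \ Finset.univ.image b) := by
      refine SLin.subset hZ ?_
      intro x hx
      rw [Finset.mem_sdiff, Finset.mem_image] at hx
      rw [Finset.mem_filter]
      refine ⟨hx.1, hcase x hx.1 ?_⟩
      intro j h
      exact hx.2 ⟨j, Finset.mem_univ j, h.symm⟩
    have h2 := SLin.add _ h1
    refine SLin.mono_k h2 ?_
    have h3 : (Finset.univ.image b).card ≤ 7 := by
      refine Finset.card_image_le.trans ?_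
      simp [ZMod.card]
    omega

end Pool.Agent.Helper856.Cw.C7
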