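import Pool.Agent.Helper856.Cw.FactsE

open Classical SimpleGraph

namespace Pool.Agent.Helper856.Cw

variable {V : Type} {G : SimpleGraph V} {a : ZMod 5 → V}

/-- induced 5-cycle indexed by `ZMod 5` -/
def Cyc (G : SimpleGraph V) (a : ZMod 5 → V) : Prop :=
  ∀ i j, G.Adj (a i) (a j) ↔ (j = i + 1 ∨ i = j + 1)

/-- `x` is off the cycle, adjacent to `a (i + 1)`, `a (i + 4)` and to no other cycle vertex -/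
def NN (G : SimpleGraph V) (a : ZMod 5 → V) (i : ZMod 5) (x : V) : Prop :=
  IsN G (a i) (a (i + 1)) (a (i + 2)) (a (i + 3)) (a (i + 4)) x

/-- `x` is adjacent to `a i` and to no other cycle vertex -/
def UU (G : SimpleGraph V) (a : ZMod 5 → V) (i : ZMod 5) (x : V) : Prop :=
  IsU G (a i) (a (i + 1)) (a (i + 2)) (a (i + 3)) (a (i + 4)) x

/-- `x` has no neighbour on the cycle -/
def ZZ (G : SimpleGraph V) (a : ZMod 5 → V) (x : V) : Prop := ∀ i, ¬G.Adj x (a i)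

theorem C5.rev {a0 a1 a2 a3 a4 : V} (h : C5 G a0 a1 a2 a3 a4) : C5 G a0 a4 a3 a2 a1 :=
  ⟨h.h40.symm, h.h34.symm, h.h23.symm, h.h12.symm, h.h01.symm, h.n03, h.n02, E.ns h.n24,
    E.ns h.n14, E.ns h.n13⟩

theorem IsN.rev {a0 a1 a2 a3 a4 x : V} (h : IsN G a0 a1 a2 a3 a4 x) : IsN G a0 a4 a3 a2 a1 x :=
  ⟨h.e4, h.e1, h.n0, h.n3, h.n2, h.ne⟩

theorem IsU.rev {a0 a1 a2 a3 a4 x : V} (h : IsU G a0 a1 a2 a3 a4 x) : IsU G a0 a4 a3 a2 a1 x :=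
  ⟨h.e0, h.n4, h.n3, h.n2, h.n1⟩

theorem ix11 (i : ZMod 5) : i + 1 + 1 = i + 2 := by revert i; decide
theorem ix12 (i : ZMod 5) : i + 1 + 2 = i + 3 := by revert i; decide
theorem ix13 (i : ZMod 5) : i + 1 + 3 = i + 4 := by revert i; decide
theorem ix14 (i : ZMod 5) : i + 1 + 4 = i := by revert i; decide
theorem ix21 (i : ZMod 5) : i + 2 + 1 = i + 3 := by revert i; decide
theorem ix22 (i : ZMod 5) : i + 2 + 2 = i + 4 := by revert i; decide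
theorem ix23 (i : ZMod 5) : i + 2 + 3 = i := by revert i; decide
theorem ix24 (i : ZMod 5) : i + 2 + 4 = i + 1 := by revert i; decide
theorem ix31 (i : ZMod 5) : i + 3 + 1 = i + 4 := by revert i; decide
theorem ix32 (i : ZMod 5) : i + 3 + 2 = i := by revert i; decide
theorem ix33 (i : ZMod 5) : i + 3 + 3 = i + 1 := by revert i; decide
theorem ix34 (i : ZMod 5) : i + 3 + 4 = i + 2 := by revert i; decide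
theorem ix41 (i : ZMod 5) : i + 4 + 1 = i := by revert i; decide
theorem ix42 (i : ZMod 5) : i + 4 + 2 = i + 1 := by revert i; decide
theorem ix43 (i : ZMod 5) : i + 4 + 3 = i + 2 := by revert i; decide
theorem ix44 (i : ZMod 5) : i + 4 + 4 = i + 3 := by revert i; decide

theorem Cyc.c5 (hc : Cyc G a) (i : ZMod 5) :
    C5 G (a i) (a (i + 1)) (a (i + 2)) (a (i + 3)) (a (i + 4)) := by
  constructor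
  all_goals
    rw [hc]
    revert i
    decide

theorem cN0 {i : ZMod 5} {x : V} (h : NN G a i x) :
    IsN G (a i) (a (i + 1)) (a (i + 2)) (a (i + 3)) (a (i + 4)) x := by
  exact h

theorem cN1 {i : ZMod 5} {x : V} (h : NN G a (i + 1) x) :
    IsN G (a (i + 1)) (a (i + 2)) (a (i + 3)) (a (i + 4)) (a i) x := by
  unfold NN at h
  rwa [ix11, ix12, ix13, ix14] at h

theorem cN2 {i : ZMod 5} {x : V} (h : NN G a (i + 2) x) :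
    IsN G (a (i + 2)) (a (i + 3)) (a (i + 4)) (a i) (a (i + 1)) x := by
  unfold NN at h
  rwa [ix21, ix22, ix23, ix24] at h

theorem cN3 {i : ZMod 5} {x : V} (h : NN G a (i + 3) x) :
    IsN G (a (i + 3)) (a (i + 4)) (a i) (a (i + 1)) (a (i + 2)) x := by
  unfold NN at h
  rwa [ix31, ix32, ix33, ix34] at h

theorem cN4 {i : ZMod 5} {x : V} (h : NN G a (i + 4) x) :
    IsN G (a (i + 4)) (a i) (a (i + 1)) (a (i + 2)) (a (i + 3)) x := by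
  unfold NN at h
  rwa [ix41, ix42, ix43, ix44] at h

theorem cU0 {i : ZMod 5} {x : V} (h : UU G a i x) :
    IsU G (a i) (a (i + 1)) (a (i + 2)) (a (i + 3)) (a (i + 4)) x := by
  exact h

theorem cU1 {i : ZMod 5} {x : V} (h : UU G a (i + 1) x) :
    IsU G (a (i + 1)) (a (i + 2)) (a (i + 3)) (a (i + 4)) (a i) x := by
  unfold UU at h
  rwa [ix11, ix12, ix13, ix14] at h

theorem cU2 {i : ZMod 5} {x : V} (h : UU G a (i + 2) x) :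
    IsU G (a (i + 2)) (a (i + 3)) (a (i + 4)) (a i) (a (i + 1)) x := by
  unfold UU at h
  rwa [ix21, ix22, ix23, ix24] at h

theorem cU3 {i : ZMod 5} {x : V} (h : UU G a (i + 3) x) :
    IsU G (a (i + 3)) (a (i + 4)) (a i) (a (i + 1)) (a (i + 2)) x := by
  unfold UU at h
  rwa [ix31, ix32, ix33, ix34] at h

theorem cU4 {i : ZMod 5} {x : V} (h : UU G a (i + 4) x) :
    IsU G (a (i + 4)) (a i) (a (i + 1)) (a (i + 2)) (a (i + 3)) x := by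
  unfold UU at h
  rwa [ix41, ix42, ix43, ix44] at h

theorem cZ {x : V} (h : ZZ G a x) (i : ZMod 5) :
    IsZ G (a i) (a (i + 1)) (a (i + 2)) (a (i + 3)) (a (i + 4)) x :=
  ⟨h _, h _, h _, h _, h _⟩

theorem cZm {x : V} (h : ZZ G a x) (i : ZMod 5) :
    IsZ G (a i) (a (i + 4)) (a (i + 3)) (a (i + 2)) (a (i + 1)) x :=
  ⟨h _, h _, h _, h _, h _⟩

theorem F1 (hK : Tri G) (hP : NoP G) (hc : Cyc G a) (i : ZMod 5) {x y y2 w : V}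
    (hx : NN G a i x) (hy : NN G a (i + 1) y) (hy2 : NN G a (i + 1) y2) (hw : NN G a (i + 4) w)
    (d_y_y2 : y ≠ y2) (k_x_y : ¬G.Adj x y) (k_x_w : ¬G.Adj x w) : False :=
  E.F1 hK hP (hc.c5 i) (cN0 hx) (cN1 hy) (cN1 hy2) (cN4 hw) d_y_y2 k_x_y k_x_w

theorem F1m (hK : Tri G) (hP : NoP G) (hc : Cyc G a) (i : ZMod 5) {x y y2 w : V}
    (hx : NN G a i x) (hy : NN G a (i + 4) y) (hy2 : NN G a (i + 4) y2) (hw : NN G a (i + 1) w)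
    (d_y_y2 : y ≠ y2) (k_x_y : ¬G.Adj x y) (k_x_w : ¬G.Adj x w) : False :=
  E.F1 hK hP (hc.c5 i).rev (cN0 hx).rev (cN4 hy).rev (cN4 hy2).rev (cN1 hw).rev d_y_y2 k_x_y k_x_w

theorem F2 (hK : Tri G) (hP : NoP G) (hc : Cyc G a) (i : ZMod 5) {x u u2 y : V}
    (hx : NN G a i x) (hu : UU G a i u) (hu2 : UU G a i u2) (hy : NN G a (i + 1) y)
    (k_x_u : G.Adj x u) (k_x_u2 : ¬G.Adj x u2) (k_x_y : ¬G.Adj x y) : False :=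
  E.F2 hK hP (hc.c5 i) (cN0 hx) (cU0 hu) (cU0 hu2) (cN1 hy) k_x_u k_x_u2 k_x_y

theorem F2m (hK : Tri G) (hP : NoP G) (hc : Cyc G a) (i : ZMod 5) {x u u2 y : V}
    (hx : NN G a i x) (hu : UU G a i u) (hu2 : UU G a i u2) (hy : NN G a (i + 4) y)
    (k_x_u : G.Adj x u) (k_x_u2 : ¬G.Adj x u2) (k_x_y : ¬G.Adj x y) : False :=
  E.F2 hK hP (hc.c5 i).rev (cN0 hx).rev (cU0 hu).rev (cU0 hu2).rev (cN4 hy).rev k_x_u k_x_u2 k_x_y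

theorem F3 (hK : Tri G) (hP : NoP G) (hc : Cyc G a) (i : ZMod 5) {x u u2 u3 w : V}
    (hx : NN G a i x) (hu : UU G a (i + 2) u) (hu2 : UU G a (i + 2) u2) (hu3 : UU G a (i + 2) u3) (hw : UU G a (i + 3) w)
    (d_u_u2 : u ≠ u2) (d_u_u3 : u ≠ u3) (d_u2_u3 : u2 ≠ u3) (k_x_u : G.Adj x u) (k_x_w : G.Adj x w) : False :=
  E.F3 hK hP (hc.c5 i) (cN0 hx) (cU2 hu) (cU2 hu2) (cU2 hu3) (cU3 hw) d_u_u2 d_u_u3 d_u2_u3 k_x_u k_x_w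

theorem F3m (hK : Tri G) (hP : NoP G) (hc : Cyc G a) (i : ZMod 5) {x u u2 u3 w : V}
    (hx : NN G a i x) (hu : UU G a (i + 3) u) (hu2 : UU G a (i + 3) u2) (hu3 : UU G a (i + 3) u3) (hw : UU G a (i + 2) w)
    (d_u_u2 : u ≠ u2) (d_u_u3 : u ≠ u3) (d_u2_u3 : u2 ≠ u3) (k_x_u : G.Adj x u) (k_x_w : G.Adj x w) : False :=
  E.F3 hK hP (hc.c5 i).rev (cN0 hx).rev (cU3 hu).rev (cU3 hu2).rev (cU3 hu3).rev (cU2 hw).rev d_u_u2 d_u_u3 d_u2_u3 k_x_u k_x_w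

theorem F4a (hK : Tri G) (hP : NoP G) (hc : Cyc G a) (i : ZMod 5) {x u u2 y : V}
    (hx : NN G a i x) (hu : UU G a (i + 2) u) (hu2 : UU G a (i + 2) u2) (hy : NN G a (i + 1) y)
    (d_u_u2 : u ≠ u2) (k_x_u : G.Adj x u) (k_x_u2 : G.Adj x u2) (k_x_y : ¬G.Adj x y) : False :=
  E.F4a hK hP (hc.c5 i) (cN0 hx) (cU2 hu) (cU2 hu2) (cN1 hy) d_u_u2 k_x_u k_x_u2 k_x_y

theorem F4am (hK : Tri G) (hP : NoP G) (hc : Cyc G a) (i : ZMod 5) {x u u2 y : V}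
    (hx : NN G a i x) (hu : UU G a (i + 3) u) (hu2 : UU G a (i + 3) u2) (hy : NN G a (i + 4) y)
    (d_u_u2 : u ≠ u2) (k_x_u : G.Adj x u) (k_x_u2 : G.Adj x u2) (k_x_y : ¬G.Adj x y) : False :=
  E.F4a hK hP (hc.c5 i).rev (cN0 hx).rev (cU3 hu).rev (cU3 hu2).rev (cN4 hy).rev d_u_u2 k_x_u k_x_u2 k_x_y

theorem F4b (hK : Tri G) (hP : NoP G) (hc : Cyc G a) (i : ZMod 5) {x u y y2 : V}
    (hx : NN G a i x) (hu : UU G a (i + 2) u) (hy : NN G a (i + 1) y) (hy2 : NN G a (i + 1) y2)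
    (d_y_y2 : y ≠ y2) (k_x_u : G.Adj x u) (k_x_y : ¬G.Adj x y) (k_x_y2 : ¬G.Adj x y2) : False :=
  E.F4b hK hP (hc.c5 i) (cN0 hx) (cU2 hu) (cN1 hy) (cN1 hy2) d_y_y2 k_x_u k_x_y k_x_y2

theorem F4bm (hK : Tri G) (hP : NoP G) (hc : Cyc G a) (i : ZMod 5) {x u y y2 : V}
    (hx : NN G a i x) (hu : UU G a (i + 3) u) (hy : NN G a (i + 4) y) (hy2 : NN G a (i + 4) y2)
    (d_y_y2 : y ≠ y2) (k_x_u : G.Adj x u) (k_x_y : ¬G.Adj x y) (k_x_y2 : ¬G.Adj x y2) : False :=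
  E.F4b hK hP (hc.c5 i).rev (cN0 hx).rev (cU3 hu).rev (cN4 hy).rev (cN4 hy2).rev d_y_y2 k_x_u k_x_y k_x_y2

theorem F4c (hK : Tri G) (hP : NoP G) (hc : Cyc G a) (i : ZMod 5) {x x2 u u2 y y2 : V}
    (hx : NN G a i x) (hx2 : NN G a i x2) (hu : UU G a (i + 2) u) (hu2 : UU G a (i + 2) u2) (hy : NN G a (i + 1) y) (hy2 : NN G a (i + 1) y2)
    (k_x_u : G.Adj x u) (k_x2_u2 : G.Adj x2 u2) (k_x_u2 : ¬G.Adj x u2) (k_x2_u : ¬G.Adj x2 u) (k_x_y : ¬G.Adj x y) (k_x2_y2 : ¬G.Adj x2 y2) (k_x_y2 : G.Adj x y2) (k_x2_y : G.Adj x2 y) : False :=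
  E.F4c hK hP (hc.c5 i) (cN0 hx) (cN0 hx2) (cU2 hu) (cU2 hu2) (cN1 hy) (cN1 hy2) k_x_u k_x2_u2 k_x_u2 k_x2_u k_x_y k_x2_y2 k_x_y2 k_x2_y

theorem F4cm (hK : Tri G) (hP : NoP G) (hc : Cyc G a) (i : ZMod 5) {x x2 u u2 y y2 : V}
    (hx : NN G a i x) (hx2 : NN G a i x2) (hu : UU G a (i + 3) u) (hu2 : UU G a (i + 3) u2) (hy : NN G a (i + 4) y) (hy2 : NN G a (i + 4) y2)
    (k_x_u : G.Adj x u) (k_x2_u2 : G.Adj x2 u2) (k_x_u2 : ¬G.Adj x u2) (k_x2_u : ¬G.Adj x2 u) (k_x_y : ¬G.Adj x y) (k_x2_y2 : ¬G.Adj x2 y2) (k_x_y2 : G.Adj x y2) (k_x2_y : G.Adj x2 y) : False :=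
  E.F4c hK hP (hc.c5 i).rev (cN0 hx).rev (cN0 hx2).rev (cU3 hu).rev (cU3 hu2).rev (cN4 hy).rev (cN4 hy2).rev k_x_u k_x2_u2 k_x_u2 k_x2_u k_x_y k_x2_y2 k_x_y2 k_x2_y

theorem F5 (hK : Tri G) (hP : NoP G) (hc : Cyc G a) (i : ZMod 5) {x u u2 u3 u4 w w2 : V}
    (hx : NN G a i x) (hu : UU G a i u) (hu2 : UU G a i u2) (hu3 : UU G a i u3) (hu4 : UU G a i u4) (hw : UU G a (i + 2) w) (hw2 : UU G a (i + 2) w2)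
    (d_u_u3 : u ≠ u3) (d_u_u4 : u ≠ u4) (d_u2_u3 : u2 ≠ u3) (d_u2_u4 : u2 ≠ u4) (d_u3_u4 : u3 ≠ u4) (k_x_u : G.Adj x u) (k_x_u2 : ¬G.Adj x u2) (k_x_w : G.Adj x w) (k_x_w2 : ¬G.Adj x w2) : False :=
  E.F5 hK hP (hc.c5 i) (cN0 hx) (cU0 hu) (cU0 hu2) (cU0 hu3) (cU0 hu4) (cU2 hw) (cU2 hw2) d_u_u3 d_u_u4 d_u2_u3 d_u2_u4 d_u3_u4 k_x_u k_x_u2 k_x_w k_x_w2

theorem F5m (hK : Tri G) (hP : NoP G) (hc : Cyc G a) (i : ZMod 5) {x u u2 u3 u4 w w2 : V}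
    (hx : NN G a i x) (hu : UU G a i u) (hu2 : UU G a i u2) (hu3 : UU G a i u3) (hu4 : UU G a i u4) (hw : UU G a (i + 3) w) (hw2 : UU G a (i + 3) w2)
    (d_u_u3 : u ≠ u3) (d_u_u4 : u ≠ u4) (d_u2_u3 : u2 ≠ u3) (d_u2_u4 : u2 ≠ u4) (d_u3_u4 : u3 ≠ u4) (k_x_u : G.Adj x u) (k_x_u2 : ¬G.Adj x u2) (k_x_w : G.Adj x w) (k_x_w2 : ¬G.Adj x w2) : False :=
  E.F5 hK hP (hc.c5 i).rev (cN0 hx).rev (cU0 hu).rev (cU0 hu2).rev (cU0 hu3).rev (cU0 hu4).rev (cU3 hw).rev (cU3 hw2).rev d_u_u3 d_u_u4 d_u2_u3 d_u2_u4 d_u3_u4 k_x_u k_x_u2 k_x_w k_x_w2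

theorem F6 (hK : Tri G) (hP : NoP G) (hc : Cyc G a) (i : ZMod 5) {u w w2 w3 : V}
    (hu : UU G a i u) (hw : UU G a (i + 1) w) (hw2 : UU G a (i + 1) w2) (hw3 : UU G a (i + 1) w3)
    (d_w_w2 : w ≠ w2) (d_w_w3 : w ≠ w3) (d_w2_w3 : w2 ≠ w3) (k_u_w : ¬G.Adj u w) : False :=
  E.F6 hK hP (hc.c5 i) (cU0 hu) (cU1 hw) (cU1 hw2) (cU1 hw3) d_w_w2 d_w_w3 d_w2_w3 k_u_w

theorem F6m (hK : Tri G) (hP : NoP G) (hc : Cyc G a) (i : ZMod 5) {u w w2 w3 : V}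
    (hu : UU G a i u) (hw : UU G a (i + 4) w) (hw2 : UU G a (i + 4) w2) (hw3 : UU G a (i + 4) w3)
    (d_w_w2 : w ≠ w2) (d_w_w3 : w ≠ w3) (d_w2_w3 : w2 ≠ w3) (k_u_w : ¬G.Adj u w) : False :=
  E.F6 hK hP (hc.c5 i).rev (cU0 hu).rev (cU4 hw).rev (cU4 hw2).rev (cU4 hw3).rev d_w_w2 d_w_w3 d_w2_w3 k_u_w

theorem F7 (hK : Tri G) (hP : NoP G) (hc : Cyc G a) (i : ZMod 5) {u w w2 w3 y : V}
    (hu : UU G a i u) (hw : UU G a (i + 2) w) (hw2 : UU G a (i + 2) w2) (hw3 : UU G a (i + 2) w3) (hy : UU G a (i + 3) y)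
    (d_w_w2 : w ≠ w2) (d_w_w3 : w ≠ w3) (d_w2_w3 : w2 ≠ w3) (k_u_w : G.Adj u w) (k_u_y : G.Adj u y) : False :=
  E.F7 hK hP (hc.c5 i) (cU0 hu) (cU2 hw) (cU2 hw2) (cU2 hw3) (cU3 hy) d_w_w2 d_w_w3 d_w2_w3 k_u_w k_u_y

theorem F7m (hK : Tri G) (hP : NoP G) (hc : Cyc G a) (i : ZMod 5) {u w w2 w3 y : V}
    (hu : UU G a i u) (hw : UU G a (i + 3) w) (hw2 : UU G a (i + 3) w2) (hw3 : UU G a (i + 3) w3) (hy : UU G a (i + 2) y)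
    (d_w_w2 : w ≠ w2) (d_w_w3 : w ≠ w3) (d_w2_w3 : w2 ≠ w3) (k_u_w : G.Adj u w) (k_u_y : G.Adj u y) : False :=
  E.F7 hK hP (hc.c5 i).rev (cU0 hu).rev (cU3 hw).rev (cU3 hw2).rev (cU3 hw3).rev (cU2 hy).rev d_w_w2 d_w_w3 d_w2_w3 k_u_w k_u_y

theorem F8 (hK : Tri G) (hP : NoP G) (hc : Cyc G a) (i : ZMod 5) {u w w2 w3 w4 x : V}
    (hu : UU G a i u) (hw : UU G a (i + 2) w) (hw2 : UU G a (i + 2) w2) (hw3 : UU G a (i + 2) w3) (hw4 : UU G a (i + 2) w4) (hx : NN G a i x)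
    (d_w_w2 : w ≠ w2) (d_w_w3 : w ≠ w3) (d_w_w4 : w ≠ w4) (d_w2_w3 : w2 ≠ w3) (d_w2_w4 : w2 ≠ w4) (d_w3_w4 : w3 ≠ w4) (k_u_w : ¬G.Adj u w) (k_u_x : ¬G.Adj u x) : False :=
  E.F8 hK hP (hc.c5 i) (cU0 hu) (cU2 hw) (cU2 hw2) (cU2 hw3) (cU2 hw4) (cN0 hx) d_w_w2 d_w_w3 d_w_w4 d_w2_w3 d_w2_w4 d_w3_w4 k_u_w k_u_x

theorem F8m (hK : Tri G) (hP : NoP G) (hc : Cyc G a) (i : ZMod 5) {u w w2 w3 w4 x : V}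
    (hu : UU G a i u) (hw : UU G a (i + 3) w) (hw2 : UU G a (i + 3) w2) (hw3 : UU G a (i + 3) w3) (hw4 : UU G a (i + 3) w4) (hx : NN G a i x)
    (d_w_w2 : w ≠ w2) (d_w_w3 : w ≠ w3) (d_w_w4 : w ≠ w4) (d_w2_w3 : w2 ≠ w3) (d_w2_w4 : w2 ≠ w4) (d_w3_w4 : w3 ≠ w4) (k_u_w : ¬G.Adj u w) (k_u_x : ¬G.Adj u x) : False :=
  E.F8 hK hP (hc.c5 i).rev (cU0 hu).rev (cU3 hw).rev (cU3 hw2).rev (cU3 hw3).rev (cU3 hw4).rev (cN0 hx).rev d_w_w2 d_w_w3 d_w_w4 d_w2_w3 d_w2_w4 d_w3_w4 k_u_w k_u_x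

theorem F9a (hK : Tri G) (hP : NoP G) (hc : Cyc G a) (i : ZMod 5) {u w w2 w3 w4 y : V}
    (hu : UU G a i u) (hw : UU G a (i + 2) w) (hw2 : UU G a (i + 2) w2) (hw3 : UU G a (i + 2) w3) (hw4 : UU G a (i + 2) w4) (hy : NN G a (i + 2) y)
    (d_w_w3 : w ≠ w3) (d_w_w4 : w ≠ w4) (d_w2_w3 : w2 ≠ w3) (d_w2_w4 : w2 ≠ w4) (d_w3_w4 : w3 ≠ w4) (k_u_w : G.Adj u w) (k_u_w2 : ¬G.Adj u w2) (k_u_y : G.Adj u y) : False :=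
  E.F9a hK hP (hc.c5 i) (cU0 hu) (cU2 hw) (cU2 hw2) (cU2 hw3) (cU2 hw4) (cN2 hy) d_w_w3 d_w_w4 d_w2_w3 d_w2_w4 d_w3_w4 k_u_w k_u_w2 k_u_y

theorem F9am (hK : Tri G) (hP : NoP G) (hc : Cyc G a) (i : ZMod 5) {u w w2 w3 w4 y : V}
    (hu : UU G a i u) (hw : UU G a (i + 3) w) (hw2 : UU G a (i + 3) w2) (hw3 : UU G a (i + 3) w3) (hw4 : UU G a (i + 3) w4) (hy : NN G a (i + 3) y)
    (d_w_w3 : w ≠ w3) (d_w_w4 : w ≠ w4) (d_w2_w3 : w2 ≠ w3) (d_w2_w4 : w2 ≠ w4) (d_w3_w4 : w3 ≠ w4) (k_u_w : G.Adj u w) (k_u_w2 : ¬G.Adj u w2) (k_u_y : G.Adj u y) : False :=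
  E.F9a hK hP (hc.c5 i).rev (cU0 hu).rev (cU3 hw).rev (cU3 hw2).rev (cU3 hw3).rev (cU3 hw4).rev (cN3 hy).rev d_w_w3 d_w_w4 d_w2_w3 d_w2_w4 d_w3_w4 k_u_w k_u_w2 k_u_y

theorem F9b (hK : Tri G) (hP : NoP G) (hc : Cyc G a) (i : ZMod 5) {u w w2 y : V}
    (hu : UU G a i u) (hw : UU G a (i + 2) w) (hw2 : UU G a (i + 2) w2) (hy : NN G a (i + 3) y)
    (k_u_w : G.Adj u w) (k_u_w2 : ¬G.Adj u w2) (k_u_y : ¬G.Adj u y) : False :=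
  E.F9b hK hP (hc.c5 i) (cU0 hu) (cU2 hw) (cU2 hw2) (cN3 hy) k_u_w k_u_w2 k_u_y

theorem F9bm (hK : Tri G) (hP : NoP G) (hc : Cyc G a) (i : ZMod 5) {u w w2 y : V}
    (hu : UU G a i u) (hw : UU G a (i + 3) w) (hw2 : UU G a (i + 3) w2) (hy : NN G a (i + 2) y)
    (k_u_w : G.Adj u w) (k_u_w2 : ¬G.Adj u w2) (k_u_y : ¬G.Adj u y) : False :=
  E.F9b hK hP (hc.c5 i).rev (cU0 hu).rev (cU3 hw).rev (cU3 hw2).rev (cN2 hy).rev k_u_w k_u_w2 k_u_y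

theorem F10 (hK : Tri G) (hP : NoP G) (hc : Cyc G a) (i : ZMod 5) {u x y y2 : V}
    (hu : UU G a i u) (hx : NN G a i x) (hy : NN G a (i + 2) y) (hy2 : NN G a (i + 2) y2)
    (d_y_y2 : y ≠ y2) (k_u_x : ¬G.Adj u x) (k_u_y : G.Adj u y) : False :=
  E.F10 hK hP (hc.c5 i) (cU0 hu) (cN0 hx) (cN2 hy) (cN2 hy2) d_y_y2 k_u_x k_u_y

theorem F10m (hK : Tri G) (hP : NoP G) (hc : Cyc G a) (i : ZMod 5) {u x y y2 : V}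
    (hu : UU G a i u) (hx : NN G a i x) (hy : NN G a (i + 3) y) (hy2 : NN G a (i + 3) y2)
    (d_y_y2 : y ≠ y2) (k_u_x : ¬G.Adj u x) (k_u_y : G.Adj u y) : False :=
  E.F10 hK hP (hc.c5 i).rev (cU0 hu).rev (cN0 hx).rev (cN3 hy).rev (cN3 hy2).rev d_y_y2 k_u_x k_u_y

theorem T2 (hK : Tri G) (hP : NoP G) (hc : Cyc G a) (i : ZMod 5) {u s s2 b : V}
    (hu : UU G a i u) (hs : NN G a (i + 2) s) (hs2 : NN G a (i + 2) s2) (hb : NN G a (i + 3) b)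
    (d_s_s2 : s ≠ s2) (k_u_s : ¬G.Adj u s) (k_u_s2 : ¬G.Adj u s2) (k_u_b : ¬G.Adj u b) (k_s_b : ¬G.Adj s b) : False :=
  E.T2 hK hP (hc.c5 i) (cU0 hu) (cN2 hs) (cN2 hs2) (cN3 hb) d_s_s2 k_u_s k_u_s2 k_u_b k_s_b

theorem T2m (hK : Tri G) (hP : NoP G) (hc : Cyc G a) (i : ZMod 5) {u s s2 b : V}
    (hu : UU G a i u) (hs : NN G a (i + 3) s) (hs2 : NN G a (i + 3) s2) (hb : NN G a (i + 2) b)
    (d_s_s2 : s ≠ s2) (k_u_s : ¬G.Adj u s) (k_u_s2 : ¬G.Adj u s2) (k_u_b : ¬G.Adj u b) (k_s_b : ¬G.Adj s b) : False :=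
  E.T2 hK hP (hc.c5 i).rev (cU0 hu).rev (cN3 hs).rev (cN3 hs2).rev (cN2 hb).rev d_s_s2 k_u_s k_u_s2 k_u_b k_s_b

theorem T3 (hK : Tri G) (hP : NoP G) (hc : Cyc G a) (i : ZMod 5) {u s b bb : V}
    (hu : UU G a i u) (hs : NN G a (i + 2) s) (hb : NN G a (i + 3) b) (hbb : NN G a (i + 3) bb)
    (d_b_bb : b ≠ bb) (k_u_s : ¬G.Adj u s) (k_u_b : ¬G.Adj u b) (k_u_bb : ¬G.Adj u bb) (k_s_b : ¬G.Adj s b) : False :=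
  E.T3 hK hP (hc.c5 i) (cU0 hu) (cN2 hs) (cN3 hb) (cN3 hbb) d_b_bb k_u_s k_u_b k_u_bb k_s_b

theorem T3m (hK : Tri G) (hP : NoP G) (hc : Cyc G a) (i : ZMod 5) {u s b bb : V}
    (hu : UU G a i u) (hs : NN G a (i + 3) s) (hb : NN G a (i + 2) b) (hbb : NN G a (i + 2) bb)
    (d_b_bb : b ≠ bb) (k_u_s : ¬G.Adj u s) (k_u_b : ¬G.Adj u b) (k_u_bb : ¬G.Adj u bb) (k_s_b : ¬G.Adj s b) : False :=
  E.T3 hK hP (hc.c5 i).rev (cU0 hu).rev (cN3 hs).rev (cN2 hb).rev (cN2 hbb).rev d_b_bb k_u_s k_u_b k_u_bb k_s_b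

theorem P1 (hK : Tri G) (hP : NoP G) (hc : Cyc G a) (i : ZMod 5) {u u2 b b2 b3 : V}
    (hu : UU G a i u) (hu2 : UU G a i u2) (hb : NN G a (i + 3) b) (hb2 : NN G a (i + 3) b2) (hb3 : NN G a (i + 3) b3)
    (d_b_b2 : b ≠ b2) (k_u_b : G.Adj u b) (k_u_b2 : G.Adj u b2) (k_u_b3 : ¬G.Adj u b3) (k_u2_b : ¬G.Adj u2 b) (k_u2_b2 : ¬G.Adj u2 b2) (k_u2_b3 : G.Adj u2 b3) : False :=
  E.P1 hK hP (hc.c5 i) (cU0 hu) (cU0 hu2) (cN3 hb) (cN3 hb2) (cN3 hb3) d_b_b2 k_u_b k_u_b2 k_u_b3 k_u2_b k_u2_b2 k_u2_b3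

theorem P1m (hK : Tri G) (hP : NoP G) (hc : Cyc G a) (i : ZMod 5) {u u2 b b2 b3 : V}
    (hu : UU G a i u) (hu2 : UU G a i u2) (hb : NN G a (i + 2) b) (hb2 : NN G a (i + 2) b2) (hb3 : NN G a (i + 2) b3)
    (d_b_b2 : b ≠ b2) (k_u_b : G.Adj u b) (k_u_b2 : G.Adj u b2) (k_u_b3 : ¬G.Adj u b3) (k_u2_b : ¬G.Adj u2 b) (k_u2_b2 : ¬G.Adj u2 b2) (k_u2_b3 : G.Adj u2 b3) : False :=
  E.P1 hK hP (hc.c5 i).rev (cU0 hu).rev (cU0 hu2).rev (cN2 hb).rev (cN2 hb2).rev (cN2 hb3).rev d_b_b2 k_u_b k_u_b2 k_u_b3 k_u2_b k_u2_b2 k_u2_b3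

theorem P2 (hK : Tri G) (hP : NoP G) (hc : Cyc G a) (i : ZMod 5) {s s2 b b2 b3 : V}
    (hs : NN G a (i + 2) s) (hs2 : NN G a (i + 2) s2) (hb : NN G a (i + 3) b) (hb2 : NN G a (i + 3) b2) (hb3 : NN G a (i + 3) b3)
    (d_b_b2 : b ≠ b2) (k_s_b : G.Adj s b) (k_s_b2 : G.Adj s b2) (k_s_b3 : ¬G.Adj s b3) (k_s2_b : ¬G.Adj s2 b) (k_s2_b2 : ¬G.Adj s2 b2) (k_s2_b3 : G.Adj s2 b3) : False :=
  E.P2 hK hP (hc.c5 i) (cN2 hs) (cN2 hs2) (cN3 hb) (cN3 hb2) (cN3 hb3) d_b_b2 k_s_b k_s_b2 k_s_b3 k_s2_b k_s2_b2 k_s2_b3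

theorem P2m (hK : Tri G) (hP : NoP G) (hc : Cyc G a) (i : ZMod 5) {s s2 b b2 b3 : V}
    (hs : NN G a (i + 3) s) (hs2 : NN G a (i + 3) s2) (hb : NN G a (i + 2) b) (hb2 : NN G a (i + 2) b2) (hb3 : NN G a (i + 2) b3)
    (d_b_b2 : b ≠ b2) (k_s_b : G.Adj s b) (k_s_b2 : G.Adj s b2) (k_s_b3 : ¬G.Adj s b3) (k_s2_b : ¬G.Adj s2 b) (k_s2_b2 : ¬G.Adj s2 b2) (k_s2_b3 : G.Adj s2 b3) : False :=
  E.P2 hK hP (hc.c5 i).rev (cN3 hs).rev (cN3 hs2).rev (cN2 hb).rev (cN2 hb2).rev (cN2 hb3).rev d_b_b2 k_s_b k_s_b2 k_s_b3 k_s2_b k_s2_b2 k_s2_b3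

theorem A1 (hK : Tri G) (hP : NoP G) (hc : Cyc G a) (i : ZMod 5) {x z1 z2 z3 z4 z5 : V}
    (hx : NN G a i x) (hz1 : ZZ G a z1) (hz2 : ZZ G a z2) (hz3 : ZZ G a z3) (hz4 : ZZ G a z4) (hz5 : ZZ G a z5)
    (d_z1_z2 : z1 ≠ z2) (d_z1_z5 : z1 ≠ z5) (d_z2_z5 : z2 ≠ z5) (d_z3_z4 : z3 ≠ z4) (d_z3_z5 : z3 ≠ z5) (d_z4_z5 : z4 ≠ z5) (k_x_z1 : G.Adj x z1) (k_x_z2 : G.Adj x z2) (k_x_z3 : ¬G.Adj x z3) (k_x_z4 : ¬G.Adj x z4) : False :=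
  E.A1 hK hP (hc.c5 i) (cN0 hx) (cZ hz1 i) (cZ hz2 i) (cZ hz3 i) (cZ hz4 i) (cZ hz5 i) d_z1_z2 d_z1_z5 d_z2_z5 d_z3_z4 d_z3_z5 d_z4_z5 k_x_z1 k_x_z2 k_x_z3 k_x_z4

theorem A1m (hK : Tri G) (hP : NoP G) (hc : Cyc G a) (i : ZMod 5) {x z1 z2 z3 z4 z5 : V}
    (hx : NN G a i x) (hz1 : ZZ G a z1) (hz2 : ZZ G a z2) (hz3 : ZZ G a z3) (hz4 : ZZ G a z4) (hz5 : ZZ G a z5)
    (d_z1_z2 : z1 ≠ z2) (d_z1_z5 : z1 ≠ z5) (d_z2_z5 : z2 ≠ z5) (d_z3_z4 : z3 ≠ z4) (d_z3_z5 : z3 ≠ z5) (d_z4_z5 : z4 ≠ z5) (k_x_z1 : G.Adj x z1) (k_x_z2 : G.Adj x z2) (k_x_z3 : ¬G.Adj x z3) (k_x_z4 : ¬G.Adj x z4) : False :=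
  E.A1 hK hP (hc.c5 i).rev (cN0 hx).rev (cZm hz1 i) (cZm hz2 i) (cZm hz3 i) (cZm hz4 i) (cZm hz5 i) d_z1_z2 d_z1_z5 d_z2_z5 d_z3_z4 d_z3_z5 d_z4_z5 k_x_z1 k_x_z2 k_x_z3 k_x_z4

theorem A2a (hK : Tri G) (hP : NoP G) (hc : Cyc G a) (i : ZMod 5) {z z1 z2 z3 x y : V}
    (hz : ZZ G a z) (hz1 : ZZ G a z1) (hz2 : ZZ G a z2) (hz3 : ZZ G a z3) (hx : NN G a i x) (hy : NN G a i y)
    (d_z_z2 : z ≠ z2) (d_z_z3 : z ≠ z3) (d_z1_z2 : z1 ≠ z2) (d_z1_z3 : z1 ≠ z3) (d_z2_z3 : z2 ≠ z3) (k_z_z1 : G.Adj z z1) (k_z_x : G.Adj z x) (k_z_y : ¬G.Adj z y) : False :=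
  E.A2a hK hP (hc.c5 i) (cZ hz i) (cZ hz1 i) (cZ hz2 i) (cZ hz3 i) (cN0 hx) (cN0 hy) d_z_z2 d_z_z3 d_z1_z2 d_z1_z3 d_z2_z3 k_z_z1 k_z_x k_z_y

theorem A2am (hK : Tri G) (hP : NoP G) (hc : Cyc G a) (i : ZMod 5) {z z1 z2 z3 x y : V}
    (hz : ZZ G a z) (hz1 : ZZ G a z1) (hz2 : ZZ G a z2) (hz3 : ZZ G a z3) (hx : NN G a i x) (hy : NN G a i y)
    (d_z_z2 : z ≠ z2) (d_z_z3 : z ≠ z3) (d_z1_z2 : z1 ≠ z2) (d_z1_z3 : z1 ≠ z3) (d_z2_z3 : z2 ≠ z3) (k_z_z1 : G.Adj z z1) (k_z_x : G.Adj z x) (k_z_y : ¬G.Adj z y) : False :=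
  E.A2a hK hP (hc.c5 i).rev (cZm hz i) (cZm hz1 i) (cZm hz2 i) (cZm hz3 i) (cN0 hx).rev (cN0 hy).rev d_z_z2 d_z_z3 d_z1_z2 d_z1_z3 d_z2_z3 k_z_z1 k_z_x k_z_y

theorem A2b (hK : Tri G) (hP : NoP G) (hc : Cyc G a) (i : ZMod 5) {z z1 z2 x : V}
    (hz : ZZ G a z) (hz1 : ZZ G a z1) (hz2 : ZZ G a z2) (hx : NN G a i x)
    (d_z1_z2 : z1 ≠ z2) (k_z_z1 : G.Adj z z1) (k_z_z2 : G.Adj z z2) (k_z_x : G.Adj z x) : False :=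
  E.A2b hK hP (hc.c5 i) (cZ hz i) (cZ hz1 i) (cZ hz2 i) (cN0 hx) d_z1_z2 k_z_z1 k_z_z2 k_z_x

theorem A2bm (hK : Tri G) (hP : NoP G) (hc : Cyc G a) (i : ZMod 5) {z z1 z2 x : V}
    (hz : ZZ G a z) (hz1 : ZZ G a z1) (hz2 : ZZ G a z2) (hx : NN G a i x)
    (d_z1_z2 : z1 ≠ z2) (k_z_z1 : G.Adj z z1) (k_z_z2 : G.Adj z z2) (k_z_x : G.Adj z x) : False :=
  E.A2b hK hP (hc.c5 i).rev (cZm hz i) (cZm hz1 i) (cZm hz2 i) (cN0 hx).rev d_z1_z2 k_z_z1 k_z_z2 k_z_x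

theorem A3 (hK : Tri G) (hP : NoP G) (hc : Cyc G a) (i : ZMod 5) {x z1 z2 z3 : V}
    (hx : NN G a i x) (hz1 : ZZ G a z1) (hz2 : ZZ G a z2) (hz3 : ZZ G a z3)
    (d_z1_z2 : z1 ≠ z2) (k_x_z1 : G.Adj x z1) (k_x_z2 : G.Adj x z2) (k_x_z3 : ¬G.Adj x z3) (k_z1_z3 : ¬G.Adj z1 z3) (k_z2_z3 : ¬G.Adj z2 z3) : False :=
  E.A3 hK hP (hc.c5 i) (cN0 hx) (cZ hz1 i) (cZ hz2 i) (cZ hz3 i) d_z1_z2 k_x_z1 k_x_z2 k_x_z3 k_z1_z3 k_z2_z3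

theorem A3m (hK : Tri G) (hP : NoP G) (hc : Cyc G a) (i : ZMod 5) {x z1 z2 z3 : V}
    (hx : NN G a i x) (hz1 : ZZ G a z1) (hz2 : ZZ G a z2) (hz3 : ZZ G a z3)
    (d_z1_z2 : z1 ≠ z2) (k_x_z1 : G.Adj x z1) (k_x_z2 : G.Adj x z2) (k_x_z3 : ¬G.Adj x z3) (k_z1_z3 : ¬G.Adj z1 z3) (k_z2_z3 : ¬G.Adj z2 z3) : False :=
  E.A3 hK hP (hc.c5 i).rev (cN0 hx).rev (cZm hz1 i) (cZm hz2 i) (cZm hz3 i) d_z1_z2 k_x_z1 k_x_z2 k_x_z3 k_z1_z3 k_z2_z3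

theorem A6 (hK : Tri G) (hP : NoP G) (hc : Cyc G a) (i : ZMod 5) {x y z z2 : V}
    (hx : NN G a i x) (hy : NN G a (i + 1) y) (hz : ZZ G a z) (hz2 : ZZ G a z2)
    (k_x_y : ¬G.Adj x y) (k_x_z : G.Adj x z) (k_y_z : ¬G.Adj y z) (k_x_z2 : ¬G.Adj x z2) (k_y_z2 : ¬G.Adj y z2) (k_z_z2 : ¬G.Adj z z2) : False :=
  E.A6 hK hP (hc.c5 i) (cN0 hx) (cN1 hy) (cZ hz i) (cZ hz2 i) k_x_y k_x_z k_y_z k_x_z2 k_y_z2 k_z_z2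

theorem A6m (hK : Tri G) (hP : NoP G) (hc : Cyc G a) (i : ZMod 5) {x y z z2 : V}
    (hx : NN G a i x) (hy : NN G a (i + 4) y) (hz : ZZ G a z) (hz2 : ZZ G a z2)
    (k_x_y : ¬G.Adj x y) (k_x_z : G.Adj x z) (k_y_z : ¬G.Adj y z) (k_x_z2 : ¬G.Adj x z2) (k_y_z2 : ¬G.Adj y z2) (k_z_z2 : ¬G.Adj z z2) : False :=
  E.A6 hK hP (hc.c5 i).rev (cN0 hx).rev (cN4 hy).rev (cZm hz i) (cZm hz2 i) k_x_y k_x_z k_y_z k_x_z2 k_y_z2 k_z_z2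

theorem B1 (hK : Tri G) (hP : NoP G) (hc : Cyc G a) (i : ZMod 5) {z u u2 : V}
    (hz : ZZ G a z) (hu : UU G a i u) (hu2 : UU G a i u2)
    (d_u_u2 : u ≠ u2) (k_z_u : ¬G.Adj z u) (k_z_u2 : ¬G.Adj z u2) : False :=
  E.B1 hK hP (hc.c5 i) (cZ hz i) (cU0 hu) (cU0 hu2) d_u_u2 k_z_u k_z_u2

theorem B1m (hK : Tri G) (hP : NoP G) (hc : Cyc G a) (i : ZMod 5) {z u u2 : V}
    (hz : ZZ G a z) (hu : UU G a i u) (hu2 : UU G a i u2)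
    (d_u_u2 : u ≠ u2) (k_z_u : ¬G.Adj z u) (k_z_u2 : ¬G.Adj z u2) : False :=
  E.B1 hK hP (hc.c5 i).rev (cZm hz i) (cU0 hu).rev (cU0 hu2).rev d_u_u2 k_z_u k_z_u2

theorem B3 (hK : Tri G) (hP : NoP G) (hc : Cyc G a) (i : ZMod 5) {u z z1 z2 : V}
    (hu : UU G a i u) (hz : ZZ G a z) (hz1 : ZZ G a z1) (hz2 : ZZ G a z2)
    (d_z1_z2 : z1 ≠ z2) (k_u_z : ¬G.Adj u z) (k_u_z1 : G.Adj u z1) (k_u_z2 : G.Adj u z2) (k_z_z1 : ¬G.Adj z z1) (k_z_z2 : ¬G.Adj z z2) : False :=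
  E.B3 hK hP (hc.c5 i) (cU0 hu) (cZ hz i) (cZ hz1 i) (cZ hz2 i) d_z1_z2 k_u_z k_u_z1 k_u_z2 k_z_z1 k_z_z2

theorem B3m (hK : Tri G) (hP : NoP G) (hc : Cyc G a) (i : ZMod 5) {u z z1 z2 : V}
    (hu : UU G a i u) (hz : ZZ G a z) (hz1 : ZZ G a z1) (hz2 : ZZ G a z2)
    (d_z1_z2 : z1 ≠ z2) (k_u_z : ¬G.Adj u z) (k_u_z1 : G.Adj u z1) (k_u_z2 : G.Adj u z2) (k_z_z1 : ¬G.Adj z z1) (k_z_z2 : ¬G.Adj z z2) : False :=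
  E.B3 hK hP (hc.c5 i).rev (cU0 hu).rev (cZm hz i) (cZm hz1 i) (cZm hz2 i) d_z1_z2 k_u_z k_u_z1 k_u_z2 k_z_z1 k_z_z2

theorem B4a (hK : Tri G) (hP : NoP G) (hc : Cyc G a) (i : ZMod 5) {z u u2 w w2 w3 : V}
    (hz : ZZ G a z) (hu : UU G a i u) (hu2 : UU G a i u2) (hw : UU G a (i + 1) w) (hw2 : UU G a (i + 1) w2) (hw3 : UU G a (i + 1) w3)
    (d_u_u2 : u ≠ u2) (d_w_w2 : w ≠ w2) (d_w_w3 : w ≠ w3) (d_w2_w3 : w2 ≠ w3) : False :=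
  E.B4a hK hP (hc.c5 i) (cZ hz i) (cU0 hu) (cU0 hu2) (cU1 hw) (cU1 hw2) (cU1 hw3) d_u_u2 d_w_w2 d_w_w3 d_w2_w3

theorem B4am (hK : Tri G) (hP : NoP G) (hc : Cyc G a) (i : ZMod 5) {z u u2 w w2 w3 : V}
    (hz : ZZ G a z) (hu : UU G a i u) (hu2 : UU G a i u2) (hw : UU G a (i + 4) w) (hw2 : UU G a (i + 4) w2) (hw3 : UU G a (i + 4) w3)
    (d_u_u2 : u ≠ u2) (d_w_w2 : w ≠ w2) (d_w_w3 : w ≠ w3) (d_w2_w3 : w2 ≠ w3) : False :=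
  E.B4a hK hP (hc.c5 i).rev (cZm hz i) (cU0 hu).rev (cU0 hu2).rev (cU4 hw).rev (cU4 hw2).rev (cU4 hw3).rev d_u_u2 d_w_w2 d_w_w3 d_w2_w3

theorem B4b (hK : Tri G) (hP : NoP G) (hc : Cyc G a) (i : ZMod 5) {z u u2 w w2 w3 : V}
    (hz : ZZ G a z) (hu : UU G a i u) (hu2 : UU G a i u2) (hw : UU G a (i + 2) w) (hw2 : UU G a (i + 2) w2) (hw3 : UU G a (i + 2) w3)
    (d_u_u2 : u ≠ u2) (d_w_w2 : w ≠ w2) (d_w_w3 : w ≠ w3) (d_w2_w3 : w2 ≠ w3) : False :=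
  E.B4b hK hP (hc.c5 i) (cZ hz i) (cU0 hu) (cU0 hu2) (cU2 hw) (cU2 hw2) (cU2 hw3) d_u_u2 d_w_w2 d_w_w3 d_w2_w3

theorem B4bm (hK : Tri G) (hP : NoP G) (hc : Cyc G a) (i : ZMod 5) {z u u2 w w2 w3 : V}
    (hz : ZZ G a z) (hu : UU G a i u) (hu2 : UU G a i u2) (hw : UU G a (i + 3) w) (hw2 : UU G a (i + 3) w2) (hw3 : UU G a (i + 3) w3)
    (d_u_u2 : u ≠ u2) (d_w_w2 : w ≠ w2) (d_w_w3 : w ≠ w3) (d_w2_w3 : w2 ≠ w3) : False :=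
  E.B4b hK hP (hc.c5 i).rev (cZm hz i) (cU0 hu).rev (cU0 hu2).rev (cU3 hw).rev (cU3 hw2).rev (cU3 hw3).rev d_u_u2 d_w_w2 d_w_w3 d_w2_w3

theorem B5 (hK : Tri G) (hP : NoP G) (hc : Cyc G a) (i : ZMod 5) {z u u2 y : V}
    (hz : ZZ G a z) (hu : UU G a i u) (hu2 : UU G a i u2) (hy : NN G a (i + 1) y)
    (d_u_u2 : u ≠ u2) (k_z_y : G.Adj z y) : False :=
  E.B5 hK hP (hc.c5 i) (cZ hz i) (cU0 hu) (cU0 hu2) (cN1 hy) d_u_u2 k_z_y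

theorem B5m (hK : Tri G) (hP : NoP G) (hc : Cyc G a) (i : ZMod 5) {z u u2 y : V}
    (hz : ZZ G a z) (hu : UU G a i u) (hu2 : UU G a i u2) (hy : NN G a (i + 4) y)
    (d_u_u2 : u ≠ u2) (k_z_y : G.Adj z y) : False :=
  E.B5 hK hP (hc.c5 i).rev (cZm hz i) (cU0 hu).rev (cU0 hu2).rev (cN4 hy).rev d_u_u2 k_z_y

theorem B6 (hK : Tri G) (hP : NoP G) (hc : Cyc G a) (i : ZMod 5) {z u u2 u3 y : V}
    (hz : ZZ G a z) (hu : UU G a i u) (hu2 : UU G a i u2) (hu3 : UU G a i u3) (hy : NN G a (i + 2) y)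
    (d_u_u2 : u ≠ u2) (d_u_u3 : u ≠ u3) (d_u2_u3 : u2 ≠ u3) (k_z_y : G.Adj z y) : False :=
  E.B6 hK hP (hc.c5 i) (cZ hz i) (cU0 hu) (cU0 hu2) (cU0 hu3) (cN2 hy) d_u_u2 d_u_u3 d_u2_u3 k_z_y

theorem B6m (hK : Tri G) (hP : NoP G) (hc : Cyc G a) (i : ZMod 5) {z u u2 u3 y : V}
    (hz : ZZ G a z) (hu : UU G a i u) (hu2 : UU G a i u2) (hu3 : UU G a i u3) (hy : NN G a (i + 3) y)
    (d_u_u2 : u ≠ u2) (d_u_u3 : u ≠ u3) (d_u2_u3 : u2 ≠ u3) (k_z_y : G.Adj z y) : False :=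
  E.B6 hK hP (hc.c5 i).rev (cZm hz i) (cU0 hu).rev (cU0 hu2).rev (cU0 hu3).rev (cN3 hy).rev d_u_u2 d_u_u3 d_u2_u3 k_z_y

theorem B7a (hK : Tri G) (hP : NoP G) (hc : Cyc G a) (i : ZMod 5) {x z z2 z3 u u2 u3 : V}
    (hx : NN G a i x) (hz : ZZ G a z) (hz2 : ZZ G a z2) (hz3 : ZZ G a z3) (hu : UU G a i u) (hu2 : UU G a i u2) (hu3 : UU G a i u3)
    (d_z_z3 : z ≠ z3) (d_z2_z3 : z2 ≠ z3) (d_u_u2 : u ≠ u2) (d_u_u3 : u ≠ u3) (d_u2_u3 : u2 ≠ u3) (k_x_z : G.Adj x z) (k_x_z2 : ¬G.Adj x z2) : False :=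
  E.B7a hK hP (hc.c5 i) (cN0 hx) (cZ hz i) (cZ hz2 i) (cZ hz3 i) (cU0 hu) (cU0 hu2) (cU0 hu3) d_z_z3 d_z2_z3 d_u_u2 d_u_u3 d_u2_u3 k_x_z k_x_z2

theorem B7am (hK : Tri G) (hP : NoP G) (hc : Cyc G a) (i : ZMod 5) {x z z2 z3 u u2 u3 : V}
    (hx : NN G a i x) (hz : ZZ G a z) (hz2 : ZZ G a z2) (hz3 : ZZ G a z3) (hu : UU G a i u) (hu2 : UU G a i u2) (hu3 : UU G a i u3)
    (d_z_z3 : z ≠ z3) (d_z2_z3 : z2 ≠ z3) (d_u_u2 : u ≠ u2) (d_u_u3 : u ≠ u3) (d_u2_u3 : u2 ≠ u3) (k_x_z : G.Adj x z) (k_x_z2 : ¬G.Adj x z2) : False :=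
  E.B7a hK hP (hc.c5 i).rev (cN0 hx).rev (cZm hz i) (cZm hz2 i) (cZm hz3 i) (cU0 hu).rev (cU0 hu2).rev (cU0 hu3).rev d_z_z3 d_z2_z3 d_u_u2 d_u_u3 d_u2_u3 k_x_z k_x_z2

theorem B7b (hK : Tri G) (hP : NoP G) (hc : Cyc G a) (i : ZMod 5) {x z z2 z3 u u2 u3 : V}
    (hx : NN G a i x) (hz : ZZ G a z) (hz2 : ZZ G a z2) (hz3 : ZZ G a z3) (hu : UU G a i u) (hu2 : UU G a i u2) (hu3 : UU G a i u3)
    (d_z_z2 : z ≠ z2) (d_z_z3 : z ≠ z3) (d_z2_z3 : z2 ≠ z3) (d_u_u2 : u ≠ u2) (d_u_u3 : u ≠ u3) (d_u2_u3 : u2 ≠ u3) (k_x_z : ¬G.Adj x z) (k_x_u : ¬G.Adj x u) : False :=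
  E.B7b hK hP (hc.c5 i) (cN0 hx) (cZ hz i) (cZ hz2 i) (cZ hz3 i) (cU0 hu) (cU0 hu2) (cU0 hu3) d_z_z2 d_z_z3 d_z2_z3 d_u_u2 d_u_u3 d_u2_u3 k_x_z k_x_u

theorem B7bm (hK : Tri G) (hP : NoP G) (hc : Cyc G a) (i : ZMod 5) {x z z2 z3 u u2 u3 : V}
    (hx : NN G a i x) (hz : ZZ G a z) (hz2 : ZZ G a z2) (hz3 : ZZ G a z3) (hu : UU G a i u) (hu2 : UU G a i u2) (hu3 : UU G a i u3)
    (d_z_z2 : z ≠ z2) (d_z_z3 : z ≠ z3) (d_z2_z3 : z2 ≠ z3) (d_u_u2 : u ≠ u2) (d_u_u3 : u ≠ u3) (d_u2_u3 : u2 ≠ u3) (k_x_z : ¬G.Adj x z) (k_x_u : ¬G.Adj x u) : False :=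
  E.B7b hK hP (hc.c5 i).rev (cN0 hx).rev (cZm hz i) (cZm hz2 i) (cZm hz3 i) (cU0 hu).rev (cU0 hu2).rev (cU0 hu3).rev d_z_z2 d_z_z3 d_z2_z3 d_u_u2 d_u_u3 d_u2_u3 k_x_z k_x_u

theorem B8 (hK : Tri G) (hP : NoP G) (hc : Cyc G a) (i : ZMod 5) {y u u2 u3 z z2 : V}
    (hy : NN G a (i + 2) y) (hu : UU G a i u) (hu2 : UU G a i u2) (hu3 : UU G a i u3) (hz : ZZ G a z) (hz2 : ZZ G a z2)
    (d_u_u2 : u ≠ u2) (d_u_u3 : u ≠ u3) (d_u2_u3 : u2 ≠ u3) (d_z_z2 : z ≠ z2) (k_y_u : G.Adj y u) : False :=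
  E.B8 hK hP (hc.c5 i) (cN2 hy) (cU0 hu) (cU0 hu2) (cU0 hu3) (cZ hz i) (cZ hz2 i) d_u_u2 d_u_u3 d_u2_u3 d_z_z2 k_y_u

theorem B8m (hK : Tri G) (hP : NoP G) (hc : Cyc G a) (i : ZMod 5) {y u u2 u3 z z2 : V}
    (hy : NN G a (i + 3) y) (hu : UU G a i u) (hu2 : UU G a i u2) (hu3 : UU G a i u3) (hz : ZZ G a z) (hz2 : ZZ G a z2)
    (d_u_u2 : u ≠ u2) (d_u_u3 : u ≠ u3) (d_u2_u3 : u2 ≠ u3) (d_z_z2 : z ≠ z2) (k_y_u : G.Adj y u) : False :=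
  E.B8 hK hP (hc.c5 i).rev (cN3 hy).rev (cU0 hu).rev (cU0 hu2).rev (cU0 hu3).rev (cZm hz i) (cZm hz2 i) d_u_u2 d_u_u3 d_u2_u3 d_z_z2 k_y_u

end Pool.Agent.Helper856.Cw
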