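import Pool.Agent.Helper856.Cw.CoreA
import Pool.Agent.Helper856.Cw.FactsI

open Classical SimpleGraph

namespace Pool.Agent.Helper856.Cw.CaseA

open CoreA

variable {V : Type} {G : SimpleGraph V} {S T : Finset V} {k l : ℕ}

variable {a : ZMod 5 → V}

theorem j4472_part (hK : Tri G) (hc : Cyc G a) (x : V) :
    (∃ i, x = a i) ∨ ZZ G a x ∨ (∃ i, UU G a i x) ∨ ∃ i, NN G a i x := by
  by_cases hz : ZZ G a x
  · exact Or.inr (Or.inl hz)
  · unfold ZZ at hz
    push Not at hz
    obtain ⟨i, hi⟩ := hz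
    have tri : ∀ j, G.Adj x (a j) → ¬ G.Adj x (a (j + 1)) := fun j h1 h2 =>
      hK x (a j) (a (j + 1)) h1 ((hc j (j + 1)).2 (Or.inl rfl)) h2
    have e41 : i + 4 + 1 = i := (by decide : ∀ i : ZMod 5, i + 4 + 1 = i) i
    have e21 : i + 2 + 1 = i + 3 := (by decide : ∀ i : ZMod 5, i + 2 + 1 = i + 3) i
    have e31 : i + 3 + 1 = i + 4 := (by decide : ∀ i : ZMod 5, i + 3 + 1 = i + 4) i
    have n1 := tri i hi
    have n4 : ¬ G.Adj x (a (i + 4)) := fun h => tri (i + 4) h (by rw [e41]; exact hi)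
    by_cases h2 : G.Adj x (a (i + 2))
    · have n3 : ¬ G.Adj x (a (i + 3)) := by rw [← e21]; exact tri (i + 2) h2
      by_cases hx : x = a (i + 1)
      · exact Or.inl ⟨_, hx⟩
      · refine Or.inr (Or.inr (Or.inr ⟨i + 1, ⟨?_, ?_, n1, ?_, ?_, hx⟩⟩))
        · rw [(by decide : ∀ i : ZMod 5, i + 1 + 1 = i + 2) i]; exact h2
        · rw [(by decide : ∀ i : ZMod 5, i + 1 + 4 = i) i]; exact hi
        · rw [(by decide : ∀ i : ZMod 5, i + 1 + 2 = i + 3) i]; exact n3
        · rw [(by decide : ∀ i : ZMod 5, i + 1 + 3 = i + 4) i]; exact n4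
    · by_cases h3 : G.Adj x (a (i + 3))
      · by_cases hx : x = a (i + 4)
        · exact Or.inl ⟨_, hx⟩
        · refine Or.inr (Or.inr (Or.inr ⟨i + 4, ⟨?_, ?_, n4, ?_, ?_, hx⟩⟩))
          · rw [(by decide : ∀ i : ZMod 5, i + 4 + 1 = i) i]; exact hi
          · rw [(by decide : ∀ i : ZMod 5, i + 4 + 4 = i + 3) i]; exact h3
          · rw [(by decide : ∀ i : ZMod 5, i + 4 + 2 = i + 1) i]; exact n1
          · rw [(by decide : ∀ i : ZMod 5, i + 4 + 3 = i + 2) i]; exact h2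
      · exact Or.inr (Or.inr (Or.inl ⟨i, ⟨hi, n1, h2, h3, n4⟩⟩))

theorem j4472_cyc (hc : Cyc G a) (i : ZMod 5) {x : V} (hx : NN G a i x) :
    Cyc G (Function.update a i x) := by
  have key : ∀ q, q ≠ i → (G.Adj x (a q) ↔ (q = i + 1 ∨ i = q + 1)) := by
    intro q hq
    have h4 : ∀ i q : ZMod 5, q ≠ i → q = i + 1 ∨ q = i + 2 ∨ q = i + 3 ∨ q = i + 4 := by decide
    have k1 : ∀ i : ZMod 5, ¬ (i + 2 = i + 1 ∨ i = i + 2 + 1) := by decide
    have k2 : ∀ i : ZMod 5, ¬ (i + 3 = i + 1 ∨ i = i + 3 + 1) := by decide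
    have k3 : ∀ i : ZMod 5, (i + 4 = i + 1 ∨ i = i + 4 + 1) := by decide
    rcases h4 i q hq with rfl | rfl | rfl | rfl
    · exact ⟨fun _ => Or.inl rfl, fun _ => hx.e1⟩
    · exact ⟨fun h => absurd h hx.n2, fun h => absurd h (k1 i)⟩
    · exact ⟨fun h => absurd h hx.n3, fun h => absurd h (k2 i)⟩
    · exact ⟨fun _ => k3 i, fun _ => hx.e4⟩
  intro p q
  by_cases hp : p = i
  · by_cases hq : q = i
    · subst hp; subst hq
      rw [Function.update_self]
      have k : ∀ i : ZMod 5, ¬ (i = i + 1 ∨ i = i + 1) := by decide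
      exact ⟨fun h => absurd h (G.irrefl), fun h => absurd h (k _)⟩
    · subst hp
      rw [Function.update_self, Function.update_of_ne hq]
      exact key q hq
  · by_cases hq : q = i
    · subst hq
      rw [Function.update_self, Function.update_of_ne hp, G.adj_comm, key p hp]
      exact or_comm
    · rw [Function.update_of_ne hp, Function.update_of_ne hq]
      exact hc p q

theorem j4472_pick {T : Finset V} (h : 6 ≤ T.card) (F : Finset V) (hF : F.card ≤ 5) :
    ∃ z ∈ T, z ∉ F :=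
  Finset.exists_mem_notMem_of_card_lt_card (by omega)

theorem j4472_low (hK : Tri G) (hP : NoP G) (hc : Cyc G a) (haS : ∀ i, a i ∈ S)
    (hZ : 6 ≤ (S.filter (ZZ G a)).card) (hU : ∀ i, (S.filter (UU G a i)).card ≤ 4)
    (hmin : ∀ b : ZMod 5 → V, Cyc G b → (∀ i, b i ∈ S) →
      (S.filter (ZZ G a)).card ≤ (S.filter (ZZ G b)).card) (i : ZMod 5) {x z1 z2 : V} (hxS : x ∈ S)
    (hx : NN G a i x) (h1 : z1 ∈ S.filter (ZZ G a)) (h2 : z2 ∈ S.filter (ZZ G a))
    (k1 : G.Adj x z1) (k2 : G.Adj x z2) : z1 = z2 := by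
  by_contra hne
  have hA : ((S.filter (ZZ G a)).filter (fun w => ¬ G.Adj x w)).card ≤ 1 := by
    rw [Finset.card_le_one]
    intro z3 h3 z4 h4
    by_contra h34
    rw [Finset.mem_filter] at h3 h4
    obtain ⟨z5, h5, n5⟩ := j4472_pick hZ {z1, z2, z3, z4} (le_trans Finset.card_le_four (by norm_num))
    simp only [Finset.mem_insert, Finset.mem_singleton, not_or] at n5
    obtain ⟨m1, m2, m3, m4⟩ := n5
    exact A1 hK hP hc i hx (Finset.mem_filter.1 h1).2 (Finset.mem_filter.1 h2).2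
      (Finset.mem_filter.1 h3.1).2 (Finset.mem_filter.1 h4.1).2 (Finset.mem_filter.1 h5).2
      hne (Ne.symm m1) (Ne.symm m2) h34 (Ne.symm m3) (Ne.symm m4) k1 k2 h3.2 h4.2
  have hb := hmin (Function.update a i x) (j4472_cyc hc i hx) (by
    intro j
    by_cases hj : j = i
    · subst hj; rw [Function.update_self]; exact hxS
    · rw [Function.update_of_ne hj]; exact haS j)
  have hsub : S.filter (ZZ G (Function.update a i x)) ⊆
      (S.filter (ZZ G a)).filter (fun w => ¬ G.Adj x w) ∪ S.filter (UU G a i) := by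
    intro w hw
    rw [Finset.mem_filter] at hw
    obtain ⟨hwS, hw⟩ := hw
    have hwx : ¬ G.Adj w x := by
      have := hw i
      rwa [Function.update_self] at this
    have hwj : ∀ j, j ≠ i → ¬ G.Adj w (a j) := by
      intro j hj
      have := hw j
      rwa [Function.update_of_ne hj] at this
    rw [Finset.mem_union, Finset.mem_filter, Finset.mem_filter, Finset.mem_filter]
    have g1 : ∀ i : ZMod 5, i + 1 ≠ i := by decide
    have g2 : ∀ i : ZMod 5, i + 2 ≠ i := by decide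
    have g3 : ∀ i : ZMod 5, i + 3 ≠ i := by decide
    have g4 : ∀ i : ZMod 5, i + 4 ≠ i := by decide
    by_cases hwi : G.Adj w (a i)
    · right
      exact ⟨hwS, ⟨hwi, hwj _ (g1 i), hwj _ (g2 i), hwj _ (g3 i), hwj _ (g4 i)⟩⟩
    · left
      refine ⟨⟨hwS, ?_⟩, fun h => hwx h.symm⟩
      intro j
      by_cases hj : j = i
      · subst hj; exact hwi
      · exact hwj j hj
  have hcard := (Finset.card_le_card hsub).trans (Finset.card_union_le _ _)
  have := hU i
  omega

theorem j4472_e (hK : Tri G) (hP : NoP G) (hc : Cyc G a)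
    (hZ : 6 ≤ (S.filter (ZZ G a)).card)
    (low : ∀ (i : ZMod 5) (x z1 z2 : V), x ∈ S → NN G a i x → z1 ∈ S.filter (ZZ G a) →
      z2 ∈ S.filter (ZZ G a) → G.Adj x z1 → G.Adj x z2 → z1 = z2) (i : ZMod 5) :
    ∃ e : V, ∀ z ∈ S.filter (ZZ G a), (∃ z' ∈ S.filter (ZZ G a), G.Adj z z') →
      (∃ x ∈ S.filter (NN G a i), G.Adj z x) → z = e := by
  have comp : ∀ z ∈ S.filter (ZZ G a), (∃ z' ∈ S.filter (ZZ G a), G.Adj z z') →
      (∃ x ∈ S.filter (NN G a i), G.Adj z x) → ∀ y ∈ S.filter (NN G a i), G.Adj z y := by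
    rintro z hz ⟨z1, hz1, k1⟩ ⟨x, hx, kx⟩ y hy
    by_contra hcon
    obtain ⟨z2, h2, n2⟩ := j4472_pick hZ {z, z1} (le_trans Finset.card_le_two (by norm_num))
    obtain ⟨z3, h3, n3⟩ := j4472_pick hZ {z, z1, z2} (le_trans Finset.card_le_three (by norm_num))
    simp only [Finset.mem_insert, Finset.mem_singleton, not_or] at n2 n3
    exact A2a hK hP hc i (Finset.mem_filter.1 hz).2 (Finset.mem_filter.1 hz1).2
      (Finset.mem_filter.1 h2).2 (Finset.mem_filter.1 h3).2 (Finset.mem_filter.1 hx).2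
      (Finset.mem_filter.1 hy).2 (Ne.symm n2.1) (Ne.symm n3.1) (Ne.symm n2.2) (Ne.symm n3.2.1)
      (Ne.symm n3.2.2) k1 kx hcon
  by_cases h : ∃ z ∈ S.filter (ZZ G a), (∃ z' ∈ S.filter (ZZ G a), G.Adj z z') ∧
      (∃ x ∈ S.filter (NN G a i), G.Adj z x)
  · obtain ⟨z0, hz0, h1, h2⟩ := h
    refine ⟨z0, ?_⟩
    intro z hz h3 h4
    obtain ⟨x, hx, kx⟩ := h2
    have c1 := comp z hz h3 h4 x hx
    exact low i x z z0 (Finset.mem_filter.1 hx).1 (Finset.mem_filter.1 hx).2 hz hz0 c1.symm kx.symm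
  · push Not at h
    refine ⟨a 0, ?_⟩
    rintro z hz h1 ⟨x, hx, kx⟩
    exact absurd kx (h z hz h1 x hx)

theorem j4472_dis (hc : Cyc G a) {i j : ZMod 5} (hij : i ≠ j) {x : V} (hi : NN G a i x) (hj : NN G a j x) :
    False := by
  have h4 : ∀ i q : ZMod 5, q ≠ i → q = i + 1 ∨ q = i + 2 ∨ q = i + 3 ∨ q = i + 4 := by decide
  have k1 : ∀ i : ZMod 5, i + 1 + 1 = i + 2 := by decide
  have k2 : ∀ i : ZMod 5, i + 2 + 1 = i + 3 := by decide
  have k3 : ∀ i : ZMod 5, i + 3 + 4 = i + 2 := by decide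
  have k4 : ∀ i : ZMod 5, i + 4 + 1 = i := by decide
  rcases h4 i j (Ne.symm hij) with rfl | rfl | rfl | rfl
  · have := hj.e1; rw [k1] at this; exact hi.n2 this
  · have := hj.e1; rw [k2] at this; exact hi.n3 this
  · have := hj.e4; rw [k3] at this; exact hi.n2 this
  · have := hj.e1; rw [k4] at this; exact hi.n0 this

/-- TARGET -/
theorem caseA (hK : Tri G) (hP : NoP G) (hbip : Bip100 G) (hc : Cyc G a) (haS : ∀ i, a i ∈ S)
    (hZ : 6 ≤ (S.filter (ZZ G a)).card) (hU : ∀ i, (S.filter (UU G a i)).card ≤ 4)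
    (hmin : ∀ b : ZMod 5 → V, Cyc G b → (∀ i, b i ∈ S) →
      (S.filter (ZZ G a)).card ≤ (S.filter (ZZ G b)).card)
    (k0 : ℕ) (hZ0 : ∀ T ⊆ S.filter (ZZ G a), SLin k0 G T) :
    SLin (2 * 10 ^ 8 + k0) G S := by
  have low : ∀ (i : ZMod 5) (x z1 z2 : V), x ∈ S → NN G a i x → z1 ∈ S.filter (ZZ G a) →
      z2 ∈ S.filter (ZZ G a) → G.Adj x z1 → G.Adj x z2 → z1 = z2 := fun i x z1 z2 h1 h2 h3 h4 h5 h6 =>
    j4472_low hK hP hc haS hZ hU hmin i h1 h2 h3 h4 h5 h6
  choose e he using j4472_e hK hP hc hZ low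
  -- the classes
  obtain ⟨N, hN⟩ : ∃ N : ZMod 5 → Finset V, N = fun i => S.filter (NN G a i) := ⟨_, rfl⟩
  have mN : ∀ i x, x ∈ N i ↔ x ∈ S ∧ NN G a i x := by
    intro i x; rw [hN]; simp only [Finset.mem_filter]
  obtain ⟨Zp, hZp⟩ : ∃ Zp : Finset V, Zp = (S.filter (ZZ G a)).filter
      (fun z => (∀ i, z ≠ e i) ∧ ∃ i, ∃ x ∈ N i, G.Adj z x) := ⟨_, rfl⟩
  obtain ⟨Z0, hZ0'⟩ : ∃ Z0 : Finset V, Z0 = (S.filter (ZZ G a)).filter
      (fun z => ¬ ∃ i, ∃ x ∈ N i, G.Adj z x) := ⟨_, rfl⟩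
  have mZp : ∀ z, z ∈ Zp ↔ z ∈ S.filter (ZZ G a) ∧ (∀ i, z ≠ e i) ∧ ∃ i, ∃ x ∈ N i, G.Adj z x := by
    intro z; rw [hZp, Finset.mem_filter]
  have mZ0 : ∀ z, z ∈ Z0 ↔ z ∈ S.filter (ZZ G a) ∧ ¬ ∃ i, ∃ x ∈ N i, G.Adj z x := by
    intro z; rw [hZ0', Finset.mem_filter]
  -- elements of Zp have no neighbour in ZS
  have pZ : ∀ z ∈ Zp, ∀ w ∈ S.filter (ZZ G a), ¬ G.Adj z w := by
    intro z hz w hw hzw
    obtain ⟨h1, h2, i, x, hx, hzx⟩ := (mZp z).1 hz
    refine h2 i (he i z h1 ⟨w, hw, hzw⟩ ⟨x, ?_, hzx⟩)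
    rw [Finset.mem_filter]; exact (mN i x).1 hx
  -- at most one neighbour
  have one : ∀ i, ∀ y ∈ N i, ∃ w0, ∀ w ∈ S.filter (ZZ G a), G.Adj y w → w = w0 := by
    intro i y hy
    have hy' := (mN i y).1 hy
    by_cases h : ∃ w ∈ S.filter (ZZ G a), G.Adj y w
    · obtain ⟨w0, hw0, k0⟩ := h
      exact ⟨w0, fun w hw k => low i y w w0 hy'.1 hy'.2 hw hw0 k k0⟩
    · push Not at h
      exact ⟨y, fun w hw k => absurd k (h w hw)⟩
  have hcore : SLin (10 ^ 8) G (Zp ∪ Finset.univ.biUnion N) := by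
    refine coreA hK hbip Zp N ?_ ?_ ?_ ?_ ?_ ?_ ?_ ?_
    · intro i
      rw [Finset.disjoint_left]
      intro x h1 h2
      exact (Finset.mem_filter.1 ((mZp x).1 h1).1).2 _ ((mN i x).1 h2).2.e1
    · intro i j hij
      rw [Finset.disjoint_left]
      intro x h1 h2
      exact j4472_dis hc hij ((mN i x).1 h1).2 ((mN j x).1 h2).2
    · intro x hx y hy
      exact pZ x hx y ((mZp y).1 hy).1
    · intro i x hx y hy hxy
      exact hK x y (a (i + 1)) hxy ((mN i y).1 hy).2.e1 ((mN i x).1 hx).2.e1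
    · intro i x hx y hy hxy
      have h1 := ((mN _ y).1 hy).2.e4
      rw [(by decide : ∀ i : ZMod 5, i + 2 + 4 = i + 1) i] at h1
      exact hK x y (a (i + 1)) hxy h1 ((mN i x).1 hx).2.e1
    · intro i x hx z hz z' hz' k k'
      exact low i x z z' ((mN i x).1 hx).1 ((mN i x).1 hx).2 ((mZp z).1 hz).1 ((mZp z').1 hz').1 k k'
    · intro i x hx y hy z hz hxy
      have hzS := ((mZp z).1 hz).1
      have hzZ := (Finset.mem_filter.1 hzS).2
      constructor
      · intro kxz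
        by_contra kyz
        obtain ⟨w0, hw0⟩ := one _ y hy
        obtain ⟨z2, h2, n2⟩ := j4472_pick hZ {z, w0} (le_trans Finset.card_le_two (by norm_num))
        simp only [Finset.mem_insert, Finset.mem_singleton, not_or] at n2
        refine A6 hK hP hc i ((mN i x).1 hx).2 ((mN _ y).1 hy).2 hzZ (Finset.mem_filter.1 h2).2
          hxy kxz kyz ?_ ?_ (pZ z hz z2 h2)
        · intro k
          exact n2.1 (low i x z2 z ((mN i x).1 hx).1 ((mN i x).1 hx).2 h2 hzS k kxz)
        · intro k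
          exact n2.2 (hw0 z2 h2 k)
      · intro kyz
        by_contra kxz
        obtain ⟨w0, hw0⟩ := one _ x hx
        obtain ⟨z2, h2, n2⟩ := j4472_pick hZ {z, w0} (le_trans Finset.card_le_two (by norm_num))
        simp only [Finset.mem_insert, Finset.mem_singleton, not_or] at n2
        have hx' : NN G a (i + 1 + 4) x := by
          rw [(by decide : ∀ i : ZMod 5, i + 1 + 4 = i) i]; exact ((mN i x).1 hx).2
        refine A6m hK hP hc (i + 1) ((mN _ y).1 hy).2 hx' hzZ (Finset.mem_filter.1 h2).2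
          (fun k => hxy k.symm) kyz kxz ?_ ?_ (pZ z hz z2 h2)
        · intro k
          exact n2.1 (low (i + 1) y z2 z ((mN _ y).1 hy).1 ((mN _ y).1 hy).2 h2 hzS k kyz)
        · intro k
          exact n2.2 (hw0 z2 h2 k)
    · rintro i x hx ⟨⟨⟨y2, hy2, k2⟩, ⟨y, hy, k1⟩⟩, ⟨_, ⟨w, hw, k3⟩⟩⟩
      refine F1 hK hP hc i ((mN i x).1 hx).2 ((mN _ y).1 hy).2 ((mN _ y2).1 hy2).2 ((mN _ w).1 hw).2 ?_ k1 k3
      rintro rfl
      exact k1 k2
  -- the removed set
  obtain ⟨F, hF⟩ : ∃ F : Finset V, F = (Finset.univ.image a ∪ Finset.univ.image e) ∪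
      Finset.univ.biUnion (fun i => S.filter (UU G a i)) := ⟨_, rfl⟩
  have hFc : F.card ≤ 30 := by
    rw [hF]
    have c1 : (Finset.univ.image a).card ≤ 5 := by
      have := Finset.card_image_le (s := (Finset.univ : Finset (ZMod 5))) (f := a)
      simpa [ZMod.card] using this
    have c2 : (Finset.univ.image e).card ≤ 5 := by
      have := Finset.card_image_le (s := (Finset.univ : Finset (ZMod 5))) (f := e)
      simpa [ZMod.card] using this
    have c3 : (Finset.univ.biUnion (fun i => S.filter (UU G a i))).card ≤ 5 * 4 := by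
      have := Finset.card_biUnion_le_card_mul (Finset.univ : Finset (ZMod 5))
        (fun i => S.filter (UU G a i)) 4 (fun i _ => hU i)
      simpa [ZMod.card] using this
    have c4 := Finset.card_union_le (Finset.univ.image a ∪ Finset.univ.image e)
      (Finset.univ.biUnion (fun i => S.filter (UU G a i)))
    have c5 := Finset.card_union_le (Finset.univ.image a) (Finset.univ.image e)
    omega
  have cover : ∀ x ∈ S \ F, x ∈ Z0 ∨ x ∈ Zp ∪ Finset.univ.biUnion N := by
    intro x hx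
    rw [Finset.mem_sdiff, hF] at hx
    obtain ⟨hxS, hxF⟩ := hx
    simp only [Finset.mem_union, Finset.mem_image, Finset.mem_univ, true_and, Finset.mem_biUnion,
      Finset.mem_filter, not_or, not_exists, not_and] at hxF
    obtain ⟨⟨f1, f2⟩, f3⟩ := hxF
    rcases j4472_part hK hc x with ⟨i, h⟩ | h | ⟨i, h⟩ | ⟨i, h⟩
    · exact absurd h.symm (f1 i)
    · have hxZ : x ∈ S.filter (ZZ G a) := Finset.mem_filter.2 ⟨hxS, h⟩
      by_cases h' : ∃ i, ∃ y ∈ N i, G.Adj x y
      · right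
        rw [Finset.mem_union]
        left
        exact (mZp x).2 ⟨hxZ, fun i h => f2 i h.symm, h'⟩
      · left
        exact (mZ0 x).2 ⟨hxZ, h'⟩
    · exact absurd h (f3 i hxS)
    · right
      rw [Finset.mem_union]
      right
      rw [Finset.mem_biUnion]
      exact ⟨i, Finset.mem_univ _, (mN i x).2 ⟨hxS, h⟩⟩
  have hblocks : SLin (1 * (10 ^ 8 + k0 + 1)) G (S \ F) := by
    refine SLin.blocks (fun x => if x ∈ Z0 then 0 else 1) (fun _ => 0) ?_ ?_
    · intro n
      by_cases hn : n = 0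
      · subst hn
        refine SLin.mono_k (hZ0 _ ?_) (Nat.le_add_left _ _)
        intro x hx
        rw [Finset.mem_filter] at hx
        have : x ∈ Z0 := by
          by_contra h
          have := hx.2
          simp only [if_neg h] at this
          exact absurd this (by norm_num)
        exact ((mZ0 x).1 this).1
      · refine SLin.mono_k (SLin.subset hcore ?_) (Nat.le_add_right _ _)
        intro x hx
        rw [Finset.mem_filter] at hx
        have : x ∉ Z0 := by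
          intro h
          have := hx.2
          simp only [if_pos h] at this
          exact hn this.symm
        exact (cover x hx.1).resolve_left this
    · intro u hu v hv w hw h1 h2 _
      have key : ∀ u, (if u ∈ Z0 then 0 else 1) < (if w ∈ Z0 then 0 else 1) → ¬ G.Adj u w := by
        intro u hlt
        by_cases hw0 : w ∈ Z0
        · rw [if_pos hw0] at hlt
          exact absurd hlt (Nat.not_lt_zero _)
        · have hu0 : u ∈ Z0 := by
            by_contra h
            rw [if_neg h, if_neg hw0] at hlt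
            exact absurd hlt (lt_irrefl _)
          have hw1 := (cover w hw).resolve_left hw0
          rw [Finset.mem_union] at hw1
          rcases hw1 with hw1 | hw1
          · intro k
            exact pZ w hw1 u ((mZ0 u).1 hu0).1 k.symm
          · rw [Finset.mem_biUnion] at hw1
            obtain ⟨i, _, hwi⟩ := hw1
            intro k
            exact ((mZ0 u).1 hu0).2 ⟨i, w, hwi, k⟩
      exact ⟨fun k => absurd k (key u h1), fun k => absurd k (key v h2)⟩
  refine SLin.mono_k (SLin.add F hblocks) ?_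
  have : (30 : ℕ) + 1 ≤ 10 ^ 8 := by norm_num
  omega

end Pool.Agent.Helper856.Cw.CaseA
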