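import Pool.Agent.Helper856.Cw.CoreB
import Pool.Agent.Helper856.Cw.FactsI

open Classical SimpleGraph

namespace Pool.Agent.Helper856.Cw.CaseB

open CoreB

variable {V : Type} {G : SimpleGraph V} {S T : Finset V} {k l : ℕ}

variable {a : ZMod 5 → V}

theorem z5_cases (i j : ZMod 5) : j = i ∨ j = i + 1 ∨ j = i + 2 ∨ j = i + 3 ∨ j = i + 4 := by
  revert i j
  decide

theorem z41 (i : ZMod 5) : i + 4 + 1 = i := by revert i; decide
theorem z14 (i : ZMod 5) : i + 1 + 4 = i := by revert i; decide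
theorem z11 (i : ZMod 5) : i + 1 + 1 = i + 2 := by revert i; decide
theorem z12 (i : ZMod 5) : i + 1 + 2 = i + 3 := by revert i; decide
theorem z13 (i : ZMod 5) : i + 1 + 3 = i + 4 := by revert i; decide
theorem z42 (i : ZMod 5) : i + 4 + 2 = i + 1 := by revert i; decide
theorem z43 (i : ZMod 5) : i + 4 + 3 = i + 2 := by revert i; decide
theorem z44 (i : ZMod 5) : i + 4 + 4 = i + 3 := by revert i; decide
theorem z21 (i : ZMod 5) : i + 2 + 1 = i + 3 := by revert i; decide
theorem z24 (i : ZMod 5) : i + 2 + 4 = i + 1 := by revert i; decide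
theorem zn1 (i : ZMod 5) : i + 1 ≠ i := by revert i; decide
theorem zn2 (i : ZMod 5) : i + 2 ≠ i := by revert i; decide
theorem zn3 (i : ZMod 5) : i + 3 ≠ i := by revert i; decide
theorem zn4 (i : ZMod 5) : i + 4 ≠ i := by revert i; decide

theorem adjU {i : ZMod 5} {x : V} (h : UU G a i x) (j : ZMod 5) : G.Adj x (a j) ↔ j = i := by
  rcases z5_cases i j with hj | hj | hj | hj | hj
  · rw [hj]; exact ⟨fun _ => rfl, fun _ => h.e0⟩
  · rw [hj]; exact ⟨fun hh => absurd hh h.n1, fun hh => absurd hh (zn1 i)⟩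
  · rw [hj]; exact ⟨fun hh => absurd hh h.n2, fun hh => absurd hh (zn2 i)⟩
  · rw [hj]; exact ⟨fun hh => absurd hh h.n3, fun hh => absurd hh (zn3 i)⟩
  · rw [hj]; exact ⟨fun hh => absurd hh h.n4, fun hh => absurd hh (zn4 i)⟩

theorem zN_aux (i j : ZMod 5) : ((i = i + 1 ∨ i = i + 4) ↔ False) ∧
    ((i + 2 = i + 1 ∨ i + 2 = i + 4) ↔ False) ∧ ((i + 3 = i + 1 ∨ i + 3 = i + 4) ↔ False) := by
  revert i j
  decide

theorem adjN {i : ZMod 5} {x : V} (h : NN G a i x) (j : ZMod 5) :
    G.Adj x (a j) ↔ (j = i + 1 ∨ j = i + 4) := by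
  obtain ⟨q0, q2, q3⟩ := zN_aux i i
  rcases z5_cases i j with hj | hj | hj | hj | hj
  · rw [hj, q0]; exact ⟨fun hh => h.n0 hh, False.elim⟩
  · rw [hj]; exact ⟨fun _ => Or.inl rfl, fun _ => h.e1⟩
  · rw [hj, q2]; exact ⟨fun hh => h.n2 hh, False.elim⟩
  · rw [hj, q3]; exact ⟨fun hh => h.n3 hh, False.elim⟩
  · rw [hj]; exact ⟨fun _ => Or.inr rfl, fun _ => h.e4⟩

theorem part (hK : Tri G) (hc : Cyc G a) (x : V) :
    (∃ i, x = a i) ∨ ZZ G a x ∨ (∃ i, UU G a i x) ∨ ∃ i, NN G a i x := by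
  have hadj : ∀ i, G.Adj (a i) (a (i+1)) := fun i => (hc i (i+1)).2 (Or.inl rfl)
  have hno : ∀ i, G.Adj x (a i) → ¬ G.Adj x (a (i+1)) :=
    fun i h1 h2 => hK x (a i) (a (i+1)) h1 (hadj i) h2
  by_cases hx : ∃ i, x = a i
  · exact Or.inl hx
  right
  by_cases hz : ∃ i, G.Adj x (a i)
  swap
  · left
    intro i hi
    exact hz ⟨i, hi⟩
  right
  obtain ⟨i, hi⟩ := hz
  have h1 := hno i hi
  have h4 : ¬ G.Adj x (a (i + 4)) := by
    intro hh
    have := hno (i + 4) hh
    rw [z41] at this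
    exact this hi
  by_cases h2 : G.Adj x (a (i + 2))
  · have h3 : ¬ G.Adj x (a (i + 3)) := by
      have := hno (i + 2) h2
      rwa [z21] at this
    right
    refine ⟨i + 1, ?_⟩
    unfold NN
    rw [z11, z12, z13, z14]
    exact ⟨h2, hi, h1, h3, h4, fun hh => hx ⟨_, hh⟩⟩
  · by_cases h3 : G.Adj x (a (i + 3))
    · right
      refine ⟨i + 4, ?_⟩
      unfold NN
      rw [z41, z42, z43, z44]
      exact ⟨hi, h3, h4, h1, h2, fun hh => hx ⟨_, hh⟩⟩
    · left
      exact ⟨i, hi, h1, h2, h3, h4⟩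

theorem N_inj_aux : ∀ i j : ZMod 5, (∀ k : ZMod 5, (k = i + 1 ∨ k = i + 4) ↔
    (k = j + 1 ∨ k = j + 4)) → i = j := by decide

theorem N_inj {i j : ZMod 5} {x : V} (h : NN G a i x) (h' : NN G a j x) : i = j :=
  N_inj_aux i j (fun k => (adjN h k).symm.trans (adjN h' k))

theorem UN_ne_aux : ∀ i j : ZMod 5, ¬ (∀ k : ZMod 5, (k = i) ↔ (k = j + 1 ∨ k = j + 4)) := by
  decide

theorem UN_ne {i j : ZMod 5} {x : V} (h : UU G a i x) (h' : NN G a j x) : False :=
  UN_ne_aux i j (fun k => (adjU h k).symm.trans (adjN h' k))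

theorem common (hK : Tri G) {x y : V} {k : ZMod 5} (hx : G.Adj x (a k)) (hy : G.Adj y (a k)) :
    ¬ G.Adj x y := fun h => hK x y (a k) h hy hx

/-- TARGET -/
theorem caseB (hK : Tri G) (hP : NoP G) (hbip : Bip100 G) (hc : Cyc G a) (haS : ∀ i, a i ∈ S)
    (i0 : ZMod 5) (hZ : 6 ≤ (S.filter (ZZ G a)).card) (hU : 5 ≤ (S.filter (UU G a i0)).card) :
    SLin (2 * 10 ^ 8) G S := by
  set ZS := S.filter (ZZ G a) with hZS
  set U0 := S.filter (UU G a i0) with hU0
  have mZ : ∀ z ∈ ZS, ZZ G a z := fun z hz => (Finset.mem_filter.1 hz).2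
  have mU : ∀ u ∈ U0, UU G a i0 u := fun u hu => (Finset.mem_filter.1 hu).2
  have pickU : ∀ A : Finset V, A.card ≤ 4 → ∃ u ∈ U0, u ∉ A := fun A hA =>
    Finset.exists_mem_notMem_of_card_lt_card (by omega)
  have pickZ : ∀ A : Finset V, A.card ≤ 5 → ∃ z ∈ ZS, z ∉ A := fun A hA =>
    Finset.exists_mem_notMem_of_card_lt_card (by omega)
  -- two further elements of U0
  have twoU : ∀ u : V, ∃ u2 ∈ U0, ∃ u3 ∈ U0, u ≠ u2 ∧ u ≠ u3 ∧ u2 ≠ u3 := by
    intro u
    obtain ⟨u2, hu2, h2⟩ := pickU {u} (by rw [Finset.card_singleton]; norm_num)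
    obtain ⟨u3, hu3, h3⟩ := pickU {u, u2} (le_trans Finset.card_le_two (by norm_num))
    simp only [Finset.mem_singleton, Finset.mem_insert, not_or] at h2 h3
    exact ⟨u2, hu2, u3, hu3, fun h => h2 h.symm, fun h => h3.1 h.symm, fun h => h3.2 h.symm⟩
  have twoZ : ∀ z : V, ∃ z2 ∈ ZS, ∃ z3 ∈ ZS, z ≠ z2 ∧ z ≠ z3 ∧ z2 ≠ z3 := by
    intro z
    obtain ⟨z2, hz2, h2⟩ := pickZ {z} (by rw [Finset.card_singleton]; norm_num)
    obtain ⟨z3, hz3, h3⟩ := pickZ {z, z2} (le_trans Finset.card_le_two (by norm_num))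
    simp only [Finset.mem_singleton, Finset.mem_insert, not_or] at h2 h3
    exact ⟨z2, hz2, z3, hz3, fun h => h2 h.symm, fun h => h3.1 h.symm, fun h => h3.2 h.symm⟩
  obtain ⟨ua, hua, -⟩ := pickU ∅ (by simp)
  obtain ⟨za, hza, -⟩ := pickZ ∅ (by simp)
  obtain ⟨ub, hub, uc, huc, hab, hac, hbc⟩ := twoU ua
  obtain ⟨zb, hzb, zc, hzc, zab, zac, zbc⟩ := twoZ za
  -- a vertex of ZS misses at most one vertex of U0
  have miss : ∀ z ∈ ZS, ∀ u ∈ U0, ∀ u2 ∈ U0, u ≠ u2 → ¬ G.Adj z u → ¬ G.Adj z u2 → False :=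
    fun z hz u hu u2 hu2 hne h1 h2 => B1 hK hP hc i0 (mZ z hz) (mU u hu) (mU u2 hu2) hne h1 h2
  -- (1)
  have iZ : Ind G ZS := by
    intro z hz z' hz' hadj
    have key : ∀ u ∈ U0, ¬ G.Adj z u ∨ ¬ G.Adj z' u := by
      intro u hu
      by_contra hcon
      push Not at hcon
      exact hK z z' u hadj hcon.2 hcon.1
    rcases key ua hua with h1 | h1 <;> rcases key ub hub with h2 | h2 <;>
      rcases key uc huc with h3 | h3
    · exact miss z hz ua hua ub hub hab h1 h2
    · exact miss z hz ua hua ub hub hab h1 h2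
    · exact miss z hz ua hua uc huc hac h1 h3
    · exact miss z' hz' ub hub uc huc hbc h2 h3
    · exact miss z hz ub hub uc huc hbc h2 h3
    · exact miss z' hz' ua hua uc huc hac h1 h3
    · exact miss z' hz' ua hua ub hub hab h1 h2
    · exact miss z' hz' ua hua ub hub hab h1 h2
  -- (2)
  have uniq : ∀ u ∈ U0, (∃ z ∈ ZS, ¬ G.Adj u z) → ∀ z1 ∈ ZS, ∀ z2 ∈ ZS, z1 ≠ z2 → G.Adj u z1 →
      G.Adj u z2 → False := by
    rintro u hu ⟨z, hz, hzu⟩ z1 hz1 z2 hz2 hne h1 h2
    exact B3 hK hP hc i0 (mU u hu) (mZ z hz) (mZ z1 hz1) (mZ z2 hz2) hne hzu h1 h2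
      (iZ z hz z1 hz1) (iZ z hz z2 hz2)
  have hcomp : ∃ u0, ∀ u ∈ U0, u ≠ u0 → ∀ z ∈ ZS, G.Adj u z := by
    by_cases hex : ∃ u ∈ U0, ∃ z ∈ ZS, ¬ G.Adj u z
    · obtain ⟨u0, hu0, hu0z⟩ := hex
      refine ⟨u0, fun u hu hne => ?_⟩
      by_contra hcon
      push Not at hcon
      have hu' := uniq u hu hcon
      have hu0' := uniq u0 hu0 hu0z
      have key : ∀ z ∈ ZS, G.Adj u z ∨ G.Adj u0 z := by
        intro z hz
        by_contra hh
        push Not at hh
        exact miss z hz u hu u0 hu0 hne (fun h => hh.1 h.symm) (fun h => hh.2 h.symm)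
      rcases key za hza with h1 | h1 <;> rcases key zb hzb with h2 | h2 <;>
        rcases key zc hzc with h3 | h3
      · exact hu' za hza zb hzb zab h1 h2
      · exact hu' za hza zb hzb zab h1 h2
      · exact hu' za hza zc hzc zac h1 h3
      · exact hu0' zb hzb zc hzc zbc h2 h3
      · exact hu' zb hzb zc hzc zbc h2 h3
      · exact hu0' za hza zc hzc zac h1 h3
      · exact hu0' za hza zb hzb zab h1 h2
      · exact hu0' za hza zb hzb zab h1 h2
    · push Not at hex
      exact ⟨ua, fun u hu _ z hz => hex u hu z hz⟩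
  obtain ⟨u0, hu0⟩ := hcomp
  -- (3)
  have hUj : ∀ j, j ≠ i0 → (S.filter (UU G a j)).card ≤ 2 := by
    intro j hj
    by_contra hcon
    push Not at hcon
    obtain ⟨w, hw, w2, hw2, w3, hw3, d1, d2, d3⟩ := Finset.two_lt_card.1 hcon
    have e1 := (Finset.mem_filter.1 hw).2
    have e2 := (Finset.mem_filter.1 hw2).2
    have e3 := (Finset.mem_filter.1 hw3).2
    rcases z5_cases i0 j with h | h | h | h | h
    · exact hj h
    · subst h
      exact B4a hK hP hc i0 (mZ za hza) (mU ua hua) (mU ub hub) e1 e2 e3 hab d1 d2 d3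
    · subst h
      exact B4b hK hP hc i0 (mZ za hza) (mU ua hua) (mU ub hub) e1 e2 e3 hab d1 d2 d3
    · subst h
      exact B4bm hK hP hc i0 (mZ za hza) (mU ua hua) (mU ub hub) e1 e2 e3 hab d1 d2 d3
    · subst h
      exact B4am hK hP hc i0 (mZ za hza) (mU ua hua) (mU ub hub) e1 e2 e3 hab d1 d2 d3
  -- (4)
  let N0 : ZMod 5 → Finset V := fun i =>
    if 5 ≤ (S.filter (NN G a i)).card then S.filter (NN G a i) else ∅
  let FU : ZMod 5 → Finset V := fun j => if j = i0 then ∅ else S.filter (UU G a j)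
  let FN : ZMod 5 → Finset V := fun i =>
    if 5 ≤ (S.filter (NN G a i)).card then ∅ else S.filter (NN G a i)
  have mN : ∀ i, ∀ x ∈ N0 i, NN G a i x := by
    intro i x hx
    simp only [N0] at hx
    split_ifs at hx with hh
    · exact (Finset.mem_filter.1 hx).2
    · simp at hx
  let F : Finset V := Finset.univ.image a ∪ Finset.univ.biUnion FU ∪ Finset.univ.biUnion FN ∪ {u0}
  have hFcard : F.card ≤ 5 + 5 * 2 + 5 * 4 + 1 := by
    have c5 : (Finset.univ : Finset (ZMod 5)).card = 5 := by decide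
    have t1 : (Finset.univ.image a).card ≤ 5 := by
      refine Finset.card_image_le.trans ?_
      rw [c5]
    have t2 : (Finset.univ.biUnion FU).card ≤ 5 * 2 := by
      have := Finset.card_biUnion_le_card_mul (Finset.univ : Finset (ZMod 5)) FU 2 (by
        intro j _
        simp only [FU]
        split_ifs with hh
        · simp
        · exact hUj j hh)
      rwa [c5] at this
    have t3 : (Finset.univ.biUnion FN).card ≤ 5 * 4 := by
      have := Finset.card_biUnion_le_card_mul (Finset.univ : Finset (ZMod 5)) FN 4 (by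
        intro j _
        simp only [FN]
        split_ifs with hh
        · simp
        · omega)
      rwa [c5] at this
    have t4 : ({u0} : Finset V).card = 1 := Finset.card_singleton _
    have q1 := Finset.card_union_le (Finset.univ.image a ∪ Finset.univ.biUnion FU ∪
      Finset.univ.biUnion FN) {u0}
    have q2 := Finset.card_union_le (Finset.univ.image a ∪ Finset.univ.biUnion FU)
      (Finset.univ.biUnion FN)
    have q3 := Finset.card_union_le (Finset.univ.image a) (Finset.univ.biUnion FU)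
    show (Finset.univ.image a ∪ Finset.univ.biUnion FU ∪
      Finset.univ.biUnion FN ∪ {u0}).card ≤ _
    omega
  have hsub : S \ F ⊆ ZS ∪ (U0 \ {u0}) ∪ Finset.univ.biUnion N0 := by
    intro x hx
    rw [Finset.mem_sdiff] at hx
    obtain ⟨hxS, hxF⟩ := hx
    have hxF' : x ∉ Finset.univ.image a ∧ x ∉ Finset.univ.biUnion FU ∧
        x ∉ Finset.univ.biUnion FN ∧ x ≠ u0 := by
      simp only [F, Finset.mem_union, not_or, Finset.mem_singleton] at hxF
      tauto
    obtain ⟨f1, f2, f3, f4⟩ := hxF'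
    rcases part hK hc x with ⟨i, hi⟩ | hz | ⟨i, hi⟩ | ⟨i, hi⟩
    · exact absurd (Finset.mem_image.2 ⟨i, Finset.mem_univ i, hi.symm⟩) f1
    · exact Finset.mem_union_left _ (Finset.mem_union_left _ (Finset.mem_filter.2 ⟨hxS, hz⟩))
    · by_cases hii : i = i0
      · subst hii
        refine Finset.mem_union_left _ (Finset.mem_union_right _ ?_)
        rw [Finset.mem_sdiff, Finset.mem_singleton]
        exact ⟨Finset.mem_filter.2 ⟨hxS, hi⟩, f4⟩
      · exfalso
        apply f2
        rw [Finset.mem_biUnion]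
        refine ⟨i, Finset.mem_univ i, ?_⟩
        simp only [FU]
        rw [if_neg hii]
        exact Finset.mem_filter.2 ⟨hxS, hi⟩
    · refine Finset.mem_union_right _ ?_
      rw [Finset.mem_biUnion]
      refine ⟨i, Finset.mem_univ i, ?_⟩
      by_cases h5 : 5 ≤ (S.filter (NN G a i)).card
      · simp only [N0]
        rw [if_pos h5]
        exact Finset.mem_filter.2 ⟨hxS, hi⟩
      · exfalso
        apply f3
        rw [Finset.mem_biUnion]
        refine ⟨i, Finset.mem_univ i, ?_⟩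
        simp only [FN]
        rw [if_neg h5]
        exact Finset.mem_filter.2 ⟨hxS, hi⟩
  have mUs : ∀ u ∈ U0 \ {u0}, u ∈ U0 ∧ u ≠ u0 := by
    intro u hu
    rw [Finset.mem_sdiff, Finset.mem_singleton] at hu
    exact hu
  have hcore : SLin (10 ^ 8) G (ZS ∪ (U0 \ {u0}) ∪ Finset.univ.biUnion N0) := by
    apply coreB hbip ZS (U0 \ {u0}) N0 i0
    · rw [Finset.disjoint_left]
      intro x hx hx'
      exact mZ x hx i0 (mU x (mUs x hx').1).e0
    · intro i
      rw [Finset.disjoint_left]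
      intro x hx hx'
      exact mZ x hx (i + 1) (mN i x hx').e1
    · intro i
      rw [Finset.disjoint_left]
      intro x hx hx'
      exact UN_ne (mU x (mUs x hx).1) (mN i x hx')
    · intro i j hij
      rw [Finset.disjoint_left]
      intro x hx hx'
      exact hij (N_inj (mN i x hx) (mN j x hx'))
    · exact iZ
    · intro x hx y hy
      exact common hK (mU x (mUs x hx).1).e0 (mU y (mUs y hy).1).e0
    · intro i x hx y hy
      exact common hK (mN i x hx).e1 (mN i y hy).e1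
    · intro i x hx y hy
      have hy4 : G.Adj y (a (i + 1)) := by
        rw [adjN (mN (i + 2) y hy)]
        right
        exact (z24 i).symm
      exact common hK (mN i x hx).e1 hy4
    · -- z0
      intro x hx
      by_contra hcon
      push Not at hcon
      obtain ⟨⟨z2, hz2, h2⟩, ⟨z, hz, h1⟩⟩ := hcon
      obtain ⟨z3, hz3, h3⟩ := pickZ {z, z2} (le_trans Finset.card_le_two (by norm_num))
      simp only [Finset.mem_singleton, Finset.mem_insert, not_or] at h3
      exact B7a hK hP hc i0 (mN i0 x hx) (mZ z hz) (mZ z2 hz2) (mZ z3 hz3) (mU ua hua)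
        (mU ub hub) (mU uc huc) (fun h => h3.1 h.symm) (fun h => h3.2 h.symm) hab hac hbc h1 h2
    · -- u0
      intro x hx
      by_contra hcon
      push Not at hcon
      obtain ⟨⟨u', hu', h2⟩, ⟨u, hu, h1⟩⟩ := hcon
      obtain ⟨v2, hv2, v3, hv3, d1, d2, d3⟩ := twoU u'
      have hxz : ¬ G.Adj x za := by
        intro hh
        exact hK x za u hh (hu0 u (mUs u hu).1 (mUs u hu).2 za hza).symm h1
      exact B7b hK hP hc i0 (mN i0 x hx) (mZ za hza) (mZ zb hzb) (mZ zc hzc)
        (mU u' (mUs u' hu').1) (mU v2 hv2) (mU v3 hv3) zab zac zbc d1 d2 d3 hxz h2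
    · -- z1
      intro i hi x hx z hz hadj
      rcases z5_cases i0 i with h | h | h | h | h
      · exact hi h
      · subst h
        exact B5 hK hP hc i0 (mZ z hz) (mU ua hua) (mU ub hub) (mN _ x hx) hab hadj.symm
      · subst h
        exact B6 hK hP hc i0 (mZ z hz) (mU ua hua) (mU ub hub) (mU uc huc) (mN _ x hx) hab hac hbc
          hadj.symm
      · subst h
        exact B6m hK hP hc i0 (mZ z hz) (mU ua hua) (mU ub hub) (mU uc huc) (mN _ x hx) hab hac hbc
          hadj.symm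
      · subst h
        exact B5m hK hP hc i0 (mZ z hz) (mU ua hua) (mU ub hub) (mN _ x hx) hab hadj.symm
    · -- u1
      intro i hi x hx u hu hadj
      have hu1 := mU u (mUs u hu).1
      obtain ⟨v2, hv2, v3, hv3, d1, d2, d3⟩ := twoU u
      rcases z5_cases i0 i with h | h | h | h | h
      · exact hi h
      · subst h
        have hx4 : G.Adj x (a i0) := by
          rw [adjN (mN _ x hx)]
          right
          exact (z14 i0).symm
        exact common hK hx4 hu1.e0 hadj
      · subst h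
        exact B8 hK hP hc i0 (mN _ x hx) hu1 (mU v2 hv2) (mU v3 hv3) (mZ za hza) (mZ zb hzb)
          d1 d2 d3 zab hadj
      · subst h
        exact B8m hK hP hc i0 (mN _ x hx) hu1 (mU v2 hv2) (mU v3 hv3) (mZ za hza) (mZ zb hzb)
          d1 d2 d3 zab hadj
      · subst h
        have hx4 : G.Adj x (a i0) := by
          rw [adjN (mN _ x hx)]
          left
          exact (z41 i0).symm
        exact common hK hx4 hu1.e0 hadj
    · -- a4
      rintro i x hx ⟨⟨⟨y2, hy2, k2⟩, ⟨y, hy, k1⟩⟩, ⟨-, ⟨w, hw, k3⟩⟩⟩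
      refine F1 hK hP hc i (mN i x hx) (mN _ y hy) (mN _ y2 hy2) (mN _ w hw) ?_ k1 k3
      intro hh
      subst hh
      exact k1 k2
  have h1 : SLin (10 ^ 8) G (S \ F) := hcore.subset hsub
  have h2 := SLin.add F h1
  exact h2.mono_k (by omega)

end Pool.Agent.Helper856.Cw.CaseB
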