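import Pool.Agent.Helper856.Cw.Blocks

open Classical SimpleGraph

namespace Pool.Agent.Helper856.Cw.Triple

variable {V : Type} {G : SimpleGraph V} {S T : Finset V} {k l : ℕ}

/-- a subset of the union of two disjoint independent sets -/
theorem bip_sub132 (hbip : Bip100 G) {X Y T : Finset V} (dXY : Disjoint X Y) (iX : Ind G X)
    (iY : Ind G Y) (hT : T ⊆ X ∪ Y) : SLin 100 G T := by
  have h1 : T = (T.filter (fun x => x ∈ X)) ∪ (T.filter (fun x => x ∈ Y)) := by
    ext x
    simp only [Finset.mem_union, Finset.mem_filter]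
    constructor
    · intro hx
      rcases Finset.mem_union.1 (hT hx) with h | h
      · exact Or.inl ⟨hx, h⟩
      · exact Or.inr ⟨hx, h⟩
    · rintro (h | h) <;> exact h.1
  rw [h1]
  refine hbip _ _ ?_ ?_ ?_
  · rw [Finset.disjoint_left]
    intro x hx hy
    exact Finset.disjoint_left.1 dXY (Finset.mem_filter.1 hx).2 (Finset.mem_filter.1 hy).2
  · intro x hx y hy
    exact iX x (Finset.mem_filter.1 hx).2 y (Finset.mem_filter.1 hy).2
  · intro x hx y hy
    exact iY x (Finset.mem_filter.1 hx).2 y (Finset.mem_filter.1 hy).2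

/-- TARGET -/
theorem triple_lemma (hK : Tri G) (hbip : Bip100 G) (U A B : Finset V)
    (dUA : Disjoint U A) (dUB : Disjoint U B) (dAB : Disjoint A B)
    (iU : Ind G U) (iA : Ind G A) (iB : Ind G B)
    (t2 : ∀ u ∈ U, ∀ a ∈ A, ∀ a' ∈ A, ∀ b ∈ B, a ≠ a' → ¬G.Adj u a → ¬G.Adj u a' → ¬G.Adj u b →
      G.Adj a b)
    (t3 : ∀ u ∈ U, ∀ a ∈ A, ∀ b ∈ B, ∀ b' ∈ B, b ≠ b' → ¬G.Adj u a → ¬G.Adj u b → ¬G.Adj u b' →
      G.Adj a b)
    (p1 : ∀ u ∈ U, ∀ u' ∈ U, ∀ b ∈ B, ∀ b' ∈ B, ∀ b'' ∈ B, b ≠ b' → G.Adj u b → G.Adj u b' →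
      ¬G.Adj u b'' → ¬G.Adj u' b → ¬G.Adj u' b' → G.Adj u' b'' → False)
    (p2 : ∀ u ∈ A, ∀ u' ∈ A, ∀ b ∈ B, ∀ b' ∈ B, ∀ b'' ∈ B, b ≠ b' → G.Adj u b → G.Adj u b' →
      ¬G.Adj u b'' → ¬G.Adj u' b → ¬G.Adj u' b' → G.Adj u' b'' → False) :
    SLin 400 G (U ∪ A ∪ B) := by
  by_cases hT0 : ∃ u0 ∈ U, (A.filter (fun a => ¬ G.Adj u0 a)).card ≤ 1 ∧
      (B.filter (fun b => ¬ G.Adj u0 b)).card ≤ 1
  · obtain ⟨u0, hu0, hA1, hB1⟩ := hT0
    set FA := A.filter (fun a => ¬ G.Adj u0 a) with hFA
    set FB := B.filter (fun b => ¬ G.Adj u0 b) with hFB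
    have hcard : (FA ∪ FB).card ≤ 2 := by
      refine (Finset.card_union_le _ _).trans ?_
      omega
    have hind : Ind G ((A.filter (fun a => G.Adj u0 a)) ∪ (B.filter (fun b => G.Adj u0 b))) := by
      intro x hx y hy hxy
      have hx' : G.Adj u0 x := by
        rcases Finset.mem_union.1 hx with h | h <;> exact (Finset.mem_filter.1 h).2
      have hy' : G.Adj u0 y := by
        rcases Finset.mem_union.1 hy with h | h <;> exact (Finset.mem_filter.1 h).2
      exact hK u0 x y hx' hxy hy'
    have hdis : Disjoint U ((A.filter (fun a => G.Adj u0 a)) ∪ (B.filter (fun b => G.Adj u0 b))) := by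
      rw [Finset.disjoint_left]
      intro x hx hy
      rcases Finset.mem_union.1 hy with h | h
      · exact Finset.disjoint_left.1 dUA hx (Finset.mem_filter.1 h).1
      · exact Finset.disjoint_left.1 dUB hx (Finset.mem_filter.1 h).1
    have h100 : SLin 100 G ((U ∪ A ∪ B) \ (FA ∪ FB)) := by
      refine bip_sub132 hbip hdis iU hind ?_
      intro x hx
      obtain ⟨hx1, hx2⟩ := Finset.mem_sdiff.1 hx
      simp only [Finset.mem_union, hFA, hFB, Finset.mem_filter, not_or, not_and, not_not] at hx1 hx2 ⊢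
      rcases hx1 with (h | h) | h
      · exact Or.inl h
      · exact Or.inr (Or.inl ⟨h, hx2.1 h⟩)
      · exact Or.inr (Or.inr ⟨h, hx2.2 h⟩)
    exact (SLin.add _ h100).mono_k (by omega)
  · have hT1 : ∀ u ∈ U, 1 < (A.filter (fun a => ¬ G.Adj u a)).card ∨
        1 < (B.filter (fun b => ¬ G.Adj u b)).card := by
      intro u hu
      by_contra hcon
      push Not at hcon
      exact hT0 ⟨u, hu, hcon.1, hcon.2⟩
    have NAE1 : ∀ u ∈ U, ∀ a ∈ A, ∀ b ∈ B, ¬ G.Adj u a → ¬ G.Adj u b → G.Adj a b := by
      intro u hu a ha b hb hua hub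
      rcases hT1 u hu with h | h
      · obtain ⟨a', ha', hne⟩ := Finset.exists_mem_ne h a
        obtain ⟨ha'1, ha'2⟩ := Finset.mem_filter.1 ha'
        exact t2 u hu a ha a' ha'1 b hb (Ne.symm hne) hua ha'2 hub
      · obtain ⟨b', hb', hne⟩ := Finset.exists_mem_ne h b
        obtain ⟨hb'1, hb'2⟩ := Finset.mem_filter.1 hb'
        exact t3 u hu a ha b hb b' hb'1 (Ne.symm hne) hua hub hb'2
    have NAE2 : ∀ u ∈ U, ∀ a ∈ A, ∀ b ∈ B, G.Adj u a → G.Adj u b → ¬ G.Adj a b := by
      intro u hu a ha b hb hua hub hab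
      exact hK u a b hua hab hub
    let bb : V → Finset V := fun x =>
      if x ∈ U then B.filter (fun b => G.Adj x b) else B.filter (fun b => ¬ G.Adj x b)
    have mU : ∀ u ∈ U, ∀ b, b ∈ bb u ↔ b ∈ B ∧ G.Adj u b := by
      intro u hu b
      simp only [bb, if_pos hu, Finset.mem_filter]
    have mA : ∀ a ∈ A, ∀ b, b ∈ bb a ↔ b ∈ B ∧ ¬ G.Adj a b := by
      intro a ha b
      have : a ∉ U := fun h => Finset.disjoint_left.1 dUA h ha
      simp only [bb, if_neg this, Finset.mem_filter]
    have bbB : ∀ x, bb x ⊆ B := by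
      intro x b hb
      simp only [bb] at hb
      split_ifs at hb with h <;> exact (Finset.mem_filter.1 hb).1
    have bbcard : ∀ x, (bb x).card ≤ B.card := fun x => Finset.card_le_card (bbB x)
    -- U against A
    have f1 : ∀ u ∈ U, ∀ a ∈ A, (bb u).card < (bb a).card → G.Adj u a ∧ bb u ⊆ bb a := by
      intro u hu a ha hlt
      obtain ⟨b, hb1, hb2⟩ := Finset.exists_mem_notMem_of_card_lt_card hlt
      obtain ⟨hbB, hab⟩ := (mA a ha b).1 hb1
      have hub : ¬ G.Adj u b := fun h => hb2 ((mU u hu b).2 ⟨hbB, h⟩)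
      have hua : G.Adj u a := by
        by_contra h
        exact hab (NAE1 u hu a ha b hbB h hub)
      refine ⟨hua, fun b' hb' => ?_⟩
      obtain ⟨h1, h2⟩ := (mU u hu b').1 hb'
      exact (mA a ha b').2 ⟨h1, NAE2 u hu a ha b' h1 hua h2⟩
    have f2 : ∀ u ∈ U, ∀ a ∈ A, (bb a).card < (bb u).card → ¬ G.Adj u a ∧ bb a ⊆ bb u := by
      intro u hu a ha hlt
      obtain ⟨b, hb1, hb2⟩ := Finset.exists_mem_notMem_of_card_lt_card hlt
      obtain ⟨hbB, hub⟩ := (mU u hu b).1 hb1
      have hab : G.Adj a b := by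
        by_contra h
        exact hb2 ((mA a ha b).2 ⟨hbB, h⟩)
      have hua : ¬ G.Adj u a := fun h => NAE2 u hu a ha b hbB h hub hab
      refine ⟨hua, fun b' hb' => ?_⟩
      obtain ⟨h1, h2⟩ := (mA a ha b').1 hb'
      refine (mU u hu b').2 ⟨h1, ?_⟩
      by_contra h
      exact h2 (NAE1 u hu a ha b' h1 hua h)
    have f3 : ∀ u ∈ U, ∀ a ∈ A, (bb u).card = (bb a).card → bb u = bb a := by
      intro u hu a ha heq
      by_contra hne
      have h1 : ¬ bb u ⊆ bb a := fun h => hne (Finset.eq_of_subset_of_card_le h heq.ge)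
      have h2 : ¬ bb a ⊆ bb u := fun h => hne (Finset.eq_of_subset_of_card_le h heq.le).symm
      obtain ⟨b1, hb1, hb1'⟩ := Finset.not_subset.1 h1
      obtain ⟨b2, hb2, hb2'⟩ := Finset.not_subset.1 h2
      obtain ⟨q1, q2⟩ := (mU u hu b1).1 hb1
      obtain ⟨q3, q4⟩ := (mA a ha b2).1 hb2
      have q5 : G.Adj a b1 := by
        by_contra h
        exact hb1' ((mA a ha b1).2 ⟨q1, h⟩)
      have q6 : ¬ G.Adj u b2 := fun h => hb2' ((mU u hu b2).2 ⟨q3, h⟩)
      have q7 : ¬ G.Adj u a := fun h => NAE2 u hu a ha b1 q1 h q2 q5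
      exact q4 (NAE1 u hu a ha b2 q3 q7 q6)
    -- two elements of a difference
    have two : ∀ P Q : Finset V, P.card < Q.card → ∀ b'', b'' ∈ P → b'' ∉ Q →
        ∃ b ∈ Q \ P, ∃ b' ∈ Q \ P, b ≠ b' := by
      intro P Q hlt b'' h1 h2
      have e1 : (Q \ P).card + (Q ∩ P).card = Q.card := Finset.card_sdiff_add_card_inter Q P
      have e2 : (P \ Q).card + (P ∩ Q).card = P.card := Finset.card_sdiff_add_card_inter P Q
      have e3 : (Q ∩ P).card = (P ∩ Q).card := by rw [Finset.inter_comm]
      have e4 : 0 < (P \ Q).card := Finset.card_pos.2 ⟨b'', Finset.mem_sdiff.2 ⟨h1, h2⟩⟩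
      have e5 : 1 < (Q \ P).card := by omega
      obtain ⟨b, hb, b', hb', hne⟩ := Finset.one_lt_card.1 e5
      exact ⟨b, hb, b', hb', hne⟩
    have f4 : ∀ x ∈ U, ∀ x' ∈ U, (bb x).card < (bb x').card → bb x ⊆ bb x' := by
      intro x hx x' hx' hlt
      by_contra hcon
      obtain ⟨b'', hb1, hb2⟩ := Finset.not_subset.1 hcon
      obtain ⟨b, hb, b', hb', hne⟩ := two _ _ hlt b'' hb1 hb2
      rw [Finset.mem_sdiff] at hb hb'
      obtain ⟨r1, r2⟩ := (mU x' hx' b).1 hb.1
      obtain ⟨r3, r4⟩ := (mU x' hx' b').1 hb'.1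
      obtain ⟨r5, r6⟩ := (mU x hx b'').1 hb1
      have s1 : ¬ G.Adj x b := fun h => hb.2 ((mU x hx b).2 ⟨r1, h⟩)
      have s2 : ¬ G.Adj x b' := fun h => hb'.2 ((mU x hx b').2 ⟨r3, h⟩)
      have s3 : ¬ G.Adj x' b'' := fun h => hb2 ((mU x' hx' b'').2 ⟨r5, h⟩)
      exact p1 x' hx' x hx b r1 b' r3 b'' r5 hne r2 r4 s3 s1 s2 r6
    have f5 : ∀ x ∈ A, ∀ x' ∈ A, (bb x).card < (bb x').card → bb x ⊆ bb x' := by
      intro x hx x' hx' hlt
      by_contra hcon
      obtain ⟨b'', hb1, hb2⟩ := Finset.not_subset.1 hcon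
      obtain ⟨b, hb, b', hb', hne⟩ := two _ _ hlt b'' hb1 hb2
      rw [Finset.mem_sdiff] at hb hb'
      obtain ⟨r1, r2⟩ := (mA x' hx' b).1 hb.1
      obtain ⟨r3, r4⟩ := (mA x' hx' b').1 hb'.1
      obtain ⟨r5, r6⟩ := (mA x hx b'').1 hb1
      have s1 : G.Adj x b := by
        by_contra h
        exact hb.2 ((mA x hx b).2 ⟨r1, h⟩)
      have s2 : G.Adj x b' := by
        by_contra h
        exact hb'.2 ((mA x hx b').2 ⟨r3, h⟩)
      have s3 : G.Adj x' b'' := by
        by_contra h
        exact hb2 ((mA x' hx' b'').2 ⟨r5, h⟩)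
      exact p2 x hx x' hx' b r1 b' r3 b'' r5 hne s1 s2 r6 r2 r4 s3
    have f6 : ∀ x ∈ U ∪ A, ∀ x' ∈ U ∪ A, (bb x).card < (bb x').card → bb x ⊆ bb x' := by
      intro x hx x' hx' hlt
      rcases Finset.mem_union.1 hx with h | h <;> rcases Finset.mem_union.1 hx' with h' | h'
      · exact f4 x h x' h' hlt
      · exact (f1 x h x' h' hlt).2
      · exact (f2 x' h' x h hlt).2
      · exact f5 x h x' h' hlt
    let mixed : ℕ → Prop := fun c => (∃ u ∈ U, (bb u).card = c) ∧ (∃ a ∈ A, (bb a).card = c)
    have f7 : ∀ c, mixed c → ∀ x ∈ U ∪ A, ∀ x' ∈ U ∪ A, (bb x).card = c → (bb x').card = c →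
        bb x = bb x' := by
      rintro c ⟨⟨u, hu, huc⟩, ⟨a, ha, hac⟩⟩ x hx x' hx' hxc hxc'
      have key : ∀ y ∈ U ∪ A, (bb y).card = c → bb y = bb u := by
        intro y hy hyc
        rcases Finset.mem_union.1 hy with h | h
        · rw [f3 y h a ha (by omega), f3 u hu a ha (by omega)]
        · exact (f3 u hu y h (by omega)).symm
      rw [key x hx hxc, key x' hx' hxc']
    let ex : V → Prop := fun b => ∃ x ∈ U ∪ A, b ∈ bb x
    let lam : V → ℕ := fun b => sInf {c | ∃ x ∈ U ∪ A, b ∈ bb x ∧ (bb x).card = c}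
    have lam_mem : ∀ b, ex b → ∃ x ∈ U ∪ A, b ∈ bb x ∧ (bb x).card = lam b := by
      rintro b ⟨x, hx, hxb⟩
      have : (sInf {c | ∃ x ∈ U ∪ A, b ∈ bb x ∧ (bb x).card = c}) ∈
          {c | ∃ x ∈ U ∪ A, b ∈ bb x ∧ (bb x).card = c} := Nat.sInf_mem ⟨_, x, hx, hxb, rfl⟩
      exact this
    have lam_le : ∀ b, ∀ x ∈ U ∪ A, b ∈ bb x → lam b ≤ (bb x).card := by
      intro b x hx hxb
      exact Nat.sInf_le ⟨x, hx, hxb, rfl⟩
    let β : V → ℕ := fun x =>
      if x ∈ U ∪ A then 2 * (bb x).card + 1
      else if ex x then (if mixed (lam x) then 2 * lam x else 2 * lam x + 1)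
      else 2 * B.card + 5
    have β1 : ∀ x ∈ U ∪ A, β x = 2 * (bb x).card + 1 := by
      intro x hx
      simp only [β, if_pos hx]
    have BnotUA : ∀ b ∈ B, b ∉ U ∪ A := by
      intro b hb h
      rcases Finset.mem_union.1 h with h | h
      · exact Finset.disjoint_left.1 dUB h hb
      · exact Finset.disjoint_left.1 dAB h hb
    have β2 : ∀ b ∈ B, ex b → mixed (lam b) → β b = 2 * lam b := by
      intro b hb h1 h2
      simp only [β, if_neg (BnotUA b hb), if_pos h1, if_pos h2]
    have β3 : ∀ b ∈ B, ex b → ¬ mixed (lam b) → β b = 2 * lam b + 1 := by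
      intro b hb h1 h2
      simp only [β, if_neg (BnotUA b hb), if_pos h1, if_neg h2]
    have β4 : ∀ b ∈ B, ¬ ex b → β b = 2 * B.card + 5 := by
      intro b hb h1
      simp only [β, if_neg (BnotUA b hb), if_neg h1]
    -- b later than x
    have g1 : ∀ x ∈ U ∪ A, ∀ b ∈ B, β x < β b → b ∉ bb x := by
      intro x hx b hb hlt hbx
      have h1 := lam_le b x hx hbx
      have hex : ex b := ⟨x, hx, hbx⟩
      rw [β1 x hx] at hlt
      by_cases hm : mixed (lam b)
      · rw [β2 b hb hex hm] at hlt; omega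
      · rw [β3 b hb hex hm] at hlt; omega
    have g2 : ∀ x ∈ U ∪ A, ∀ b ∈ B, β b < β x → b ∈ bb x := by
      intro x hx b hb hlt
      rw [β1 x hx] at hlt
      by_cases hex : ex b
      · obtain ⟨y, hy, hby, hyc⟩ := lam_mem b hex
        by_cases hm : mixed (lam b)
        · rw [β2 b hb hex hm] at hlt
          rcases Nat.lt_or_ge (lam b) (bb x).card with h | h
          · exact f6 y hy x hx (by omega) hby
          · have : (bb x).card = lam b := by omega
            rw [f7 (lam b) hm x hx y hy this hyc]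
            exact hby
        · rw [β3 b hb hex hm] at hlt
          exact f6 y hy x hx (by omega) hby
      · rw [β4 b hb hex] at hlt
        have := bbcard x
        omega
    have memU : ∀ {x}, x ∈ U → x ∈ U ∪ A := fun h => Finset.mem_union_left _ h
    have memA : ∀ {x}, x ∈ A → x ∈ U ∪ A := fun h => Finset.mem_union_right _ h
    have cls : ∀ x ∈ U ∪ A ∪ B, ∀ w ∈ U ∪ A ∪ B, β x < β w →
        (G.Adj x w ↔ ((x ∈ U ∧ w ∈ A) ∨ (x ∈ A ∧ w ∈ B) ∨ (x ∈ B ∧ w ∈ U))) := by
      intro x hx w hw hlt
      have nUA : ∀ y, y ∈ U → y ∈ A → False := fun y h1 h2 => Finset.disjoint_left.1 dUA h1 h2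
      have nUB : ∀ y, y ∈ U → y ∈ B → False := fun y h1 h2 => Finset.disjoint_left.1 dUB h1 h2
      have nAB : ∀ y, y ∈ A → y ∈ B → False := fun y h1 h2 => Finset.disjoint_left.1 dAB h1 h2
      rcases Finset.mem_union.1 hx with hx | hx
      · rcases Finset.mem_union.1 hx with hxU | hxA
        · rcases Finset.mem_union.1 hw with hw | hwB
          · rcases Finset.mem_union.1 hw with hwU | hwA
            · constructor
              · intro h; exact absurd h (iU x hxU w hwU)
              · rintro (⟨_, h⟩ | ⟨h, _⟩ | ⟨h, _⟩)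
                · exact (nUA w hwU h).elim
                · exact (nUA x hxU h).elim
                · exact (nUB x hxU h).elim
            · rw [β1 x (memU hxU), β1 w (memA hwA)] at hlt
              exact ⟨fun _ => Or.inl ⟨hxU, hwA⟩, fun _ => (f1 x hxU w hwA (by omega)).1⟩
          · have h1 := g1 x (memU hxU) w hwB hlt
            constructor
            · intro h; exact absurd ((mU x hxU w).2 ⟨hwB, h⟩) h1
            · rintro (⟨_, h⟩ | ⟨h, _⟩ | ⟨h, _⟩)
              · exact (nAB w h hwB).elim
              · exact (nUA x hxU h).elim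
              · exact (nUB x hxU h).elim
        · rcases Finset.mem_union.1 hw with hw | hwB
          · rcases Finset.mem_union.1 hw with hwU | hwA
            · rw [β1 x (memA hxA), β1 w (memU hwU)] at hlt
              constructor
              · intro h; exact absurd h.symm (f2 w hwU x hxA (by omega)).1
              · rintro (⟨h, _⟩ | ⟨_, h⟩ | ⟨h, _⟩)
                · exact (nUA x h hxA).elim
                · exact (nUB w hwU h).elim
                · exact (nAB x hxA h).elim
            · constructor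
              · intro h; exact absurd h (iA x hxA w hwA)
              · rintro (⟨h, _⟩ | ⟨_, h⟩ | ⟨h, _⟩)
                · exact (nUA x h hxA).elim
                · exact (nAB w hwA h).elim
                · exact (nAB x hxA h).elim
          · have h1 := g1 x (memA hxA) w hwB hlt
            refine ⟨fun _ => Or.inr (Or.inl ⟨hxA, hwB⟩), fun _ => ?_⟩
            by_contra h
            exact h1 ((mA x hxA w).2 ⟨hwB, h⟩)
      · rcases Finset.mem_union.1 hw with hw | hwB
        · rcases Finset.mem_union.1 hw with hwU | hwA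
          · have h1 := g2 w (memU hwU) x hx hlt
            exact ⟨fun _ => Or.inr (Or.inr ⟨hx, hwU⟩), fun _ => ((mU w hwU x).1 h1).2.symm⟩
          · have h1 := g2 w (memA hwA) x hx hlt
            constructor
            · intro h; exact absurd h.symm ((mA w hwA x).1 h1).2
            · rintro (⟨h, _⟩ | ⟨h, _⟩ | ⟨_, h⟩)
              · exact (nUB x h hx).elim
              · exact (nAB x h hx).elim
              · exact (nUA w h hwA).elim
        · constructor
          · intro h; exact absurd h (iB x hx w hwB)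
          · rintro (⟨h, _⟩ | ⟨h, _⟩ | ⟨_, h⟩)
            · exact (nUB x h hx).elim
            · exact (nAB x h hx).elim
            · exact (nUB w h hwB).elim
    let cc : V → Fin 3 := fun x => if x ∈ U then 0 else if x ∈ A then 1 else 2
    have hcc : ∀ u ∈ U ∪ A ∪ B, ∀ v ∈ U ∪ A ∪ B, cc u = cc v →
        (u ∈ U ↔ v ∈ U) ∧ (u ∈ A ↔ v ∈ A) ∧ (u ∈ B ↔ v ∈ B) := by
      intro u hu v hv h
      have nUA : ∀ y, y ∈ U → y ∉ A := fun y h1 h2 => Finset.disjoint_left.1 dUA h1 h2
      have nUB : ∀ y, y ∈ U → y ∉ B := fun y h1 h2 => Finset.disjoint_left.1 dUB h1 h2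
      have nAB : ∀ y, y ∈ A → y ∉ B := fun y h1 h2 => Finset.disjoint_left.1 dAB h1 h2
      have v0 : ∀ y, y ∈ U → cc y = 0 := fun y h => by simp only [cc, if_pos h]
      have v1 : ∀ y, y ∈ A → cc y = 1 := fun y h => by
        have : y ∉ U := fun h' => nUA y h' h
        simp only [cc, if_neg this, if_pos h]
      have v2 : ∀ y, y ∈ B → cc y = 2 := fun y h => by
        have h1 : y ∉ U := fun h' => nUB y h' h
        have h2 : y ∉ A := fun h' => nAB y h' h
        simp only [cc, if_neg h1, if_neg h2]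
      have w0 : ∀ y ∈ U ∪ A ∪ B, cc y = 0 → y ∈ U := by
        intro y hy hc
        rcases Finset.mem_union.1 hy with h | h
        · rcases Finset.mem_union.1 h with h | h
          · exact h
          · rw [v1 y h] at hc; exact absurd hc (by decide)
        · rw [v2 y h] at hc; exact absurd hc (by decide)
      have w1 : ∀ y ∈ U ∪ A ∪ B, cc y = 1 → y ∈ A := by
        intro y hy hc
        rcases Finset.mem_union.1 hy with h | h
        · rcases Finset.mem_union.1 h with h | h
          · rw [v0 y h] at hc; exact absurd hc (by decide)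
          · exact h
        · rw [v2 y h] at hc; exact absurd hc (by decide)
      have w2 : ∀ y ∈ U ∪ A ∪ B, cc y = 2 → y ∈ B := by
        intro y hy hc
        rcases Finset.mem_union.1 hy with h | h
        · rcases Finset.mem_union.1 h with h | h
          · rw [v0 y h] at hc; exact absurd hc (by decide)
          · rw [v1 y h] at hc; exact absurd hc (by decide)
        · exact h
      refine ⟨⟨fun hx => w0 v hv (h ▸ v0 u hx), fun hx => w0 u hu (h.trans (v0 v hx))⟩,
        ⟨fun hx => w1 v hv (h ▸ v1 u hx), fun hx => w1 u hu (h.trans (v1 v hx))⟩,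
        ⟨fun hx => w2 v hv (h ▸ v2 u hx), fun hx => w2 u hu (h.trans (v2 v hx))⟩⟩
    have hmain : SLin (3 * (100 + 1)) G (U ∪ A ∪ B) := by
      refine SLin.blocks β cc ?_ ?_
      · intro n
        -- each block is the union of two disjoint independent sets
        rcases Nat.even_or_odd n with hn | hn
        · refine bip_sub132 hbip (X := B) (Y := ∅) (Finset.disjoint_empty_right _) iB
            (by intro x hx; simp at hx) ?_
          intro x hx
          obtain ⟨hxS, hxn⟩ := Finset.mem_filter.1 hx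
          rw [Finset.union_empty]
          rcases Finset.mem_union.1 hxS with h | h
          · rw [β1 x h] at hxn
            obtain ⟨r, hr⟩ := hn
            omega
          · exact h
        · obtain ⟨c, hc⟩ := hn
          by_cases hm : mixed c
          · refine bip_sub132 hbip dUA iU iA ?_
            intro x hx
            obtain ⟨hxS, hxn⟩ := Finset.mem_filter.1 hx
            rcases Finset.mem_union.1 hxS with h | h
            · exact h
            · exfalso
              have hm0 := hm
              obtain ⟨⟨u, hu, huc⟩, _⟩ := hm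
              have hcB := bbcard u
              by_cases hex : ex x
              · by_cases hm' : mixed (lam x)
                · rw [β2 x h hex hm'] at hxn; omega
                · rw [β3 x h hex hm'] at hxn
                  have : lam x = c := by omega
                  rw [this] at hm'
                  exact hm' hm0
              · rw [β4 x h hex] at hxn; omega
          · by_cases hU : ∃ u ∈ U, (bb u).card = c
            · -- no element of A
              refine bip_sub132 hbip dUB iU iB ?_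
              intro x hx
              obtain ⟨hxS, hxn⟩ := Finset.mem_filter.1 hx
              rcases Finset.mem_union.1 hxS with h | h
              · rcases Finset.mem_union.1 h with h' | h'
                · exact Finset.mem_union_left _ h'
                · exfalso
                  rw [β1 x h] at hxn
                  exact hm ⟨hU, x, h', by omega⟩
              · exact Finset.mem_union_right _ h
            · refine bip_sub132 hbip dAB iA iB ?_
              intro x hx
              obtain ⟨hxS, hxn⟩ := Finset.mem_filter.1 hx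
              rcases Finset.mem_union.1 hxS with h | h
              · rcases Finset.mem_union.1 h with h' | h'
                · exfalso
                  rw [β1 x h] at hxn
                  exact hU ⟨x, h', by omega⟩
                · exact Finset.mem_union_left _ h'
              · exact Finset.mem_union_right _ h
      · intro u hu v hv w hw huw hvw huv
        rw [cls u hu w hw huw, cls v hv w hw hvw]
        obtain ⟨e1, e2, e3⟩ := hcc u hu v hv huv
        rw [e1, e2, e3]
    exact hmain.mono_k (by norm_num)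

end Pool.Agent.Helper856.Cw.Triple
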