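import Pool.Agent.Helper856.Cw.CoreC
import Pool.Agent.Helper856.Cw.Triple
import Pool.Agent.Helper856.Cw.FactsI

open Classical SimpleGraph

namespace Pool.Agent.Helper856.Cw.CaseC

open CoreC Triple

variable {V : Type} {G : SimpleGraph V} {S T : Finset V} {k l : ℕ}

variable {a : ZMod 5 → V}

theorem C_five (i k : ZMod 5) : k = i ∨ k = i + 1 ∨ k = i + 2 ∨ k = i + 3 ∨ k = i + 4 := by
  revert i k; decide

theorem C_NNadj {i : ZMod 5} {x : V} (h : NN G a i x) (k : ZMod 5) :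
    G.Adj x (a k) ↔ (k = i + 1 ∨ k = i + 4) := by
  have e01 : ∀ i : ZMod 5, ¬(i = i + 1 ∨ i = i + 4) := by decide
  have e2 : ∀ i : ZMod 5, ¬(i + 2 = i + 1 ∨ i + 2 = i + 4) := by decide
  have e3 : ∀ i : ZMod 5, ¬(i + 3 = i + 1 ∨ i + 3 = i + 4) := by decide
  rcases C_five i k with hk | hk | hk | hk | hk
  · subst hk; exact iff_of_false h.n0 (e01 _)
  · subst hk; exact iff_of_true h.e1 (Or.inl rfl)
  · subst hk; exact iff_of_false h.n2 (e2 _)
  · subst hk; exact iff_of_false h.n3 (e3 _)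
  · subst hk; exact iff_of_true h.e4 (Or.inr rfl)

theorem C_UUadj {i : ZMod 5} {x : V} (h : UU G a i x) (k : ZMod 5) :
    G.Adj x (a k) ↔ k = i := by
  have e1 : ∀ i : ZMod 5, ¬(i + 1 = i) := by decide
  have e2 : ∀ i : ZMod 5, ¬(i + 2 = i) := by decide
  have e3 : ∀ i : ZMod 5, ¬(i + 3 = i) := by decide
  have e4 : ∀ i : ZMod 5, ¬(i + 4 = i) := by decide
  rcases C_five i k with hk | hk | hk | hk | hk
  · subst hk; exact iff_of_true h.e0 rfl
  · subst hk; exact iff_of_false h.n1 (e1 _)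
  · subst hk; exact iff_of_false h.n2 (e2 _)
  · subst hk; exact iff_of_false h.n3 (e3 _)
  · subst hk; exact iff_of_false h.n4 (e4 _)

theorem C_part (hK : Tri G) (hc : Cyc G a) (x : V) :
    (∃ i, x = a i) ∨ ZZ G a x ∨ (∃ i, UU G a i x) ∨ (∃ i, NN G a i x) := by
  by_cases hz : ZZ G a x
  · exact Or.inr (Or.inl hz)
  · unfold ZZ at hz
    push Not at hz
    obtain ⟨i, hi⟩ := hz
    have hnot : ∀ k, G.Adj x (a k) → ¬G.Adj x (a (k + 1)) := by
      intro k h1 h2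
      exact hK x (a k) (a (k + 1)) h1 ((hc k (k + 1)).2 (Or.inl rfl)) h2
    have h1 : ¬G.Adj x (a (i + 1)) := hnot i hi
    have h4 : ¬G.Adj x (a (i + 4)) := by
      intro h
      have := hnot (i + 4) h
      have e : i + 4 + 1 = i := (by decide : ∀ i : ZMod 5, i + 4 + 1 = i) i
      rw [e] at this
      exact this hi
    by_cases h2 : G.Adj x (a (i + 2))
    · have h3 : ¬G.Adj x (a (i + 3)) := by
        have := hnot (i + 2) h2
        have e : i + 2 + 1 = i + 3 := (by decide : ∀ i : ZMod 5, i + 2 + 1 = i + 3) i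
        rwa [e] at this
      by_cases hx : x = a (i + 1)
      · exact Or.inl ⟨_, hx⟩
      · refine Or.inr (Or.inr (Or.inr ⟨i + 1, ?_⟩))
        have e1 : i + 1 + 1 = i + 2 := (by decide : ∀ i : ZMod 5, i + 1 + 1 = i + 2) i
        have e2 : i + 1 + 2 = i + 3 := (by decide : ∀ i : ZMod 5, i + 1 + 2 = i + 3) i
        have e3 : i + 1 + 3 = i + 4 := (by decide : ∀ i : ZMod 5, i + 1 + 3 = i + 4) i
        have e4 : i + 1 + 4 = i := (by decide : ∀ i : ZMod 5, i + 1 + 4 = i) i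
        unfold NN
        rw [e1, e2, e3, e4]
        exact ⟨h2, hi, h1, h3, h4, hx⟩
    · by_cases h3 : G.Adj x (a (i + 3))
      · by_cases hx : x = a (i + 4)
        · exact Or.inl ⟨_, hx⟩
        · refine Or.inr (Or.inr (Or.inr ⟨i + 4, ?_⟩))
          have e1 : i + 4 + 1 = i := (by decide : ∀ i : ZMod 5, i + 4 + 1 = i) i
          have e2 : i + 4 + 2 = i + 1 := (by decide : ∀ i : ZMod 5, i + 4 + 2 = i + 1) i
          have e3 : i + 4 + 3 = i + 2 := (by decide : ∀ i : ZMod 5, i + 4 + 3 = i + 2) i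
          have e4 : i + 4 + 4 = i + 3 := (by decide : ∀ i : ZMod 5, i + 4 + 4 = i + 3) i
          unfold NN
          rw [e1, e2, e3, e4]
          exact ⟨hi, h3, h4, h1, h2, hx⟩
      · exact Or.inr (Or.inr (Or.inl ⟨i, ⟨hi, h1, h2, h3, h4⟩⟩))

theorem C_extra (T R : Finset V) (hT : 5 ≤ T.card) (hR : R.card ≤ 3) :
    ∃ p ∈ T, ∃ q ∈ T, p ≠ q ∧ p ∉ R ∧ q ∉ R := by
  have h : 1 < (T \ R).card := by
    have := Finset.le_card_sdiff R T
    omega
  obtain ⟨p, hp, q, hq, hpq⟩ := Finset.one_lt_card.1 h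
  rw [Finset.mem_sdiff] at hp hq
  exact ⟨p, hp.1, q, hq.1, hpq, hp.2, hq.2⟩

theorem C_exc (A B C : Finset V) (v0 : V)
    (ha : ∀ x ∈ A, ∀ u ∈ B, ∀ u2 ∈ B, ∀ y ∈ C, u ≠ u2 → G.Adj x u → G.Adj x u2 → ¬G.Adj x y → False)
    (hb : ∀ x ∈ A, ∀ u ∈ B, ∀ y ∈ C, ∀ y2 ∈ C, y ≠ y2 → G.Adj x u → ¬G.Adj x y → ¬G.Adj x y2 →
      False)
    (hc : ∀ x ∈ A, ∀ x2 ∈ A, ∀ u ∈ B, ∀ u2 ∈ B, ∀ y ∈ C, ∀ y2 ∈ C, G.Adj x u → G.Adj x2 u2 →
      ¬G.Adj x u2 → ¬G.Adj x2 u → ¬G.Adj x y → ¬G.Adj x2 y2 → G.Adj x y2 → G.Adj x2 y → False) :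
    ∃ e, ∀ x ∈ A, ∀ u ∈ B, ∀ y ∈ C, G.Adj x u → ¬G.Adj x y → u = e ∨ y = e := by
  have key : ∀ x ∈ A, ∀ u ∈ B, ∀ y ∈ C, ∀ x2 ∈ A, ∀ u2 ∈ B, ∀ y2 ∈ C, G.Adj x u → ¬G.Adj x y →
      G.Adj x2 u2 → ¬G.Adj x2 y2 → u ≠ u2 → y = y2 := by
    intro x hx u hu y hy x2 hx2 u2 hu2 y2 hy2 h1 h2 h3 h4 huu
    by_contra hyy
    have g1 : ¬G.Adj x u2 := fun h => ha x hx u hu u2 hu2 y hy huu h1 h h2
    have g2 : ¬G.Adj x2 u := fun h => ha x2 hx2 u hu u2 hu2 y2 hy2 huu h h3 h4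
    have g3 : G.Adj x y2 := by
      by_contra h
      exact hb x hx u hu y hy y2 hy2 hyy h1 h2 h
    have g4 : G.Adj x2 y := by
      by_contra h
      exact hb x2 hx2 u2 hu2 y hy y2 hy2 hyy h3 h h4
    exact hc x hx x2 hx2 u hu u2 hu2 y hy y2 hy2 h1 h3 g1 g2 h2 h4 g3 g4
  by_cases hex : ∃ x ∈ A, ∃ u ∈ B, ∃ y ∈ C, G.Adj x u ∧ ¬G.Adj x y
  · obtain ⟨x0, hx0, u0, hu0, y0, hy0, h0, h0'⟩ := hex
    by_cases hall : ∀ x ∈ A, ∀ u ∈ B, ∀ y ∈ C, G.Adj x u → ¬G.Adj x y → u = u0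
    · exact ⟨u0, fun x hx u hu y hy h1 h2 => Or.inl (hall x hx u hu y hy h1 h2)⟩
    · push Not at hall
      obtain ⟨x1, hx1, u1, hu1, y1, hy1, h1, h1', h10⟩ := hall
      have hy10 : y1 = y0 := key x1 hx1 u1 hu1 y1 hy1 x0 hx0 u0 hu0 y0 hy0 h1 h1' h0 h0' h10
      refine ⟨y0, fun x hx u hu y hy h h' => Or.inr ?_⟩
      by_cases hu' : u = u0
      · have : u ≠ u1 := by rw [hu']; exact h10.symm
        rw [← hy10]
        exact key x hx u hu y hy x1 hx1 u1 hu1 y1 hy1 h h' h1 h1' this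
      · exact key x hx u hu y hy x0 hx0 u0 hu0 y0 hy0 h h' h0 h0' hu'
  · push Not at hex
    exact ⟨v0, fun x hx u hu y hy h h' => absurd (hex x hx u hu y hy h) h'⟩

/-- TARGET -/
theorem caseC (hK : Tri G) (hP : NoP G) (hbip : Bip100 G) (hc : Cyc G a) (haS : ∀ i, a i ∈ S)
    (hZ : (S.filter (ZZ G a)).card ≤ 5) : SLin (2 * 10 ^ 8) G S := by
  obtain ⟨NS, hNS⟩ : ∃ NS : ZMod 5 → Finset V, ∀ i x, x ∈ NS i ↔ x ∈ S ∧ NN G a i x :=
    ⟨fun i => S.filter (NN G a i), fun i x => by simp⟩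
  obtain ⟨US, hUS⟩ : ∃ US : ZMod 5 → Finset V, ∀ i x, x ∈ US i ↔ x ∈ S ∧ UU G a i x :=
    ⟨fun i => S.filter (UU G a i), fun i x => by simp⟩
  obtain ⟨N0, hN0⟩ : ∃ N0 : ZMod 5 → Finset V, ∀ i, N0 i = if 5 ≤ (NS i).card then NS i else ∅ :=
    ⟨_, fun i => rfl⟩
  obtain ⟨U0, hU0⟩ : ∃ U0 : ZMod 5 → Finset V, ∀ i, U0 i = if 5 ≤ (US i).card then US i else ∅ :=
    ⟨_, fun i => rfl⟩
  have N0mem : ∀ i x, x ∈ N0 i → 5 ≤ (N0 i).card ∧ NN G a i x := by
    intro i x hx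
    rw [hN0] at hx ⊢
    split_ifs at hx ⊢ with h
    · exact ⟨h, ((hNS i x).1 hx).2⟩
    · simp at hx
  have U0mem : ∀ i x, x ∈ U0 i → 5 ≤ (U0 i).card ∧ UU G a i x := by
    intro i x hx
    rw [hU0] at hx ⊢
    split_ifs at hx ⊢ with h
    · exact ⟨h, ((hUS i x).1 hx).2⟩
    · simp at hx
  have smallN : ∀ i, (NS i \ N0 i).card ≤ 4 := by
    intro i
    rw [hN0]
    split_ifs with h
    · simp
    · rw [Finset.sdiff_empty]; omega
  have smallU : ∀ i, (US i \ U0 i).card ≤ 4 := by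
    intro i
    rw [hU0]
    split_ifs with h
    · simp
    · rw [Finset.sdiff_empty]; omega
  -- exceptional vertices
  have hexc : ∀ i, ∃ e, ∀ x ∈ N0 i, ∀ u ∈ U0 (i + 2), ∀ y ∈ N0 (i + 1), G.Adj x u →
      ¬G.Adj x y → u = e ∨ y = e := by
    intro i
    refine C_exc (N0 i) (U0 (i + 2)) (N0 (i + 1)) (a 0) ?_ ?_ ?_
    · intro x hx u hu u2 hu2 y hy d h1 h2 h3
      exact F4a hK hP hc i (N0mem _ _ hx).2 (U0mem _ _ hu).2 (U0mem _ _ hu2).2 (N0mem _ _ hy).2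
        d h1 h2 h3
    · intro x hx u hu y hy y2 hy2 d h1 h2 h3
      exact F4b hK hP hc i (N0mem _ _ hx).2 (U0mem _ _ hu).2 (N0mem _ _ hy).2 (N0mem _ _ hy2).2
        d h1 h2 h3
    · intro x hx x2 hx2 u hu u2 hu2 y hy y2 hy2 h1 h2 h3 h4 h5 h6 h7 h8
      exact F4c hK hP hc i (N0mem _ _ hx).2 (N0mem _ _ hx2).2 (U0mem _ _ hu).2 (U0mem _ _ hu2).2
        (N0mem _ _ hy).2 (N0mem _ _ hy2).2 h1 h2 h3 h4 h5 h6 h7 h8
  have hexc' : ∀ i, ∃ e, ∀ x ∈ N0 i, ∀ u ∈ U0 (i + 3), ∀ y ∈ N0 (i + 4), G.Adj x u →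
      ¬G.Adj x y → u = e ∨ y = e := by
    intro i
    refine C_exc (N0 i) (U0 (i + 3)) (N0 (i + 4)) (a 0) ?_ ?_ ?_
    · intro x hx u hu u2 hu2 y hy d h1 h2 h3
      exact F4am hK hP hc i (N0mem _ _ hx).2 (U0mem _ _ hu).2 (U0mem _ _ hu2).2 (N0mem _ _ hy).2
        d h1 h2 h3
    · intro x hx u hu y hy y2 hy2 d h1 h2 h3
      exact F4bm hK hP hc i (N0mem _ _ hx).2 (U0mem _ _ hu).2 (N0mem _ _ hy).2 (N0mem _ _ hy2).2
        d h1 h2 h3
    · intro x hx x2 hx2 u hu u2 hu2 y hy y2 hy2 h1 h2 h3 h4 h5 h6 h7 h8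
      exact F4cm hK hP hc i (N0mem _ _ hx).2 (N0mem _ _ hx2).2 (U0mem _ _ hu).2 (U0mem _ _ hu2).2
        (N0mem _ _ hy).2 (N0mem _ _ hy2).2 h1 h2 h3 h4 h5 h6 h7 h8
  choose ex hex using hexc
  choose ex' hex' using hexc'
  set X : Finset V := Finset.univ.image ex ∪ Finset.univ.image ex' with hX
  have exX : ∀ i, ex i ∈ X := fun i => by
    rw [hX]; exact Finset.mem_union_left _ (Finset.mem_image_of_mem _ (Finset.mem_univ _))
  have exX' : ∀ i, ex' i ∈ X := fun i => by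
    rw [hX]; exact Finset.mem_union_right _ (Finset.mem_image_of_mem _ (Finset.mem_univ _))
  have c5 : (Finset.univ : Finset (ZMod 5)).card = 5 := by decide
  have cX : X.card ≤ 10 := by
    rw [hX]
    refine (Finset.card_union_le _ _).trans ?_
    have h1 := Finset.card_image_le (s := (Finset.univ : Finset (ZMod 5))) (f := ex)
    have h2 := Finset.card_image_le (s := (Finset.univ : Finset (ZMod 5))) (f := ex')
    omega
  obtain ⟨N, hN⟩ : ∃ N : ZMod 5 → Finset V, ∀ i, N i = N0 i \ X := ⟨_, fun i => rfl⟩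
  obtain ⟨U, hU⟩ : ∃ U : ZMod 5 → Finset V, ∀ i, U i = U0 i \ X := ⟨_, fun i => rfl⟩
  have N1 : ∀ {i x}, x ∈ N i → x ∈ N0 i ∧ x ∉ X := by
    intro i x hx; rw [hN, Finset.mem_sdiff] at hx; exact hx
  have U1 : ∀ {i x}, x ∈ U i → x ∈ U0 i ∧ x ∉ X := by
    intro i x hx; rw [hU, Finset.mem_sdiff] at hx; exact hx
  have NN' : ∀ {i x}, x ∈ N i → NN G a i x := fun hx => (N0mem _ _ (N1 hx).1).2
  have UU' : ∀ {i x}, x ∈ U i → UU G a i x := fun hx => (U0mem _ _ (U1 hx).1).2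
  have exU : ∀ {i x}, x ∈ U i → ∀ R : Finset V, R.card ≤ 3 →
      ∃ p, UU G a i p ∧ ∃ q, UU G a i q ∧ p ≠ q ∧ p ∉ R ∧ q ∉ R := by
    intro i x hx R hR
    obtain ⟨p, hp, q, hq, h⟩ := C_extra (U0 i) R (U0mem _ _ (U1 hx).1).1 hR
    exact ⟨p, (U0mem _ _ hp).2, q, (U0mem _ _ hq).2, h⟩
  have i14 : ∀ i : ZMod 5, i + 1 ≠ i + 4 := by decide
  have nn_eq : ∀ {i j x}, NN G a i x → NN G a j x → i = j := by
    intro i j x h1 h2
    have g1 := (C_NNadj h1 (j + 1)).1 h2.e1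
    have g2 := (C_NNadj h1 (j + 4)).1 h2.e4
    have : ∀ i j : ZMod 5, (j + 1 = i + 1 ∨ j + 1 = i + 4) → (j + 4 = i + 1 ∨ j + 4 = i + 4) →
      i = j := by decide
    exact this i j g1 g2
  have uu_eq : ∀ {i j x}, UU G a i x → UU G a j x → i = j := by
    intro i j x h1 h2
    exact (C_UUadj h2 i).1 h1.e0
  have nu_ne : ∀ {i j x}, NN G a i x → UU G a j x → False := by
    intro i j x h1 h2
    have g1 := (C_UUadj h2 (i + 1)).1 h1.e1
    have g2 := (C_UUadj h2 (i + 4)).1 h1.e4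
    exact i14 i (g1.trans g2.symm)
  have neAdj : ∀ {x y z : V}, G.Adj x y → ¬G.Adj x z → y ≠ z := by
    intro x y z h1 h2 h; rw [h] at h1; exact h2 h1
  have hcore := coreC (G := G) hbip N U
    (fun i j hij => Finset.disjoint_left.2 fun x h1 h2 => hij (nn_eq (NN' h1) (NN' h2)))
    (fun i j hij => Finset.disjoint_left.2 fun x h1 h2 => hij (uu_eq (UU' h1) (UU' h2)))
    (fun i j => Finset.disjoint_left.2 fun x h1 h2 => nu_ne (NN' h1) (UU' h2))
    (fun i x hx y hy h => hK x y (a (i + 1)) h (NN' hy).e1 (NN' hx).e1)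
    (fun i x hx y hy h => hK x y (a i) h (UU' hy).e0 (UU' hx).e0)
    (fun i x hx y hy h => by
      have e : i + 2 + 4 = i + 1 := (by decide : ∀ i : ZMod 5, i + 2 + 4 = i + 1) i
      have h4 := (NN' hy).e4
      rw [e] at h4
      exact hK x y (a (i + 1)) h h4 (NN' hx).e1)
    (fun i x hx u hu h => hK x u (a (i + 1)) h (UU' hu).e0 (NN' hx).e1)
    (fun i x hx u hu h => hK x u (a (i + 4)) h (UU' hu).e0 (NN' hx).e4)
    (fun i x hx u hu => by
      by_contra h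
      obtain ⟨p, hp, q, hq, hpq, hpR, hqR⟩ := exU hu {u} (by simp)
      rw [Finset.mem_singleton] at hpR hqR
      exact F6 hK hP hc i (UU' hx) (UU' hu) hp hq (Ne.symm hpR) (Ne.symm hqR) hpq h)
    (fun i x hx h => by
      obtain ⟨⟨⟨y2, hy2, h2⟩, y, hy, h1⟩, -, w, hw, h3⟩ := h
      exact F1 hK hP hc i (NN' hx) (NN' hy) (NN' hy2) (NN' hw) (neAdj h2 h1).symm h1 h3)
    (fun i x hx h => by
      obtain ⟨⟨u, hu, h1⟩, u2, hu2, h2⟩ := h
      refine ⟨fun h => ?_, fun h => ?_⟩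
      · obtain ⟨-, y, hy, h3⟩ := h
        exact F2 hK hP hc i (NN' hx) (UU' hu) (UU' hu2) (NN' hy) h1 h2 h3
      · obtain ⟨-, y, hy, h3⟩ := h
        exact F2m hK hP hc i (NN' hx) (UU' hu) (UU' hu2) (NN' hy) h1 h2 h3)
    (fun i x hx h => by
      obtain ⟨⟨⟨u, hu, h1⟩, -⟩, ⟨w, hw, h2⟩, -⟩ := h
      obtain ⟨p, hp, q, hq, hpq, hpR, hqR⟩ := exU hu {u} (by simp)
      rw [Finset.mem_singleton] at hpR hqR
      exact F3 hK hP hc i (NN' hx) (UU' hu) hp hq (UU' hw) (Ne.symm hpR) (Ne.symm hqR) hpq h1 h2)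
    (fun i x hx => by
      refine ⟨fun h => ?_, fun h => ?_⟩
      · obtain ⟨⟨⟨u, hu, h1⟩, -⟩, -, y, hy, h2⟩ := h
        rcases hex i x (N1 hx).1 u (U1 hu).1 y (N1 hy).1 h1 h2 with he | he
        · exact (U1 hu).2 (he ▸ exX i)
        · exact (N1 hy).2 (he ▸ exX i)
      · obtain ⟨⟨⟨u, hu, h1⟩, -⟩, -, y, hy, h2⟩ := h
        rcases hex' i x (N1 hx).1 u (U1 hu).1 y (N1 hy).1 h1 h2 with he | he
        · exact (U1 hu).2 (he ▸ exX' i)
        · exact (N1 hy).2 (he ▸ exX' i))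
    (fun i x hx h => by
      obtain ⟨⟨u, hu, h1⟩, u2, hu2, h2⟩ := h
      obtain ⟨p, hp, q, hq, hpq, hpR, hqR⟩ := exU hu {u, u2}
        ((Finset.card_insert_le _ _).trans (by simp))
      rw [Finset.mem_insert, Finset.mem_singleton, not_or] at hpR hqR
      refine ⟨fun h => ?_, fun h => ?_⟩
      · obtain ⟨⟨w, hw, h3⟩, w2, hw2, h4⟩ := h
        exact F5 hK hP hc i (NN' hx) (UU' hu) (UU' hu2) hp hq (UU' hw) (UU' hw2)
          (Ne.symm hpR.1) (Ne.symm hqR.1) (Ne.symm hpR.2) (Ne.symm hqR.2) hpq h1 h2 h3 h4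
      · obtain ⟨⟨w, hw, h3⟩, w2, hw2, h4⟩ := h
        exact F5m hK hP hc i (NN' hx) (UU' hu) (UU' hu2) hp hq (UU' hw) (UU' hw2)
          (Ne.symm hpR.1) (Ne.symm hqR.1) (Ne.symm hpR.2) (Ne.symm hqR.2) hpq h1 h2 h3 h4)
    (fun i u hu h => by
      obtain ⟨⟨⟨w, hw, h1⟩, -⟩, ⟨y, hy, h2⟩, -⟩ := h
      obtain ⟨p, hp, q, hq, hpq, hpR, hqR⟩ := exU hw {w} (by simp)
      rw [Finset.mem_singleton] at hpR hqR
      exact F7 hK hP hc i (UU' hu) (UU' hw) hp hq (UU' hy) (Ne.symm hpR) (Ne.symm hqR) hpq h1 h2)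
    (fun i u hu h => by
      obtain ⟨-, x, hx, h1⟩ := h
      refine ⟨fun h => ?_, fun h => ?_⟩
      · obtain ⟨-, w, hw, h2⟩ := h
        obtain ⟨p, hp, q, hq, hpq, hpR, hqR⟩ := exU hw {w} (by simp)
        obtain ⟨r, hr, r', hr', hrr, hrR, hrR'⟩ := exU hw {w, p, q}
          ((Finset.card_insert_le _ _).trans (by
            have := Finset.card_insert_le p {q}
            simp at this ⊢
            omega))
        rw [Finset.mem_singleton] at hpR hqR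
        simp only [Finset.mem_insert, Finset.mem_singleton, not_or] at hrR
        exact F8 hK hP hc i (UU' hu) (UU' hw) hp hq hr (NN' hx) (Ne.symm hpR) (Ne.symm hqR)
          (Ne.symm hrR.1) hpq (Ne.symm hrR.2.1) (Ne.symm hrR.2.2) h2 h1
      · obtain ⟨-, w, hw, h2⟩ := h
        obtain ⟨p, hp, q, hq, hpq, hpR, hqR⟩ := exU hw {w} (by simp)
        obtain ⟨r, hr, r', hr', hrr, hrR, hrR'⟩ := exU hw {w, p, q}
          ((Finset.card_insert_le _ _).trans (by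
            have := Finset.card_insert_le p {q}
            simp at this ⊢
            omega))
        rw [Finset.mem_singleton] at hpR hqR
        simp only [Finset.mem_insert, Finset.mem_singleton, not_or] at hrR
        exact F8m hK hP hc i (UU' hu) (UU' hw) hp hq hr (NN' hx) (Ne.symm hpR) (Ne.symm hqR)
          (Ne.symm hrR.1) hpq (Ne.symm hrR.2.1) (Ne.symm hrR.2.2) h2 h1)
    (fun i u hu h => by
      rcases h with h | h
      · obtain ⟨⟨w, hw, h1⟩, w2, hw2, h2⟩ := h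
        obtain ⟨p, hp, q, hq, hpq, hpR, hqR⟩ := exU hw {w, w2}
          ((Finset.card_insert_le _ _).trans (by simp))
        rw [Finset.mem_insert, Finset.mem_singleton, not_or] at hpR hqR
        refine ⟨fun h => ?_, fun h => ?_⟩
        · obtain ⟨⟨y, hy, h3⟩, -⟩ := h
          exact F9a hK hP hc i (UU' hu) (UU' hw) (UU' hw2) hp hq (NN' hy)
            (Ne.symm hpR.1) (Ne.symm hqR.1) (Ne.symm hpR.2) (Ne.symm hqR.2) hpq h1 h2 h3
        · obtain ⟨-, y, hy, h3⟩ := h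
          exact F9b hK hP hc i (UU' hu) (UU' hw) (UU' hw2) (NN' hy) h1 h2 h3
      · obtain ⟨⟨w, hw, h1⟩, w2, hw2, h2⟩ := h
        obtain ⟨p, hp, q, hq, hpq, hpR, hqR⟩ := exU hw {w, w2}
          ((Finset.card_insert_le _ _).trans (by simp))
        rw [Finset.mem_insert, Finset.mem_singleton, not_or] at hpR hqR
        refine ⟨fun h => ?_, fun h => ?_⟩
        · obtain ⟨-, y, hy, h3⟩ := h
          exact F9bm hK hP hc i (UU' hu) (UU' hw) (UU' hw2) (NN' hy) h1 h2 h3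
        · obtain ⟨⟨y, hy, h3⟩, -⟩ := h
          exact F9am hK hP hc i (UU' hu) (UU' hw) (UU' hw2) hp hq (NN' hy)
            (Ne.symm hpR.1) (Ne.symm hqR.1) (Ne.symm hpR.2) (Ne.symm hqR.2) hpq h1 h2 h3)
    (fun i u hu h => by
      obtain ⟨-, x, hx, h1⟩ := h
      refine ⟨fun h => ?_, fun h => ?_⟩
      · obtain ⟨⟨y, hy, h2⟩, y2, hy2, h3⟩ := h
        exact F10 hK hP hc i (UU' hu) (NN' hx) (NN' hy) (NN' hy2) (neAdj h2 h3) h1 h2
      · obtain ⟨⟨y, hy, h2⟩, y2, hy2, h3⟩ := h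
        exact F10m hK hP hc i (UU' hu) (NN' hx) (NN' hy) (NN' hy2) (neAdj h2 h3) h1 h2)
    (fun i => by
      refine triple_lemma hK hbip (U i) (N (i + 2)) (N (i + 3)) ?_ ?_ ?_ ?_ ?_ ?_ ?_ ?_ ?_ ?_
      · exact Finset.disjoint_left.2 fun x h1 h2 => nu_ne (NN' h2) (UU' h1)
      · exact Finset.disjoint_left.2 fun x h1 h2 => nu_ne (NN' h2) (UU' h1)
      · refine Finset.disjoint_left.2 fun x h1 h2 => ?_
        have := nn_eq (NN' h1) (NN' h2)
        exact (by decide : ∀ i : ZMod 5, i + 2 ≠ i + 3) i this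
      · exact fun x hx y hy h => hK x y (a i) h (UU' hy).e0 (UU' hx).e0
      · exact fun x hx y hy h => hK x y (a (i + 2 + 1)) h (NN' hy).e1 (NN' hx).e1
      · exact fun x hx y hy h => hK x y (a (i + 3 + 1)) h (NN' hy).e1 (NN' hx).e1
      · intro u hu s hs s' hs' b hb d h1 h2 h3
        by_contra h
        exact T2 hK hP hc i (UU' hu) (NN' hs) (NN' hs') (NN' hb) d h1 h2 h3 h
      · intro u hu s hs b hb b' hb' d h1 h2 h3
        by_contra h
        exact T3 hK hP hc i (UU' hu) (NN' hs) (NN' hb) (NN' hb') d h1 h2 h3 h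
      · intro u hu u' hu' b hb b' hb' b'' hb'' d h1 h2 h3 h4 h5 h6
        exact P1 hK hP hc i (UU' hu) (UU' hu') (NN' hb) (NN' hb') (NN' hb'') d h1 h2 h3 h4 h5 h6
      · intro u hu u' hu' b hb b' hb' b'' hb'' d h1 h2 h3 h4 h5 h6
        exact P2 hK hP hc i (NN' hu) (NN' hu') (NN' hb) (NN' hb') (NN' hb'') d h1 h2 h3 h4 h5 h6)
  -- the removed set
  set F : Finset V := Finset.univ.image a ∪ S.filter (ZZ G a) ∪
    (Finset.univ.biUnion (fun i => NS i \ N0 i)) ∪ (Finset.univ.biUnion (fun i => US i \ U0 i)) ∪ X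
    with hF
  have cF : F.card ≤ 60 := by
    rw [hF]
    have h1 := Finset.card_image_le (s := (Finset.univ : Finset (ZMod 5))) (f := a)
    have h3 : (Finset.univ.biUnion (fun i => NS i \ N0 i)).card ≤ 20 := by
      refine Finset.card_biUnion_le.trans ?_
      refine (Finset.sum_le_card_nsmul _ _ 4 fun i _ => smallN i).trans ?_
      rw [c5]; norm_num
    have h4 : (Finset.univ.biUnion (fun i => US i \ U0 i)).card ≤ 20 := by
      refine Finset.card_biUnion_le.trans ?_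
      refine (Finset.sum_le_card_nsmul _ _ 4 fun i _ => smallU i).trans ?_
      rw [c5]; norm_num
    have g1 := Finset.card_union_le (Finset.univ.image a) (S.filter (ZZ G a))
    have g2 := Finset.card_union_le (Finset.univ.image a ∪ S.filter (ZZ G a))
      (Finset.univ.biUnion (fun i => NS i \ N0 i))
    have g3 := Finset.card_union_le (Finset.univ.image a ∪ S.filter (ZZ G a) ∪
      (Finset.univ.biUnion (fun i => NS i \ N0 i))) (Finset.univ.biUnion (fun i => US i \ U0 i))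
    have g4 := Finset.card_union_le (Finset.univ.image a ∪ S.filter (ZZ G a) ∪
      (Finset.univ.biUnion (fun i => NS i \ N0 i)) ∪
      (Finset.univ.biUnion (fun i => US i \ U0 i))) X
    omega
  have hsub : S \ F ⊆ Finset.univ.biUnion N ∪ Finset.univ.biUnion U := by
    intro x hx
    rw [Finset.mem_sdiff] at hx
    obtain ⟨hxS, hxF⟩ := hx
    rw [hF] at hxF
    simp only [Finset.mem_union, not_or, Finset.mem_image, Finset.mem_univ, true_and,
      Finset.mem_filter, Finset.mem_biUnion, Finset.mem_sdiff, not_exists, not_and, not_not] at hxF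
    obtain ⟨⟨⟨⟨f1, f2⟩, f3⟩, f4⟩, f5⟩ := hxF
    rw [Finset.mem_union, Finset.mem_biUnion, Finset.mem_biUnion]
    rcases C_part hK hc x with ⟨i, hi⟩ | hz | ⟨i, hi⟩ | ⟨i, hi⟩
    · exact absurd hi.symm (f1 i)
    · exact absurd hz (f2 hxS)
    · refine Or.inr ⟨i, Finset.mem_univ _, ?_⟩
      rw [hU, Finset.mem_sdiff]
      exact ⟨f4 i ((hUS i x).2 ⟨hxS, hi⟩), f5⟩
    · refine Or.inl ⟨i, Finset.mem_univ _, ?_⟩
      rw [hN, Finset.mem_sdiff]
      exact ⟨f3 i ((hNS i x).2 ⟨hxS, hi⟩), f5⟩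
  exact ((hcore.subset hsub).add F).mono_k (by omega)

end Pool.Agent.Helper856.Cw.CaseC
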