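import Pool.Agent.Helper856.Cw.Mixed

open Classical SimpleGraph

namespace Pool.Agent.Helper856.Cw.CoreA

variable {V : Type} {G : SimpleGraph V} {S T : Finset V} {k l : ℕ}

theorem z5_cases (i j : ZMod 5) : j = i ∨ j = i + 1 ∨ j = i + 2 ∨ i = j + 2 ∨ i = j + 1 := by
  revert i j
  decide

/-- index of the class -/
noncomputable def idx (N : ZMod 5 → Finset V) (x : V) : ZMod 5 :=
  if h : ∃ i, x ∈ N i then h.choose else 0

theorem idx_eq {N : ZMod 5 → Finset V} (dN : ∀ i j, i ≠ j → Disjoint (N i) (N j)) {x : V}
    {i : ZMod 5} (hx : x ∈ N i) : idx N x = i := by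
  have h : ∃ i, x ∈ N i := ⟨i, hx⟩
  unfold idx
  rw [dif_pos h]
  by_contra hne
  exact Finset.disjoint_left.1 (dN _ _ hne) h.choose_spec hx

/-- has a neighbour in `Zp` -/
def HZ (G : SimpleGraph V) (Zp : Finset V) (x : V) : Prop := ∃ z ∈ Zp, G.Adj x z

theorem coreW (hK : Tri G) (hbip : Bip100 G) (Zp : Finset V) (N : ZMod 5 → Finset V)
    (dZ : ∀ i, Disjoint Zp (N i)) (dN : ∀ i j, i ≠ j → Disjoint (N i) (N j))
    (iZ : Ind G Zp) (iN : ∀ i, Ind G (N i))
    (n2 : ∀ i, ∀ x ∈ N i, ∀ y ∈ N (i + 2), ¬G.Adj x y)
    (low : ∀ i, ∀ x ∈ N i, ∀ z ∈ Zp, ∀ z' ∈ Zp, G.Adj x z → G.Adj x z' → z = z')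
    (a3 : ∀ i, ∀ x ∈ N i, ∀ y ∈ N (i + 1), ∀ z ∈ Zp, ¬G.Adj x y → (G.Adj x z ↔ G.Adj y z)) :
    SLin 606 G ((Zp ∪ Finset.univ.biUnion N).filter (fun x => x ∈ Zp ∨ HZ G Zp x)) := by
  set W := (Zp ∪ Finset.univ.biUnion N).filter (fun x => x ∈ Zp ∨ HZ G Zp x) with hW
  obtain ⟨id, hid⟩ := Set.countable_iff_exists_injOn.1 Zp.finite_toSet.countable
  let β : V → ℕ := fun x => if x ∈ Zp then id x else if h : HZ G Zp x then id h.choose else 0
  let c : V → Fin 6 := fun x => if x ∈ Zp then 0 else ⟨1 + (idx N x).val, by
    have := ZMod.val_lt (idx N x)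
    omega⟩
  have hWmem : ∀ x ∈ W, x ∈ Zp ∨ (x ∉ Zp ∧ (∃ i, x ∈ N i) ∧ HZ G Zp x) := by
    intro x hx
    rw [hW, Finset.mem_filter] at hx
    by_cases hz : x ∈ Zp
    · exact Or.inl hz
    · right
      refine ⟨hz, ?_, hx.2.resolve_left hz⟩
      have := (Finset.mem_union.1 hx.1).resolve_left hz
      rw [Finset.mem_biUnion] at this
      obtain ⟨i, -, hi⟩ := this
      exact ⟨i, hi⟩
  have hβZ : ∀ x ∈ Zp, β x = id x := by
    intro x hx
    simp only [β, if_pos hx]
  have hβN : ∀ i, ∀ x ∈ N i, ∀ z ∈ Zp, G.Adj x z → β x = id z := by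
    intro i x hx z hz hxz
    have hxZ : x ∉ Zp := fun h => Finset.disjoint_left.1 (dZ i) h hx
    have h : HZ G Zp x := ⟨z, hz, hxz⟩
    simp only [β, if_neg hxZ, dif_pos h]
    rw [low i x hx _ h.choose_spec.1 z hz h.choose_spec.2 hxz]
  have hadj : ∀ u ∈ W, ∀ w ∈ W, β u ≠ β w → (G.Adj u w ↔
      (u ∉ Zp ∧ w ∉ Zp ∧ (idx N w = idx N u + 1 ∨ idx N u = idx N w + 1))) := by
    intro u hu w hw hne
    rcases hWmem u hu with hu1 | ⟨hu1, ⟨i, hui⟩, zu, hzu, hzu'⟩
    · constructor
      · intro h
        exfalso
        rcases hWmem w hw with hw1 | ⟨hw1, ⟨j, hwj⟩, zw, hzw, hzw'⟩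
        · exact iZ u hu1 w hw1 h
        · apply hne
          rw [hβZ u hu1, hβN j w hwj u hu1 h.symm]
      · intro h; exact absurd hu1 h.1
    · rcases hWmem w hw with hw1 | ⟨hw1, ⟨j, hwj⟩, zw, hzw, hzw'⟩
      · constructor
        · intro h
          exfalso
          apply hne
          rw [hβZ w hw1, hβN i u hui w hw1 h]
        · intro h; exact absurd hw1 h.2.1
      · rw [idx_eq dN hui, idx_eq dN hwj]
        have key : ∀ (i j : ZMod 5) (u w : V), u ∈ N i → w ∈ N j → (∃ z ∈ Zp, G.Adj u z) →
            β u ≠ β w → j = i + 1 → G.Adj u w := by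
          intro i j u w hui hwj hz hne hij
          by_contra hnadj
          subst hij
          obtain ⟨z, hz, hz'⟩ := hz
          have h1 := (a3 i u hui w hwj z hz hnadj).1 hz'
          apply hne
          rw [hβN i u hui z hz hz', hβN (i + 1) w hwj z hz h1]
        constructor
        · intro h
          refine ⟨hu1, hw1, ?_⟩
          rcases z5_cases i j with h1 | h1 | h1 | h1 | h1
          · subst h1; exact absurd h (iN _ u hui w hwj)
          · exact Or.inl h1
          · subst h1; exact absurd h (n2 _ u hui w hwj)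
          · subst h1; exact absurd h.symm (n2 _ w hwj u hui)
          · exact Or.inr h1
        · rintro ⟨-, -, h | h⟩
          · exact key i j u w hui hwj ⟨zu, hzu, hzu'⟩ hne h
          · exact (key j i w u hwj hui ⟨zw, hzw, hzw'⟩ hne.symm h).symm
  have hmain : SLin (6 * (100 + 1)) G W := by
    apply SLin.blocks β c
    · intro n
      have hAB : W.filter (fun x => β x = n) ⊆
          (Zp.filter (fun x => β x = n)) ∪ (W.filter (fun x => x ∉ Zp ∧ β x = n)) := by
        intro x hx
        rw [Finset.mem_filter] at hx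
        rw [Finset.mem_union, Finset.mem_filter, Finset.mem_filter]
        by_cases hz : x ∈ Zp
        · exact Or.inl ⟨hz, hx.2⟩
        · exact Or.inr ⟨hx.1, hz, hx.2⟩
      apply SLin.subset _ hAB
      apply hbip
      · rw [Finset.disjoint_left]
        intro x hx hx'
        rw [Finset.mem_filter] at hx hx'
        exact hx'.2.1 hx.1
      · intro x hx y hy
        rw [Finset.mem_filter] at hx hy
        exact iZ x hx.1 y hy.1
      · intro x hx y hy hxy
        rw [Finset.mem_filter] at hx hy
        rcases hWmem x hx.1 with h | ⟨-, ⟨i, hxi⟩, z, hz, hxz⟩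
        · exact hx.2.1 h
        rcases hWmem y hy.1 with h | ⟨-, ⟨j, hyj⟩, z', hz', hyz⟩
        · exact hy.2.1 h
        have h1 := hβN i x hxi z hz hxz
        have h2 := hβN j y hyj z' hz' hyz
        have h3 : z = z' := hid hz hz' (by rw [← h1, ← h2, hx.2.2, hy.2.2])
        subst h3
        exact hK x y z hxy hyz hxz
    · intro u hu v hv w hw huw hvw hcuv
      rw [hadj u hu w hw huw.ne, hadj v hv w hw hvw.ne]
      by_cases h1 : u ∈ Zp
      · by_cases h2 : v ∈ Zp
        · simp [h1, h2]
        · exfalso
          simp only [c, if_pos h1, if_neg h2] at hcuv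
          have := congrArg Fin.val hcuv
          first | (simp at this; done) | (simp at this; omega)
      · by_cases h2 : v ∈ Zp
        · exfalso
          simp only [c, if_neg h1, if_pos h2] at hcuv
          have := congrArg Fin.val hcuv
          first | (simp at this; done) | (simp at this; omega)
        · simp only [c, if_neg h1, if_neg h2] at hcuv
          have h3 := congrArg Fin.val hcuv
          simp only at h3
          have h4 : (idx N u).val = (idx N v).val := by omega
          have h5 : idx N u = idx N v := ZMod.val_injective 5 h4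
          rw [h5]
          simp [h1, h2]
  exact hmain

/-- TARGET -/
theorem coreA (hK : Tri G) (hbip : Bip100 G) (Zp : Finset V) (N : ZMod 5 → Finset V)
    (dZ : ∀ i, Disjoint Zp (N i)) (dN : ∀ i j, i ≠ j → Disjoint (N i) (N j))
    (iZ : Ind G Zp) (iN : ∀ i, Ind G (N i))
    (n2 : ∀ i, ∀ x ∈ N i, ∀ y ∈ N (i + 2), ¬G.Adj x y)
    (low : ∀ i, ∀ x ∈ N i, ∀ z ∈ Zp, ∀ z' ∈ Zp, G.Adj x z → G.Adj x z' → z = z')
    (a3 : ∀ i, ∀ x ∈ N i, ∀ y ∈ N (i + 1), ∀ z ∈ Zp, ¬G.Adj x y → (G.Adj x z ↔ G.Adj y z))
    (a4 : ∀ i, ∀ x ∈ N i, ¬(Mix G (N (i + 1)) x ∧ Mix G (N (i + 4)) x)) :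
    SLin (10 ^ 8) G (Zp ∪ Finset.univ.biUnion N) := by
  have hWS := coreW hK hbip Zp N dZ dN iZ iN n2 low a3
  set S := Zp ∪ Finset.univ.biUnion N with hS
  let τ : V → Fin 11 := fun x => if x ∈ Zp then 0 else if HZ G Zp x then
    ⟨1 + (idx N x).val, by have := ZMod.val_lt (idx N x); omega⟩ else
    ⟨6 + (idx N x).val, by have := ZMod.val_lt (idx N x); omega⟩
  let blk : V → ℕ := fun x => if (x ∈ Zp ∨ HZ G Zp x) then 0 else
    if Mix G (N (idx N x + 1)) x then 1 + (idx N x).val else 1 + (idx N x + 4).val
  have hSmem : ∀ x ∈ S, x ∈ Zp ∨ (x ∉ Zp ∧ (∃ i, x ∈ N i)) := by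
    intro x hx
    by_cases hz : x ∈ Zp
    · exact Or.inl hz
    · right
      refine ⟨hz, ?_⟩
      have := (Finset.mem_union.1 hx).resolve_left hz
      rw [Finset.mem_biUnion] at this
      obtain ⟨i, -, hi⟩ := this
      exact ⟨i, hi⟩
  have hNZ : ∀ i, ∀ x ∈ N i, x ∉ Zp := fun i x hx h => Finset.disjoint_left.1 (dZ i) h hx
  -- class membership from labels
  have hτZ : ∀ x ∈ S, ∀ w ∈ Zp, τ x = τ w → x ∈ Zp := by
    intro x hx w hw h
    by_contra hz
    by_cases h1 : HZ G Zp x
    · simp only [τ, if_neg hz, if_pos h1, if_pos hw] at h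
      have := congrArg Fin.val h
      first | (simp at this; done) | (simp at this; omega)
    · simp only [τ, if_neg hz, if_neg h1, if_pos hw] at h
      have := congrArg Fin.val h
      first | (simp at this; done) | (simp at this; omega)
  have hτN : ∀ x ∈ S, ∀ j, ∀ w ∈ N j, τ x = τ w → x ∈ N j ∧ (HZ G Zp x ↔ HZ G Zp w) := by
    intro x hx j w hw h
    have hwZ := hNZ j w hw
    rcases hSmem x hx with hz | ⟨hz, i, hi⟩
    · exfalso
      by_cases h1 : HZ G Zp w
      · simp only [τ, if_neg hwZ, if_pos h1, if_pos hz] at h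
        have := congrArg Fin.val h
        first | (simp at this; done) | (simp at this; omega)
      · simp only [τ, if_neg hwZ, if_neg h1, if_pos hz] at h
        have := congrArg Fin.val h
        first | (simp at this; done) | (simp at this; omega)
    · have hl1 := ZMod.val_lt (idx N x)
      have hl2 := ZMod.val_lt (idx N w)
      have hiff : (HZ G Zp x ↔ HZ G Zp w) ∧ (idx N x).val = (idx N w).val := by
        by_cases h1 : HZ G Zp x <;> by_cases h2 : HZ G Zp w
        · simp only [τ, if_neg hwZ, if_neg hz, if_pos h1, if_pos h2] at h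
          have := congrArg Fin.val h
          simp only at this
          exact ⟨by simp [h1, h2], by omega⟩
        · simp only [τ, if_neg hwZ, if_neg hz, if_pos h1, if_neg h2] at h
          have := congrArg Fin.val h
          simp only at this
          omega
        · simp only [τ, if_neg hwZ, if_neg hz, if_neg h1, if_pos h2] at h
          have := congrArg Fin.val h
          simp only at this
          omega
        · simp only [τ, if_neg hwZ, if_neg hz, if_neg h1, if_neg h2] at h
          have := congrArg Fin.val h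
          simp only at this
          exact ⟨by simp [h1, h2], by omega⟩
      have h3 : idx N x = idx N w := ZMod.val_injective 5 hiff.2
      rw [idx_eq dN hi, idx_eq dN hw] at h3
      subst h3
      exact ⟨hi, hiff.1⟩
  -- purity of a vertex without Zp-neighbour on the classes of W
  have hP1 : ∀ i, ∀ u ∈ N i, ¬ HZ G Zp u → ∀ w ∈ S, (w ∈ Zp ∨ HZ G Zp w) → Pure G S τ u (τ w) := by
    intro i u hu hnz w hw hwz
    rcases hSmem w hw with hz | ⟨hz, j, hj⟩
    · right
      intro x hx hxw hux
      exact hnz ⟨x, hτZ x hx w hz hxw, hux⟩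
    · have hwz' := hwz.resolve_left hz
      rcases z5_cases i j with h1 | h1 | h1 | h1 | h1
      · right
        intro x hx hxw hux
        subst h1
        exact iN _ u hu x (hτN x hx _ w hj hxw).1 hux
      · left
        intro x hx hxw
        subst h1
        obtain ⟨hxj, hxz⟩ := hτN x hx _ w hj hxw
        obtain ⟨z, hz1, hz2⟩ := hxz.2 hwz'
        by_contra hna
        exact hnz ⟨z, hz1, (a3 i u hu x hxj z hz1 hna).2 hz2⟩
      · right
        intro x hx hxw hux
        subst h1
        exact n2 _ u hu x (hτN x hx _ w hj hxw).1 hux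
      · right
        intro x hx hxw hux
        subst h1
        exact n2 _ x (hτN x hx _ w hj hxw).1 u hu hux.symm
      · left
        intro x hx hxw
        subst h1
        obtain ⟨hxj, hxz⟩ := hτN x hx _ w hj hxw
        obtain ⟨z, hz1, hz2⟩ := hxz.2 hwz'
        by_contra hna
        exact hnz ⟨z, hz1, (a3 j x hxj u hu z hz1 (fun h => hna h.symm)).1 hz2⟩
  -- not mixed implies pure
  have hPm : ∀ j, ∀ u w, w ∈ N j → ¬ Mix G (N j) u → Pure G S τ u (τ w) := by
    intro j u w hw hm
    unfold Mix at hm
    rw [not_and_or] at hm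
    rcases hm with hm | hm
    · right
      intro x hx hxw hux
      exact hm ⟨x, (hτN x hx j w hw hxw).1, hux⟩
    · left
      intro x hx hxw
      by_contra hna
      exact hm ⟨x, (hτN x hx j w hw hxw).1, hna⟩
  have h14 : ∀ i : ZMod 5, i + 1 + 4 = i := by decide
  have h41 : ∀ i : ZMod 5, i + 4 + 1 = i := by decide
  have hstep : ∀ i, ∀ u ∈ N i, ∀ w ∈ N (i + 1), ¬ HZ G Zp u → ¬ HZ G Zp w → blk u ≠ blk w →
      Pure G S τ u (τ w) ∨ Pure G S τ w (τ u) := by
    intro i u hu w hw hnu hnw hne
    by_cases hmu : Mix G (N (i + 1)) u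
    · by_cases hmw : Mix G (N i) w
      · exfalso
        apply hne
        have hnm : ¬ Mix G (N (i + 1 + 1)) w := by
          intro h
          apply a4 (i + 1) w hw
          rw [h14]
          exact ⟨h, hmw⟩
        have e1 : blk u = 1 + i.val := by
          simp only [blk]
          rw [if_neg (by push Not; exact ⟨hNZ i u hu, hnu⟩), idx_eq dN hu, if_pos hmu]
        have e2 : blk w = 1 + i.val := by
          simp only [blk]
          rw [if_neg (by push Not; exact ⟨hNZ _ w hw, hnw⟩), idx_eq dN hw, if_neg hnm, h14]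
        rw [e1, e2]
      · right
        exact hPm i w u hu hmw
    · left
      exact hPm (i + 1) u w hw hmu
  have hfin : SLin (11 * 2 ^ 11 * (606 + 1)) G S := by
    apply mixed_blocks τ blk
    · intro n
      rcases Nat.eq_zero_or_pos n with rfl | hn
      · apply SLin.subset hWS
        intro x hx
        rw [Finset.mem_filter] at hx ⊢
        refine ⟨hx.1, ?_⟩
        by_contra h
        have := hx.2
        simp only [blk] at this
        rw [if_neg h] at this
        split_ifs at this <;> omega
      · have h1 : SLin 100 G (N ((n - 1 : ℕ) : ZMod 5) ∪ N (((n - 1 : ℕ) : ZMod 5) + 1)) := by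
          apply hbip
          · apply dN
            intro h
            have : (1 : ZMod 5) = 0 := by
              have h2 : ((n - 1 : ℕ) : ZMod 5) + 0 = ((n - 1 : ℕ) : ZMod 5) + 1 := by
                rw [add_zero]; exact h
              exact (add_left_cancel h2).symm
            exact absurd this (by decide)
          · exact iN _
          · exact iN _
        apply SLin.subset (SLin.mono_k h1 (by norm_num))
        intro x hx
        rw [Finset.mem_filter] at hx
        have hb := hx.2
        simp only [blk] at hb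
        by_cases hz : x ∈ Zp ∨ HZ G Zp x
        · rw [if_pos hz] at hb
          omega
        · rw [if_neg hz] at hb
          push Not at hz
          obtain ⟨-, i, hi⟩ := (hSmem x hx.1).resolve_left hz.1
          rw [idx_eq dN hi] at hb
          rw [Finset.mem_union]
          split_ifs at hb with hm
          · left
            have h2 : n - 1 = i.val := by omega
            rw [h2, ZMod.natCast_zmod_val]
            exact hi
          · right
            have h2 : n - 1 = (i + 4).val := by omega
            rw [h2, ZMod.natCast_zmod_val]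
            have h3 : i + 4 + 1 = i := h41 i
            rw [h3]
            exact hi
    · intro u hu w hw hne
      by_cases hu1 : u ∈ Zp ∨ HZ G Zp u
      · by_cases hw1 : w ∈ Zp ∨ HZ G Zp w
        · exfalso
          apply hne
          simp only [blk]
          rw [if_pos hu1, if_pos hw1]
        · right
          have hw2 := hw1
          push Not at hw2
          obtain ⟨-, j, hj⟩ := (hSmem w hw).resolve_left hw2.1
          exact hP1 j w hj hw2.2 u hu hu1
      · have hu2 := hu1
        push Not at hu2
        obtain ⟨-, i, hi⟩ := (hSmem u hu).resolve_left hu2.1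
        by_cases hw1 : w ∈ Zp ∨ HZ G Zp w
        · left
          exact hP1 i u hi hu2.2 w hw hw1
        · have hw2 := hw1
          push Not at hw2
          obtain ⟨-, j, hj⟩ := (hSmem w hw).resolve_left hw2.1
          rcases z5_cases i j with h1 | h1 | h1 | h1 | h1
          · left; right
            intro x hx hxw hux
            subst h1
            exact iN _ u hi x (hτN x hx _ w hj hxw).1 hux
          · subst h1
            exact hstep i u hi w hj hu2.2 hw2.2 hne
          · left; right
            intro x hx hxw hux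
            subst h1
            exact n2 _ u hi x (hτN x hx _ w hj hxw).1 hux
          · left; right
            intro x hx hxw hux
            subst h1
            exact n2 _ x (hτN x hx _ w hj hxw).1 u hi hux.symm
          · subst h1
            exact (hstep j w hj u hi hw2.2 hu2.2 hne.symm).symm
  exact SLin.mono_k hfin (by norm_num)

end Pool.Agent.Helper856.Cw.CoreA
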