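import Pool.Agent.Helper856.Cw.Mixed

open Classical SimpleGraph

namespace Pool.Agent.Helper856.Cw.CoreB

variable {V : Type} {G : SimpleGraph V} {S T : Finset V} {k l : ℕ}

/-- TARGET -/
theorem coreB (hbip : Bip100 G) (Zs Us : Finset V) (N : ZMod 5 → Finset V) (i0 : ZMod 5)
    (dZU : Disjoint Zs Us) (dZ : ∀ i, Disjoint Zs (N i)) (dU : ∀ i, Disjoint Us (N i))
    (dN : ∀ i j, i ≠ j → Disjoint (N i) (N j))
    (iZ : Ind G Zs) (iU : Ind G Us) (iN : ∀ i, Ind G (N i))
    (n2 : ∀ i, ∀ x ∈ N i, ∀ y ∈ N (i + 2), ¬G.Adj x y)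
    (z0 : ∀ x ∈ N i0, (∀ z ∈ Zs, G.Adj x z) ∨ (∀ z ∈ Zs, ¬G.Adj x z))
    (u0 : ∀ x ∈ N i0, (∀ u ∈ Us, G.Adj x u) ∨ (∀ u ∈ Us, ¬G.Adj x u))
    (z1 : ∀ i, i ≠ i0 → ∀ x ∈ N i, ∀ z ∈ Zs, ¬G.Adj x z)
    (u1 : ∀ i, i ≠ i0 → ∀ x ∈ N i, ∀ u ∈ Us, ¬G.Adj x u)
    (a4 : ∀ i, ∀ x ∈ N i, ¬(Mix G (N (i + 1)) x ∧ Mix G (N (i + 4)) x)) :
    SLin (10 ^ 8) G (Zs ∪ Us ∪ Finset.univ.biUnion N) := by
  have c1 : ∀ i : ZMod 5, i + 1 + 4 = i := by decide
  have c2 : ∀ i : ZMod 5, i + 4 + 1 = i := by decide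
  have c3 : ∀ i : ZMod 5, i ≠ i + 1 := by decide
  have c4 : ∀ i j : ZMod 5, j = i ∨ j = i + 1 ∨ j = i + 2 ∨ i = j + 2 ∨ i = j + 1 := by decide
  obtain ⟨idx, hidx⟩ : ∃ idx : V → ZMod 5, ∀ i, ∀ x ∈ N i, idx x = i := by
    refine ⟨fun x => if h : ∃ i, x ∈ N i then h.choose else 0, ?_⟩
    intro i x hx
    have h : ∃ i, x ∈ N i := ⟨i, hx⟩
    simp only [dif_pos h]
    by_contra hne
    exact (Finset.disjoint_left.1 (dN _ _ hne)) h.choose_spec hx
  set S : Finset V := Zs ∪ Us ∪ Finset.univ.biUnion N with hS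
  have memS : ∀ x, x ∈ S ↔ (x ∈ Zs ∨ x ∈ Us) ∨ ∃ i, x ∈ N i := by
    intro x
    simp [hS, or_assoc]
  obtain ⟨τ, hτ⟩ : ∃ τ : V → Fin 7, τ = fun x => if x ∈ Zs then 5 else if x ∈ Us then 6 else
    ⟨(idx x).val, lt_trans (ZMod.val_lt (idx x)) (by norm_num)⟩ := ⟨_, rfl⟩
  obtain ⟨blk, hblk⟩ : ∃ blk : V → ℕ, blk = fun x => if x ∈ Zs ∪ Us then 0 else
    if Mix G (N (idx x + 1)) x then 1 + (idx x).val else 1 + (idx x + 4).val := ⟨_, rfl⟩
  have nZ : ∀ i, ∀ x ∈ N i, x ∉ Zs := fun i x hx h => Finset.disjoint_left.1 (dZ i) h hx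
  have nU : ∀ i, ∀ x ∈ N i, x ∉ Us := fun i x hx h => Finset.disjoint_left.1 (dU i) h hx
  have τZ : ∀ x ∈ Zs, τ x = 5 := by
    intro x hx
    rw [hτ]
    simp [hx]
  have τU : ∀ x ∈ Us, τ x = 6 := by
    intro x hx
    have : x ∉ Zs := fun h => Finset.disjoint_left.1 dZU h hx
    rw [hτ]
    simp [hx, this]
  have τN : ∀ i, ∀ x ∈ N i, (τ x).val = i.val := by
    intro i x hx
    rw [hτ]
    simp [nZ i x hx, nU i x hx, hidx i x hx]
  have lt5 : ∀ i : ZMod 5, i.val < 5 := fun i => ZMod.val_lt i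
  have mZ : ∀ x ∈ S, τ x = 5 → x ∈ Zs := by
    intro x hx h
    rcases (memS x).1 hx with (h1 | h1) | ⟨i, h1⟩
    · exact h1
    · rw [τU x h1] at h
      exact absurd h (by decide)
    · have := τN i x h1
      rw [h] at this
      have h5 := lt5 i
      rw [← this] at h5
      exact absurd h5 (by decide)
  have mU : ∀ x ∈ S, τ x = 6 → x ∈ Us := by
    intro x hx h
    rcases (memS x).1 hx with (h1 | h1) | ⟨i, h1⟩
    · rw [τZ x h1] at h
      exact absurd h (by decide)
    · exact h1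
    · have := τN i x h1
      rw [h] at this
      have h5 := lt5 i
      rw [← this] at h5
      exact absurd h5 (by decide)
  have mN : ∀ i, ∀ w ∈ N i, ∀ x ∈ S, τ x = τ w → x ∈ N i := by
    intro i w hw x hx h
    have hwv := τN i w hw
    rcases (memS x).1 hx with (h1 | h1) | ⟨j, h1⟩
    · rw [τZ x h1] at h
      rw [← h] at hwv
      have h5 := lt5 i
      rw [← hwv] at h5
      exact absurd h5 (by decide)
    · rw [τU x h1] at h
      rw [← h] at hwv
      have h5 := lt5 i
      rw [← hwv] at h5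
      exact absurd h5 (by decide)
    · have hj := τN j x h1
      rw [h, hwv] at hj
      have : i = j := ZMod.val_injective 5 hj
      rw [this]
      exact h1
  have bZU : ∀ x, x ∈ Zs ∪ Us → blk x = 0 := by
    intro x hx
    rw [hblk]
    simp only [if_pos hx]
  have nZU : ∀ i, ∀ x ∈ N i, x ∉ Zs ∪ Us := by
    intro i x hx h
    rcases Finset.mem_union.1 h with h | h
    · exact nZ i x hx h
    · exact nU i x hx h
  have bN1 : ∀ i, ∀ x ∈ N i, Mix G (N (i + 1)) x → blk x = 1 + i.val := by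
    intro i x hx hm
    rw [hblk]
    simp only [if_neg (nZU i x hx), hidx i x hx, if_pos hm]
  have bN2 : ∀ i, ∀ x ∈ N i, ¬Mix G (N (i + 1)) x → blk x = 1 + (i + 4).val := by
    intro i x hx hm
    rw [hblk]
    simp only [if_neg (nZU i x hx), hidx i x hx, if_neg hm]
  have pm : ∀ (j : ZMod 5) (x : V), (∀ y ∈ N j, G.Adj x y) ∨ (∀ y ∈ N j, ¬G.Adj x y) ∨
      Mix G (N j) x := by
    intro j x
    by_cases h1 : ∀ y ∈ N j, G.Adj x y
    · exact Or.inl h1
    by_cases h2 : ∀ y ∈ N j, ¬G.Adj x y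
    · exact Or.inr (Or.inl h2)
    push Not at h1 h2
    exact Or.inr (Or.inr ⟨h2, h1⟩)
  have edge : ∀ i, ∀ u ∈ N i, ∀ w ∈ N (i + 1), blk u ≠ blk w →
      Pure G S τ u (τ w) ∨ Pure G S τ w (τ u) := by
    intro i u hu w hw hne
    rcases pm (i + 1) u with h | h | h
    · exact Or.inl (Or.inl fun x hx hx2 => h x (mN _ w hw x hx hx2))
    · exact Or.inl (Or.inr fun x hx hx2 => h x (mN _ w hw x hx hx2))
    have b1 := bN1 i u hu h
    rcases pm i w with h' | h' | h'
    · exact Or.inr (Or.inl fun x hx hx2 => h' x (mN _ u hu x hx hx2))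
    · exact Or.inr (Or.inr fun x hx hx2 => h' x (mN _ u hu x hx hx2))
    exfalso
    apply hne
    have h4 : ¬Mix G (N (i + 1 + 1)) w := by
      intro h5
      refine a4 (i + 1) w hw ⟨h5, ?_⟩
      rw [c1]
      exact h'
    rw [b1, bN2 (i + 1) w hw h4, c1]
  have pN : ∀ i, ∀ w ∈ N i, ∀ u, (u ∈ Zs ∨ u ∈ Us) → Pure G S τ w (τ u) := by
    intro i w hw u hu
    rcases hu with hu | hu
    · rw [τZ u hu]
      by_cases hi : i = i0
      · subst hi
        rcases z0 w hw with h | h
        · exact Or.inl fun x hx hx2 => h x (mZ x hx hx2)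
        · exact Or.inr fun x hx hx2 => h x (mZ x hx hx2)
      · exact Or.inr fun x hx hx2 => z1 i hi w hw x (mZ x hx hx2)
    · rw [τU u hu]
      by_cases hi : i = i0
      · subst hi
        rcases u0 w hw with h | h
        · exact Or.inl fun x hx hx2 => h x (mU x hx hx2)
        · exact Or.inr fun x hx hx2 => h x (mU x hx hx2)
      · exact Or.inr fun x hx hx2 => u1 i hi w hw x (mU x hx hx2)
  have main : SLin (7 * 2 ^ 7 * (100 + 1)) G S := by
    refine mixed_blocks τ blk ?_ ?_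
    · intro n
      by_cases h : ∃ x ∈ S, blk x = n ∧ x ∉ Zs ∪ Us
      · obtain ⟨x, hx, hxn, hx2⟩ := h
        obtain ⟨j, hj⟩ : ∃ j : ZMod 5, n = 1 + j.val := by
          rcases (memS x).1 hx with h1 | ⟨i, h1⟩
          · exact absurd (Finset.mem_union.2 h1) hx2
          · by_cases hm : Mix G (N (i + 1)) x
            · exact ⟨i, by rw [← hxn, bN1 i x h1 hm]⟩
            · exact ⟨i + 4, by rw [← hxn, bN2 i x h1 hm]⟩
        refine SLin.subset (hbip (N j) (N (j + 1)) (dN _ _ (c3 j)) (iN _) (iN _)) ?_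
        intro y hy
        rw [Finset.mem_filter] at hy
        rw [Finset.mem_union]
        rcases (memS y).1 hy.1 with h1 | ⟨i, h1⟩
        · have := bZU y (Finset.mem_union.2 h1)
          rw [hy.2] at this
          omega
        · by_cases hm : Mix G (N (i + 1)) y
          · have h2 := bN1 i y h1 hm
            have h3 : i.val = j.val := by have := hy.2; omega
            have h4 := ZMod.val_injective 5 h3
            left
            rw [← h4]
            exact h1
          · have h2 := bN2 i y h1 hm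
            have h3 : (i + 4).val = j.val := by have := hy.2; omega
            have h4 := ZMod.val_injective 5 h3
            right
            rw [← h4, c2]
            exact h1
      · push Not at h
        refine SLin.subset (hbip Zs Us dZU iZ iU) ?_
        intro y hy
        rw [Finset.mem_filter] at hy
        exact h y hy.1 hy.2
    · intro u hu w hw hne
      rcases (memS u).1 hu with h1 | ⟨i, h1⟩
      · rcases (memS w).1 hw with h2 | ⟨j, h2⟩
        · exact absurd ((bZU u (Finset.mem_union.2 h1)).trans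
            (bZU w (Finset.mem_union.2 h2)).symm) hne
        · exact Or.inr (pN j w h2 u h1)
      · rcases (memS w).1 hw with h2 | ⟨j, h2⟩
        · exact Or.inl (pN i u h1 w h2)
        · rcases c4 i j with h | h | h | h | h
          · subst h
            exact Or.inl (Or.inr fun x hx hx2 => iN j u h1 x (mN j w h2 x hx hx2))
          · subst h
            exact edge i u h1 w h2 hne
          · subst h
            exact Or.inl (Or.inr fun x hx hx2 => n2 i u h1 x (mN _ w h2 x hx hx2))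
          · subst h
            exact Or.inl (Or.inr fun x hx hx2 hadj =>
              n2 j x (mN _ w h2 x hx hx2) u h1 hadj.symm)
          · subst h
            exact (edge j w h2 u h1 hne.symm).symm
  exact main.mono_k (by norm_num)

end Pool.Agent.Helper856.Cw.CoreB
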