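import Pool.Agent.Helper856.Cw.Mixed

open Classical SimpleGraph

namespace Pool.Agent.Helper856.Cw.CoreC

variable {V : Type} {G : SimpleGraph V} {S T : Finset V} {k l : ℕ}

/-- TARGET -/
theorem coreC (hbip : Bip100 G) (N U : ZMod 5 → Finset V)
    (dN : ∀ i j, i ≠ j → Disjoint (N i) (N j)) (dU : ∀ i j, i ≠ j → Disjoint (U i) (U j))
    (dNU : ∀ i j, Disjoint (N i) (U j))
    (iN : ∀ i, Ind G (N i)) (iU : ∀ i, Ind G (U i))
    (n2 : ∀ i, ∀ x ∈ N i, ∀ y ∈ N (i + 2), ¬G.Adj x y)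
    (nu1 : ∀ i, ∀ x ∈ N i, ∀ u ∈ U (i + 1), ¬G.Adj x u)
    (nu4 : ∀ i, ∀ x ∈ N i, ∀ u ∈ U (i + 4), ¬G.Adj x u)
    (u1 : ∀ i, ∀ x ∈ U i, ∀ u ∈ U (i + 1), G.Adj x u)
    (e1 : ∀ i, ∀ x ∈ N i, ¬(Mix G (N (i + 1)) x ∧ Mix G (N (i + 4)) x))
    (e2 : ∀ i, ∀ x ∈ N i, Mix G (U i) x → ¬Mix G (N (i + 1)) x ∧ ¬Mix G (N (i + 4)) x)
    (e3 : ∀ i, ∀ x ∈ N i, ¬(Mix G (U (i + 2)) x ∧ Mix G (U (i + 3)) x))
    (e4 : ∀ i, ∀ x ∈ N i, ¬(Mix G (U (i + 2)) x ∧ Mix G (N (i + 1)) x) ∧
      ¬(Mix G (U (i + 3)) x ∧ Mix G (N (i + 4)) x))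
    (e5 : ∀ i, ∀ x ∈ N i, Mix G (U i) x → ¬Mix G (U (i + 2)) x ∧ ¬Mix G (U (i + 3)) x)
    (e7 : ∀ i, ∀ u ∈ U i, ¬(Mix G (U (i + 2)) u ∧ Mix G (U (i + 3)) u))
    (e8 : ∀ i, ∀ u ∈ U i, Mix G (N i) u → ¬Mix G (U (i + 2)) u ∧ ¬Mix G (U (i + 3)) u)
    (e9 : ∀ i, ∀ u ∈ U i, (Mix G (U (i + 2)) u ∨ Mix G (U (i + 3)) u) →
      ¬Mix G (N (i + 2)) u ∧ ¬Mix G (N (i + 3)) u)
    (e10 : ∀ i, ∀ u ∈ U i, Mix G (N i) u → ¬Mix G (N (i + 2)) u ∧ ¬Mix G (N (i + 3)) u)
    (tri : ∀ i, SLin 400 G (U i ∪ N (i + 2) ∪ N (i + 3))) :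
    SLin (10 ^ 8) G (Finset.univ.biUnion N ∪ Finset.univ.biUnion U) := by
  obtain ⟨cls, cN, cU⟩ : ∃ cls : V → Bool × ZMod 5, (∀ i, ∀ x ∈ N i, cls x = (true, i)) ∧
      (∀ i, ∀ x ∈ U i, cls x = (false, i)) := by
    refine ⟨fun x => if h : ∃ i, x ∈ N i then (true, h.choose) else
      if h : ∃ i, x ∈ U i then (false, h.choose) else (true, 0), ?_, ?_⟩
    · intro i x hx
      have h : ∃ i, x ∈ N i := ⟨i, hx⟩
      have h2 : h.choose = i := by
        by_contra hne
        exact Finset.disjoint_left.1 (dN _ _ hne) h.choose_spec hx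
      show (if h : ∃ i, x ∈ N i then (true, h.choose) else
        if h : ∃ i, x ∈ U i then (false, h.choose) else (true, 0)) = (true, i)
      rw [dif_pos h, h2]
    · intro i x hx
      have h0 : ¬ ∃ i, x ∈ N i := by
        rintro ⟨j, hj⟩
        exact Finset.disjoint_left.1 (dNU j i) hj hx
      have h : ∃ i, x ∈ U i := ⟨i, hx⟩
      have h2 : h.choose = i := by
        by_contra hne
        exact Finset.disjoint_left.1 (dU _ _ hne) h.choose_spec hx
      show (if h : ∃ i, x ∈ N i then (true, h.choose) else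
        if h : ∃ i, x ∈ U i then (false, h.choose) else (true, 0)) = (false, i)
      rw [dif_neg h0, dif_pos h, h2]
  obtain ⟨bl, bN, bU⟩ : ∃ bl : V → Fin 3 × ZMod 5,
      (∀ i, ∀ x ∈ N i, bl x = if Mix G (U i) x then (0, i) else
        if Mix G (U (i + 2)) x ∨ Mix G (N (i + 4)) x then (2, i + 2) else (2, i + 3)) ∧
      (∀ i, ∀ x ∈ U i, bl x = if Mix G (N i) x then (0, i) else
        if Mix G (U (i + 2)) x then (1, i) else
          if Mix G (U (i + 3)) x then (1, i + 3) else (2, i)) := by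
    refine ⟨fun x => if (cls x).1 = true then
        (if Mix G (U (cls x).2) x then (0, (cls x).2) else
        if Mix G (U ((cls x).2 + 2)) x ∨ Mix G (N ((cls x).2 + 4)) x then (2, (cls x).2 + 2)
          else (2, (cls x).2 + 3)) else
        (if Mix G (N (cls x).2) x then (0, (cls x).2) else
        if Mix G (U ((cls x).2 + 2)) x then (1, (cls x).2) else
          if Mix G (U ((cls x).2 + 3)) x then (1, (cls x).2 + 3) else (2, (cls x).2)), ?_, ?_⟩
    · intro i x hx
      simp only [cN i x hx, if_true]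
    · intro i x hx
      simp only [cU i x hx, Bool.false_eq_true, if_false]
  have noMix : ∀ (T : Finset V) (x : V), (∀ y ∈ T, ¬ G.Adj x y) → ¬ Mix G T x :=
    fun T x h hm => by
      obtain ⟨⟨y, hy, hxy⟩, _⟩ := hm
      exact h y hy hxy
  have noMix' : ∀ (T : Finset V) (x : V), (∀ y ∈ T, G.Adj x y) → ¬ Mix G T x :=
    fun T x h hm => by
      obtain ⟨_, ⟨y, hy, hxy⟩⟩ := hm
      exact hxy (h y hy)
  have z5 : ∀ a : ZMod 5, a = 0 ∨ a = 1 ∨ a = 2 ∨ a = 3 ∨ a = 4 := by decide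
  have h14 : ∀ i : ZMod 5, i + 1 + 4 = i := by decide
  have h23 : ∀ i : ZMod 5, i + 2 + 3 = i := by decide
  have h32 : ∀ i : ZMod 5, i + 3 + 2 = i := by decide
  have h41 : ∀ i : ZMod 5, i + 4 + 1 = i := by decide
  have L1 : ∀ i, ∀ x ∈ N i, ∀ w ∈ N (i + 1), Mix G (N (i + 1)) x → Mix G (N i) w →
      bl x = bl w := by
    intro i x hx w hw m1 m2
    have a1 : ¬ Mix G (U i) x := fun h => (e2 i x hx h).1 m1
    have a2 : ¬ Mix G (N (i + 4)) x := fun h => e1 i x hx ⟨m1, h⟩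
    have a3 : ¬ Mix G (U (i + 2)) x := fun h => (e4 i x hx).1 ⟨h, m1⟩
    have m2' : Mix G (N (i + 1 + 4)) w := by rw [h14]; exact m2
    have a4 : ¬ Mix G (U (i + 1)) w := fun h => (e2 (i + 1) w hw h).2 m2'
    have h12 : i + 1 + 2 = i + 3 := by rw [add_assoc]; norm_num
    rw [bN i x hx, if_neg a1, if_neg (by rintro (h | h); exacts [a3 h, a2 h]),
      bN (i + 1) w hw, if_neg a4, if_pos (Or.inr m2'), h12]
  have L2 : ∀ i, ∀ x ∈ N i, ∀ w ∈ U i, Mix G (U i) x → Mix G (N i) w → bl x = bl w := by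
    intro i x hx w hw m1 m2
    rw [bN i x hx, if_pos m1, bU i w hw, if_pos m2]
  have L3 : ∀ i, ∀ x ∈ N i, ∀ w ∈ U (i + 2), Mix G (U (i + 2)) x → Mix G (N i) w →
      bl x = bl w := by
    intro i x hx w hw m1 m2
    have a1 : ¬ Mix G (U i) x := fun h => (e5 i x hx h).1 m1
    have m2' : Mix G (N (i + 2 + 3)) w := by rw [h23]; exact m2
    have a2 : ¬ Mix G (N (i + 2)) w := fun h => (e10 (i + 2) w hw h).2 m2'
    have a3 : ¬ Mix G (U (i + 2 + 2)) w := fun h => (e9 (i + 2) w hw (Or.inl h)).2 m2'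
    have a4 : ¬ Mix G (U (i + 2 + 3)) w := fun h => (e9 (i + 2) w hw (Or.inr h)).2 m2'
    rw [bN i x hx, if_neg a1, if_pos (Or.inl m1), bU (i + 2) w hw, if_neg a2, if_neg a3, if_neg a4]
  have L4 : ∀ i, ∀ x ∈ N i, ∀ w ∈ U (i + 3), Mix G (U (i + 3)) x → Mix G (N i) w →
      bl x = bl w := by
    intro i x hx w hw m1 m2
    have a1 : ¬ Mix G (U i) x := fun h => (e5 i x hx h).2 m1
    have a5 : ¬ Mix G (U (i + 2)) x := fun h => e3 i x hx ⟨h, m1⟩
    have a6 : ¬ Mix G (N (i + 4)) x := fun h => (e4 i x hx).2 ⟨m1, h⟩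
    have m2' : Mix G (N (i + 3 + 2)) w := by rw [h32]; exact m2
    have a2 : ¬ Mix G (N (i + 3)) w := fun h => (e10 (i + 3) w hw h).1 m2'
    have a3 : ¬ Mix G (U (i + 3 + 2)) w := fun h => (e9 (i + 3) w hw (Or.inl h)).1 m2'
    have a4 : ¬ Mix G (U (i + 3 + 3)) w := fun h => (e9 (i + 3) w hw (Or.inr h)).1 m2'
    rw [bN i x hx, if_neg a1, if_neg (by rintro (h | h); exacts [a5 h, a6 h]),
      bU (i + 3) w hw, if_neg a2, if_neg a3, if_neg a4]
  have L5 : ∀ i, ∀ x ∈ U i, ∀ w ∈ U (i + 2), Mix G (U (i + 2)) x → Mix G (U i) w →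
      bl x = bl w := by
    intro i x hx w hw m1 m2
    have a1 : ¬ Mix G (N i) x := fun h => (e8 i x hx h).1 m1
    have m2' : Mix G (U (i + 2 + 3)) w := by rw [h23]; exact m2
    have a2 : ¬ Mix G (N (i + 2)) w := fun h => (e8 (i + 2) w hw h).2 m2'
    have a3 : ¬ Mix G (U (i + 2 + 2)) w := fun h => e7 (i + 2) w hw ⟨h, m2'⟩
    rw [bU i x hx, if_neg a1, if_pos m1, bU (i + 2) w hw, if_neg a2, if_neg a3, if_pos m2', h23]
  have hNN : ∀ i j, ∀ x ∈ N i, ∀ w ∈ N j, Mix G (N j) x → Mix G (N i) w → bl x = bl w := by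
    intro i j x hx w hw m1 m2
    obtain ⟨a, rfl⟩ : ∃ a, j = i + a := ⟨j - i, by abel⟩
    rcases z5 a with rfl | rfl | rfl | rfl | rfl
    · rw [add_zero] at m1
      exact absurd m1 (noMix _ _ (fun y hy => iN i x hx y hy))
    · exact L1 i x hx w hw m1 m2
    · exact absurd m1 (noMix _ _ (fun y hy => n2 i x hx y hy))
    · exact absurd m2 (noMix _ _ (fun y hy => n2 (i + 3) w hw y (by rw [h32]; exact hy)))
    · exact (L1 (i + 4) w hw x (by rw [h41]; exact hx) (by rw [h41]; exact m2) m1).symm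
  have hUU : ∀ i j, ∀ x ∈ U i, ∀ w ∈ U j, Mix G (U j) x → Mix G (U i) w → bl x = bl w := by
    intro i j x hx w hw m1 m2
    obtain ⟨a, rfl⟩ : ∃ a, j = i + a := ⟨j - i, by abel⟩
    rcases z5 a with rfl | rfl | rfl | rfl | rfl
    · rw [add_zero] at m1
      exact absurd m1 (noMix _ _ (fun y hy => iU i x hx y hy))
    · exact absurd m1 (noMix' _ _ (fun y hy => u1 i x hx y hy))
    · exact L5 i x hx w hw m1 m2
    · exact (L5 (i + 3) w hw x (by rw [h32]; exact hx) (by rw [h32]; exact m2) m1).symm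
    · exact absurd m2 (noMix' _ _ (fun y hy => u1 (i + 4) w hw y (by rw [h41]; exact hy)))
  have hNU : ∀ i j, ∀ x ∈ N i, ∀ w ∈ U j, Mix G (U j) x → Mix G (N i) w → bl x = bl w := by
    intro i j x hx w hw m1 m2
    obtain ⟨a, rfl⟩ : ∃ a, j = i + a := ⟨j - i, by abel⟩
    rcases z5 a with rfl | rfl | rfl | rfl | rfl
    · rw [add_zero] at m1 hw
      exact L2 i x hx w hw m1 m2
    · exact absurd m1 (noMix _ _ (fun y hy => nu1 i x hx y hy))
    · exact L3 i x hx w hw m1 m2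
    · exact L4 i x hx w hw m1 m2
    · exact absurd m1 (noMix _ _ (fun y hy => nu4 i x hx y hy))
  -- classes
  obtain ⟨C, hCt, hCf⟩ : ∃ C : Bool × ZMod 5 → Finset V, (∀ i, C (true, i) = N i) ∧
      (∀ i, C (false, i) = U i) :=
    ⟨fun q => if q.1 = true then N q.2 else U q.2, fun i => by simp, fun i => by simp⟩
  have hCC : ∀ q r, ∀ x ∈ C q, ∀ w ∈ C r, Mix G (C r) x → Mix G (C q) w → bl x = bl w := by
    rintro ⟨a, i⟩ ⟨b, j⟩ x hx w hw m1 m2
    cases a <;> cases b
    · rw [hCf] at *; exact hUU i j x hx w hw m1 m2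
    · rw [hCf] at hx m2; rw [hCt] at hw m1; exact (hNU j i w hw x hx m2 m1).symm
    · rw [hCt] at hx m2; rw [hCf] at hw m1; exact hNU i j x hx w hw m1 m2
    · rw [hCt] at *; exact hNN i j x hx w hw m1 m2
  have hcls : ∀ q, ∀ x ∈ C q, cls x = q := by
    rintro ⟨a, i⟩ x hx
    cases a
    · rw [hCf] at hx; exact cU i x hx
    · rw [hCt] at hx; exact cN i x hx
  have hS : ∀ x ∈ Finset.univ.biUnion N ∪ Finset.univ.biUnion U, x ∈ C (cls x) := by
    intro x hx
    rw [Finset.mem_union, Finset.mem_biUnion, Finset.mem_biUnion] at hx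
    rcases hx with ⟨i, _, hi⟩ | ⟨i, _, hi⟩
    · rw [cN i x hi, hCt]; exact hi
    · rw [cU i x hi, hCf]; exact hi
  have e10 : Fintype.card (Bool × ZMod 5) = 10 := by decide
  have e15 : Fintype.card (Fin 3 × ZMod 5) = 15 := by decide
  have key := mixed_blocks (G := G) (S := Finset.univ.biUnion N ∪ Finset.univ.biUnion U)
    (k := 400) (m := 10) (fun x => Fintype.equivFinOfCardEq e10 (cls x))
    (fun x => (Fintype.equivFinOfCardEq e15 (bl x)).val) ?_ ?_
  · exact key.mono_k (by norm_num)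
  · -- blocks
    have hB : ∀ q : Fin 3 × ZMod 5, ∃ B : Finset V, SLin 400 G B ∧
        ∀ x ∈ Finset.univ.biUnion N ∪ Finset.univ.biUnion U, bl x = q → x ∈ B := by
      rintro ⟨a, i⟩
      have hN3 : ∀ j, ∀ x ∈ N j, bl x = (0, j) ∨ bl x = (2, j + 2) ∨ bl x = (2, j + 3) := by
        intro j x hx
        rw [bN j x hx]
        split_ifs <;> simp
      have hU3 : ∀ j, ∀ x ∈ U j, bl x = (0, j) ∨ bl x = (1, j) ∨ bl x = (1, j + 3) ∨
          bl x = (2, j) := by
        intro j x hx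
        rw [bU j x hx]
        split_ifs <;> simp
      have dis : ∀ {a b : Fin 3} {i j : ZMod 5}, ((a, i) : Fin 3 × ZMod 5) = (b, j) →
          a = b ∧ i = j := fun h => ⟨congrArg Prod.fst h, congrArg Prod.snd h⟩
      have ha : a = 0 ∨ a = 1 ∨ a = 2 := by
        revert a; decide
      rcases ha with rfl | rfl | rfl
      · refine ⟨N i ∪ U i, (hbip _ _ (dNU i i) (iN i) (iU i)).mono_k (by norm_num), ?_⟩
        intro x hx hb
        rw [Finset.mem_union, Finset.mem_biUnion, Finset.mem_biUnion] at hx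
        rw [Finset.mem_union]
        rcases hx with ⟨j, _, hj⟩ | ⟨j, _, hj⟩
        · rcases hN3 j x hj with h | h | h
          · rw [hb] at h; rw [(dis h).2]; exact Or.inl hj
          · rw [hb] at h; exact absurd (dis h).1 (by decide)
          · rw [hb] at h; exact absurd (dis h).1 (by decide)
        · rcases hU3 j x hj with h | h | h | h
          · rw [hb] at h; rw [(dis h).2]; exact Or.inr hj
          · rw [hb] at h; exact absurd (dis h).1 (by decide)
          · rw [hb] at h; exact absurd (dis h).1 (by decide)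
          · rw [hb] at h; exact absurd (dis h).1 (by decide)
      · refine ⟨U i ∪ U (i + 2), (hbip _ _ (dU i (i + 2) ?_) (iU i) (iU (i + 2))).mono_k
          (by norm_num), ?_⟩
        · revert i; decide
        intro x hx hb
        rw [Finset.mem_union, Finset.mem_biUnion, Finset.mem_biUnion] at hx
        rw [Finset.mem_union]
        rcases hx with ⟨j, _, hj⟩ | ⟨j, _, hj⟩
        · rcases hN3 j x hj with h | h | h
          · rw [hb] at h; exact absurd (dis h).1 (by decide)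
          · rw [hb] at h; exact absurd (dis h).1 (by decide)
          · rw [hb] at h; exact absurd (dis h).1 (by decide)
        · rcases hU3 j x hj with h | h | h | h
          · rw [hb] at h; exact absurd (dis h).1 (by decide)
          · rw [hb] at h; rw [(dis h).2]; exact Or.inl hj
          · rw [hb] at h; rw [(dis h).2, h32]; exact Or.inr hj
          · rw [hb] at h; exact absurd (dis h).1 (by decide)
      · refine ⟨U i ∪ N (i + 2) ∪ N (i + 3), tri i, ?_⟩
        intro x hx hb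
        rw [Finset.mem_union, Finset.mem_biUnion, Finset.mem_biUnion] at hx
        rw [Finset.mem_union, Finset.mem_union]
        rcases hx with ⟨j, _, hj⟩ | ⟨j, _, hj⟩
        · rcases hN3 j x hj with h | h | h
          · rw [hb] at h; exact absurd (dis h).1 (by decide)
          · rw [hb] at h; rw [(dis h).2, h23]; exact Or.inr hj
          · rw [hb] at h; rw [(dis h).2, h32]; exact Or.inl (Or.inr hj)
        · rcases hU3 j x hj with h | h | h | h
          · rw [hb] at h; exact absurd (dis h).1 (by decide)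
          · rw [hb] at h; exact absurd (dis h).1 (by decide)
          · rw [hb] at h; exact absurd (dis h).1 (by decide)
          · rw [hb] at h; rw [(dis h).2]; exact Or.inl (Or.inl hj)
    intro n
    by_cases hn : ∃ q : Fin 3 × ZMod 5, (Fintype.equivFinOfCardEq e15 q).val = n
    · obtain ⟨q, hq⟩ := hn
      obtain ⟨B, hB1, hB2⟩ := hB q
      refine hB1.subset ?_
      intro x hx
      rw [Finset.mem_filter] at hx
      refine hB2 x hx.1 ?_
      apply (Fintype.equivFinOfCardEq e15).injective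
      apply Fin.ext
      rw [hq]; exact hx.2
    · obtain ⟨B, hB1, hB2⟩ := hB 0
      refine hB1.subset ?_
      intro x hx
      rw [Finset.mem_filter] at hx
      exact absurd ⟨_, hx.2⟩ hn
  · -- purity
    intro u hu w hw hne
    have hne' : bl u ≠ bl w := fun h => hne (by simp only [h])
    have hpure : ∀ u w : V, w ∈ C (cls w) → ¬ Mix G (C (cls w)) u →
        Pure G (Finset.univ.biUnion N ∪ Finset.univ.biUnion U)
          (fun x => Fintype.equivFinOfCardEq e10 (cls x)) u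
          (Fintype.equivFinOfCardEq e10 (cls w)) := by
      intro u w hw hm
      by_contra hP
      unfold Pure at hP
      push Not at hP
      obtain ⟨⟨x, hx, hxw, hxa⟩, ⟨y, hy, hyw, hya⟩⟩ := hP
      apply hm
      have hx1 := hS x hx
      have hy1 := hS y hy
      rw [(Fintype.equivFinOfCardEq e10).injective hxw] at hx1
      rw [(Fintype.equivFinOfCardEq e10).injective hyw] at hy1
      exact ⟨⟨y, hy1, hya⟩, ⟨x, hx1, hxa⟩⟩
    by_cases hm1 : Mix G (C (cls w)) u
    · by_cases hm2 : Mix G (C (cls u)) w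
      · exact absurd (hCC _ _ u (hS u hu) w (hS w hw) hm1 hm2) hne'
      · exact Or.inr (hpure w u (hS u hu) hm2)
    · exact Or.inl (hpure u w (hS w hw) hm1)

end Pool.Agent.Helper856.Cw.CoreC
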