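import Pool.Agent.Helper856.Cw.Basic

open Classical SimpleGraph

namespace Pool.Agent.Helper856.Cw.CycW

variable {V : Type} {G : SimpleGraph V} {S T : Finset V} {k l : ℕ}

/-- TARGET -/
theorem cycle_SLinN {n : ℕ} (hn : 5 ≤ n) (f : ZMod n → V) (hf : Function.Injective f)
    (hadj : ∀ i j, G.Adj (f i) (f j) ↔ (j = i + 1 ∨ i = j + 1)) (hS : ∀ x ∈ S, ∃ i, f i = x) :
    SLinN 3 G S := by
  have : NeZero n := ⟨by omega⟩
  have : Fact (1 < n) := ⟨by omega⟩
  have hinv : ∀ i, Function.invFun f (f i) = i := Function.leftInverse_invFun hf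
  have hS' : ∀ x ∈ S, f (Function.invFun f x) = x := by
    intro x hx
    obtain ⟨i, rfl⟩ := hS x hx
    rw [hinv]
  have hstep : ∀ i j : ZMod n, ∀ t : ℕ, i.val < t → t ≤ j.val → (j = i + 1 ∨ i = j + 1) →
      i.val = 0 ∨ i.val + 1 = t := by
    intro i j t hi hj h
    have hil := ZMod.val_lt i
    have hjl := ZMod.val_lt j
    have hadd : ∀ a : ZMod n, (a + 1).val = (a.val + 1) % n := by
      intro a
      rw [ZMod.val_add, ZMod.val_one]
    rcases h with h | h
    · have h1 : j.val = (i.val + 1) % n := by rw [h, hadd]
      by_cases h2 : i.val + 1 < n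
      · rw [Nat.mod_eq_of_lt h2] at h1
        right; omega
      · have h3 : i.val + 1 = n := by omega
        rw [h3, Nat.mod_self] at h1
        omega
    · have h1 : i.val = (j.val + 1) % n := by rw [h, hadd]
      by_cases h2 : j.val + 1 < n
      · rw [Nat.mod_eq_of_lt h2] at h1
        omega
      · have h3 : j.val + 1 = n := by omega
        rw [h3, Nat.mod_self] at h1
        left; exact h1
  have hinj : ∀ x ∈ S, ∀ y ∈ S, (Function.invFun f x).val = (Function.invFun f y).val → x = y := by
    intro x hx y hy h
    have h1 : Function.invFun f x = Function.invFun f y := ZMod.val_injective n h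
    rw [← hS' x hx, ← hS' y hy, h1]
  refine ⟨fun x => (Function.invFun f x).val, ?_, ?_⟩
  · intro x hx y hy h
    exact hinj x hx y hy h
  · intro t
    refine ⟨fun x => if (Function.invFun f x).val = 0 then 0 else
      if (Function.invFun f x).val + 1 = t then 1 else 2, ?_⟩
    intro u hu v hv hut hvt hu' hv' hc w hw hwt
    have hkey : ∀ x ∈ S, (Function.invFun f x).val < t → (∃ w ∈ S, t ≤ (Function.invFun f w).val ∧ G.Adj x w) →
        (Function.invFun f x).val = 0 ∨ (Function.invFun f x).val + 1 = t := by
      intro x hx hxt ⟨y, hy, hyt, hxy⟩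
      apply hstep _ _ t hxt hyt
      rw [← hS' x hx, ← hS' y hy, hadj] at hxy
      exact hxy
    have h1 := hkey u hu hut hu'
    have h2 := hkey v hv hvt hv'
    have huv : u = v := by
      apply hinj u hu v hv
      dsimp only at hc
      rcases h1 with h1 | h1
      · rw [if_pos h1] at hc
        by_cases h3 : (Function.invFun f v).val = 0
        · omega
        · rw [if_neg h3] at hc
          split_ifs at hc <;> exact absurd hc (by decide)
      · rcases h2 with h2 | h2
        · rw [if_pos h2] at hc
          by_cases h3 : (Function.invFun f u).val = 0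
          · omega
          · rw [if_neg h3] at hc
            split_ifs at hc <;> exact absurd hc (by decide)
        · omega
    rw [huv]

end Pool.Agent.Helper856.Cw.CycW
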