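import Mathlib
import Pool.Agent.Helper856.Lcw.Defs
import Pool.Agent.Helper856.Lcw.Base
import Pool.Agent.Helper856.Lcw.GBase

open Classical SimpleGraph

namespace Pool.Agent.Helper856.Cw

variable {V : Type}

/-- arrangement of the vertices of `S`: at every threshold the earlier vertices fall into at most
`k` classes with respect to their later neighbours -/
def SLin (k : ℕ) (G : SimpleGraph V) (S : Finset V) : Prop :=
  ∃ p : V → ℕ, Set.InjOn p S ∧ ∀ t : ℕ, ∃ c : V → Fin k,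
    ∀ u ∈ S, ∀ v ∈ S, p u < t → p v < t → c u = c v → ∀ w ∈ S, t ≤ p w → (G.Adj u w ↔ G.Adj v w)

/-- the same, but earlier vertices without later neighbours are not counted -/
def SLinN (k : ℕ) (G : SimpleGraph V) (S : Finset V) : Prop :=
  ∃ p : V → ℕ, Set.InjOn p S ∧ ∀ t : ℕ, ∃ c : V → Fin k,
    ∀ u ∈ S, ∀ v ∈ S, p u < t → p v < t → (∃ w ∈ S, t ≤ p w ∧ G.Adj u w) →
      (∃ w ∈ S, t ≤ p w ∧ G.Adj v w) → c u = c v → ∀ w ∈ S, t ≤ p w → (G.Adj u w ↔ G.Adj v w)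

/-- triangle-free -/
def Tri (G : SimpleGraph V) : Prop := ∀ x y z, G.Adj x y → G.Adj y z → G.Adj x z → False

/-- no induced `P_1 + S_{1,1,3}` (in a triangle-free graph; the other non-adjacencies follow) -/
def NoP (G : SimpleGraph V) : Prop := ∀ c l1 l2 x y z p, G.Adj c l1 → G.Adj c l2 → G.Adj c x →
  G.Adj x y → G.Adj y z → l1 ≠ l2 → ¬G.Adj l1 y → ¬G.Adj l1 z → ¬G.Adj l2 y → ¬G.Adj l2 z →
  ¬G.Adj c z → ¬G.Adj p c → ¬G.Adj p l1 → ¬G.Adj p l2 → ¬G.Adj p x → ¬G.Adj p y → ¬G.Adj p z → False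

/-- no induced `S_{1,1,3}` inside `S` (in a triangle-free graph) -/
def NoS (G : SimpleGraph V) (S : Finset V) : Prop := ∀ c ∈ S, ∀ l1 ∈ S, ∀ l2 ∈ S, ∀ x ∈ S, ∀ y ∈ S,
  ∀ z ∈ S, G.Adj c l1 → G.Adj c l2 → G.Adj c x →
  G.Adj x y → G.Adj y z → l1 ≠ l2 → ¬G.Adj l1 y → ¬G.Adj l1 z → ¬G.Adj l2 y → ¬G.Adj l2 z →
  ¬G.Adj c z → False

/-- induced 5-cycle -/
structure C5 (G : SimpleGraph V) (a0 a1 a2 a3 a4 : V) : Prop where
  h01 : G.Adj a0 a1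
  h12 : G.Adj a1 a2
  h23 : G.Adj a2 a3
  h34 : G.Adj a3 a4
  h40 : G.Adj a4 a0
  n02 : ¬G.Adj a0 a2
  n03 : ¬G.Adj a0 a3
  n13 : ¬G.Adj a1 a3
  n14 : ¬G.Adj a1 a4
  n24 : ¬G.Adj a2 a4

/-- `x` is off the cycle and has exactly the neighbours `a1`, `a4` on it -/
structure IsN (G : SimpleGraph V) (a0 a1 a2 a3 a4 x : V) : Prop where
  e1 : G.Adj x a1
  e4 : G.Adj x a4
  n0 : ¬G.Adj x a0
  n2 : ¬G.Adj x a2
  n3 : ¬G.Adj x a3
  ne : x ≠ a0

/-- `x` has exactly the neighbour `a0` on the cycle -/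
structure IsU (G : SimpleGraph V) (a0 a1 a2 a3 a4 x : V) : Prop where
  e0 : G.Adj x a0
  n1 : ¬G.Adj x a1
  n2 : ¬G.Adj x a2
  n3 : ¬G.Adj x a3
  n4 : ¬G.Adj x a4

/-- `x` has no neighbour on the cycle -/
structure IsZ (G : SimpleGraph V) (a0 a1 a2 a3 a4 x : V) : Prop where
  n0 : ¬G.Adj x a0
  n1 : ¬G.Adj x a1
  n2 : ¬G.Adj x a2
  n3 : ¬G.Adj x a3
  n4 : ¬G.Adj x a4

/-- `T` is independent -/
def Ind (G : SimpleGraph V) (T : Finset V) : Prop := ∀ x ∈ T, ∀ y ∈ T, ¬G.Adj x y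

/-- every bipartite piece has an arrangement of width 100 -/
def Bip100 (G : SimpleGraph V) : Prop :=
  ∀ A B : Finset V, Disjoint A B → Ind G A → Ind G B → SLin 100 G (A ∪ B)

/-- `x` has a neighbour and a non-neighbour in `T` -/
def Mix (G : SimpleGraph V) (T : Finset V) (x : V) : Prop :=
  (∃ y ∈ T, G.Adj x y) ∧ (∃ y ∈ T, ¬G.Adj x y)

/-- `u` is complete or anticomplete to the part of `S` labelled `j` -/
def Pure (G : SimpleGraph V) (S : Finset V) {m : ℕ} (τ : V → Fin m) (u : V) (j : Fin m) : Prop :=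
  (∀ x ∈ S, τ x = j → G.Adj u x) ∨ (∀ x ∈ S, τ x = j → ¬G.Adj u x)

end Pool.Agent.Helper856.Cw
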