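import Pool.Agent.Helper856.Cw.Defs

open Classical SimpleGraph

namespace Pool.Agent.Helper856.Cw.E

variable {V : Type} {G : SimpleGraph V} {a0 a1 a2 a3 a4 : V}

theorem ns {u v : V} (h : ¬G.Adj u v) : ¬G.Adj v u := fun h2 => h h2.symm

theorem neA {u v w : V} (h1 : G.Adj u w) (h2 : ¬G.Adj v w) : u ≠ v := by
  rintro rfl; exact h2 h1


theorem F1 (hK : Tri G) (hP : NoP G) (hC : C5 G a0 a1 a2 a3 a4)
    {x y y2 w : V}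
    (hx : IsN G a0 a1 a2 a3 a4 x)
    (hy : IsN G a1 a2 a3 a4 a0 y)
    (hy2 : IsN G a1 a2 a3 a4 a0 y2)
    (hw : IsN G a4 a0 a1 a2 a3 w)
    (d_y_y2 : y ≠ y2) (k_x_y : ¬G.Adj x y) (k_x_w : ¬G.Adj x w) : False := by
  by_cases q1 : G.Adj y y2
  · exact hK _ _ _ hy.e4.symm q1 hy2.e4.symm
  · by_cases q2 : G.Adj y w
    · exact hK _ _ _ hy.e4.symm q2 hw.e1.symm
    · by_cases q3 : G.Adj y2 w
      · exact hK _ _ _ hy2.e4.symm q3 hw.e1.symm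
      · by_cases q4 : G.Adj x y2
        · exact hP _ _ _ _ _ _ _ hx.e1 q4 hx.e4 hC.h34.symm hw.e4.symm hy2.ne.symm hC.n13 (ns hw.n2) hy2.n2 q3 k_x_w (ns k_x_y) hy.n0 q1 hy.n3 hy.n2 q2
        · exact hP _ _ _ _ _ _ _ hy.e1.symm hy2.e1.symm hC.h12.symm hx.e1.symm hx.e4 d_y_y2 (ns k_x_y) hy.n3 (ns q4) hy2.n3 hC.n24 hw.n3 (ns q2) (ns q3) hw.n2 (ns k_x_w) hw.n0

theorem F2 (hK : Tri G) (hP : NoP G) (hC : C5 G a0 a1 a2 a3 a4)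
    {x u u2 y : V}
    (hx : IsN G a0 a1 a2 a3 a4 x)
    (hu : IsU G a0 a1 a2 a3 a4 u)
    (hu2 : IsU G a0 a1 a2 a3 a4 u2)
    (hy : IsN G a1 a2 a3 a4 a0 y)
    (k_x_u : G.Adj x u) (k_x_u2 : ¬G.Adj x u2) (k_x_y : ¬G.Adj x y) : False := by
  by_cases q1 : G.Adj u u2
  · exact hK _ _ _ hu.e0.symm q1 hu2.e0.symm
  · by_cases q2 : G.Adj u y
    · exact hK _ _ _ hu.e0.symm q2 hy.e4.symm
    · by_cases q3 : G.Adj u2 y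
      · exact hK _ _ _ hu2.e0.symm q3 hy.e4.symm
      · exact hP _ _ _ _ _ _ _ hC.h23 hy.e1.symm hC.h12.symm hx.e1.symm k_x_u ((neA hy.e4 (ns hC.n03)).symm) (ns hx.n3) (ns hu.n3) (ns k_x_y) (ns q2) (ns hu.n2) hu2.n2 hu2.n3 q3 hu2.n1 (ns k_x_u2) (ns q1)

theorem F3 (hK : Tri G) (hP : NoP G) (hC : C5 G a0 a1 a2 a3 a4)
    {x u u2 u3 w : V}
    (hx : IsN G a0 a1 a2 a3 a4 x)
    (hu : IsU G a2 a3 a4 a0 a1 u)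
    (hu2 : IsU G a2 a3 a4 a0 a1 u2)
    (hu3 : IsU G a2 a3 a4 a0 a1 u3)
    (hw : IsU G a3 a4 a0 a1 a2 w)
    (d_u_u2 : u ≠ u2) (d_u_u3 : u ≠ u3) (d_u2_u3 : u2 ≠ u3) (k_x_u : G.Adj x u) (k_x_w : G.Adj x w) : False := by
  by_cases q1 : G.Adj u u2
  · exact hK _ _ _ hu.e0.symm q1 hu2.e0.symm
  · by_cases q2 : G.Adj u u3
    · exact hK _ _ _ hu.e0.symm q2 hu3.e0.symm
    · by_cases q3 : G.Adj u w
      · exact hK _ _ _ k_x_u q3 k_x_w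
      · by_cases q4 : G.Adj u2 w
        · by_cases q5 : G.Adj u3 w
          · exact hP _ _ _ _ _ _ _ q4.symm q5.symm hw.e0 hC.h34 hC.h40 d_u2_u3 hu2.n2 hu2.n3 hu3.n2 hu3.n3 hw.n2 q3 q1 q2 hu.n1 hu.n2 hu.n3
          · exact hP _ _ _ _ _ _ _ hu.e0.symm hu3.e0.symm hC.h12.symm hC.h01.symm hC.h40.symm d_u_u3 hu.n3 hu.n2 hu3.n3 hu3.n2 hC.n24 hw.n4 (ns q3) (ns q5) hw.n3 hw.n2 hw.n1
        · exact hP _ _ _ _ _ _ _ hu.e0.symm hu2.e0.symm hC.h12.symm hC.h01.symm hC.h40.symm d_u_u2 hu.n3 hu.n2 hu2.n3 hu2.n2 hC.n24 hw.n4 (ns q3) (ns q4) hw.n3 hw.n2 hw.n1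

theorem F4a (hK : Tri G) (hP : NoP G) (hC : C5 G a0 a1 a2 a3 a4)
    {x u u2 y : V}
    (hx : IsN G a0 a1 a2 a3 a4 x)
    (hu : IsU G a2 a3 a4 a0 a1 u)
    (hu2 : IsU G a2 a3 a4 a0 a1 u2)
    (hy : IsN G a1 a2 a3 a4 a0 y)
    (d_u_u2 : u ≠ u2) (k_x_u : G.Adj x u) (k_x_u2 : G.Adj x u2) (k_x_y : ¬G.Adj x y) : False := by
  by_cases q1 : G.Adj u y
  · exact hK _ _ _ hu.e0.symm q1 hy.e1.symm
  · by_cases q2 : G.Adj u2 y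
    · exact hK _ _ _ hu2.e0.symm q2 hy.e1.symm
    · exact hP _ _ _ _ _ _ _ k_x_u k_x_u2 hx.e1 hC.h01.symm hy.e4.symm d_u_u2 hu.n3 q1 hu2.n3 q2 k_x_y (ns hx.n3) (ns hu.n1) (ns hu2.n1) (ns hC.n13) (ns hC.n03) (ns hy.n2)

theorem F4b (hK : Tri G) (hP : NoP G) (hC : C5 G a0 a1 a2 a3 a4)
    {x u y y2 : V}
    (hx : IsN G a0 a1 a2 a3 a4 x)
    (hu : IsU G a2 a3 a4 a0 a1 u)
    (hy : IsN G a1 a2 a3 a4 a0 y)
    (hy2 : IsN G a1 a2 a3 a4 a0 y2)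
    (d_y_y2 : y ≠ y2) (k_x_u : G.Adj x u) (k_x_y : ¬G.Adj x y) (k_x_y2 : ¬G.Adj x y2) : False := by
  by_cases q1 : G.Adj u y
  · exact hK _ _ _ hu.e0.symm q1 hy.e1.symm
  · by_cases q2 : G.Adj u y2
    · exact hK _ _ _ hu.e0.symm q2 hy2.e1.symm
    · exact hP _ _ _ _ _ _ _ hy.e4.symm hy2.e4.symm hC.h01 hx.e1.symm k_x_u d_y_y2 (ns k_x_y) (ns q1) (ns k_x_y2) (ns q2) (ns hu.n3) (ns hC.n03) (ns hy.n2) (ns hy2.n2) (ns hC.n13) (ns hx.n3) (ns hu.n1)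

theorem F4c (hK : Tri G) (hP : NoP G) (hC : C5 G a0 a1 a2 a3 a4)
    {x x2 u u2 y y2 : V}
    (hx : IsN G a0 a1 a2 a3 a4 x)
    (hx2 : IsN G a0 a1 a2 a3 a4 x2)
    (hu : IsU G a2 a3 a4 a0 a1 u)
    (hu2 : IsU G a2 a3 a4 a0 a1 u2)
    (hy : IsN G a1 a2 a3 a4 a0 y)
    (hy2 : IsN G a1 a2 a3 a4 a0 y2)
    (k_x_u : G.Adj x u) (k_x2_u2 : G.Adj x2 u2) (k_x_u2 : ¬G.Adj x u2) (k_x2_u : ¬G.Adj x2 u) (k_x_y : ¬G.Adj x y) (k_x2_y2 : ¬G.Adj x2 y2) (k_x_y2 : G.Adj x y2) (k_x2_y : G.Adj x2 y) : False := by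
  by_cases q1 : G.Adj u u2
  · exact hK _ _ _ hu.e0.symm q1 hu2.e0.symm
  · by_cases q2 : G.Adj u y
    · exact hK _ _ _ hu.e0.symm q2 hy.e1.symm
    · exact hP _ _ _ _ _ _ _ k_x2_u2 k_x2_y hx2.e1 hx.e1.symm k_x_u ((neA hy.e4 hu2.n3).symm) (ns k_x_u2) (ns q1) (ns k_x_y) (ns q2) k_x2_u (ns hx2.n3) (ns hu2.n1) (ns hy.n2) (ns hC.n13) (ns hx.n3) (ns hu.n1)

theorem F5 (hK : Tri G) (hP : NoP G) (hC : C5 G a0 a1 a2 a3 a4)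
    {x u u2 u3 u4 w w2 : V}
    (hx : IsN G a0 a1 a2 a3 a4 x)
    (hu : IsU G a0 a1 a2 a3 a4 u)
    (hu2 : IsU G a0 a1 a2 a3 a4 u2)
    (hu3 : IsU G a0 a1 a2 a3 a4 u3)
    (hu4 : IsU G a0 a1 a2 a3 a4 u4)
    (hw : IsU G a2 a3 a4 a0 a1 w)
    (hw2 : IsU G a2 a3 a4 a0 a1 w2)
    (d_u_u3 : u ≠ u3) (d_u_u4 : u ≠ u4) (d_u2_u3 : u2 ≠ u3) (d_u2_u4 : u2 ≠ u4) (d_u3_u4 : u3 ≠ u4) (k_x_u : G.Adj x u) (k_x_u2 : ¬G.Adj x u2) (k_x_w : G.Adj x w) (k_x_w2 : ¬G.Adj x w2) : False := by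
  by_cases q1 : G.Adj u u2
  · exact hK _ _ _ hu.e0.symm q1 hu2.e0.symm
  · by_cases q2 : G.Adj u u3
    · exact hK _ _ _ hu.e0.symm q2 hu3.e0.symm
    · by_cases q3 : G.Adj u u4
      · exact hK _ _ _ hu.e0.symm q3 hu4.e0.symm
      · by_cases q4 : G.Adj u w
        · exact hK _ _ _ k_x_u q4 k_x_w
        · by_cases q5 : G.Adj u2 u3
          · exact hK _ _ _ hu2.e0.symm q5 hu3.e0.symm
          · by_cases q6 : G.Adj u2 u4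
            · exact hK _ _ _ hu2.e0.symm q6 hu4.e0.symm
            · by_cases q7 : G.Adj x u3
              · exact hP _ _ _ _ _ _ _ k_x_u q7 hx.e1 hC.h12 hC.h23 d_u_u3 hu.n2 hu.n3 hu3.n2 hu3.n3 hx.n3 (ns k_x_u2) (ns q1) q5 hu2.n1 hu2.n2 hu2.n3
              · by_cases q8 : G.Adj x u4
                · exact hP _ _ _ _ _ _ _ k_x_u q8 hx.e1 hC.h12 hC.h23 d_u_u4 hu.n2 hu.n3 hu4.n2 hu4.n3 hx.n3 (ns k_x_u2) (ns q1) q6 hu2.n1 hu2.n2 hu2.n3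
                · by_cases q9 : G.Adj u2 w
                  · by_cases q10 : G.Adj u3 w
                    · exact hP _ _ _ _ _ _ _ q9.symm q10.symm hw.e0 hC.h23 hC.h34 d_u2_u3 hu2.n3 hu2.n4 hu3.n3 hu3.n4 hw.n2 q4 q1 q2 hu.n2 hu.n3 hu.n4
                    · by_cases q11 : G.Adj u4 w
                      · exact hP _ _ _ _ _ _ _ q9.symm q11.symm hw.e0 hC.h23 hC.h34 d_u2_u4 hu2.n3 hu2.n4 hu4.n3 hu4.n4 hw.n2 q4 q1 q3 hu.n2 hu.n3 hu.n4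
                      · exact hP _ _ _ _ _ _ _ hu3.e0.symm hu4.e0.symm hC.h01 hx.e1.symm k_x_w d_u3_u4 (ns q7) q10 (ns q8) q11 (ns hw.n3) (ns hC.n03) (ns hu3.n3) (ns hu4.n3) (ns hC.n13) (ns hx.n3) (ns hw.n1)
                  · by_cases q12 : G.Adj u3 w
                    · by_cases q13 : G.Adj u4 w
                      · exact hP _ _ _ _ _ _ _ q12.symm q13.symm hw.e0 hC.h23 hC.h34 d_u3_u4 hu3.n3 hu3.n4 hu4.n3 hu4.n4 hw.n2 q4 q2 q3 hu.n2 hu.n3 hu.n4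
                      · exact hP _ _ _ _ _ _ _ hu2.e0.symm hu4.e0.symm hC.h01 hx.e1.symm k_x_w d_u2_u4 (ns k_x_u2) q9 (ns q8) q13 (ns hw.n3) (ns hC.n03) (ns hu2.n3) (ns hu4.n3) (ns hC.n13) (ns hx.n3) (ns hw.n1)
                    · exact hP _ _ _ _ _ _ _ hu2.e0.symm hu3.e0.symm hC.h01 hx.e1.symm k_x_w d_u2_u3 (ns k_x_u2) q9 (ns q7) q12 (ns hw.n3) (ns hC.n03) (ns hu2.n3) (ns hu3.n3) (ns hC.n13) (ns hx.n3) (ns hw.n1)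

theorem F6 (hK : Tri G) (hP : NoP G) (hC : C5 G a0 a1 a2 a3 a4)
    {u w w2 w3 : V}
    (hu : IsU G a0 a1 a2 a3 a4 u)
    (hw : IsU G a1 a2 a3 a4 a0 w)
    (hw2 : IsU G a1 a2 a3 a4 a0 w2)
    (hw3 : IsU G a1 a2 a3 a4 a0 w3)
    (d_w_w2 : w ≠ w2) (d_w_w3 : w ≠ w3) (d_w2_w3 : w2 ≠ w3) (k_u_w : ¬G.Adj u w) : False := by
  by_cases q1 : G.Adj w w2
  · exact hK _ _ _ hw.e0.symm q1 hw2.e0.symm
  · by_cases q2 : G.Adj w w3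
    · exact hK _ _ _ hw.e0.symm q2 hw3.e0.symm
    · by_cases q3 : G.Adj u w2
      · by_cases q4 : G.Adj u w3
        · exact hP _ _ _ _ _ _ _ q3 q4 hu.e0 hC.h40.symm hC.h34.symm d_w2_w3 hw2.n3 hw2.n2 hw3.n3 hw3.n2 hu.n3 (ns k_u_w) q1 q2 hw.n4 hw.n3 hw.n2
        · exact hP _ _ _ _ _ _ _ hw.e0.symm hw3.e0.symm hC.h12 hC.h23 hC.h34 d_w_w3 hw.n2 hw.n3 hw3.n2 hw3.n3 hC.n14 hu.n1 k_u_w q4 hu.n2 hu.n3 hu.n4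
      · exact hP _ _ _ _ _ _ _ hw.e0.symm hw2.e0.symm hC.h12 hC.h23 hC.h34 d_w_w2 hw.n2 hw.n3 hw2.n2 hw2.n3 hC.n14 hu.n1 k_u_w q3 hu.n2 hu.n3 hu.n4

theorem F7 (hK : Tri G) (hP : NoP G) (hC : C5 G a0 a1 a2 a3 a4)
    {u w w2 w3 y : V}
    (hu : IsU G a0 a1 a2 a3 a4 u)
    (hw : IsU G a2 a3 a4 a0 a1 w)
    (hw2 : IsU G a2 a3 a4 a0 a1 w2)
    (hw3 : IsU G a2 a3 a4 a0 a1 w3)
    (hy : IsU G a3 a4 a0 a1 a2 y)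
    (d_w_w2 : w ≠ w2) (d_w_w3 : w ≠ w3) (d_w2_w3 : w2 ≠ w3) (k_u_w : G.Adj u w) (k_u_y : G.Adj u y) : False := by
  by_cases q1 : G.Adj w w2
  · exact hK _ _ _ hw.e0.symm q1 hw2.e0.symm
  · by_cases q2 : G.Adj w w3
    · exact hK _ _ _ hw.e0.symm q2 hw3.e0.symm
    · by_cases q3 : G.Adj w y
      · exact hK _ _ _ k_u_w q3 k_u_y
      · by_cases q4 : G.Adj u w2
        · exact hP _ _ _ _ _ _ _ k_u_w q4 k_u_y hy.e0 hC.h34 d_w_w2 hw.n1 hw.n2 hw2.n1 hw2.n2 hu.n4 (ns hu.n1) (ns hw.n4) (ns hw2.n4) (ns hy.n3) hC.n13 hC.n14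
        · by_cases q5 : G.Adj u w3
          · exact hP _ _ _ _ _ _ _ k_u_w q5 k_u_y hy.e0 hC.h34 d_w_w3 hw.n1 hw.n2 hw3.n1 hw3.n2 hu.n4 (ns hu.n1) (ns hw.n4) (ns hw3.n4) (ns hy.n3) hC.n13 hC.n14
          · by_cases q6 : G.Adj w2 y
            · by_cases q7 : G.Adj w3 y
              · exact hP _ _ _ _ _ _ _ q6.symm q7.symm hy.e0 hC.h34 hC.h40 d_w2_w3 hw2.n2 hw2.n3 hw3.n2 hw3.n3 hy.n2 q3 q1 q2 hw.n1 hw.n2 hw.n3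
              · exact hP _ _ _ _ _ _ _ hC.h12.symm hw3.e0.symm hw.e0.symm k_u_w.symm k_u_y (neA hC.h01.symm hw3.n3) (ns hu.n1) (ns hy.n3) (ns q5) q7 (ns hy.n4) (ns hC.n24) (ns hC.n14) (ns hw3.n2) (ns hw.n2) (ns hu.n4) (ns hy.n1)
            · exact hP _ _ _ _ _ _ _ hC.h12.symm hw2.e0.symm hw.e0.symm k_u_w.symm k_u_y (neA hC.h01.symm hw2.n3) (ns hu.n1) (ns hy.n3) (ns q4) q6 (ns hy.n4) (ns hC.n24) (ns hC.n14) (ns hw2.n2) (ns hw.n2) (ns hu.n4) (ns hy.n1)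

theorem F8 (hK : Tri G) (hP : NoP G) (hC : C5 G a0 a1 a2 a3 a4)
    {u w w2 w3 w4 x : V}
    (hu : IsU G a0 a1 a2 a3 a4 u)
    (hw : IsU G a2 a3 a4 a0 a1 w)
    (hw2 : IsU G a2 a3 a4 a0 a1 w2)
    (hw3 : IsU G a2 a3 a4 a0 a1 w3)
    (hw4 : IsU G a2 a3 a4 a0 a1 w4)
    (hx : IsN G a0 a1 a2 a3 a4 x)
    (d_w_w2 : w ≠ w2) (d_w_w3 : w ≠ w3) (d_w_w4 : w ≠ w4) (d_w2_w3 : w2 ≠ w3) (d_w2_w4 : w2 ≠ w4) (d_w3_w4 : w3 ≠ w4) (k_u_w : ¬G.Adj u w) (k_u_x : ¬G.Adj u x) : False := by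
  by_cases q1 : G.Adj w w2
  · exact hK _ _ _ hw.e0.symm q1 hw2.e0.symm
  · by_cases q2 : G.Adj w w3
    · exact hK _ _ _ hw.e0.symm q2 hw3.e0.symm
    · by_cases q3 : G.Adj w w4
      · exact hK _ _ _ hw.e0.symm q3 hw4.e0.symm
      · by_cases q4 : G.Adj u w2
        · by_cases q5 : G.Adj u w3
          · exact hP _ _ _ _ _ _ _ q4 q5 hu.e0 hC.h40.symm hC.h34.symm d_w2_w3 hw2.n2 hw2.n1 hw3.n2 hw3.n1 hu.n3 (ns k_u_w) q1 q2 hw.n3 hw.n2 hw.n1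
          · by_cases q6 : G.Adj u w4
            · exact hP _ _ _ _ _ _ _ q4 q6 hu.e0 hC.h40.symm hC.h34.symm d_w2_w4 hw2.n2 hw2.n1 hw4.n2 hw4.n1 hu.n3 (ns k_u_w) q1 q3 hw.n3 hw.n2 hw.n1
            · by_cases q7 : G.Adj w x
              · by_cases q8 : G.Adj w3 x
                · exact hP _ _ _ _ _ _ _ q7.symm q8.symm hx.e1 hC.h01.symm hu.e0.symm d_w_w3 hw.n3 (ns k_u_w) hw3.n3 (ns q5) (ns k_u_x) (ns hx.n3) (ns hw.n1) (ns hw3.n1) (ns hC.n13) (ns hC.n03) (ns hu.n3)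
                · by_cases q9 : G.Adj w4 x
                  · exact hP _ _ _ _ _ _ _ q7.symm q9.symm hx.e1 hC.h01.symm hu.e0.symm d_w_w4 hw.n3 (ns k_u_w) hw4.n3 (ns q6) (ns k_u_x) (ns hx.n3) (ns hw.n1) (ns hw4.n1) (ns hC.n13) (ns hC.n03) (ns hu.n3)
                  · exact hP _ _ _ _ _ _ _ hw3.e0.symm hw4.e0.symm hC.h12.symm hx.e1.symm hx.e4 d_w3_w4 q8 hw3.n2 q9 hw4.n2 hC.n24 hu.n2 q5 q6 hu.n1 k_u_x hu.n4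
              · by_cases q10 : G.Adj w3 x
                · by_cases q11 : G.Adj w4 x
                  · exact hP _ _ _ _ _ _ _ q10.symm q11.symm hx.e1 hC.h01.symm hu.e0.symm d_w3_w4 hw3.n3 (ns q5) hw4.n3 (ns q6) (ns k_u_x) (ns hx.n3) (ns hw3.n1) (ns hw4.n1) (ns hC.n13) (ns hC.n03) (ns hu.n3)
                  · exact hP _ _ _ _ _ _ _ hw.e0.symm hw4.e0.symm hC.h12.symm hx.e1.symm hx.e4 d_w_w4 q7 hw.n2 q11 hw4.n2 hC.n24 hu.n2 k_u_w q6 hu.n1 k_u_x hu.n4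
                · exact hP _ _ _ _ _ _ _ hw.e0.symm hw3.e0.symm hC.h12.symm hx.e1.symm hx.e4 d_w_w3 q7 hw.n2 q10 hw3.n2 hC.n24 hu.n2 k_u_w q5 hu.n1 k_u_x hu.n4
        · by_cases q12 : G.Adj w2 x
          · by_cases q13 : G.Adj w x
            · exact hP _ _ _ _ _ _ _ q13.symm q12.symm hx.e1 hC.h01.symm hu.e0.symm d_w_w2 hw.n3 (ns k_u_w) hw2.n3 (ns q4) (ns k_u_x) (ns hx.n3) (ns hw.n1) (ns hw2.n1) (ns hC.n13) (ns hC.n03) (ns hu.n3)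
            · by_cases q14 : G.Adj u w3
              · by_cases q15 : G.Adj u w4
                · exact hP _ _ _ _ _ _ _ q14 q15 hu.e0 hC.h40.symm hC.h34.symm d_w3_w4 hw3.n2 hw3.n1 hw4.n2 hw4.n1 hu.n3 (ns k_u_w) q2 q3 hw.n3 hw.n2 hw.n1
                · by_cases q16 : G.Adj w4 x
                  · exact hP _ _ _ _ _ _ _ q12.symm q16.symm hx.e1 hC.h01.symm hu.e0.symm d_w2_w4 hw2.n3 (ns q4) hw4.n3 (ns q15) (ns k_u_x) (ns hx.n3) (ns hw2.n1) (ns hw4.n1) (ns hC.n13) (ns hC.n03) (ns hu.n3)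
                  · exact hP _ _ _ _ _ _ _ hw.e0.symm hw4.e0.symm hC.h12.symm hx.e1.symm hx.e4 d_w_w4 q13 hw.n2 q16 hw4.n2 hC.n24 hu.n2 k_u_w q15 hu.n1 k_u_x hu.n4
              · by_cases q17 : G.Adj w3 x
                · exact hP _ _ _ _ _ _ _ q12.symm q17.symm hx.e1 hC.h01.symm hu.e0.symm d_w2_w3 hw2.n3 (ns q4) hw3.n3 (ns q14) (ns k_u_x) (ns hx.n3) (ns hw2.n1) (ns hw3.n1) (ns hC.n13) (ns hC.n03) (ns hu.n3)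
                · exact hP _ _ _ _ _ _ _ hw.e0.symm hw3.e0.symm hC.h12.symm hx.e1.symm hx.e4 d_w_w3 q13 hw.n2 q17 hw3.n2 hC.n24 hu.n2 k_u_w q14 hu.n1 k_u_x hu.n4
          · by_cases q18 : G.Adj w x
            · by_cases q19 : G.Adj u w3
              · by_cases q20 : G.Adj u w4
                · exact hP _ _ _ _ _ _ _ q19 q20 hu.e0 hC.h40.symm hC.h34.symm d_w3_w4 hw3.n2 hw3.n1 hw4.n2 hw4.n1 hu.n3 (ns k_u_w) q2 q3 hw.n3 hw.n2 hw.n1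
                · by_cases q21 : G.Adj w4 x
                  · exact hP _ _ _ _ _ _ _ q18.symm q21.symm hx.e1 hC.h01.symm hu.e0.symm d_w_w4 hw.n3 (ns k_u_w) hw4.n3 (ns q20) (ns k_u_x) (ns hx.n3) (ns hw.n1) (ns hw4.n1) (ns hC.n13) (ns hC.n03) (ns hu.n3)
                  · exact hP _ _ _ _ _ _ _ hw2.e0.symm hw4.e0.symm hC.h12.symm hx.e1.symm hx.e4 d_w2_w4 q12 hw2.n2 q21 hw4.n2 hC.n24 hu.n2 q4 q20 hu.n1 k_u_x hu.n4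
              · by_cases q22 : G.Adj w3 x
                · exact hP _ _ _ _ _ _ _ q18.symm q22.symm hx.e1 hC.h01.symm hu.e0.symm d_w_w3 hw.n3 (ns k_u_w) hw3.n3 (ns q19) (ns k_u_x) (ns hx.n3) (ns hw.n1) (ns hw3.n1) (ns hC.n13) (ns hC.n03) (ns hu.n3)
                · exact hP _ _ _ _ _ _ _ hw2.e0.symm hw3.e0.symm hC.h12.symm hx.e1.symm hx.e4 d_w2_w3 q12 hw2.n2 q22 hw3.n2 hC.n24 hu.n2 q4 q19 hu.n1 k_u_x hu.n4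
            · exact hP _ _ _ _ _ _ _ hw.e0.symm hw2.e0.symm hC.h12.symm hx.e1.symm hx.e4 d_w_w2 q18 hw.n2 q12 hw2.n2 hC.n24 hu.n2 k_u_w q4 hu.n1 k_u_x hu.n4

theorem F9a (hK : Tri G) (hP : NoP G) (hC : C5 G a0 a1 a2 a3 a4)
    {u w w2 w3 w4 y : V}
    (hu : IsU G a0 a1 a2 a3 a4 u)
    (hw : IsU G a2 a3 a4 a0 a1 w)
    (hw2 : IsU G a2 a3 a4 a0 a1 w2)
    (hw3 : IsU G a2 a3 a4 a0 a1 w3)
    (hw4 : IsU G a2 a3 a4 a0 a1 w4)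
    (hy : IsN G a2 a3 a4 a0 a1 y)
    (d_w_w3 : w ≠ w3) (d_w_w4 : w ≠ w4) (d_w2_w3 : w2 ≠ w3) (d_w2_w4 : w2 ≠ w4) (d_w3_w4 : w3 ≠ w4) (k_u_w : G.Adj u w) (k_u_w2 : ¬G.Adj u w2) (k_u_y : G.Adj u y) : False := by
  by_cases q1 : G.Adj w w2
  · exact hK _ _ _ hw.e0.symm q1 hw2.e0.symm
  · by_cases q2 : G.Adj w w3
    · exact hK _ _ _ hw.e0.symm q2 hw3.e0.symm
    · by_cases q3 : G.Adj w w4
      · exact hK _ _ _ hw.e0.symm q3 hw4.e0.symm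
      · by_cases q4 : G.Adj w y
        · exact hK _ _ _ k_u_w q4 k_u_y
        · by_cases q5 : G.Adj w2 w3
          · exact hK _ _ _ hw2.e0.symm q5 hw3.e0.symm
          · by_cases q6 : G.Adj w2 w4
            · exact hK _ _ _ hw2.e0.symm q6 hw4.e0.symm
            · by_cases q7 : G.Adj u w3
              · exact hP _ _ _ _ _ _ _ k_u_w q7 hu.e0 hC.h40.symm hC.h34.symm d_w_w3 hw.n2 hw.n1 hw3.n2 hw3.n1 hu.n3 (ns k_u_w2) (ns q1) q5 hw2.n3 hw2.n2 hw2.n1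
              · by_cases q8 : G.Adj u w4
                · exact hP _ _ _ _ _ _ _ k_u_w q8 hu.e0 hC.h40.symm hC.h34.symm d_w_w4 hw.n2 hw.n1 hw4.n2 hw4.n1 hu.n3 (ns k_u_w2) (ns q1) q6 hw2.n3 hw2.n2 hw2.n1
                · by_cases q9 : G.Adj w2 y
                  · by_cases q10 : G.Adj w3 y
                    · exact hP _ _ _ _ _ _ _ q9.symm q10.symm hy.e4 hC.h01.symm hC.h40.symm d_w2_w3 hw2.n3 hw2.n2 hw3.n3 hw3.n2 hy.n2 q4 q1 q2 hw.n4 hw.n3 hw.n2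
                    · by_cases q11 : G.Adj w4 y
                      · exact hP _ _ _ _ _ _ _ q9.symm q11.symm hy.e4 hC.h01.symm hC.h40.symm d_w2_w4 hw2.n3 hw2.n2 hw4.n3 hw4.n2 hy.n2 q4 q1 q3 hw.n4 hw.n3 hw.n2
                      · exact hP _ _ _ _ _ _ _ hw3.e0.symm hw4.e0.symm hC.h12.symm hy.e4.symm k_u_y.symm d_w3_w4 q10 (ns q7) q11 (ns q8) (ns hu.n2) (ns hC.n24) (ns hw3.n2) (ns hw4.n2) (ns hC.n14) (ns hy.n2) (ns hu.n4)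
                  · by_cases q12 : G.Adj w3 y
                    · by_cases q13 : G.Adj w4 y
                      · exact hP _ _ _ _ _ _ _ q12.symm q13.symm hy.e4 hC.h01.symm hC.h40.symm d_w3_w4 hw3.n3 hw3.n2 hw4.n3 hw4.n2 hy.n2 q4 q2 q3 hw.n4 hw.n3 hw.n2
                      · exact hP _ _ _ _ _ _ _ hw2.e0.symm hw4.e0.symm hC.h12.symm hy.e4.symm k_u_y.symm d_w2_w4 q9 (ns k_u_w2) q13 (ns q8) (ns hu.n2) (ns hC.n24) (ns hw2.n2) (ns hw4.n2) (ns hC.n14) (ns hy.n2) (ns hu.n4)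
                    · exact hP _ _ _ _ _ _ _ hw2.e0.symm hw3.e0.symm hC.h12.symm hy.e4.symm k_u_y.symm d_w2_w3 q9 (ns k_u_w2) q12 (ns q7) (ns hu.n2) (ns hC.n24) (ns hw2.n2) (ns hw3.n2) (ns hC.n14) (ns hy.n2) (ns hu.n4)

theorem F9b (hK : Tri G) (hP : NoP G) (hC : C5 G a0 a1 a2 a3 a4)
    {u w w2 y : V}
    (hu : IsU G a0 a1 a2 a3 a4 u)
    (hw : IsU G a2 a3 a4 a0 a1 w)
    (hw2 : IsU G a2 a3 a4 a0 a1 w2)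
    (hy : IsN G a3 a4 a0 a1 a2 y)
    (k_u_w : G.Adj u w) (k_u_w2 : ¬G.Adj u w2) (k_u_y : ¬G.Adj u y) : False := by
  by_cases q1 : G.Adj w w2
  · exact hK _ _ _ hw.e0.symm q1 hw2.e0.symm
  · by_cases q2 : G.Adj w y
    · exact hK _ _ _ hw.e0.symm q2 hy.e4.symm
    · by_cases q3 : G.Adj w2 y
      · exact hK _ _ _ hw2.e0.symm q3 hy.e4.symm
      · exact hP _ _ _ _ _ _ _ hC.h34.symm hy.e1.symm hC.h40 hu.e0.symm k_u_w hy.ne.symm (ns hu.n3) (ns hw.n1) (ns k_u_y) (ns q2) (ns hw.n2) hw2.n2 hw2.n1 q3 hw2.n3 (ns k_u_w2) (ns q1)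

theorem F10 (hK : Tri G) (hP : NoP G) (hC : C5 G a0 a1 a2 a3 a4)
    {u x y y2 : V}
    (hu : IsU G a0 a1 a2 a3 a4 u)
    (hx : IsN G a0 a1 a2 a3 a4 x)
    (hy : IsN G a2 a3 a4 a0 a1 y)
    (hy2 : IsN G a2 a3 a4 a0 a1 y2)
    (d_y_y2 : y ≠ y2) (k_u_x : ¬G.Adj u x) (k_u_y : G.Adj u y) : False := by
  by_cases q1 : G.Adj x y
  · exact hK _ _ _ hx.e1.symm q1 hy.e4.symm
  · by_cases q2 : G.Adj x y2
    · exact hK _ _ _ hx.e1.symm q2 hy2.e4.symm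
    · by_cases q3 : G.Adj u y2
      · exact hP _ _ _ _ _ _ _ k_u_y q3 hu.e0 hC.h40.symm hx.e4.symm d_y_y2 hy.n2 (ns q1) hy2.n2 (ns q2) k_u_x (ns hu.n2) (ns hy.n0) (ns hy2.n0) (ns hC.n02) hC.n24 (ns hx.n2)
      · exact hP _ _ _ _ _ _ _ hC.h23.symm hy2.e1.symm hy.e1.symm k_u_y.symm hu.e0 hy2.ne.symm (ns hu.n2) (ns hC.n02) (ns q3) hy2.n3 (ns hC.n03) hx.n3 hx.n2 q2 q1 (ns k_u_x) hx.n0

theorem T2 (hK : Tri G) (hP : NoP G) (hC : C5 G a0 a1 a2 a3 a4)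
    {u s s2 b : V}
    (hu : IsU G a0 a1 a2 a3 a4 u)
    (hs : IsN G a2 a3 a4 a0 a1 s)
    (hs2 : IsN G a2 a3 a4 a0 a1 s2)
    (hb : IsN G a3 a4 a0 a1 a2 b)
    (d_s_s2 : s ≠ s2) (k_u_s : ¬G.Adj u s) (k_u_s2 : ¬G.Adj u s2) (k_u_b : ¬G.Adj u b) (k_s_b : ¬G.Adj s b) : False := by
  by_cases q1 : G.Adj s s2
  · exact hK _ _ _ hs.e4.symm q1 hs2.e4.symm
  · by_cases q2 : G.Adj s2 b
    · exact hP _ _ _ _ _ _ _ hb.e4 q2.symm hb.e1 hC.h40 hu.e0.symm hs2.ne.symm (ns hC.n02) (ns hu.n2) hs2.n3 (ns k_u_s2) (ns k_u_b) k_s_b hs.n0 q1 hs.n2 hs.n3 (ns k_u_s)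
    · exact hP _ _ _ _ _ _ _ hs.e4.symm hs2.e4.symm hC.h12 hb.e4.symm hb.e1 d_s_s2 k_s_b hs.n2 q2 hs2.n2 hC.n14 hu.n1 k_u_s k_u_s2 hu.n2 k_u_b hu.n4

theorem T3 (hK : Tri G) (hP : NoP G) (hC : C5 G a0 a1 a2 a3 a4)
    {u s b bb : V}
    (hu : IsU G a0 a1 a2 a3 a4 u)
    (hs : IsN G a2 a3 a4 a0 a1 s)
    (hb : IsN G a3 a4 a0 a1 a2 b)
    (hbb : IsN G a3 a4 a0 a1 a2 bb)
    (d_b_bb : b ≠ bb) (k_u_s : ¬G.Adj u s) (k_u_b : ¬G.Adj u b) (k_u_bb : ¬G.Adj u bb) (k_s_b : ¬G.Adj s b) : False := by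
  by_cases q1 : G.Adj b bb
  · exact hK _ _ _ hb.e4.symm q1 hbb.e4.symm
  · by_cases q2 : G.Adj s bb
    · exact hP _ _ _ _ _ _ _ hs.e1 q2 hs.e4 hC.h01.symm hu.e0.symm hbb.ne.symm (ns hC.n03) (ns hu.n3) hbb.n2 (ns k_u_bb) (ns k_u_s) (ns k_s_b) hb.n0 q1 hb.n3 hb.n2 (ns k_u_b)
    · exact hP _ _ _ _ _ _ _ hb.e1.symm hbb.e1.symm hC.h34.symm hs.e1.symm hs.e4 d_b_bb (ns k_s_b) hb.n3 (ns q2) hbb.n3 (ns hC.n14) hu.n4 k_u_b k_u_bb hu.n3 k_u_s hu.n1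

theorem P1 (hK : Tri G) (hP : NoP G) (hC : C5 G a0 a1 a2 a3 a4)
    {u u2 b b2 b3 : V}
    (hu : IsU G a0 a1 a2 a3 a4 u)
    (hu2 : IsU G a0 a1 a2 a3 a4 u2)
    (hb : IsN G a3 a4 a0 a1 a2 b)
    (hb2 : IsN G a3 a4 a0 a1 a2 b2)
    (hb3 : IsN G a3 a4 a0 a1 a2 b3)
    (d_b_b2 : b ≠ b2) (k_u_b : G.Adj u b) (k_u_b2 : G.Adj u b2) (k_u_b3 : ¬G.Adj u b3) (k_u2_b : ¬G.Adj u2 b) (k_u2_b2 : ¬G.Adj u2 b2) (k_u2_b3 : G.Adj u2 b3) : False := by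
  by_cases q1 : G.Adj b b3
  · exact hK _ _ _ hb.e4.symm q1 hb3.e4.symm
  · by_cases q2 : G.Adj b2 b3
    · exact hK _ _ _ hb2.e4.symm q2 hb3.e4.symm
    · exact hP _ _ _ _ _ _ _ k_u_b k_u_b2 hu.e0 hu2.e0.symm k_u2_b3 d_b_b2 (ns k_u2_b) q1 (ns k_u2_b2) q2 k_u_b3 (ns hu.n3) (ns hb.n0) (ns hb2.n0) (ns hC.n03) (ns hu2.n3) (ns hb3.n0)

theorem P2 (hK : Tri G) (hP : NoP G) (hC : C5 G a0 a1 a2 a3 a4)
    {s s2 b b2 b3 : V}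
    (hs : IsN G a2 a3 a4 a0 a1 s)
    (hs2 : IsN G a2 a3 a4 a0 a1 s2)
    (hb : IsN G a3 a4 a0 a1 a2 b)
    (hb2 : IsN G a3 a4 a0 a1 a2 b2)
    (hb3 : IsN G a3 a4 a0 a1 a2 b3)
    (d_b_b2 : b ≠ b2) (k_s_b : G.Adj s b) (k_s_b2 : G.Adj s b2) (k_s_b3 : ¬G.Adj s b3) (k_s2_b : ¬G.Adj s2 b) (k_s2_b2 : ¬G.Adj s2 b2) (k_s2_b3 : G.Adj s2 b3) : False := by
  by_cases q1 : G.Adj b b3
  · exact hK _ _ _ hb.e4.symm q1 hb3.e4.symm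
  · by_cases q2 : G.Adj b2 b3
    · exact hK _ _ _ hb2.e4.symm q2 hb3.e4.symm
    · exact hP _ _ _ _ _ _ _ k_s_b k_s_b2 hs.e1 hs2.e1.symm k_s2_b3 d_b_b2 (ns k_s2_b) q1 (ns k_s2_b2) q2 k_s_b3 (ns hs.n3) (ns hb.n2) (ns hb2.n2) hC.n03 (ns hs2.n3) (ns hb3.n2)

theorem A1 (hK : Tri G) (hP : NoP G) (hC : C5 G a0 a1 a2 a3 a4)
    {x z1 z2 z3 z4 z5 : V}
    (hx : IsN G a0 a1 a2 a3 a4 x)
    (hz1 : IsZ G a0 a1 a2 a3 a4 z1)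
    (hz2 : IsZ G a0 a1 a2 a3 a4 z2)
    (hz3 : IsZ G a0 a1 a2 a3 a4 z3)
    (hz4 : IsZ G a0 a1 a2 a3 a4 z4)
    (hz5 : IsZ G a0 a1 a2 a3 a4 z5)
    (d_z1_z2 : z1 ≠ z2) (d_z1_z5 : z1 ≠ z5) (d_z2_z5 : z2 ≠ z5) (d_z3_z4 : z3 ≠ z4) (d_z3_z5 : z3 ≠ z5) (d_z4_z5 : z4 ≠ z5) (k_x_z1 : G.Adj x z1) (k_x_z2 : G.Adj x z2) (k_x_z3 : ¬G.Adj x z3) (k_x_z4 : ¬G.Adj x z4) : False := by
  by_cases q1 : G.Adj z1 z3
  · by_cases q2 : G.Adj z1 z4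
    · exact hP _ _ _ _ _ _ _ q1 q2 k_x_z1.symm hx.e1 hC.h01.symm d_z3_z4 hz3.n1 hz3.n0 hz4.n1 hz4.n0 hz1.n0 (ns hz1.n3) (ns hz3.n3) (ns hz4.n3) (ns hx.n3) (ns hC.n13) (ns hC.n03)
    · by_cases q3 : G.Adj z1 z5
      · exact hP _ _ _ _ _ _ _ q1 q3 k_x_z1.symm hx.e1 hC.h01.symm d_z3_z5 hz3.n1 hz3.n0 hz5.n1 hz5.n0 hz1.n0 (ns hz1.n3) (ns hz3.n3) (ns hz5.n3) (ns hx.n3) (ns hC.n13) (ns hC.n03)
      · by_cases q4 : G.Adj z2 z4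
        · by_cases q5 : G.Adj z3 z4
          · by_cases q6 : G.Adj z2 z3
            · exact hP _ _ _ _ _ _ _ q6 q4 k_x_z2.symm hx.e1 hC.h01.symm d_z3_z4 hz3.n1 hz3.n0 hz4.n1 hz4.n0 hz2.n0 (ns hz2.n3) (ns hz3.n3) (ns hz4.n3) (ns hx.n3) (ns hC.n13) (ns hC.n03)
            · by_cases q7 : G.Adj z2 z5
              · exact hP _ _ _ _ _ _ _ q4 q7 k_x_z2.symm hx.e1 hC.h01.symm d_z4_z5 hz4.n1 hz4.n0 hz5.n1 hz5.n0 hz2.n0 (ns hz2.n3) (ns hz4.n3) (ns hz5.n3) (ns hx.n3) (ns hC.n13) (ns hC.n03)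
              · by_cases q8 : G.Adj x z5
                · by_cases q9 : G.Adj z4 z5
                  · by_cases q10 : G.Adj z3 z5
                    · exact hK _ _ _ q5 q9 q10
                    · exact hP _ _ _ _ _ _ _ k_x_z2 q8 hx.e1 hC.h12 hC.h23 d_z2_z5 hz2.n2 hz2.n3 hz5.n2 hz5.n3 hx.n3 (ns k_x_z3) (ns q6) q10 hz3.n1 hz3.n2 hz3.n3
                  · exact hP _ _ _ _ _ _ _ k_x_z1 q8 hx.e1 hC.h12 hC.h23 d_z1_z5 hz1.n2 hz1.n3 hz5.n2 hz5.n3 hx.n3 (ns k_x_z4) (ns q2) q9 hz4.n1 hz4.n2 hz4.n3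
                · exact hP _ _ _ _ _ _ _ k_x_z1 k_x_z2 hx.e1 hC.h12 hC.h23 d_z1_z2 hz1.n2 hz1.n3 hz2.n2 hz2.n3 hx.n3 (ns q8) (ns q3) (ns q7) hz5.n1 hz5.n2 hz5.n3
          · exact hP _ _ _ _ _ _ _ hC.h01.symm hC.h12 hx.e1.symm k_x_z1 q1 ((neA hC.h23 hC.n03).symm) (ns hz1.n0) (ns hz3.n0) (ns hz1.n2) (ns hz3.n2) (ns hz3.n1) hz4.n1 hz4.n0 hz4.n2 (ns k_x_z4) (ns q2) (ns q5)
        · exact hP _ _ _ _ _ _ _ k_x_z1 k_x_z2 hx.e1 hC.h12 hC.h23 d_z1_z2 hz1.n2 hz1.n3 hz2.n2 hz2.n3 hx.n3 (ns k_x_z4) (ns q2) (ns q4) hz4.n1 hz4.n2 hz4.n3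
  · by_cases q11 : G.Adj z2 z3
    · by_cases q12 : G.Adj z2 z4
      · exact hP _ _ _ _ _ _ _ q11 q12 k_x_z2.symm hx.e1 hC.h01.symm d_z3_z4 hz3.n1 hz3.n0 hz4.n1 hz4.n0 hz2.n0 (ns hz2.n3) (ns hz3.n3) (ns hz4.n3) (ns hx.n3) (ns hC.n13) (ns hC.n03)
      · by_cases q13 : G.Adj z2 z5
        · exact hP _ _ _ _ _ _ _ q11 q13 k_x_z2.symm hx.e1 hC.h01.symm d_z3_z5 hz3.n1 hz3.n0 hz5.n1 hz5.n0 hz2.n0 (ns hz2.n3) (ns hz3.n3) (ns hz5.n3) (ns hx.n3) (ns hC.n13) (ns hC.n03)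
        · by_cases q14 : G.Adj z1 z4
          · by_cases q15 : G.Adj z3 z4
            · by_cases q16 : G.Adj z1 z5
              · exact hP _ _ _ _ _ _ _ q14 q16 k_x_z1.symm hx.e1 hC.h01.symm d_z4_z5 hz4.n1 hz4.n0 hz5.n1 hz5.n0 hz1.n0 (ns hz1.n3) (ns hz4.n3) (ns hz5.n3) (ns hx.n3) (ns hC.n13) (ns hC.n03)
              · by_cases q17 : G.Adj x z5
                · by_cases q18 : G.Adj z3 z5
                  · by_cases q19 : G.Adj z4 z5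
                    · exact hK _ _ _ q15 q19 q18
                    · exact hP _ _ _ _ _ _ _ k_x_z2 q17 hx.e1 hC.h12 hC.h23 d_z2_z5 hz2.n2 hz2.n3 hz5.n2 hz5.n3 hx.n3 (ns k_x_z4) (ns q12) q19 hz4.n1 hz4.n2 hz4.n3
                  · exact hP _ _ _ _ _ _ _ k_x_z1 q17 hx.e1 hC.h12 hC.h23 d_z1_z5 hz1.n2 hz1.n3 hz5.n2 hz5.n3 hx.n3 (ns k_x_z3) (ns q1) q18 hz3.n1 hz3.n2 hz3.n3
                · exact hP _ _ _ _ _ _ _ k_x_z1 k_x_z2 hx.e1 hC.h12 hC.h23 d_z1_z2 hz1.n2 hz1.n3 hz2.n2 hz2.n3 hx.n3 (ns q17) (ns q16) (ns q13) hz5.n1 hz5.n2 hz5.n3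
            · exact hP _ _ _ _ _ _ _ hC.h01.symm hC.h12 hx.e1.symm k_x_z2 q11 ((neA hC.h23 hC.n03).symm) (ns hz2.n0) (ns hz3.n0) (ns hz2.n2) (ns hz3.n2) (ns hz3.n1) hz4.n1 hz4.n0 hz4.n2 (ns k_x_z4) (ns q12) (ns q15)
          · exact hP _ _ _ _ _ _ _ k_x_z1 k_x_z2 hx.e1 hC.h12 hC.h23 d_z1_z2 hz1.n2 hz1.n3 hz2.n2 hz2.n3 hx.n3 (ns k_x_z4) (ns q14) (ns q12) hz4.n1 hz4.n2 hz4.n3
    · exact hP _ _ _ _ _ _ _ k_x_z1 k_x_z2 hx.e1 hC.h12 hC.h23 d_z1_z2 hz1.n2 hz1.n3 hz2.n2 hz2.n3 hx.n3 (ns k_x_z3) (ns q1) (ns q11) hz3.n1 hz3.n2 hz3.n3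

theorem A2a (hK : Tri G) (hP : NoP G) (hC : C5 G a0 a1 a2 a3 a4)
    {z z1 z2 z3 x y : V}
    (hz : IsZ G a0 a1 a2 a3 a4 z)
    (hz1 : IsZ G a0 a1 a2 a3 a4 z1)
    (hz2 : IsZ G a0 a1 a2 a3 a4 z2)
    (hz3 : IsZ G a0 a1 a2 a3 a4 z3)
    (hx : IsN G a0 a1 a2 a3 a4 x)
    (hy : IsN G a0 a1 a2 a3 a4 y)
    (d_z_z2 : z ≠ z2) (d_z_z3 : z ≠ z3) (d_z1_z2 : z1 ≠ z2) (d_z1_z3 : z1 ≠ z3) (d_z2_z3 : z2 ≠ z3) (k_z_z1 : G.Adj z z1) (k_z_x : G.Adj z x) (k_z_y : ¬G.Adj z y) : False := by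
  by_cases q1 : G.Adj z z2
  · exact hP _ _ _ _ _ _ _ k_z_z1 q1 k_z_x hx.e1 hC.h01.symm d_z1_z2 hz1.n1 hz1.n0 hz2.n1 hz2.n0 hz.n0 (ns hz.n3) (ns hz1.n3) (ns hz2.n3) (ns hx.n3) (ns hC.n13) (ns hC.n03)
  · by_cases q2 : G.Adj z z3
    · exact hP _ _ _ _ _ _ _ k_z_z1 q2 k_z_x hx.e1 hC.h01.symm d_z1_z3 hz1.n1 hz1.n0 hz3.n1 hz3.n0 hz.n0 (ns hz.n3) (ns hz1.n3) (ns hz3.n3) (ns hx.n3) (ns hC.n13) (ns hC.n03)
    · by_cases q3 : G.Adj z1 y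
      · by_cases q4 : G.Adj z1 z2
        · exact hP _ _ _ _ _ _ _ k_z_z1.symm q4 q3 hy.e1 hC.h01.symm d_z_z2 hz.n1 hz.n0 hz2.n1 hz2.n0 hz1.n0 (ns hz1.n3) (ns hz.n3) (ns hz2.n3) (ns hy.n3) (ns hC.n13) (ns hC.n03)
        · by_cases q5 : G.Adj z1 z3
          · exact hP _ _ _ _ _ _ _ k_z_z1.symm q5 q3 hy.e1 hC.h01.symm d_z_z3 hz.n1 hz.n0 hz3.n1 hz3.n0 hz1.n0 (ns hz1.n3) (ns hz.n3) (ns hz3.n3) (ns hy.n3) (ns hC.n13) (ns hC.n03)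
          · by_cases q6 : G.Adj z2 y
            · by_cases q7 : G.Adj z3 y
              · exact hP _ _ _ _ _ _ _ q6.symm q7.symm hy.e1 hC.h12 hC.h23 d_z2_z3 hz2.n2 hz2.n3 hz3.n2 hz3.n3 hy.n3 k_z_y q1 q2 hz.n1 hz.n2 hz.n3
              · exact hP _ _ _ _ _ _ _ hC.h01.symm hC.h12 hy.e1.symm q3.symm k_z_z1.symm ((neA hC.h23 hC.n03).symm) (ns hz1.n0) (ns hz.n0) (ns hz1.n2) (ns hz.n2) (ns hz.n1) hz3.n1 hz3.n0 hz3.n2 q7 (ns q5) (ns q2)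
            · exact hP _ _ _ _ _ _ _ hC.h01.symm hC.h12 hy.e1.symm q3.symm k_z_z1.symm ((neA hC.h23 hC.n03).symm) (ns hz1.n0) (ns hz.n0) (ns hz1.n2) (ns hz.n2) (ns hz.n1) hz2.n1 hz2.n0 hz2.n2 q6 (ns q4) (ns q1)
      · exact hP _ _ _ _ _ _ _ hC.h01.symm hy.e1.symm hx.e1.symm k_z_x.symm k_z_z1 hy.ne.symm (ns hz.n0) (ns hz1.n0) (ns k_z_y) (ns q3) (ns hz1.n1) (ns hC.n13) (ns hC.n03) (ns hy.n3) (ns hx.n3) (ns hz.n3) (ns hz1.n3)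

theorem A2b (hK : Tri G) (hP : NoP G) (hC : C5 G a0 a1 a2 a3 a4)
    {z z1 z2 x : V}
    (hz : IsZ G a0 a1 a2 a3 a4 z)
    (hz1 : IsZ G a0 a1 a2 a3 a4 z1)
    (hz2 : IsZ G a0 a1 a2 a3 a4 z2)
    (hx : IsN G a0 a1 a2 a3 a4 x)
    (d_z1_z2 : z1 ≠ z2) (k_z_z1 : G.Adj z z1) (k_z_z2 : G.Adj z z2) (k_z_x : G.Adj z x) : False := by
  exact hP _ _ _ _ _ _ _ k_z_z1 k_z_z2 k_z_x hx.e1 hC.h01.symm d_z1_z2 hz1.n1 hz1.n0 hz2.n1 hz2.n0 hz.n0 (ns hz.n3) (ns hz1.n3) (ns hz2.n3) (ns hx.n3) (ns hC.n13) (ns hC.n03)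

theorem A3 (hK : Tri G) (hP : NoP G) (hC : C5 G a0 a1 a2 a3 a4)
    {x z1 z2 z3 : V}
    (hx : IsN G a0 a1 a2 a3 a4 x)
    (hz1 : IsZ G a0 a1 a2 a3 a4 z1)
    (hz2 : IsZ G a0 a1 a2 a3 a4 z2)
    (hz3 : IsZ G a0 a1 a2 a3 a4 z3)
    (d_z1_z2 : z1 ≠ z2) (k_x_z1 : G.Adj x z1) (k_x_z2 : G.Adj x z2) (k_x_z3 : ¬G.Adj x z3) (k_z1_z3 : ¬G.Adj z1 z3) (k_z2_z3 : ¬G.Adj z2 z3) : False := by
  exact hP _ _ _ _ _ _ _ k_x_z1 k_x_z2 hx.e1 hC.h12 hC.h23 d_z1_z2 hz1.n2 hz1.n3 hz2.n2 hz2.n3 hx.n3 (ns k_x_z3) (ns k_z1_z3) (ns k_z2_z3) hz3.n1 hz3.n2 hz3.n3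

theorem A6 (hK : Tri G) (hP : NoP G) (hC : C5 G a0 a1 a2 a3 a4)
    {x y z z2 : V}
    (hx : IsN G a0 a1 a2 a3 a4 x)
    (hy : IsN G a1 a2 a3 a4 a0 y)
    (hz : IsZ G a0 a1 a2 a3 a4 z)
    (hz2 : IsZ G a0 a1 a2 a3 a4 z2)
    (k_x_y : ¬G.Adj x y) (k_x_z : G.Adj x z) (k_y_z : ¬G.Adj y z) (k_x_z2 : ¬G.Adj x z2) (k_y_z2 : ¬G.Adj y z2) (k_z_z2 : ¬G.Adj z z2) : False := by
  exact hP _ _ _ _ _ _ _ hC.h23 hy.e1.symm hC.h12.symm hx.e1.symm k_x_z ((neA hy.e4 (ns hC.n03)).symm) (ns hx.n3) (ns hz.n3) (ns k_x_y) k_y_z (ns hz.n2) hz2.n2 hz2.n3 (ns k_y_z2) hz2.n1 (ns k_x_z2) (ns k_z_z2)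

theorem B1 (hK : Tri G) (hP : NoP G) (hC : C5 G a0 a1 a2 a3 a4)
    {z u u2 : V}
    (hz : IsZ G a0 a1 a2 a3 a4 z)
    (hu : IsU G a0 a1 a2 a3 a4 u)
    (hu2 : IsU G a0 a1 a2 a3 a4 u2)
    (d_u_u2 : u ≠ u2) (k_z_u : ¬G.Adj z u) (k_z_u2 : ¬G.Adj z u2) : False := by
  exact hP _ _ _ _ _ _ _ hu.e0.symm hu2.e0.symm hC.h01 hC.h12 hC.h23 d_u_u2 hu.n2 hu.n3 hu2.n2 hu2.n3 hC.n03 hz.n0 k_z_u k_z_u2 hz.n1 hz.n2 hz.n3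

theorem B3 (hK : Tri G) (hP : NoP G) (hC : C5 G a0 a1 a2 a3 a4)
    {u z z1 z2 : V}
    (hu : IsU G a0 a1 a2 a3 a4 u)
    (hz : IsZ G a0 a1 a2 a3 a4 z)
    (hz1 : IsZ G a0 a1 a2 a3 a4 z1)
    (hz2 : IsZ G a0 a1 a2 a3 a4 z2)
    (d_z1_z2 : z1 ≠ z2) (k_u_z : ¬G.Adj u z) (k_u_z1 : G.Adj u z1) (k_u_z2 : G.Adj u z2) (k_z_z1 : ¬G.Adj z z1) (k_z_z2 : ¬G.Adj z z2) : False := by
  exact hP _ _ _ _ _ _ _ k_u_z1 k_u_z2 hu.e0 hC.h01 hC.h12 d_z1_z2 hz1.n1 hz1.n2 hz2.n1 hz2.n2 hu.n2 (ns k_u_z) k_z_z1 k_z_z2 hz.n0 hz.n1 hz.n2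

theorem B4a (hK : Tri G) (hP : NoP G) (hC : C5 G a0 a1 a2 a3 a4)
    {z u u2 w w2 w3 : V}
    (hz : IsZ G a0 a1 a2 a3 a4 z)
    (hu : IsU G a0 a1 a2 a3 a4 u)
    (hu2 : IsU G a0 a1 a2 a3 a4 u2)
    (hw : IsU G a1 a2 a3 a4 a0 w)
    (hw2 : IsU G a1 a2 a3 a4 a0 w2)
    (hw3 : IsU G a1 a2 a3 a4 a0 w3)
    (d_u_u2 : u ≠ u2) (d_w_w2 : w ≠ w2) (d_w_w3 : w ≠ w3) (d_w2_w3 : w2 ≠ w3) : False := by
  by_cases q1 : G.Adj w w2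
  · exact hK _ _ _ hw.e0.symm q1 hw2.e0.symm
  · by_cases q2 : G.Adj w w3
    · exact hK _ _ _ hw.e0.symm q2 hw3.e0.symm
    · by_cases q3 : G.Adj u w
      · by_cases q4 : G.Adj z w
        · by_cases q5 : G.Adj z u
          · exact hK _ _ _ q5 q3 q4
          · by_cases q6 : G.Adj z u2
            · by_cases q7 : G.Adj z w2
              · exact hP _ _ _ _ _ _ _ q4 q7 q6 hu2.e0 hC.h40.symm d_w_w2 hw.n4 hw.n3 hw2.n4 hw2.n3 hz.n4 (ns hz.n2) (ns hw.n1) (ns hw2.n1) (ns hu2.n2) (ns hC.n02) hC.n24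
              · by_cases q8 : G.Adj z w3
                · exact hP _ _ _ _ _ _ _ q4 q8 q6 hu2.e0 hC.h40.symm d_w_w3 hw.n4 hw.n3 hw3.n4 hw3.n3 hz.n4 (ns hz.n2) (ns hw.n1) (ns hw3.n1) (ns hu2.n2) (ns hC.n02) hC.n24
                · exact hP _ _ _ _ _ _ _ hw2.e0.symm hw3.e0.symm hC.h01.symm hC.h40.symm hC.h34.symm d_w2_w3 hw2.n3 hw2.n2 hw3.n3 hw3.n2 hC.n13 hz.n1 q7 q8 hz.n0 hz.n4 hz.n3
            · exact hP _ _ _ _ _ _ _ hu.e0.symm hu2.e0.symm hC.h01 hC.h12 hC.h23 d_u_u2 hu.n2 hu.n3 hu2.n2 hu2.n3 hC.n03 hz.n0 q5 q6 hz.n1 hz.n2 hz.n3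
        · by_cases q9 : G.Adj z w2
          · by_cases q10 : G.Adj z w3
            · by_cases q11 : G.Adj z u
              · exact hP _ _ _ _ _ _ _ q9 q10 q11 hu.e0 hC.h40.symm d_w2_w3 hw2.n4 hw2.n3 hw3.n4 hw3.n3 hz.n4 (ns hz.n2) (ns hw2.n1) (ns hw3.n1) (ns hu.n2) (ns hC.n02) hC.n24
              · by_cases q12 : G.Adj z u2
                · exact hP _ _ _ _ _ _ _ q9 q10 q12 hu2.e0 hC.h40.symm d_w2_w3 hw2.n4 hw2.n3 hw3.n4 hw3.n3 hz.n4 (ns hz.n2) (ns hw2.n1) (ns hw3.n1) (ns hu2.n2) (ns hC.n02) hC.n24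
                · exact hP _ _ _ _ _ _ _ hu.e0.symm hu2.e0.symm hC.h01 hC.h12 hC.h23 d_u_u2 hu.n2 hu.n3 hu2.n2 hu2.n3 hC.n03 hz.n0 q11 q12 hz.n1 hz.n2 hz.n3
            · exact hP _ _ _ _ _ _ _ hw.e0.symm hw3.e0.symm hC.h01.symm hC.h40.symm hC.h34.symm d_w_w3 hw.n3 hw.n2 hw3.n3 hw3.n2 hC.n13 hz.n1 q4 q10 hz.n0 hz.n4 hz.n3
          · exact hP _ _ _ _ _ _ _ hw.e0.symm hw2.e0.symm hC.h01.symm hC.h40.symm hC.h34.symm d_w_w2 hw.n3 hw.n2 hw2.n3 hw2.n2 hC.n13 hz.n1 q4 q9 hz.n0 hz.n4 hz.n3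
      · by_cases q13 : G.Adj u w2
        · by_cases q14 : G.Adj u w3
          · exact hP _ _ _ _ _ _ _ q13 q14 hu.e0 hC.h40.symm hC.h34.symm d_w2_w3 hw2.n3 hw2.n2 hw3.n3 hw3.n2 hu.n3 (ns q3) q1 q2 hw.n4 hw.n3 hw.n2
          · exact hP _ _ _ _ _ _ _ hw.e0.symm hw3.e0.symm hC.h12 hC.h23 hC.h34 d_w_w3 hw.n2 hw.n3 hw3.n2 hw3.n3 hC.n14 hu.n1 q3 q14 hu.n2 hu.n3 hu.n4
        · exact hP _ _ _ _ _ _ _ hw.e0.symm hw2.e0.symm hC.h12 hC.h23 hC.h34 d_w_w2 hw.n2 hw.n3 hw2.n2 hw2.n3 hC.n14 hu.n1 q3 q13 hu.n2 hu.n3 hu.n4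

theorem B4b (hK : Tri G) (hP : NoP G) (hC : C5 G a0 a1 a2 a3 a4)
    {z u u2 w w2 w3 : V}
    (hz : IsZ G a0 a1 a2 a3 a4 z)
    (hu : IsU G a0 a1 a2 a3 a4 u)
    (hu2 : IsU G a0 a1 a2 a3 a4 u2)
    (hw : IsU G a2 a3 a4 a0 a1 w)
    (hw2 : IsU G a2 a3 a4 a0 a1 w2)
    (hw3 : IsU G a2 a3 a4 a0 a1 w3)
    (d_u_u2 : u ≠ u2) (d_w_w2 : w ≠ w2) (d_w_w3 : w ≠ w3) (d_w2_w3 : w2 ≠ w3) : False := by
  by_cases q1 : G.Adj z w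
  · by_cases q2 : G.Adj z u2
    · by_cases q3 : G.Adj z w2
      · exact hP _ _ _ _ _ _ _ q1 q3 q2 hu2.e0 hC.h01 d_w_w2 hw.n3 hw.n4 hw2.n3 hw2.n4 hz.n1 (ns hz.n3) (ns hw.n1) (ns hw2.n1) (ns hu2.n3) (ns hC.n03) (ns hC.n13)
      · by_cases q4 : G.Adj z w3
        · exact hP _ _ _ _ _ _ _ q1 q4 q2 hu2.e0 hC.h01 d_w_w3 hw.n3 hw.n4 hw3.n3 hw3.n4 hz.n1 (ns hz.n3) (ns hw.n1) (ns hw3.n1) (ns hu2.n3) (ns hC.n03) (ns hC.n13)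
        · exact hP _ _ _ _ _ _ _ hw2.e0.symm hw3.e0.symm hC.h12.symm hC.h01.symm hC.h40.symm d_w2_w3 hw2.n3 hw2.n2 hw3.n3 hw3.n2 hC.n24 hz.n2 q3 q4 hz.n1 hz.n0 hz.n4
    · by_cases q5 : G.Adj z u
      · by_cases q6 : G.Adj z w2
        · exact hP _ _ _ _ _ _ _ q1 q6 q5 hu.e0 hC.h01 d_w_w2 hw.n3 hw.n4 hw2.n3 hw2.n4 hz.n1 (ns hz.n3) (ns hw.n1) (ns hw2.n1) (ns hu.n3) (ns hC.n03) (ns hC.n13)
        · by_cases q7 : G.Adj z w3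
          · exact hP _ _ _ _ _ _ _ q1 q7 q5 hu.e0 hC.h01 d_w_w3 hw.n3 hw.n4 hw3.n3 hw3.n4 hz.n1 (ns hz.n3) (ns hw.n1) (ns hw3.n1) (ns hu.n3) (ns hC.n03) (ns hC.n13)
          · exact hP _ _ _ _ _ _ _ hw2.e0.symm hw3.e0.symm hC.h12.symm hC.h01.symm hC.h40.symm d_w2_w3 hw2.n3 hw2.n2 hw3.n3 hw3.n2 hC.n24 hz.n2 q6 q7 hz.n1 hz.n0 hz.n4
      · exact hP _ _ _ _ _ _ _ hu.e0.symm hu2.e0.symm hC.h01 hC.h12 hC.h23 d_u_u2 hu.n2 hu.n3 hu2.n2 hu2.n3 hC.n03 hz.n0 q5 q2 hz.n1 hz.n2 hz.n3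
  · by_cases q8 : G.Adj z w2
    · by_cases q9 : G.Adj z w3
      · by_cases q10 : G.Adj z u
        · exact hP _ _ _ _ _ _ _ q8 q9 q10 hu.e0 hC.h01 d_w2_w3 hw2.n3 hw2.n4 hw3.n3 hw3.n4 hz.n1 (ns hz.n3) (ns hw2.n1) (ns hw3.n1) (ns hu.n3) (ns hC.n03) (ns hC.n13)
        · by_cases q11 : G.Adj z u2
          · exact hP _ _ _ _ _ _ _ q8 q9 q11 hu2.e0 hC.h01 d_w2_w3 hw2.n3 hw2.n4 hw3.n3 hw3.n4 hz.n1 (ns hz.n3) (ns hw2.n1) (ns hw3.n1) (ns hu2.n3) (ns hC.n03) (ns hC.n13)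
          · exact hP _ _ _ _ _ _ _ hu.e0.symm hu2.e0.symm hC.h01 hC.h12 hC.h23 d_u_u2 hu.n2 hu.n3 hu2.n2 hu2.n3 hC.n03 hz.n0 q10 q11 hz.n1 hz.n2 hz.n3
      · exact hP _ _ _ _ _ _ _ hw.e0.symm hw3.e0.symm hC.h12.symm hC.h01.symm hC.h40.symm d_w_w3 hw.n3 hw.n2 hw3.n3 hw3.n2 hC.n24 hz.n2 q1 q9 hz.n1 hz.n0 hz.n4
    · exact hP _ _ _ _ _ _ _ hw.e0.symm hw2.e0.symm hC.h12.symm hC.h01.symm hC.h40.symm d_w_w2 hw.n3 hw.n2 hw2.n3 hw2.n2 hC.n24 hz.n2 q1 q8 hz.n1 hz.n0 hz.n4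

theorem B5 (hK : Tri G) (hP : NoP G) (hC : C5 G a0 a1 a2 a3 a4)
    {z u u2 y : V}
    (hz : IsZ G a0 a1 a2 a3 a4 z)
    (hu : IsU G a0 a1 a2 a3 a4 u)
    (hu2 : IsU G a0 a1 a2 a3 a4 u2)
    (hy : IsN G a1 a2 a3 a4 a0 y)
    (d_u_u2 : u ≠ u2) (k_z_y : G.Adj z y) : False := by
  by_cases q1 : G.Adj u u2
  · exact hK _ _ _ hu.e0.symm q1 hu2.e0.symm
  · by_cases q2 : G.Adj u y
    · exact hK _ _ _ hu.e0.symm q2 hy.e4.symm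
    · by_cases q3 : G.Adj u2 y
      · exact hK _ _ _ hu2.e0.symm q3 hy.e4.symm
      · by_cases q4 : G.Adj z u2
        · by_cases q5 : G.Adj z u
          · exact hP _ _ _ _ _ _ _ q5 q4 k_z_y hy.e1 hC.h12.symm d_u_u2 hu.n2 hu.n1 hu2.n2 hu2.n1 hz.n1 (ns hz.n4) (ns hu.n4) (ns hu2.n4) (ns hy.n3) (ns hC.n24) (ns hC.n14)
          · exact hP _ _ _ _ _ _ _ hC.h12.symm hC.h23 hy.e1.symm k_z_y.symm q4 (neA hC.h01.symm (ns hC.n03)) (ns hz.n1) (ns hu2.n1) (ns hz.n3) (ns hu2.n3) (ns hu2.n2) hu.n2 hu.n1 hu.n3 q2 (ns q5) q1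
        · by_cases q6 : G.Adj z u
          · exact hP _ _ _ _ _ _ _ hC.h12.symm hC.h23 hy.e1.symm k_z_y.symm q6 (neA hC.h01.symm (ns hC.n03)) (ns hz.n1) (ns hu.n1) (ns hz.n3) (ns hu.n3) (ns hu.n2) hu2.n2 hu2.n1 hu2.n3 q3 (ns q4) (ns q1)
          · exact hP _ _ _ _ _ _ _ hu.e0.symm hu2.e0.symm hC.h01 hC.h12 hC.h23 d_u_u2 hu.n2 hu.n3 hu2.n2 hu2.n3 hC.n03 hz.n0 q6 q4 hz.n1 hz.n2 hz.n3

theorem B6 (hK : Tri G) (hP : NoP G) (hC : C5 G a0 a1 a2 a3 a4)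
    {z u u2 u3 y : V}
    (hz : IsZ G a0 a1 a2 a3 a4 z)
    (hu : IsU G a0 a1 a2 a3 a4 u)
    (hu2 : IsU G a0 a1 a2 a3 a4 u2)
    (hu3 : IsU G a0 a1 a2 a3 a4 u3)
    (hy : IsN G a2 a3 a4 a0 a1 y)
    (d_u_u2 : u ≠ u2) (d_u_u3 : u ≠ u3) (d_u2_u3 : u2 ≠ u3) (k_z_y : G.Adj z y) : False := by
  by_cases q1 : G.Adj z u
  · by_cases q2 : G.Adj z u2
    · exact hP _ _ _ _ _ _ _ q1 q2 k_z_y hy.e4 hC.h12 d_u_u2 hu.n1 hu.n2 hu2.n1 hu2.n2 hz.n2 (ns hz.n4) (ns hu.n4) (ns hu2.n4) (ns hy.n2) (ns hC.n14) (ns hC.n24)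
    · by_cases q3 : G.Adj z u3
      · exact hP _ _ _ _ _ _ _ q1 q3 k_z_y hy.e4 hC.h12 d_u_u3 hu.n1 hu.n2 hu3.n1 hu3.n2 hz.n2 (ns hz.n4) (ns hu.n4) (ns hu3.n4) (ns hy.n2) (ns hC.n14) (ns hC.n24)
      · exact hP _ _ _ _ _ _ _ hu2.e0.symm hu3.e0.symm hC.h01 hC.h12 hC.h23 d_u2_u3 hu2.n2 hu2.n3 hu3.n2 hu3.n3 hC.n03 hz.n0 q2 q3 hz.n1 hz.n2 hz.n3
  · by_cases q4 : G.Adj z u2
    · by_cases q5 : G.Adj z u3
      · exact hP _ _ _ _ _ _ _ q4 q5 k_z_y hy.e4 hC.h12 d_u2_u3 hu2.n1 hu2.n2 hu3.n1 hu3.n2 hz.n2 (ns hz.n4) (ns hu2.n4) (ns hu3.n4) (ns hy.n2) (ns hC.n14) (ns hC.n24)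
      · exact hP _ _ _ _ _ _ _ hu.e0.symm hu3.e0.symm hC.h01 hC.h12 hC.h23 d_u_u3 hu.n2 hu.n3 hu3.n2 hu3.n3 hC.n03 hz.n0 q1 q5 hz.n1 hz.n2 hz.n3
    · exact hP _ _ _ _ _ _ _ hu.e0.symm hu2.e0.symm hC.h01 hC.h12 hC.h23 d_u_u2 hu.n2 hu.n3 hu2.n2 hu2.n3 hC.n03 hz.n0 q1 q4 hz.n1 hz.n2 hz.n3

theorem B7a (hK : Tri G) (hP : NoP G) (hC : C5 G a0 a1 a2 a3 a4)
    {x z z2 z3 u u2 u3 : V}
    (hx : IsN G a0 a1 a2 a3 a4 x)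
    (hz : IsZ G a0 a1 a2 a3 a4 z)
    (hz2 : IsZ G a0 a1 a2 a3 a4 z2)
    (hz3 : IsZ G a0 a1 a2 a3 a4 z3)
    (hu : IsU G a0 a1 a2 a3 a4 u)
    (hu2 : IsU G a0 a1 a2 a3 a4 u2)
    (hu3 : IsU G a0 a1 a2 a3 a4 u3)
    (d_z_z3 : z ≠ z3) (d_z2_z3 : z2 ≠ z3) (d_u_u2 : u ≠ u2) (d_u_u3 : u ≠ u3) (d_u2_u3 : u2 ≠ u3) (k_x_z : G.Adj x z) (k_x_z2 : ¬G.Adj x z2) : False := by
  by_cases q1 : G.Adj u u2
  · exact hK _ _ _ hu.e0.symm q1 hu2.e0.symm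
  · by_cases q2 : G.Adj u u3
    · exact hK _ _ _ hu.e0.symm q2 hu3.e0.symm
    · by_cases q3 : G.Adj u2 u3
      · exact hK _ _ _ hu2.e0.symm q3 hu3.e0.symm
      · by_cases q4 : G.Adj z2 u2
        · by_cases q5 : G.Adj z u2
          · by_cases q6 : G.Adj x u2
            · exact hK _ _ _ k_x_z q5 q6
            · by_cases q7 : G.Adj z z2
              · exact hK _ _ _ q7 q4 q5
              · by_cases q8 : G.Adj z3 u2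
                · by_cases q9 : G.Adj z2 z3
                  · exact hK _ _ _ q9 q8 q4
                  · by_cases q10 : G.Adj x z3
                    · exact hP _ _ _ _ _ _ _ k_x_z q10 hx.e1 hC.h12 hC.h23 d_z_z3 hz.n2 hz.n3 hz3.n2 hz3.n3 hx.n3 (ns k_x_z2) (ns q7) q9 hz2.n1 hz2.n2 hz2.n3
                    · exact hP _ _ _ _ _ _ _ q4.symm q8.symm hu2.e0 hC.h01 hx.e1.symm d_z2_z3 hz2.n1 (ns k_x_z2) hz3.n1 (ns q10) (ns q6) (ns hu2.n3) (ns hz2.n3) (ns hz3.n3) (ns hC.n03) (ns hC.n13) (ns hx.n3)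
                · by_cases q11 : G.Adj z3 u
                  · by_cases q12 : G.Adj z3 u3
                    · by_cases q13 : G.Adj x z3
                      · exact hP _ _ _ _ _ _ _ q11 q12 q13.symm hx.e1 hC.h12 d_u_u3 hu.n1 hu.n2 hu3.n1 hu3.n2 hz3.n2 (ns q8) (ns q1) q3 (ns q6) hu2.n1 hu2.n2
                      · by_cases q14 : G.Adj z2 z3
                        · by_cases q15 : G.Adj z2 u
                          · exact hK _ _ _ q14 q11 q15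
                          · by_cases q16 : G.Adj z2 u3
                            · exact hK _ _ _ q14 q12 q16
                            · exact hP _ _ _ _ _ _ _ hu.e0.symm hu3.e0.symm hC.h01 hC.h12 hC.h23 d_u_u3 hu.n2 hu.n3 hu3.n2 hu3.n3 hC.n03 hz2.n0 q15 q16 hz2.n1 hz2.n2 hz2.n3
                        · exact hP _ _ _ _ _ _ _ hC.h12 hx.e1.symm hC.h01.symm hu2.e0.symm q4.symm (neA hC.h23 hx.n3) (ns hu2.n2) (ns hz2.n2) q6 k_x_z2 (ns hz2.n1) hz3.n1 hz3.n2 (ns q13) hz3.n0 q8 (ns q14)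
                    · exact hP _ _ _ _ _ _ _ hu2.e0.symm hu3.e0.symm hC.h01 hC.h12 hC.h23 d_u2_u3 hu2.n2 hu2.n3 hu3.n2 hu3.n3 hC.n03 hz3.n0 q8 q12 hz3.n1 hz3.n2 hz3.n3
                  · exact hP _ _ _ _ _ _ _ hu.e0.symm hu2.e0.symm hC.h01 hC.h12 hC.h23 d_u_u2 hu.n2 hu.n3 hu2.n2 hu2.n3 hC.n03 hz3.n0 q11 q8 hz3.n1 hz3.n2 hz3.n3
          · by_cases q17 : G.Adj z u
            · by_cases q18 : G.Adj z u3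
              · by_cases q19 : G.Adj x u
                · exact hK _ _ _ k_x_z q17 q19
                · by_cases q20 : G.Adj x u3
                  · exact hK _ _ _ k_x_z q18 q20
                  · by_cases q21 : G.Adj x u2
                    · by_cases q22 : G.Adj z2 u3
                      · by_cases q23 : G.Adj z2 u
                        · exact hP _ _ _ _ _ _ _ q23 q22 q4 q21.symm hx.e1 d_u_u3 (ns q19) hu.n1 (ns q20) hu3.n1 hz2.n1 (ns hz2.n3) (ns hu.n3) (ns hu3.n3) (ns hu2.n3) (ns hx.n3) (ns hC.n13)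
                        · exact hP _ _ _ _ _ _ _ hx.e1 hx.e4 q21 q4.symm q22 (neA hC.h12 (ns hC.n24)) (ns hz2.n1) (ns hu3.n1) (ns hz2.n4) (ns hu3.n4) q20 (ns q19) hu.n1 hu.n4 q1 (ns q23) q2
                      · by_cases q24 : G.Adj z2 u
                        · exact hP _ _ _ _ _ _ _ hx.e1 hx.e4 q21 q4.symm q24 (neA hC.h12 (ns hC.n24)) (ns hz2.n1) (ns hu.n1) (ns hz2.n4) (ns hu.n4) q19 (ns q20) hu3.n1 hu3.n4 (ns q3) (ns q22) (ns q2)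
                        · exact hP _ _ _ _ _ _ _ hu.e0.symm hu3.e0.symm hC.h01 hC.h12 hC.h23 d_u_u3 hu.n2 hu.n3 hu3.n2 hu3.n3 hC.n03 hz2.n0 q24 q22 hz2.n1 hz2.n2 hz2.n3
                    · exact hP _ _ _ _ _ _ _ q17 q18 k_x_z.symm hx.e1 hC.h12 d_u_u3 hu.n1 hu.n2 hu3.n1 hu3.n2 hz.n2 (ns q5) (ns q1) q3 (ns q21) hu2.n1 hu2.n2
              · exact hP _ _ _ _ _ _ _ hu2.e0.symm hu3.e0.symm hC.h01 hC.h12 hC.h23 d_u2_u3 hu2.n2 hu2.n3 hu3.n2 hu3.n3 hC.n03 hz.n0 q5 q18 hz.n1 hz.n2 hz.n3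
            · exact hP _ _ _ _ _ _ _ hu.e0.symm hu2.e0.symm hC.h01 hC.h12 hC.h23 d_u_u2 hu.n2 hu.n3 hu2.n2 hu2.n3 hC.n03 hz.n0 q17 q5 hz.n1 hz.n2 hz.n3
        · by_cases q25 : G.Adj z2 u
          · by_cases q26 : G.Adj z2 u3
            · by_cases q27 : G.Adj z z2
              · by_cases q28 : G.Adj z u
                · exact hK _ _ _ q27 q25 q28
                · by_cases q29 : G.Adj z u3
                  · exact hK _ _ _ q27 q26 q29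
                  · exact hP _ _ _ _ _ _ _ hu.e0.symm hu3.e0.symm hC.h01 hC.h12 hC.h23 d_u_u3 hu.n2 hu.n3 hu3.n2 hu3.n3 hC.n03 hz.n0 q28 q29 hz.n1 hz.n2 hz.n3
              · by_cases q30 : G.Adj x u2
                · exact hP _ _ _ _ _ _ _ k_x_z q30 hx.e1 hC.h12 hC.h23 ((neA hu2.e0 hz.n0).symm) hz.n2 hz.n3 hu2.n2 hu2.n3 hx.n3 (ns k_x_z2) (ns q27) q4 hz2.n1 hz2.n2 hz2.n3
                · by_cases q31 : G.Adj z2 z3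
                  · by_cases q32 : G.Adj z3 u
                    · exact hK _ _ _ q31 q32 q25
                    · by_cases q33 : G.Adj z3 u3
                      · exact hK _ _ _ q31 q33 q26
                      · exact hP _ _ _ _ _ _ _ hu.e0.symm hu3.e0.symm hC.h01 hC.h12 hC.h23 d_u_u3 hu.n2 hu.n3 hu3.n2 hu3.n3 hC.n03 hz3.n0 q32 q33 hz3.n1 hz3.n2 hz3.n3
                  · by_cases q34 : G.Adj x z3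
                    · exact hP _ _ _ _ _ _ _ k_x_z q34 hx.e1 hC.h12 hC.h23 d_z_z3 hz.n2 hz.n3 hz3.n2 hz3.n3 hx.n3 (ns k_x_z2) (ns q27) q31 hz2.n1 hz2.n2 hz2.n3
                    · by_cases q35 : G.Adj z z3
                      · exact hP _ _ _ _ _ _ _ hC.h01.symm hC.h12 hx.e1.symm k_x_z q35 ((neA hC.h23 hC.n03).symm) (ns hz.n0) (ns hz3.n0) (ns hz.n2) (ns hz3.n2) (ns hz3.n1) hz2.n1 hz2.n0 hz2.n2 (ns k_x_z2) (ns q27) q31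
                      · by_cases q36 : G.Adj z3 u2
                        · exact hP _ _ _ _ _ _ _ hC.h12 hx.e1.symm hC.h01.symm hu2.e0.symm q36.symm (neA hC.h23 hx.n3) (ns hu2.n2) (ns hz3.n2) q30 q34 (ns hz3.n1) hz2.n1 hz2.n2 (ns k_x_z2) hz2.n0 q4 q31
                        · by_cases q37 : G.Adj z3 u
                          · by_cases q38 : G.Adj z u
                            · exact hP _ _ _ _ _ _ _ q25.symm q37.symm q38.symm k_x_z.symm hx.e1 d_z2_z3 (ns k_x_z2) hz2.n1 (ns q34) hz3.n1 hu.n1 (ns hu.n3) (ns hz2.n3) (ns hz3.n3) (ns hz.n3) (ns hx.n3) (ns hC.n13)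
                            · exact hP _ _ _ _ _ _ _ q25.symm q37.symm hu.e0 hC.h01 hC.h12 d_z2_z3 hz2.n1 hz2.n2 hz3.n1 hz3.n2 hu.n2 q38 q27 q35 hz.n0 hz.n1 hz.n2
                          · exact hP _ _ _ _ _ _ _ hu.e0.symm hu2.e0.symm hC.h01 hC.h12 hC.h23 d_u_u2 hu.n2 hu.n3 hu2.n2 hu2.n3 hC.n03 hz3.n0 q37 q36 hz3.n1 hz3.n2 hz3.n3
            · exact hP _ _ _ _ _ _ _ hu2.e0.symm hu3.e0.symm hC.h01 hC.h12 hC.h23 d_u2_u3 hu2.n2 hu2.n3 hu3.n2 hu3.n3 hC.n03 hz2.n0 q4 q26 hz2.n1 hz2.n2 hz2.n3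
          · exact hP _ _ _ _ _ _ _ hu.e0.symm hu2.e0.symm hC.h01 hC.h12 hC.h23 d_u_u2 hu.n2 hu.n3 hu2.n2 hu2.n3 hC.n03 hz2.n0 q25 q4 hz2.n1 hz2.n2 hz2.n3

theorem B7b (hK : Tri G) (hP : NoP G) (hC : C5 G a0 a1 a2 a3 a4)
    {x z z2 z3 u u2 u3 : V}
    (hx : IsN G a0 a1 a2 a3 a4 x)
    (hz : IsZ G a0 a1 a2 a3 a4 z)
    (hz2 : IsZ G a0 a1 a2 a3 a4 z2)
    (hz3 : IsZ G a0 a1 a2 a3 a4 z3)
    (hu : IsU G a0 a1 a2 a3 a4 u)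
    (hu2 : IsU G a0 a1 a2 a3 a4 u2)
    (hu3 : IsU G a0 a1 a2 a3 a4 u3)
    (d_z_z2 : z ≠ z2) (d_z_z3 : z ≠ z3) (d_z2_z3 : z2 ≠ z3) (d_u_u2 : u ≠ u2) (d_u_u3 : u ≠ u3) (d_u2_u3 : u2 ≠ u3) (k_x_z : ¬G.Adj x z) (k_x_u : ¬G.Adj x u) : False := by
  by_cases q1 : G.Adj u u2
  · exact hK _ _ _ hu.e0.symm q1 hu2.e0.symm
  · by_cases q2 : G.Adj u u3
    · exact hK _ _ _ hu.e0.symm q2 hu3.e0.symm
    · by_cases q3 : G.Adj z2 u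
      · by_cases q4 : G.Adj z u
        · by_cases q5 : G.Adj z z2
          · exact hK _ _ _ q5 q3 q4
          · by_cases q6 : G.Adj x z2
            · by_cases q7 : G.Adj z3 u
              · by_cases q8 : G.Adj z z3
                · exact hK _ _ _ q8 q7 q4
                · by_cases q9 : G.Adj x z3
                  · exact hP _ _ _ _ _ _ _ q6 q9 hx.e1 hC.h12 hC.h23 d_z2_z3 hz2.n2 hz2.n3 hz3.n2 hz3.n3 hx.n3 (ns k_x_z) q5 q8 hz.n1 hz.n2 hz.n3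
                  · exact hP _ _ _ _ _ _ _ q4.symm q7.symm hu.e0 hC.h01 hx.e1.symm d_z_z3 hz.n1 (ns k_x_z) hz3.n1 (ns q9) (ns k_x_u) (ns hu.n3) (ns hz.n3) (ns hz3.n3) (ns hC.n03) (ns hC.n13) (ns hx.n3)
              · by_cases q10 : G.Adj z3 u2
                · by_cases q11 : G.Adj z3 u3
                  · by_cases q12 : G.Adj x z3
                    · exact hP _ _ _ _ _ _ _ q10 q11 q12.symm hx.e1 hC.h12 d_u2_u3 hu2.n1 hu2.n2 hu3.n1 hu3.n2 hz3.n2 (ns q7) q1 q2 (ns k_x_u) hu.n1 hu.n2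
                    · by_cases q13 : G.Adj z z3
                      · by_cases q14 : G.Adj z u2
                        · exact hK _ _ _ q13 q10 q14
                        · by_cases q15 : G.Adj z u3
                          · exact hK _ _ _ q13 q11 q15
                          · exact hP _ _ _ _ _ _ _ hu2.e0.symm hu3.e0.symm hC.h01 hC.h12 hC.h23 d_u2_u3 hu2.n2 hu2.n3 hu3.n2 hu3.n3 hC.n03 hz.n0 q14 q15 hz.n1 hz.n2 hz.n3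
                      · exact hP _ _ _ _ _ _ _ hC.h12 hx.e1.symm hC.h01.symm hu.e0.symm q4.symm (neA hC.h23 hx.n3) (ns hu.n2) (ns hz.n2) k_x_u k_x_z (ns hz.n1) hz3.n1 hz3.n2 (ns q12) hz3.n0 q7 (ns q13)
                  · exact hP _ _ _ _ _ _ _ hu.e0.symm hu3.e0.symm hC.h01 hC.h12 hC.h23 d_u_u3 hu.n2 hu.n3 hu3.n2 hu3.n3 hC.n03 hz3.n0 q7 q11 hz3.n1 hz3.n2 hz3.n3
                · exact hP _ _ _ _ _ _ _ hu.e0.symm hu2.e0.symm hC.h01 hC.h12 hC.h23 d_u_u2 hu.n2 hu.n3 hu2.n2 hu2.n3 hC.n03 hz3.n0 q7 q10 hz3.n1 hz3.n2 hz3.n3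
            · exact hP _ _ _ _ _ _ _ q4.symm q3.symm hu.e0 hC.h01 hx.e1.symm d_z_z2 hz.n1 (ns k_x_z) hz2.n1 (ns q6) (ns k_x_u) (ns hu.n3) (ns hz.n3) (ns hz2.n3) (ns hC.n03) (ns hC.n13) (ns hx.n3)
        · by_cases q16 : G.Adj z u2
          · by_cases q17 : G.Adj z u3
            · by_cases q18 : G.Adj z z3
              · by_cases q19 : G.Adj z3 u2
                · exact hK _ _ _ q18 q19 q16
                · by_cases q20 : G.Adj z3 u3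
                  · exact hK _ _ _ q18 q20 q17
                  · exact hP _ _ _ _ _ _ _ hu2.e0.symm hu3.e0.symm hC.h01 hC.h12 hC.h23 d_u2_u3 hu2.n2 hu2.n3 hu3.n2 hu3.n3 hC.n03 hz3.n0 q19 q20 hz3.n1 hz3.n2 hz3.n3
              · by_cases q21 : G.Adj z z2
                · by_cases q22 : G.Adj z2 u2
                  · exact hK _ _ _ q21 q22 q16
                  · by_cases q23 : G.Adj z2 u3
                    · exact hK _ _ _ q21 q23 q17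
                    · exact hP _ _ _ _ _ _ _ hu2.e0.symm hu3.e0.symm hC.h01 hC.h12 hC.h23 d_u2_u3 hu2.n2 hu2.n3 hu3.n2 hu3.n3 hC.n03 hz2.n0 q22 q23 hz2.n1 hz2.n2 hz2.n3
                · by_cases q24 : G.Adj x z2
                  · by_cases q25 : G.Adj z2 z3
                    · exact hP _ _ _ _ _ _ _ hC.h01 hC.h40.symm hu.e0.symm q3.symm q25 (neA hC.h12 (ns hC.n24)) (ns hz2.n1) (ns hz3.n1) (ns hz2.n4) (ns hz3.n4) (ns hz3.n0) hz.n0 hz.n1 hz.n4 q4 q21 q18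
                    · by_cases q26 : G.Adj z3 u
                      · exact hP _ _ _ _ _ _ _ q3.symm q26.symm hu.e0 hC.h01 hC.h12 d_z2_z3 hz2.n1 hz2.n2 hz3.n1 hz3.n2 hu.n2 q4 q21 q18 hz.n0 hz.n1 hz.n2
                      · by_cases q27 : G.Adj z3 u2
                        · by_cases q28 : G.Adj x z3
                          · exact hP _ _ _ _ _ _ _ q24 q28 hx.e1 hC.h12 hC.h23 d_z2_z3 hz2.n2 hz2.n3 hz3.n2 hz3.n3 hx.n3 (ns k_x_z) q21 q18 hz.n1 hz.n2 hz.n3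
                          · by_cases q29 : G.Adj z2 u2
                            · exact hP _ _ _ _ _ _ _ q16.symm q27.symm q29.symm q24.symm hx.e1 d_z_z3 (ns k_x_z) hz.n1 (ns q28) hz3.n1 hu2.n1 (ns hu2.n3) (ns hz.n3) (ns hz3.n3) (ns hz2.n3) (ns hx.n3) (ns hC.n13)
                            · exact hP _ _ _ _ _ _ _ q16.symm q27.symm hu2.e0 hC.h01 hC.h12 d_z_z3 hz.n1 hz.n2 hz3.n1 hz3.n2 hu2.n2 q29 (ns q21) q25 hz2.n0 hz2.n1 hz2.n2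
                        · exact hP _ _ _ _ _ _ _ hu.e0.symm hu2.e0.symm hC.h01 hC.h12 hC.h23 d_u_u2 hu.n2 hu.n3 hu2.n2 hu2.n3 hC.n03 hz3.n0 q26 q27 hz3.n1 hz3.n2 hz3.n3
                  · exact hP _ _ _ _ _ _ _ hC.h12 hx.e1.symm hC.h01.symm hu.e0.symm q3.symm (neA hC.h23 hx.n3) (ns hu.n2) (ns hz2.n2) k_x_u q24 (ns hz2.n1) hz.n1 hz.n2 (ns k_x_z) hz.n0 q4 q21
            · exact hP _ _ _ _ _ _ _ hu.e0.symm hu3.e0.symm hC.h01 hC.h12 hC.h23 d_u_u3 hu.n2 hu.n3 hu3.n2 hu3.n3 hC.n03 hz.n0 q4 q17 hz.n1 hz.n2 hz.n3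
          · exact hP _ _ _ _ _ _ _ hu.e0.symm hu2.e0.symm hC.h01 hC.h12 hC.h23 d_u_u2 hu.n2 hu.n3 hu2.n2 hu2.n3 hC.n03 hz.n0 q4 q16 hz.n1 hz.n2 hz.n3
      · by_cases q30 : G.Adj z2 u2
        · by_cases q31 : G.Adj z2 u3
          · by_cases q32 : G.Adj x z2
            · exact hP _ _ _ _ _ _ _ q30 q31 q32.symm hx.e1 hC.h12 d_u2_u3 hu2.n1 hu2.n2 hu3.n1 hu3.n2 hz2.n2 (ns q3) q1 q2 (ns k_x_u) hu.n1 hu.n2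
            · by_cases q33 : G.Adj z z2
              · by_cases q34 : G.Adj z u2
                · exact hK _ _ _ q33 q30 q34
                · by_cases q35 : G.Adj z u3
                  · exact hK _ _ _ q33 q31 q35
                  · exact hP _ _ _ _ _ _ _ hu2.e0.symm hu3.e0.symm hC.h01 hC.h12 hC.h23 d_u2_u3 hu2.n2 hu2.n3 hu3.n2 hu3.n3 hC.n03 hz.n0 q34 q35 hz.n1 hz.n2 hz.n3
              · by_cases q36 : G.Adj z u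
                · exact hP _ _ _ _ _ _ _ hC.h12 hx.e1.symm hC.h01.symm hu.e0.symm q36.symm (neA hC.h23 hx.n3) (ns hu.n2) (ns hz.n2) k_x_u k_x_z (ns hz.n1) hz2.n1 hz2.n2 (ns q32) hz2.n0 q3 (ns q33)
                · by_cases q37 : G.Adj z u2
                  · by_cases q38 : G.Adj x u2
                    · exact hP _ _ _ _ _ _ _ q37.symm q30.symm q38.symm hx.e1 hC.h12 d_z_z2 hz.n1 hz.n2 hz2.n1 hz2.n2 hu2.n2 q1 (ns q36) (ns q3) (ns k_x_u) hu.n1 hu.n2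
                    · exact hP _ _ _ _ _ _ _ q37.symm q30.symm hu2.e0 hC.h01 hx.e1.symm d_z_z2 hz.n1 (ns k_x_z) hz2.n1 (ns q32) (ns q38) (ns hu2.n3) (ns hz.n3) (ns hz2.n3) (ns hC.n03) (ns hC.n13) (ns hx.n3)
                  · exact hP _ _ _ _ _ _ _ hu.e0.symm hu2.e0.symm hC.h01 hC.h12 hC.h23 d_u_u2 hu.n2 hu.n3 hu2.n2 hu2.n3 hC.n03 hz.n0 q36 q37 hz.n1 hz.n2 hz.n3
          · exact hP _ _ _ _ _ _ _ hu.e0.symm hu3.e0.symm hC.h01 hC.h12 hC.h23 d_u_u3 hu.n2 hu.n3 hu3.n2 hu3.n3 hC.n03 hz2.n0 q3 q31 hz2.n1 hz2.n2 hz2.n3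
        · exact hP _ _ _ _ _ _ _ hu.e0.symm hu2.e0.symm hC.h01 hC.h12 hC.h23 d_u_u2 hu.n2 hu.n3 hu2.n2 hu2.n3 hC.n03 hz2.n0 q3 q30 hz2.n1 hz2.n2 hz2.n3

theorem B8 (hK : Tri G) (hP : NoP G) (hC : C5 G a0 a1 a2 a3 a4)
    {y u u2 u3 z z2 : V}
    (hy : IsN G a2 a3 a4 a0 a1 y)
    (hu : IsU G a0 a1 a2 a3 a4 u)
    (hu2 : IsU G a0 a1 a2 a3 a4 u2)
    (hu3 : IsU G a0 a1 a2 a3 a4 u3)
    (hz : IsZ G a0 a1 a2 a3 a4 z)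
    (hz2 : IsZ G a0 a1 a2 a3 a4 z2)
    (d_u_u2 : u ≠ u2) (d_u_u3 : u ≠ u3) (d_u2_u3 : u2 ≠ u3) (d_z_z2 : z ≠ z2) (k_y_u : G.Adj y u) : False := by
  by_cases q1 : G.Adj u z
  · by_cases q2 : G.Adj u z2
    · exact hP _ _ _ _ _ _ _ q1 q2 k_y_u.symm hy.e4 hC.h12 d_z_z2 hz.n1 hz.n2 hz2.n1 hz2.n2 hu.n2 (ns hu.n4) (ns hz.n4) (ns hz2.n4) (ns hy.n2) (ns hC.n14) (ns hC.n24)
    · by_cases q3 : G.Adj u2 z2
      · by_cases q4 : G.Adj u3 z2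
        · by_cases q5 : G.Adj y z2
          · exact hP _ _ _ _ _ _ _ q3.symm q4.symm q5.symm hy.e4 hC.h12 d_u2_u3 hu2.n1 hu2.n2 hu3.n1 hu3.n2 hz2.n2 (ns hz2.n4) (ns hu2.n4) (ns hu3.n4) (ns hy.n2) (ns hC.n14) (ns hC.n24)
          · by_cases q6 : G.Adj z z2
            · by_cases q7 : G.Adj u2 z
              · exact hK _ _ _ q7 q6 q3
              · by_cases q8 : G.Adj u3 z
                · exact hK _ _ _ q8 q6 q4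
                · exact hP _ _ _ _ _ _ _ hu2.e0.symm hu3.e0.symm hC.h01 hC.h12 hC.h23 d_u2_u3 hu2.n2 hu2.n3 hu3.n2 hu3.n3 hC.n03 hz.n0 (ns q7) (ns q8) hz.n1 hz.n2 hz.n3
            · exact hP _ _ _ _ _ _ _ hC.h23.symm hC.h34 hy.e1.symm k_y_u q1 ((neA hC.h40 (ns hC.n02)).symm) (ns hu.n2) (ns hz.n2) (ns hu.n4) (ns hz.n4) (ns hz.n3) hz2.n3 hz2.n2 hz2.n4 (ns q5) (ns q2) (ns q6)
        · exact hP _ _ _ _ _ _ _ hu.e0.symm hu3.e0.symm hC.h01 hC.h12 hC.h23 d_u_u3 hu.n2 hu.n3 hu3.n2 hu3.n3 hC.n03 hz2.n0 (ns q2) (ns q4) hz2.n1 hz2.n2 hz2.n3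
      · exact hP _ _ _ _ _ _ _ hu.e0.symm hu2.e0.symm hC.h01 hC.h12 hC.h23 d_u_u2 hu.n2 hu.n3 hu2.n2 hu2.n3 hC.n03 hz2.n0 (ns q2) (ns q3) hz2.n1 hz2.n2 hz2.n3
  · by_cases q9 : G.Adj u2 z
    · by_cases q10 : G.Adj u3 z
      · by_cases q11 : G.Adj y z
        · exact hP _ _ _ _ _ _ _ q9.symm q10.symm q11.symm hy.e4 hC.h12 d_u2_u3 hu2.n1 hu2.n2 hu3.n1 hu3.n2 hz.n2 (ns hz.n4) (ns hu2.n4) (ns hu3.n4) (ns hy.n2) (ns hC.n14) (ns hC.n24)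
        · by_cases q12 : G.Adj u z2
          · by_cases q13 : G.Adj z z2
            · by_cases q14 : G.Adj u2 z2
              · exact hK _ _ _ q9 q13 q14
              · by_cases q15 : G.Adj u3 z2
                · exact hK _ _ _ q10 q13 q15
                · exact hP _ _ _ _ _ _ _ hu2.e0.symm hu3.e0.symm hC.h01 hC.h12 hC.h23 d_u2_u3 hu2.n2 hu2.n3 hu3.n2 hu3.n3 hC.n03 hz2.n0 (ns q14) (ns q15) hz2.n1 hz2.n2 hz2.n3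
            · exact hP _ _ _ _ _ _ _ hC.h23.symm hC.h34 hy.e1.symm k_y_u q12 ((neA hC.h40 (ns hC.n02)).symm) (ns hu.n2) (ns hz2.n2) (ns hu.n4) (ns hz2.n4) (ns hz2.n3) hz.n3 hz.n2 hz.n4 (ns q11) (ns q1) q13
          · by_cases q16 : G.Adj u2 z2
            · by_cases q17 : G.Adj u3 z2
              · by_cases q18 : G.Adj y u2
                · exact hP _ _ _ _ _ _ _ q9 q16 q18.symm hy.e4 hC.h12 d_z_z2 hz.n1 hz.n2 hz2.n1 hz2.n2 hu2.n2 (ns hu2.n4) (ns hz.n4) (ns hz2.n4) (ns hy.n2) (ns hC.n14) (ns hC.n24)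
                · by_cases q19 : G.Adj y z2
                  · exact hP _ _ _ _ _ _ _ q16.symm q17.symm q19.symm hy.e4 hC.h12 d_u2_u3 hu2.n1 hu2.n2 hu3.n1 hu3.n2 hz2.n2 (ns hz2.n4) (ns hu2.n4) (ns hu3.n4) (ns hy.n2) (ns hC.n14) (ns hC.n24)
                  · exact hP _ _ _ _ _ _ _ q9 q16 hu2.e0 hu.e0.symm k_y_u.symm d_z_z2 (ns q1) (ns q11) (ns q12) (ns q19) (ns q18) (ns hu2.n2) (ns hz.n2) (ns hz2.n2) (ns hC.n02) (ns hu.n2) (ns hy.n0)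
              · exact hP _ _ _ _ _ _ _ hu.e0.symm hu3.e0.symm hC.h01 hC.h12 hC.h23 d_u_u3 hu.n2 hu.n3 hu3.n2 hu3.n3 hC.n03 hz2.n0 (ns q12) (ns q17) hz2.n1 hz2.n2 hz2.n3
            · exact hP _ _ _ _ _ _ _ hu.e0.symm hu2.e0.symm hC.h01 hC.h12 hC.h23 d_u_u2 hu.n2 hu.n3 hu2.n2 hu2.n3 hC.n03 hz2.n0 (ns q12) (ns q16) hz2.n1 hz2.n2 hz2.n3
      · exact hP _ _ _ _ _ _ _ hu.e0.symm hu3.e0.symm hC.h01 hC.h12 hC.h23 d_u_u3 hu.n2 hu.n3 hu3.n2 hu3.n3 hC.n03 hz.n0 (ns q1) (ns q10) hz.n1 hz.n2 hz.n3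
    · exact hP _ _ _ _ _ _ _ hu.e0.symm hu2.e0.symm hC.h01 hC.h12 hC.h23 d_u_u2 hu.n2 hu.n3 hu2.n2 hu2.n3 hC.n03 hz.n0 (ns q1) (ns q9) hz.n1 hz.n2 hz.n3

end Pool.Agent.Helper856.Cw.E
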