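import Pool.Agent.Helper856.Cw.Basic

open Classical SimpleGraph

namespace Pool.Agent.Helper856.Cw.OddHole

variable {V : Type} {G : SimpleGraph V} {S T : Finset V} {k l : ℕ}

/-- closed walk of length `n` in `S` -/
def OW (G : SimpleGraph V) (S : Finset V) (n : ℕ) : Prop :=
  ∃ g : ℕ → V, (∀ m, g m ∈ S) ∧ (∀ m < n, G.Adj (g m) (g (m + 1))) ∧ g n = g 0

theorem oh_bip (h : ∀ n, Odd n → ¬ OW G S n) :
    ∃ A B : Finset V, A ∪ B = S ∧ Disjoint A B ∧ Ind G A ∧ Ind G B := by
  have h1 : (G.induce (S : Set V)).Colorable 2 := by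
    rw [SimpleGraph.two_colorable_iff_forall_loop_even]
    intro u p
    by_contra hodd
    rw [Nat.not_even_iff_odd] at hodd
    refine h p.length hodd ⟨fun m => (p.getVert m : V), fun m => (p.getVert m).2, ?_, ?_⟩
    · intro m hm
      exact p.adj_getVert_succ hm
    · simp
  obtain ⟨c⟩ := h1
  refine ⟨S.filter (fun v => ∃ hv : v ∈ S, c ⟨v, hv⟩ = 0),
    S.filter (fun v => ¬ ∃ hv : v ∈ S, c ⟨v, hv⟩ = 0), ?_, ?_, ?_, ?_⟩
  · exact Finset.filter_union_filter_not_eq _ _
  · exact Finset.disjoint_filter_filter_not _ _ _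
  · intro x hx y hy hxy
    obtain ⟨hxS, hx1, hx2⟩ := Finset.mem_filter.1 hx
    obtain ⟨hyS, hy1, hy2⟩ := Finset.mem_filter.1 hy
    have h2 : (G.induce (S : Set V)).Adj ⟨x, hxS⟩ ⟨y, hyS⟩ := hxy
    exact c.valid h2 (hx2.trans hy2.symm)
  · intro x hx y hy hxy
    obtain ⟨hxS, hx1⟩ := Finset.mem_filter.1 hx
    obtain ⟨hyS, hy1⟩ := Finset.mem_filter.1 hy
    have h2 : (G.induce (S : Set V)).Adj ⟨x, hxS⟩ ⟨y, hyS⟩ := hxy
    have h3 := c.valid h2
    have h4 : c ⟨x, hxS⟩ ≠ 0 := fun h => hx1 ⟨hxS, h⟩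
    have h5 : c ⟨y, hyS⟩ ≠ 0 := fun h => hy1 ⟨hyS, h⟩
    generalize c ⟨x, hxS⟩ = a at h3 h4
    generalize c ⟨y, hyS⟩ = b at h3 h5
    omega

/-- closing a path by an edge -/
theorem oh_close1 {P : ℕ → V} (hP : ∀ m, P m ∈ S) (hA : ∀ m, G.Adj (P m) (P (m + 1))) {d : ℕ}
    (h : G.Adj (P d) (P 0)) : OW G S (d + 1) := by
  refine ⟨fun m => if m ≤ d then P m else P 0, ?_, ?_, ?_⟩
  · intro m
    dsimp only
    split_ifs
    · exact hP m
    · exact hP 0
  · intro m hm
    dsimp only
    rw [if_pos (by omega)]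
    split_ifs with h1
    · exact hA m
    · have : m = d := by omega
      rw [this]
      exact h
  · dsimp only
    rw [if_neg (by omega), if_pos (by omega)]

/-- closing a path by a vertex -/
theorem oh_close2 {P : ℕ → V} (hP : ∀ m, P m ∈ S) (hA : ∀ m, G.Adj (P m) (P (m + 1))) {d : ℕ}
    {w : V} (hw : w ∈ S) (h0 : G.Adj w (P 0)) (hd : G.Adj w (P d)) : OW G S (d + 2) := by
  refine ⟨fun m => if m ≤ d then P m else if m = d + 1 then w else P 0, ?_, ?_, ?_⟩
  · intro m
    dsimp only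
    split_ifs
    · exact hP m
    · exact hw
    · exact hP 0
  · intro m hm
    dsimp only
    rcases lt_trichotomy m d with h1 | h1 | h1
    · rw [if_pos (by omega), if_pos (by omega)]
      exact hA m
    · rw [if_pos (by omega), if_neg (by omega), if_pos (by omega), h1]
      exact hd.symm
    · rw [if_neg (by omega), if_pos (by omega), if_neg (by omega), if_neg (by omega)]
      exact h0
  · dsimp only
    rw [if_neg (by omega), if_neg (by omega), if_pos (by omega)]

theorem oh_dist {n : ℕ} [NeZero n] {i j : ZMod n} (hij : i ≠ j) :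
    ∃ d : ℕ, 0 < d ∧ d < n ∧ j = i + (d : ZMod n) ∧ i = j + ((n - d : ℕ) : ZMod n) := by
  refine ⟨(j - i).val, ?_, ZMod.val_lt _, ?_, ?_⟩
  · rw [Nat.pos_iff_ne_zero, Ne, ZMod.val_eq_zero, sub_eq_zero]
    exact fun h => hij h.symm
  · rw [ZMod.natCast_zmod_val]
    ring
  · rw [Nat.cast_sub (ZMod.val_lt _).le, ZMod.natCast_zmod_val, ZMod.natCast_self]
    ring

/-- TARGET -/
theorem odd_hole (hK : Tri G) (S : Finset V) :
    (∃ A B : Finset V, A ∪ B = S ∧ Disjoint A B ∧ Ind G A ∧ Ind G B) ∨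
    (∃ n : ℕ, Odd n ∧ 5 ≤ n ∧ ∃ f : ZMod n → V, (∀ i, f i ∈ S) ∧ Function.Injective f ∧
      (∀ i j, G.Adj (f i) (f j) ↔ (j = i + 1 ∨ i = j + 1)) ∧
      (∀ w ∈ S, ∀ i j, G.Adj w (f i) → G.Adj w (f j) → i = j ∨ j = i + 2 ∨ i = j + 2) ∧
      (7 ≤ n → ∀ b : ZMod 5 → V, (∀ i, b i ∈ S) → ¬ ∀ i, G.Adj (b i) (b (i + 1)))) := by
  by_cases hex : ∀ n, Odd n → ¬ OW G S n
  · exact Or.inl (oh_bip hex)
  right
  push Not at hex
  obtain ⟨n, ⟨hodd, hOW⟩, hmin⟩ : ∃ n, (Odd n ∧ OW G S n) ∧
      ∀ m, Odd m → OW G S m → n ≤ m := by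
    exact ⟨Nat.find hex, Nat.find_spec hex, fun m h1 h2 => Nat.find_min' hex ⟨h1, h2⟩⟩
  obtain ⟨g, hgS, hgA, hgn⟩ := hOW
  have hn5 : 5 ≤ n := by
    by_contra hlt
    have h13 : n = 1 ∨ n = 3 := by
      obtain ⟨k, hk⟩ := hodd
      omega
    rcases h13 with rfl | rfl
    · have h1 := hgA 0 (by omega)
      rw [Nat.zero_add, hgn] at h1
      exact h1.ne rfl
    · have h1 := hgA 0 (by omega)
      have h2 := hgA 1 (by omega)
      have h3 := hgA 2 (by omega)
      norm_num at h1 h2 h3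
      rw [hgn] at h3
      exact hK _ _ _ h1 h2 h3.symm
  haveI : NeZero n := ⟨by omega⟩
  haveI : Fact (1 < n) := ⟨by omega⟩
  set f : ZMod n → V := fun i => g i.val with hf
  have hfS : ∀ i, f i ∈ S := fun i => hgS _
  have hfA : ∀ i, G.Adj (f i) (f (i + 1)) := by
    intro i
    have hi := ZMod.val_lt i
    have h1 := hgA i.val hi
    have h2 : (i + 1).val = (i.val + 1) % n := by
      rw [ZMod.val_add, ZMod.val_one]
    show G.Adj (g i.val) (g (i + 1).val)
    rw [h2]
    rcases Nat.lt_or_ge (i.val + 1) n with h3 | h3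
    · rw [Nat.mod_eq_of_lt h3]
      exact h1
    · have h4 : i.val + 1 = n := by omega
      rw [h4, Nat.mod_self]
      rw [h4, hgn] at h1
      exact h1
  -- the path starting at `i`
  have hPA : ∀ i : ZMod n, ∀ m : ℕ, G.Adj (f (i + (m : ZMod n))) (f (i + ((m + 1 : ℕ) : ZMod n))) := by
    intro i m
    have h1 := hfA (i + (m : ZMod n))
    rw [Nat.cast_add, Nat.cast_one, ← add_assoc]
    exact h1
  have hclose1 : ∀ i : ZMod n, ∀ d : ℕ, G.Adj (f (i + (d : ZMod n))) (f i) → OW G S (d + 1) := by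
    intro i d h
    refine oh_close1 (P := fun m : ℕ => f (i + (m : ZMod n))) (fun m => hfS _) (hPA i) ?_
    simpa using h
  have hclose2 : ∀ i : ZMod n, ∀ d : ℕ, ∀ w ∈ S, G.Adj w (f i) → G.Adj w (f (i + (d : ZMod n))) →
      OW G S (d + 2) := by
    intro i d w hw h h'
    refine oh_close2 (P := fun m : ℕ => f (i + (m : ZMod n))) (fun m => hfS _) (hPA i) hw ?_ h'
    simpa using h
  have hclose0 : ∀ i : ZMod n, ∀ d : ℕ, f (i + (d : ZMod n)) = f i → OW G S d := by
    intro i d h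
    refine ⟨fun m : ℕ => f (i + (m : ZMod n)), fun m => hfS _, fun m _ => hPA i m, ?_⟩
    simpa using h
  refine ⟨n, hodd, hn5, f, hfS, ?_, ?_, ?_, ?_⟩
  · intro i j hij
    by_contra hne
    obtain ⟨d, hd0, hdn, hj, hi⟩ := oh_dist hne
    rcases Nat.even_or_odd d with hd | hd
    · have h1 : OW G S (n - d) := hclose0 j (n - d) (by rw [← hi, hij])
      have h2 : Odd (n - d) := by
        obtain ⟨a, ha⟩ := hodd
        obtain ⟨b, hb⟩ := hd
        exact ⟨a - b, by omega⟩
      have := hmin _ h2 h1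
      omega
    · have h1 : OW G S d := hclose0 i d (by rw [← hj, hij])
      have := hmin _ hd h1
      omega
  · intro i j
    constructor
    · intro h
      have hne : i ≠ j := by
        rintro rfl
        exact h.ne rfl
      obtain ⟨d, hd0, hdn, hj, hi⟩ := oh_dist hne
      rcases Nat.even_or_odd d with hd | hd
      · have h1 : OW G S (d + 1) := hclose1 i d (by rw [← hj]; exact h.symm)
        have h2 := hmin _ hd.add_one h1
        right
        have h3 : n - d = 1 := by omega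
        rw [h3, Nat.cast_one] at hi
        exact hi
      · have h1 : OW G S (n - d + 1) := hclose1 j (n - d) (by rw [← hi]; exact h)
        have h2 : Odd (n - d + 1) := by
          obtain ⟨a, ha⟩ := hodd
          obtain ⟨b, hb⟩ := hd
          exact ⟨a - b, by omega⟩
        have := hmin _ h2 h1
        left
        have h3 : d = 1 := by omega
        rw [h3, Nat.cast_one] at hj
        exact hj
    · rintro (rfl | rfl)
      · exact hfA i
      · exact (hfA j).symm
  · intro w hw i j hwi hwj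
    by_cases hne : i = j
    · exact Or.inl hne
    right
    obtain ⟨d, hd0, hdn, hj, hi⟩ := oh_dist hne
    rcases Nat.even_or_odd d with hd | hd
    · have h1 : OW G S (n - d + 2) := hclose2 j (n - d) w hw hwj (by rw [← hi]; exact hwi)
      have h2 : Odd (n - d + 2) := by
        obtain ⟨a, ha⟩ := hodd
        obtain ⟨b, hb⟩ := hd
        exact ⟨a - b + 1, by omega⟩
      have h4 := hmin _ h2 h1
      left
      have h3 : d = 2 := by
        obtain ⟨b, hb⟩ := hd
        omega
      rw [h3] at hj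
      exact_mod_cast hj
    · have h1 : OW G S (d + 2) := hclose2 i d w hw hwi (by rw [← hj]; exact hwj)
      have h2 : Odd (d + 2) := by
        obtain ⟨b, hb⟩ := hd
        exact ⟨b + 1, by omega⟩
      have h4 := hmin _ h2 h1
      right
      have h3 : n - d = 2 := by
        obtain ⟨a, ha⟩ := hodd
        obtain ⟨b, hb⟩ := hd
        omega
      rw [h3] at hi
      exact_mod_cast hi
  · intro h7 b hbS hbA
    have h1 : OW G S 5 := by
      refine ⟨fun m : ℕ => b (m : ZMod 5), fun m => hbS _, fun m _ => ?_, ?_⟩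
      · have := hbA (m : ZMod 5)
        push_cast
        exact this
      · dsimp only
        congr 1
    have := hmin 5 ⟨2, by norm_num⟩ h1
    omega

end Pool.Agent.Helper856.Cw.OddHole
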