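import Pool.Agent.Helper856.Cw.Union
import Pool.Agent.Helper856.Cw.CaseA
import Pool.Agent.Helper856.Cw.CaseB
import Pool.Agent.Helper856.Cw.CaseC
import Pool.Agent.Helper856.Cw.OddHole
import Pool.Agent.Helper856.Cw.CycW
import Pool.Agent.Helper856.Cw.Attach
import Pool.Agent.Helper856.Cw.C7

open Classical SimpleGraph

namespace Pool.Agent.Helper856.Cw.Main

variable {V : Type} {G : SimpleGraph V} {S : Finset V}

/-- graphs containing a 5-cycle -/
theorem main5 (hK : Tri G) (hP : NoP G) (hbip : Bip100 G) (k0 : ℕ)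
    (hC : ∃ a : ZMod 5 → V, Cyc G a ∧ ∀ i, a i ∈ S)
    (hZ : ∀ a : ZMod 5 → V, Cyc G a → (∀ i, a i ∈ S) → ∀ T ⊆ S.filter (ZZ G a), SLin k0 G T) :
    SLin (2 * 10 ^ 8 + k0) G S := by
  have hex : ∃ n : ℕ, ∃ a : ZMod 5 → V, Cyc G a ∧ (∀ i, a i ∈ S) ∧
      (S.filter (ZZ G a)).card = n := by
    obtain ⟨a, h1, h2⟩ := hC
    exact ⟨_, a, h1, h2, rfl⟩
  obtain ⟨a, hc, haS, han⟩ := Nat.find_spec hex
  have hmin : ∀ b : ZMod 5 → V, Cyc G b → (∀ i, b i ∈ S) →
      (S.filter (ZZ G a)).card ≤ (S.filter (ZZ G b)).card := by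
    intro b h1 h2
    rw [han]
    exact Nat.find_min' hex ⟨b, h1, h2, rfl⟩
  by_cases h6 : 6 ≤ (S.filter (ZZ G a)).card
  · by_cases hU : ∃ i, 5 ≤ (S.filter (UU G a i)).card
    · obtain ⟨i, hi⟩ := hU
      exact (CaseB.caseB hK hP hbip hc haS i h6 hi).mono_k (by omega)
    · push Not at hU
      exact CaseA.caseA hK hP hbip hc haS h6 (fun i => by have := hU i; omega) hmin k0
        (hZ a hc haS)
  · exact (CaseC.caseC hK hP hbip hc haS (by omega)).mono_k (by omega)

theorem slin_one_of_ind [Finite V] {T : Finset V} (h : Ind G T) : SLin 1 G T := by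
  obtain ⟨n, ⟨e⟩⟩ := Finite.exists_equiv_fin V
  refine ⟨fun v => (e v : ℕ), fun u _ v _ huv => e.injective (Fin.ext huv), fun t =>
    ⟨fun _ => 0, fun u hu v hv _ _ _ w hw _ => ?_⟩⟩
  exact iff_of_false (h u hu w hw) (h v hv w hw)

/-- in a connected piece without `S_{1,1,3}` the vertices anticomplete to a 5-cycle are
independent -/
theorem ind_ZZ (hK : Tri G) (hS : NoS G S)
    (hconn : ∀ X ⊆ S, (∀ x ∈ X, ∀ y ∈ S, y ∉ X → ¬G.Adj x y) → X = ∅ ∨ X = S)
    {a : ZMod 5 → V} (hc : Cyc G a) (haS : ∀ i, a i ∈ S) : Ind G (S.filter (ZZ G a)) := by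
  intro z hz z' hz' hzz
  let X := S.filter (fun x => ZZ G a x ∧ ∃ y ∈ S, ZZ G a y ∧ G.Adj x y)
  have hXS : X ⊆ S := Finset.filter_subset _ _
  rw [Finset.mem_filter] at hz hz'
  have key : ∀ x ∈ X, ∀ y ∈ S, y ∉ X → ¬G.Adj x y := by
    intro x hx y hy hyX hxy
    obtain ⟨hxS, hxZ, w, hwS, hwZ, hxw⟩ := Finset.mem_filter.mp hx
    by_cases hyZ : ZZ G a y
    · exact hyX (Finset.mem_filter.mpr ⟨hy, hyZ, x, hxS, hxZ, hxy.symm⟩)
    · -- y has a neighbour on the cycle
      unfold ZZ at hyZ
      push Not at hyZ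
      obtain ⟨i, hyi⟩ := hyZ
      have hyw : ¬G.Adj y w := fun h => hK _ _ _ hxy h hxw
      have hno : ∀ j, y ≠ a j := by
        rintro j rfl
        exact hxZ j hxy
      -- the neighbours of a i on the cycle
      have h1 : G.Adj (a i) (a (i + 1)) := (hc _ _).mpr (Or.inl rfl)
      have h4 : G.Adj (a i) (a (i + 4)) := (hc _ _).mpr (Or.inr (by rw [ix41]))
      have ne14 : a (i + 1) ≠ a (i + 4) := by
        intro h
        have h5 : G.Adj (a (i + 1)) (a (i + 2)) := by
          rw [hc]; left; rw [ix11]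
        rw [h, hc] at h5
        have h6 : ∀ i : ZMod 5, ¬(i + 2 = i + 4 + 1 ∨ i + 4 = i + 2 + 1) := by decide
        exact h6 i h5
      have n1 : ¬G.Adj (a (i + 1)) y := fun h => hK _ _ _ h1 h hyi.symm
      have n4 : ¬G.Adj (a (i + 4)) y := fun h => hK _ _ _ h4 h hyi.symm
      exact hS (a i) (haS i) (a (i + 1)) (haS _) (a (i + 4)) (haS _) y hy x hxS w hwS h1 h4
        hyi.symm hxy.symm hxw ne14 (fun h => hxZ _ h.symm) (fun h => hwZ _ h.symm)
        (fun h => hxZ _ h.symm) (fun h => hwZ _ h.symm) (fun h => hwZ _ h.symm)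
  rcases hconn X hXS key with h | h
  · have : z ∈ X := Finset.mem_filter.mpr ⟨hz.1, hz.2, z', hz'.1, hz'.2, hzz⟩
    rw [h] at this
    simp at this
  · have : a 0 ∈ X := by rw [h]; exact haS 0
    have h2 := (Finset.mem_filter.mp this).2.1
    exact h2 1 ((hc _ _).mpr (Or.inl (by decide)))

/-- no induced `S_{1,1,3}` -/
theorem thmS [Finite V] (hK : Tri G) (hP : NoP G) (hbip : Bip100 G) :
    ∀ (n : ℕ) (S : Finset V), S.card ≤ n → NoS G S → SLinN (2 * 10 ^ 8 + 1) G S := by
  intro n
  induction n with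
  | zero =>
    intro S hS _
    have : S = ∅ := Finset.card_eq_zero.mp (by omega)
    subst this
    exact ((slin_one_of_ind (fun x hx => by simp at hx)).toN).mono_k (by norm_num)
  | succ n ih =>
    intro S hSn hS
    by_cases hconn : ∀ X ⊆ S, (∀ x ∈ X, ∀ y ∈ S, y ∉ X → ¬G.Adj x y) → X = ∅ ∨ X = S
    · rcases OddHole.odd_hole hK S with ⟨A, B, hAB, hd, hA, hB⟩ | ⟨m, hodd, h5, f, hfS, hfi, hadj,
        hnb, -⟩
      · rw [← hAB]
        exact ((hbip A B hd hA hB).toN).mono_k (by norm_num)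
      · by_cases h7 : 7 ≤ m
        · -- S is the cycle
          have hX : S.filter (fun x => ∃ i, f i = x) = S := by
            have hnoe : ∀ x ∈ S.filter (fun x => ∃ i, f i = x), ∀ y ∈ S,
                y ∉ S.filter (fun x => ∃ i, f i = x) → ¬G.Adj x y := by
              intro x hx y hy hyX hxy
              obtain ⟨_, i, rfl⟩ := Finset.mem_filter.mp hx
              have hne : ∀ j, y ≠ f j := by
                rintro j rfl
                exact hyX (Finset.mem_filter.mpr ⟨hy, j, rfl⟩)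
              exact Attach.no_attach_S hK hS h7 f hfS hfi hadj y hy (hnb y hy) hne i hxy.symm
            rcases hconn (S.filter (fun x => ∃ i, f i = x)) (Finset.filter_subset _ _) hnoe with
              h | h
            · exfalso
              have h0 : f 0 ∈ S.filter (fun x => ∃ i, f i = x) :=
                Finset.mem_filter.mpr ⟨hfS 0, 0, rfl⟩
              rw [h] at h0
              exact Finset.notMem_empty _ h0
            · exact h
          refine (CycW.cycle_SLinN h5 f hfi hadj (S := S) ?_).mono_k (by norm_num)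
          intro x hx
          rw [← hX] at hx
          exact (Finset.mem_filter.mp hx).2
        · have hm : m = 5 := by
            rcases hodd with ⟨r, hr⟩
            omega
          subst hm
          have hcyc : Cyc G f := hadj
          refine SLin.toN (main5 hK hP hbip 1 ⟨f, hcyc, hfS⟩ ?_)
          intro a hc haS T hT
          exact (slin_one_of_ind (ind_ZZ hK hS hconn hc haS)).subset hT
    · push Not at hconn
      obtain ⟨X, hXS, hno, hne, hneS⟩ := hconn
      have hss : X ⊂ S := lt_of_le_of_ne hXS hneS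
      have hc1 : X.card < S.card := Finset.card_lt_card hss
      have hne' : X.Nonempty := hne
      have hc2 : (S \ X).card < S.card := by
        rw [Finset.card_sdiff_of_subset hXS]
        have := hne'.card_pos
        omega
      have h1 := ih X (by omega) (fun c hc l1 h1 l2 h2 x hx y hy z hz =>
        hS c (hXS hc) l1 (hXS h1) l2 (hXS h2) x (hXS hx) y (hXS hy) z (hXS hz))
      have hsd : S \ X ⊆ S := Finset.sdiff_subset
      have h2 := ih (S \ X) (by omega) (fun c hc l1 h1 l2 h2 x hx y hy z hz =>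
        hS c (hsd hc) l1 (hsd h1) l2 (hsd h2) x (hsd hx) y (hsd hy) z (hsd hz))
      have h3 := SLinN.union Finset.disjoint_sdiff (fun u hu v hv => hno u hu v (hsd hv)
        (Finset.mem_sdiff.mp hv).2) h1 h2
      rwa [Finset.union_sdiff_of_subset hXS] at h3

/-- no induced `P_1 + S_{1,1,3}` -/
theorem thmP [Finite V] (hK : Tri G) (hP : NoP G) (hbip : Bip100 G) (S : Finset V) :
    SLin (5 * 10 ^ 8) G S := by
  rcases OddHole.odd_hole hK S with ⟨A, B, hAB, hd, hA, hB⟩ | ⟨m, hodd, h5, f, hfS, hfi, hadj,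
    hnb, hmin⟩
  · rw [← hAB]
    exact (hbip A B hd hA hB).mono_k (by norm_num)
  · -- sets anticomplete to a vertex have no induced S113
    have hno : ∀ (p : V) (T : Finset V), (∀ x ∈ T, ¬G.Adj x p) → NoS G T := by
      intro p T hT c hc l1 h1 l2 h2 x hx y hy z hz e1 e2 e3 e4 e5 d n1 n2 n3 n4 n5
      exact hP c l1 l2 x y z p e1 e2 e3 e4 e5 d n1 n2 n3 n4 n5 (fun h => hT c hc h.symm)
        (fun h => hT l1 h1 h.symm) (fun h => hT l2 h2 h.symm) (fun h => hT x hx h.symm)
        (fun h => hT y hy h.symm) (fun h => hT z hz h.symm)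
    have hanti : ∀ (p : V) (T : Finset V), (∀ x ∈ T, ¬G.Adj x p) → SLin (2 * 10 ^ 8 + 2) G T :=
      fun p T hT => (thmS hK hP hbip T.card T le_rfl (hno p T hT)).toS
    by_cases e5 : m = 5
    · subst e5
      have hcyc : Cyc G f := hadj
      refine (main5 hK hP hbip (2 * 10 ^ 8 + 2) ⟨f, hcyc, hfS⟩ ?_).mono_k (by norm_num)
      intro a hc haS T hT
      exact hanti (a 0) T (fun x hx => (Finset.mem_filter.mp (hT hx)).2 0)
    · by_cases e7 : m = 7
      · subst e7
        refine (C7.c7_case hK hP hbip S f hfS hfi hadj hnb (hmin le_rfl) (2 * 10 ^ 8 + 2)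
          ?_).mono_k (by norm_num)
        exact hanti (f 0) _ (fun x hx => (Finset.mem_filter.mp hx).2 0)
      · have h9 : 9 ≤ m := by
          rcases hodd with ⟨r, hr⟩
          omega
        have hX : S.filter (fun x => ∃ i, f i = x) ⊆ S := Finset.filter_subset _ _
        have hno2 : ∀ y ∈ S \ S.filter (fun x => ∃ i, f i = x), ∀ i, ¬G.Adj y (f i) := by
          intro y hy i
          obtain ⟨hyS, hyX⟩ := Finset.mem_sdiff.mp hy
          have hne : ∀ j, y ≠ f j := by
            rintro j rfl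
            exact hyX (Finset.mem_filter.mpr ⟨hyS, j, rfl⟩)
          exact Attach.no_attach_P hK hP h9 f hfi hadj y (hnb y hyS) hne i
        have h1 : SLinN (2 * 10 ^ 8 + 1) G (S.filter (fun x => ∃ i, f i = x)) :=
          (CycW.cycle_SLinN h5 f hfi hadj (fun x hx => (Finset.mem_filter.mp hx).2)).mono_k
            (by norm_num)
        have h2 : SLinN (2 * 10 ^ 8 + 1) G (S \ S.filter (fun x => ∃ i, f i = x)) :=
          thmS hK hP hbip _ _ le_rfl (hno (f 0) _ (fun x hx => hno2 x hx 0))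
        have h3 := SLinN.union Finset.disjoint_sdiff (fun u hu v hv h => by
          obtain ⟨_, i, rfl⟩ := Finset.mem_filter.mp hu
          exact hno2 v hv i h.symm) h1 h2
        rw [Finset.union_sdiff_of_subset hX] at h3
        exact h3.toS.mono_k (by norm_num)

end Pool.Agent.Helper856.Cw.Main
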