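import Pool.Agent.Helper856.Cw.Blocks

open Classical SimpleGraph

namespace Pool.Agent.Helper856.Cw

variable {V : Type} {G : SimpleGraph V} {S T : Finset V} {k l : ℕ}

/-- TARGET -/
theorem mixed_blocks {m : ℕ} (τ : V → Fin m) (blk : V → ℕ)
    (hb : ∀ n, SLin k G (S.filter (fun x => blk x = n)))
    (hp : ∀ u ∈ S, ∀ w ∈ S, blk u ≠ blk w → Pure G S τ u (τ w) ∨ Pure G S τ w (τ u)) :
    SLin (m * 2 ^ m * (k + 1)) G S := by
  have hcard : Fintype.card (Fin m × (Fin m → Bool)) = m * 2 ^ m := by simp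
  let e : Fin m × (Fin m → Bool) ≃ Fin (m * 2 ^ m) := Fintype.equivFinOfCardEq hcard
  apply SLin.blocks (m := m * 2 ^ m) blk
    (fun u => e (τ u, fun j => decide (∀ x ∈ S, τ x = j → G.Adj u x))) hb
  intro u hu v hv w hw huw hvw hc
  have hc' := e.injective hc
  rw [Prod.mk.injEq] at hc'
  obtain ⟨hτ, hcomp⟩ := hc'
  have hcomp' : (∀ x ∈ S, τ x = τ w → G.Adj u x) ↔ (∀ x ∈ S, τ x = τ w → G.Adj v x) := by
    have := congrFun hcomp (τ w)
    simpa only [decide_eq_decide] using this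
  by_cases hcu : ∀ x ∈ S, τ x = τ w → G.Adj u x
  · have hcv := hcomp'.1 hcu
    exact ⟨fun _ => hcv w hw rfl, fun _ => hcu w hw rfl⟩
  · have hcv : ¬ ∀ x ∈ S, τ x = τ w → G.Adj v x := fun h => hcu (hcomp'.2 h)
    have hu1 := hp u hu w hw huw.ne
    have hv1 := hp v hv w hw hvw.ne
    have hnu : Pure G S τ u (τ w) → ¬ G.Adj u w := by
      rintro (h | h)
      · exact absurd h hcu
      · exact h w hw rfl
    have hnv : Pure G S τ v (τ w) → ¬ G.Adj v w := by
      rintro (h | h)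
      · exact absurd h hcv
      · exact h w hw rfl
    have hboth : Pure G S τ w (τ u) → (G.Adj u w ↔ G.Adj v w) := by
      rintro (h | h)
      · exact ⟨fun _ => (h v hv hτ.symm).symm, fun _ => (h u hu rfl).symm⟩
      · exact ⟨fun h1 => absurd h1.symm (h u hu rfl), fun h1 => absurd h1.symm (h v hv hτ.symm)⟩
    rcases hu1 with hu1 | hu1
    · rcases hv1 with hv1 | hv1
      · exact ⟨fun h => absurd h (hnu hu1), fun h => absurd h (hnv hv1)⟩
      · exact hboth (hτ ▸ hv1)
    · exact hboth hu1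

end Pool.Agent.Helper856.Cw
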