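import Pool.Agent.Helper856.Cw.Basic

open Classical SimpleGraph

namespace Pool.Agent.Helper856.Cw

variable {V : Type} {G : SimpleGraph V} {S T : Finset V} {k l : ℕ}

/-- TARGET -/
theorem SLinN.union {X Y : Finset V} (hd : Disjoint X Y)
    (hXY : ∀ u ∈ X, ∀ v ∈ Y, ¬G.Adj u v) (hX : SLinN k G X) (hY : SLinN k G Y) :
    SLinN k G (X ∪ Y) := by
  obtain ⟨p, hp, hpc⟩ := hX
  obtain ⟨q, hq, hqc⟩ := hY
  obtain ⟨M, hM⟩ : ∃ M, ∀ x ∈ X, p x < M :=
    ⟨X.sup p + 1, fun x hx => Nat.lt_succ_of_le (Finset.le_sup (f := p) hx)⟩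
  have hnd : ∀ x, x ∈ X → x ∉ Y := fun x hx hy => (Finset.disjoint_left.mp hd) hx hy
  let r : V → ℕ := fun x => if x ∈ X then p x else q x + M
  have rX : ∀ x ∈ X, r x = p x := fun x hx => by simp [r, hx]
  have rY : ∀ x ∈ Y, r x = q x + M := fun x hy => by
    have : x ∉ X := fun hx => hnd x hx hy
    simp [r, this]
  refine ⟨r, ?_, ?_⟩
  · intro u hu v hv huv
    simp only [Finset.coe_union, Set.mem_union, Finset.mem_coe] at hu hv
    rcases hu with hu | hu <;> rcases hv with hv | hv
    · rw [rX u hu, rX v hv] at huv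
      exact hp hu hv huv
    · rw [rX u hu, rY v hv] at huv
      have := hM u hu
      omega
    · rw [rY u hu, rX v hv] at huv
      have := hM v hv
      omega
    · rw [rY u hu, rY v hv] at huv
      exact hq hu hv (by omega)
  · intro t
    rcases le_or_gt t M with ht | ht
    · obtain ⟨c, hc⟩ := hpc t
      refine ⟨c, ?_⟩
      have key : ∀ u ∈ X ∪ Y, r u < t → u ∈ X := by
        intro u hu hut
        rcases Finset.mem_union.mp hu with h | h
        · exact h
        · rw [rY u h] at hut; omega
      have key2 : ∀ u ∈ X, (∃ w ∈ X ∪ Y, t ≤ r w ∧ G.Adj u w) → ∃ w ∈ X, t ≤ p w ∧ G.Adj u w := by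
        rintro u hu ⟨w, hw, htw, ha⟩
        rcases Finset.mem_union.mp hw with h | h
        · exact ⟨w, h, by rwa [rX w h] at htw, ha⟩
        · exact absurd ha (hXY u hu w h)
      intro u hu v hv hut hvt heu hev hcuv w hw htw
      have hu' := key u hu hut
      have hv' := key v hv hvt
      rcases Finset.mem_union.mp hw with h | h
      · rw [rX u hu'] at hut
        rw [rX v hv'] at hvt
        rw [rX w h] at htw
        exact hc u hu' v hv' hut hvt (key2 u hu' heu) (key2 v hv' hev) hcuv w h htw
      · exact iff_of_false (hXY u hu' w h) (hXY v hv' w h)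
    · obtain ⟨c, hc⟩ := hqc (t - M)
      refine ⟨c, ?_⟩
      have key : ∀ u ∈ X ∪ Y, (∃ w ∈ X ∪ Y, t ≤ r w ∧ G.Adj u w) → u ∈ Y ∧
          ∃ w ∈ Y, t - M ≤ q w ∧ G.Adj u w := by
        rintro u hu ⟨w, hw, htw, ha⟩
        have hwY : w ∈ Y := by
          rcases Finset.mem_union.mp hw with h | h
          · rw [rX w h] at htw
            have := hM w h
            omega
          · exact h
        have huY : u ∈ Y := by
          rcases Finset.mem_union.mp hu with h | h
          · exact absurd ha (hXY u h w hwY)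
          · exact h
        rw [rY w hwY] at htw
        exact ⟨huY, w, hwY, by omega, ha⟩
      intro u hu v hv hut hvt heu hev hcuv w hw htw
      obtain ⟨hu', heu'⟩ := key u hu heu
      obtain ⟨hv', hev'⟩ := key v hv hev
      have hwY : w ∈ Y := by
        rcases Finset.mem_union.mp hw with h | h
        · rw [rX w h] at htw
          have := hM w h
          omega
        · exact h
      rw [rY u hu'] at hut
      rw [rY v hv'] at hvt
      rw [rY w hwY] at htw
      exact hc u hu' v hv' (by omega) (by omega) heu' hev' hcuv w hwY (by omega)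

end Pool.Agent.Helper856.Cw
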