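import Pool.Agent.Helper856.Cw.Main
import Pool.Agent.Helper856.Cw.Bridge
import Pool.Agent.Helper856.Lcw.Final

open Classical SimpleGraph

namespace Pool.Agent.Helper856.Cw

open Pool.Agent.Helper856.Lcw

/-- Labelled graphs that can be built with labels `Fin k` by the four operations of clique-width:
a single labelled vertex, disjoint union, joining all vertices labelled `i` to all vertices
labelled `j` (`i ≠ j`), relabelling `i` to `j`. -/
inductive CwBuilt (k : ℕ) : ∀ V : Type, SimpleGraph V → (V → Fin k) → Prop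
  | single (i : Fin k) : CwBuilt k Unit ⊥ (fun _ => i)
  | union (V W : Type) (G : SimpleGraph V) (H : SimpleGraph W) (l : V → Fin k) (m : W → Fin k) :
      CwBuilt k V G l → CwBuilt k W H m → CwBuilt k (V ⊕ W) (G ⊕g H) (Sum.elim l m)
  | join (V : Type) (G : SimpleGraph V) (l : V → Fin k) (i j : Fin k) : i ≠ j →
      CwBuilt k V G l →
      CwBuilt k V (G ⊔ SimpleGraph.fromRel (fun u v => l u = i ∧ l v = j)) l
  | relabel (V : Type) (G : SimpleGraph V) (l : V → Fin k) (i j : Fin k) :
      CwBuilt k V G l → CwBuilt k V G (fun v => if l v = i then j else l v)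

/-- `G` has clique-width at most `k`. -/
def CwLE {V : Type} (G : SimpleGraph V) (k : ℕ) : Prop :=
  ∃ (W : Type) (G' : SimpleGraph W) (l : W → Fin k), CwBuilt k W G' l ∧ Nonempty (G ≃g G')

/-- The clique-width: the least number of labels of a construction of `G`. -/
noncomputable def cliqueWidth {V : Type} (G : SimpleGraph V) : ℕ := sInf {k | CwLE G k}

theorem cwBuilt_of_lin {k : ℕ} {V : Type} {G : SimpleGraph V} {l : V → Fin k}
    (h : LinBuilt k V G l) : CwBuilt k V G l := by
  induction h with
  | single i => exact CwBuilt.single i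
  | union V W G H l m _ _ _ ih1 ih2 => exact CwBuilt.union V W G H l m ih1 ih2
  | join V G l i j hij _ ih => exact CwBuilt.join V G l i j hij ih
  | relabel V G l i j _ ih => exact CwBuilt.relabel V G l i j ih

theorem cwLE_of_lcwLE {V : Type} {G : SimpleGraph V} {k : ℕ} (h : LcwLE G k) : CwLE G k := by
  obtain ⟨W, G', l, h1, h2⟩ := h
  exact ⟨W, G', l, cwBuilt_of_lin h1, h2⟩

theorem lcw_bound {V : Type} [Finite V] [Nonempty V] (G : SimpleGraph V) (hK : G.CliqueFree 3)
    (hF : ¬ P1_S113.IsIndContained G) : LcwLE G (2 * (5 * 10 ^ 8) + 1) := by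
  have : Fintype V := Fintype.ofFinite V
  have hT : Tri G := by
    intro x y z h1 h2 h3
    exact hK {x, y, z} (SimpleGraph.is3Clique_triple_iff.mpr ⟨h1, h3, h2⟩)
  exact GB.lcwLE_of_GLin G _ (Bridge.glin_of_slin G _
    (Main.thmP hT (Bridge.noP_of_free hT hF) (Bridge.bip100 G hF) Finset.univ))

end Pool.Agent.Helper856.Cw
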